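import Pool.Agent.H16.PSL.Light

set_option autoImplicit false

namespace Pool.Agent.H16.PSL

open Pool.Agent.Helper999.HM SimpleGraph

section
variable {p : ℕ} [Fact p.Prime] {V : Type*}
  [MulAction (Matrix.SpecialLinearGroup (Fin 2) (ZMod p)) V] {Y : SimpleGraph V}


theorem exists_mul_nat {κ x : ZMod p} (hκ : κ ≠ 0) : ∃ n : ℕ, x = (n : ZMod p) * κ := by
  refine ⟨(x / κ).val, ?_⟩
  rw [ZMod.natCast_zmod_val, div_mul_cancel₀ _ hκ]

/-- small stabilizers in `B`: unipotents act freely -/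
theorem uu_free {k0 : ℕ} (hk0 : k0 < p) {v : V}
    (hst : Set.ncard {b : (Matrix.SpecialLinearGroup (Fin 2) (ZMod p)) | b ∈ (Bo (ZMod p)) ∧ b • v = v} ≤ k0) {x : ZMod p}
    (hx : (uu x : (Matrix.SpecialLinearGroup (Fin 2) (ZMod p))) • v = v) : x = 0 := by
  by_contra hne
  have h1 : ∀ y : ZMod p, (uu y : (Matrix.SpecialLinearGroup (Fin 2) (ZMod p))) • v = v := by
    intro y
    obtain ⟨n, rfl⟩ := exists_mul_nat (x := y) hne
    rw [← uu_pow]
    induction n with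
    | zero => rw [pow_zero, one_smul]
    | succ n ih => rw [pow_succ, mul_smul, hx, ih]
  have h2 : (Set.range (uu : ZMod p → (Matrix.SpecialLinearGroup (Fin 2) (ZMod p)))) ⊆ {b : (Matrix.SpecialLinearGroup (Fin 2) (ZMod p)) | b ∈ (Bo (ZMod p)) ∧ b • v = v} := by
    rintro _ ⟨y, rfl⟩
    exact ⟨uu_mem_Bo y, h1 y⟩
  have h3 := Set.ncard_le_ncard h2 (Set.toFinite _)
  rw [← Set.image_univ, Set.ncard_image_of_injective _ uu_injective, Set.ncard_univ,
    Nat.card_zmod] at h3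
  omega

/-- elements of a small stabilizer have small order -/
theorem stab_order {k0 : ℕ} {v : V}
    (hst : Set.ncard {b : (Matrix.SpecialLinearGroup (Fin 2) (ZMod p)) | b ∈ (Bo (ZMod p)) ∧ b • v = v} ≤ k0) {b : (Matrix.SpecialLinearGroup (Fin 2) (ZMod p))} (hb : b ∈ (Bo (ZMod p)))
    (hbv : b • v = v) : ∃ n, 1 ≤ n ∧ n ≤ k0 ∧ (b 0 0) ^ n = 1 := by
  classical
  refine ⟨orderOf b, orderOf_pos b, ?_, ?_⟩
  · rw [← Nat.card_zpowers]
    refine le_trans ?_ hst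
    rw [← Nat.card_coe_set_eq]
    refine Nat.card_le_card_of_injective
      (fun g : Subgroup.zpowers b => (⟨g.1, ?_⟩ : {b : (Matrix.SpecialLinearGroup (Fin 2) (ZMod p)) | b ∈ (Bo (ZMod p)) ∧ b • v = v})) ?_
    · have h1 : Subgroup.zpowers b ≤ (Bo (ZMod p)) ⊓ MulAction.stabilizer (Matrix.SpecialLinearGroup (Fin 2) (ZMod p)) v := by
        rw [Subgroup.zpowers_le]
        exact ⟨hb, hbv⟩
      exact h1 g.2
    · intro g h hgh
      exact Subtype.ext (congrArg (fun z => z.1) hgh)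
  · have h1 : ∀ n : ℕ, b ^ n ∈ (Bo (ZMod p)) ∧ (b ^ n) 0 0 = (b 0 0) ^ n := by
      intro n
      induction n with
      | zero => exact ⟨by rw [pow_zero]; exact ((Bo (ZMod p))).one_mem, by simp⟩
      | succ n ih =>
        refine ⟨((Bo (ZMod p))).pow_mem hb _, ?_⟩
        rw [pow_succ, Bo_mul00 hb, ih.2, pow_succ]
    rw [← (h1 _).2, pow_orderOf_eq_one]
    simp

/-- elements of order at most `k0` -/
noncomputable def smallOrd (p : ℕ) [Fact p.Prime] (k0 : ℕ) : Finset (ZMod p) :=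
  (Finset.Icc 1 k0).biUnion (fun n => (Polynomial.nthRoots n (1 : ZMod p)).toFinset)

theorem mem_smallOrd {k0 : ℕ} {θ : ZMod p} :
    θ ∈ smallOrd p k0 ↔ ∃ n, 1 ≤ n ∧ n ≤ k0 ∧ θ ^ n = 1 := by
  rw [smallOrd, Finset.mem_biUnion]
  constructor
  · rintro ⟨n, hn, h⟩
    have hn' := Finset.mem_Icc.1 hn
    rw [Multiset.mem_toFinset, Polynomial.mem_nthRoots (by omega)] at h
    exact ⟨n, hn'.1, hn'.2, h⟩
  · rintro ⟨n, h1, h2, h⟩
    refine ⟨n, Finset.mem_Icc.2 ⟨h1, h2⟩, ?_⟩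
    rw [Multiset.mem_toFinset, Polynomial.mem_nthRoots (by omega)]
    exact h

theorem card_small_order (p : ℕ) [Fact p.Prime] (k0 : ℕ) : (smallOrd p k0).card ≤ k0 * k0 := by
  classical
  refine (Finset.card_biUnion_le).trans ?_
  calc ∑ n ∈ Finset.Icc 1 k0, ((Polynomial.nthRoots n (1 : ZMod p)).toFinset).card
      ≤ ∑ n ∈ Finset.Icc 1 k0, k0 := by
        apply Finset.sum_le_sum
        intro n hn
        refine (Multiset.toFinset_card_le _).trans ((Polynomial.card_nthRoots _ _).trans ?_)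
        exact (Finset.mem_Icc.1 hn).2
    _ = k0 * k0 := by simp

/-- choice of a well spread set of multipliers -/
theorem exists_spread (Θ : Finset (ZMod p)) (h1 : (1 : ZMod p) ∈ Θ) (h0 : (0 : ZMod p) ∉ Θ) :
    ∃ Λ : Finset (ZMod p), (0 : ZMod p) ∉ Λ ∧
      (∀ y ∈ Λ, ∀ y' ∈ Λ, ∀ θ ∈ Θ, y = θ * y' → y = y') ∧
      ∀ x : ZMod p, x ≠ 0 → ∃ θ ∈ Θ ∪ Θ.image (·⁻¹), θ * x ∈ Λ := by
  classical
  let good : Set (Finset (ZMod p)) := {Λ | (0 : ZMod p) ∉ Λ ∧
      (∀ y ∈ Λ, ∀ y' ∈ Λ, ∀ θ ∈ Θ, y = θ * y' → y = y')}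
  obtain ⟨Λ, ⟨hΛ0, hΛ⟩, hmax⟩ := Set.exists_max_image good (fun Λ => Λ.card) (Set.toFinite _)
    ⟨∅, by simp [good]⟩
  refine ⟨Λ, hΛ0, hΛ, ?_⟩
  intro x hx
  by_cases hxΛ : x ∈ Λ
  · exact ⟨1, Finset.mem_union_left _ h1, by rwa [one_mul]⟩
  · by_contra hcon
    push Not at hcon
    have hg : insert x Λ ∈ good := by
      refine ⟨?_, ?_⟩
      · rw [Finset.mem_insert, not_or]
        exact ⟨hx.symm, hΛ0⟩
      · intro y hy y' hy' θ hθ h
        have hθ0 : θ ≠ 0 := by rintro rfl; exact h0 hθ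
        rw [Finset.mem_insert] at hy hy'
        rcases hy with rfl | hy <;> rcases hy' with rfl | hy'
        · rfl
        · exfalso
          refine hcon θ⁻¹ (Finset.mem_union_right _ (Finset.mem_image_of_mem _ hθ)) ?_
          rw [h, inv_mul_cancel_left₀ hθ0]
          exact hy'
        · exfalso
          refine hcon θ (Finset.mem_union_left _ hθ) ?_
          rw [← h]
          exact hy
        · exact hΛ y hy y' hy' θ hθ h
    have h2 : (insert x Λ).card ≤ Λ.card := hmax _ hg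
    have h3 := Finset.card_insert_of_notMem hxΛ
    omega

variable [Finite V]

/-- the light lemma: if the upper triangular group acts on a connected set with small
stabilizers, there is a complete minor of linear order -/
theorem light {k0 k : ℕ} (hadj : ∀ (g : (Matrix.SpecialLinearGroup (Fin 2) (ZMod p))) (a b : V), Y.Adj a b → Y.Adj (g • a) (g • b))
    {C : Set V} (hCinv : ∀ b ∈ (Bo (ZMod p)), ∀ v ∈ C, b • v ∈ C) (hCc : (Y.induce C).Connected)
    (hst : ∀ v ∈ C, Set.ncard {b : (Matrix.SpecialLinearGroup (Fin 2) (ZMod p)) | b ∈ (Bo (ZMod p)) ∧ b • v = v} ≤ k0)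
    (hp : 3 < p) (hk0 : k0 < p) (hk : 100 * (64 * k0 ^ 2) ^ 3 * k ≤ p) : HasKMinor Y k := by
  classical
  -- section for `B`
  obtain ⟨Q0, hQ0C, hQ0c, hQ0s, hQ0surj, -⟩ := exists_section hadj (Bo (ZMod p)) hCinv hCc
    (fun i : Empty => (∅ : Set V)) (fun i => i.elim) (fun i => i.elim) (fun i => i.elim)
  obtain ⟨⟨q0, hq0⟩⟩ := hQ0c.nonempty
  have hgen := gen_of_section hadj (Bo (ZMod p)) hCinv hCc hQ0C ⟨q0, hq0⟩ hQ0s hQ0surj
  set E : Set (Matrix.SpecialLinearGroup (Fin 2) (ZMod p)) := {g | g ∈ (Bo (ZMod p)) ∧ ∃ a ∈ Q0, ∃ b ∈ Q0, a = g • b ∨ Y.Adj a (g • b)} with hE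
  have h3 : (3 : ZMod p) ≠ 0 := by
    intro h
    have h1 : ((3 : ℕ) : ZMod p) = 0 := by exact_mod_cast h
    rw [ZMod.natCast_eq_zero_iff] at h1
    have := Nat.le_of_dvd (by norm_num) h1
    omega
  have h2 : (2 : ZMod p) ≠ 0 := by
    intro h
    have h1 : ((2 : ℕ) : ZMod p) = 0 := by exact_mod_cast h
    rw [ZMod.natCast_eq_zero_iff] at h1
    have := Nat.le_of_dvd (by norm_num) h1
    omega
  obtain ⟨b1, hb1, b2, hb2, hne⟩ : ∃ b1 ∈ E, ∃ b2 ∈ E, b1 * b2 ≠ b2 * b1 := by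
    refine exists_noncomm hgen (x := dd (Units.mk0 2 h2)) (y := uu 1) (dd_mem_Bo _) (uu_mem_Bo _) ?_
    intro h
    have h1 : (dd (Units.mk0 2 h2) * uu 1 : (Matrix.SpecialLinearGroup (Fin 2) (ZMod p))) 0 1 = (uu 1 * dd (Units.mk0 2 h2) : (Matrix.SpecialLinearGroup (Fin 2) (ZMod p))) 0 1 := by
      rw [h]
    rw [mul01, mul01] at h1
    simp only [dd00, dd01, dd11, uu00, uu01, uu11, Units.val_mk0, Units.val_inv_eq_inv_val] at h1
    field_simp at h1
    apply h3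
    linear_combination h1
  have hb1B := hb1.1
  have hb2B := hb2.1
  have hb1i : b1⁻¹ ∈ E := ⟨((Bo (ZMod p))).inv_mem hb1.1, touch_symm hadj hb1.2⟩
  have hb2i : b2⁻¹ ∈ E := ⟨((Bo (ZMod p))).inv_mem hb2.1, touch_symm hadj hb2.2⟩
  obtain ⟨κ, hκ⟩ : ∃ κ, b1 * b2 * b1⁻¹ * b2⁻¹ = uu κ := by
    have h4 : b1 * b2 * b1⁻¹ * b2⁻¹ ∈ (Un (ZMod p)) := by
      rw [mem_Un_iff]
      have h5 : b1 * b2 * b1⁻¹ * b2⁻¹ ∈ (Bo (ZMod p)) :=
        ((Bo (ZMod p))).mul_mem (((Bo (ZMod p))).mul_mem (((Bo (ZMod p))).mul_mem hb1B hb2B) (((Bo (ZMod p))).inv_mem hb1B)) (((Bo (ZMod p))).inv_mem hb2B)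
      refine ⟨mem_Bo.1 h5, ?_⟩
      rw [Bo_mul00 (((Bo (ZMod p))).inv_mem hb2B), Bo_mul00 (((Bo (ZMod p))).inv_mem hb1B), Bo_mul00 hb2B,
        Bo_inv00 hb1B, Bo_inv00 hb2B]
      have := Bo_ne hb1B
      have := Bo_ne hb2B
      field_simp
    exact h4
  have hκ0 : κ ≠ 0 := by
    rintro rfl
    rw [uu_zero] at hκ
    apply hne
    have := congrArg (fun z => z * b2 * b1) hκ
    simpa [mul_assoc] using this
  -- the four words
  let w : Fin 4 → (Matrix.SpecialLinearGroup (Fin 2) (ZMod p)) := ![1, b1, b1 * b2, b1 * b2 * b1⁻¹]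
  have hw0 : w 0 = 1 := rfl
  have hw1 : w 1 = w 0 * b1 := by rw [hw0, one_mul]; rfl
  have hw2 : w 2 = w 1 * b2 := rfl
  have hw3 : w 3 = w 2 * b1⁻¹ := rfl
  have hw4 : w 3 * b2⁻¹ = uu κ := hκ
  have hwB : ∀ i, w i ∈ (Bo (ZMod p)) := by
    intro i
    fin_cases i
    · exact ((Bo (ZMod p))).one_mem
    · exact hb1B
    · exact ((Bo (ZMod p))).mul_mem hb1B hb2B
    · exact ((Bo (ZMod p))).mul_mem (((Bo (ZMod p))).mul_mem hb1B hb2B) (((Bo (ZMod p))).inv_mem hb1B)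
  set W : Set V := {v | ∃ (x : ZMod p) (i : Fin 4), ∃ q ∈ Q0, v = ((uu x : (Matrix.SpecialLinearGroup (Fin 2) (ZMod p))) * w i) • q} with hW
  have hWC : W ⊆ C := by
    rintro _ ⟨x, i, q, hq, rfl⟩
    exact hCinv _ (((Bo (ZMod p))).mul_mem (uu_mem_Bo x) (hwB i)) _ (hQ0C hq)
  have hWinv : ∀ g ∈ (Un (ZMod p)), ∀ v ∈ W, g • v ∈ W := by
    rintro _ ⟨y, rfl⟩ _ ⟨x, i, q, hq, rfl⟩
    exact ⟨y + x, i, q, hq, by rw [← mul_smul, uu_add, mul_assoc]⟩
  have hWmem : ∀ (x : ZMod p) (i : Fin 4), ∀ q ∈ Q0, ((uu x : (Matrix.SpecialLinearGroup (Fin 2) (ZMod p))) * w i) • q ∈ W :=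
    fun x i q hq => ⟨x, i, q, hq, rfl⟩
  have hWc : (Y.induce W).Connected := by
    have hreach : ∀ n : ℕ, ∀ i : Fin 4, ∀ q ∈ Q0, Relation.ReflTransGen (StepIn Y W) q0
        (((uu ((n : ZMod p) * κ) : (Matrix.SpecialLinearGroup (Fin 2) (ZMod p))) * w i) • q) := by
      have hblock : ∀ x : ZMod p, (∀ q ∈ Q0, Relation.ReflTransGen (StepIn Y W) q0
          (((uu x : (Matrix.SpecialLinearGroup (Fin 2) (ZMod p))) * w 0) • q)) → ∀ i : Fin 4, ∀ q ∈ Q0,
          Relation.ReflTransGen (StepIn Y W) q0 (((uu x : (Matrix.SpecialLinearGroup (Fin 2) (ZMod p))) * w i) • q) := by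
        intro x h0
        have h1 : ∀ q ∈ Q0, Relation.ReflTransGen (StepIn Y W) q0 (((uu x : (Matrix.SpecialLinearGroup (Fin 2) (ZMod p))) * w 1) • q) := by
          rw [hw1, ← mul_assoc]
          refine block_step hadj hQ0c h0 ?_ hb1.2
          intro q hq
          rw [mul_assoc, ← hw1]
          exact hWmem _ _ _ hq
        have h2 : ∀ q ∈ Q0, Relation.ReflTransGen (StepIn Y W) q0 (((uu x : (Matrix.SpecialLinearGroup (Fin 2) (ZMod p))) * w 2) • q) := by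
          rw [hw2, ← mul_assoc]
          refine block_step hadj hQ0c h1 ?_ hb2.2
          intro q hq
          rw [mul_assoc, ← hw2]
          exact hWmem _ _ _ hq
        have h3 : ∀ q ∈ Q0, Relation.ReflTransGen (StepIn Y W) q0 (((uu x : (Matrix.SpecialLinearGroup (Fin 2) (ZMod p))) * w 3) • q) := by
          rw [hw3, ← mul_assoc]
          refine block_step hadj hQ0c h2 ?_ hb1i.2
          intro q hq
          rw [mul_assoc, ← hw3]
          exact hWmem _ _ _ hq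
        intro i
        fin_cases i
        · exact h0
        · exact h1
        · exact h2
        · exact h3
      intro n
      induction n with
      | zero =>
        apply hblock
        intro q hq
        have h1 : ((uu (((0 : ℕ) : ZMod p) * κ) : (Matrix.SpecialLinearGroup (Fin 2) (ZMod p))) * w 0) = 1 := by
          rw [Nat.cast_zero, zero_mul, uu_zero, hw0, one_mul]
        rw [h1, one_smul]
        refine StepIn.mono ?_ (step_of_conn hQ0c hq0 hq)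
        intro v hv
        exact ⟨0, 0, v, hv, by rw [uu_zero, hw0, one_mul, one_smul]⟩
      | succ n ih =>
        apply hblock
        have h1 : ((uu (((n + 1 : ℕ) : ZMod p) * κ) : (Matrix.SpecialLinearGroup (Fin 2) (ZMod p))) * w 0) =
            (uu ((n : ZMod p) * κ) * w 3) * b2⁻¹ := by
          rw [mul_assoc, hw4, ← uu_add, hw0, mul_one]
          congr 1
          push_cast; ring
        rw [h1]
        refine block_step hadj hQ0c (ih 3) ?_ hb2i.2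
        intro q hq
        rw [← h1]
        exact hWmem _ _ _ hq
    refine conn_of_base (b := q0) ⟨0, 0, q0, hq0, by rw [uu_zero, hw0, one_mul, one_smul]⟩ ?_
    rintro _ ⟨x, i, q, hq, rfl⟩
    obtain ⟨n, rfl⟩ := exists_mul_nat (x := x) hκ0
    exact hreach n i q hq
  have hfree : ∀ v ∈ C, ∀ x : ZMod p, (uu x : (Matrix.SpecialLinearGroup (Fin 2) (ZMod p))) • v = v → x = 0 :=
    fun v hv x hx => uu_free hk0 (hst v hv) hx
  -- section of `W` for `U`
  obtain ⟨Q1, hQ1W, hQ1c, hQ1s, hQ1surj, -⟩ := exists_section hadj (Un (ZMod p)) hWinv hWc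
    (fun i : Empty => (∅ : Set V)) (fun i => i.elim) (fun i => i.elim) (fun i => i.elim)
  obtain ⟨⟨q1, hq1⟩⟩ := hQ1c.nonempty
  obtain ⟨κ', a', ha', c', hc', hκ'0, hac⟩ : ∃ κ' : ZMod p, ∃ a ∈ Q1, ∃ b ∈ Q1, κ' ≠ 0 ∧
      Y.Adj a ((uu κ' : (Matrix.SpecialLinearGroup (Fin 2) (ZMod p))) • b) := by
    have h4 : (uu 1 : (Matrix.SpecialLinearGroup (Fin 2) (ZMod p))) • q1 ∉ Q1 := by
      intro h
      have h5 := hQ1s q1 hq1 _ h _ (uu_mem_Un 1) rfl
      have h6 := hfree q1 (hWC (hQ1W hq1)) 1 h5.symm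
      exact one_ne_zero h6
    obtain ⟨a, ha, b, hbW, hbQ, hab⟩ := exists_exit hWc hq1 (hQ1W hq1)
      (hWinv _ (uu_mem_Un 1) _ (hQ1W hq1)) h4
    obtain ⟨g, ⟨x, rfl⟩, q, hq, rfl⟩ := hQ1surj b hbW
    refine ⟨x, a, ha, q, hq, ?_, hab⟩
    rintro rfl
    rw [uu_zero, one_smul] at hbQ
    exact hbQ hq
  -- the set of small multipliers
  have hk01 : 1 ≤ k0 := by
    refine le_trans ?_ (hst q0 (hQ0C hq0))
    rw [Nat.one_le_iff_ne_zero, Ne, Set.ncard_eq_zero (Set.toFinite _)]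
    intro h
    have : (1 : (Matrix.SpecialLinearGroup (Fin 2) (ZMod p))) ∈ {b : (Matrix.SpecialLinearGroup (Fin 2) (ZMod p)) | b ∈ (Bo (ZMod p)) ∧ b • q0 = q0} := ⟨((Bo (ZMod p))).one_mem, one_smul _ _⟩
    rw [h] at this
    exact this
  set Θ0 : Finset (ZMod p) := smallOrd p k0 with hΘ0
  set Θ : Finset (ZMod p) := Finset.image
    (fun t : Fin 4 × Fin 4 × ZMod p => (w t.1) 0 0 * ((w t.2.1) 0 0)⁻¹ * t.2.2)
    (Finset.univ ×ˢ Finset.univ ×ˢ Θ0) with hΘ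
  have hΘcard : Θ.card ≤ 16 * k0 ^ 2 := by
    refine Finset.card_image_le.trans ?_
    rw [Finset.card_product, Finset.card_product, Finset.card_univ, Fintype.card_fin]
    have := card_small_order p k0
    calc 4 * (4 * Θ0.card) ≤ 4 * (4 * (k0 * k0)) := by gcongr
      _ = 16 * k0 ^ 2 := by ring
  have hw00 : ∀ i, (w i) 0 0 ≠ 0 := fun i => Bo_ne (hwB i)
  have hΘ1 : (1 : ZMod p) ∈ Θ := by
    rw [hΘ, Finset.mem_image]
    refine ⟨(0, 0, 1), ?_, ?_⟩
    · rw [Finset.mem_product, Finset.mem_product]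
      refine ⟨Finset.mem_univ _, Finset.mem_univ _, ?_⟩
      rw [hΘ0, mem_smallOrd]
      exact ⟨1, le_rfl, hk01, by simp⟩
    · simp only [mul_one]
      exact mul_inv_cancel₀ (hw00 0)
  have hΘ0' : (0 : ZMod p) ∉ Θ := by
    rw [hΘ, Finset.mem_image]
    rintro ⟨⟨i, j, θ⟩, hmem, h⟩
    rw [Finset.mem_product, Finset.mem_product] at hmem
    have hθ := hmem.2.2
    rw [hΘ0, mem_smallOrd] at hθ
    obtain ⟨n, hn1, hn2, hθn⟩ := hθ
    have hθ0 : θ ≠ 0 := by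
      rintro rfl
      simp only at hθn
      rw [zero_pow (by omega)] at hθn
      exact zero_ne_one hθn
    exact mul_ne_zero (mul_ne_zero (hw00 i) (inv_ne_zero (hw00 j))) hθ0 h
  obtain ⟨Λ, hΛ0, hΛs, hΛc⟩ := exists_spread Θ hΘ1 hΘ0'
  have hΛne : ∀ y : Λ, (y : ZMod p) ≠ 0 := fun y h => hΛ0 (h ▸ y.2)
  let t : Λ → (Matrix.SpecialLinearGroup (Fin 2) (ZMod p)) := fun y => dd (Units.mk0 (y : ZMod p) (hΛne y))
  have htB : ∀ y, t y ∈ (Bo (ZMod p)) := fun y => dd_mem_Bo _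
  have ht00 : ∀ y, (t y) 0 0 = (y : ZMod p) := fun y => rfl
  -- section of `C` for `U`
  obtain ⟨Q, hQC, hQc, hQs, hQsurj, hQΔ⟩ := exists_section hadj (Un (ZMod p))
    (fun g hg v hv => hCinv g (Un_le_Bo hg) v hv) hCc
    (fun y : Λ => {v | ∃ a ∈ Q1, v = t y • a})
    (by
      rintro y _ ⟨a, ha, rfl⟩
      exact hCinv _ (htB y) _ (hWC (hQ1W ha)))
    (fun y => conn_image hadj (t y) hQ1c)
    (by
      rintro y y' _ ⟨a, ha, rfl⟩ _ ⟨b, hb, rfl⟩ g hg h
      obtain ⟨x, i, q, hq, hax⟩ := hQ1W ha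
      obtain ⟨x', j, q', hq', hbx⟩ := hQ1W hb
      have hgB := Un_le_Bo hg
      obtain ⟨z, rfl⟩ := hg
      set h1 : (Matrix.SpecialLinearGroup (Fin 2) (ZMod p)) := (t y' * (uu x' * w j))⁻¹ * ((uu z * t y) * (uu x * w i)) with hh1
      have hm1 : t y' * (uu x' * w j) ∈ (Bo (ZMod p)) :=
        ((Bo (ZMod p))).mul_mem (htB _) (((Bo (ZMod p))).mul_mem (uu_mem_Bo _) (hwB _))
      have hm2 : (uu z * t y) * (uu x * w i) ∈ (Bo (ZMod p)) :=
        ((Bo (ZMod p))).mul_mem (((Bo (ZMod p))).mul_mem hgB (htB _)) (((Bo (ZMod p))).mul_mem (uu_mem_Bo _) (hwB _))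
      have hh1B : h1 ∈ (Bo (ZMod p)) := ((Bo (ZMod p))).mul_mem (((Bo (ZMod p))).inv_mem hm1) hm2
      have hh1q : h1 • q = q' := by
        rw [hh1, mul_smul, inv_smul_eq_iff, mul_smul _ _ q', ← hbx, mul_smul _ _ q, ← hax,
          mul_smul]
        exact h
      have hqq : q = q' := hQ0s q hq q' hq' h1 hh1B hh1q
      rw [← hqq] at hh1q
      obtain ⟨n, hn1, hn2, hn⟩ := stab_order (hst q (hQ0C hq)) hh1B hh1q
      have h00 : h1 0 0 = ((y' : ZMod p) * (w j) 0 0)⁻¹ * ((y : ZMod p) * (w i) 0 0) := by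
        rw [hh1, Bo_mul00 hm2, Bo_inv00 hm1,
          Bo_mul00 (((Bo (ZMod p))).mul_mem (uu_mem_Bo _) (hwB _)), Bo_mul00 (hwB _),
          Bo_mul00 (((Bo (ZMod p))).mul_mem (uu_mem_Bo _) (hwB _)), Bo_mul00 (hwB _), Bo_mul00 (htB _),
          ht00, ht00]
        simp only [uu00, one_mul]
      have hyy : (y : ZMod p) = y' := by
        refine hΛs _ y.2 _ y'.2 ((w j) 0 0 * ((w i) 0 0)⁻¹ * h1 0 0) ?_ ?_
        · rw [hΘ, Finset.mem_image]
          refine ⟨(j, i, h1 0 0), ?_, rfl⟩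
          rw [Finset.mem_product, Finset.mem_product]
          refine ⟨Finset.mem_univ _, Finset.mem_univ _, ?_⟩
          rw [hΘ0, mem_smallOrd]
          exact ⟨n, hn1, hn2, hn⟩
        · rw [h00]
          have := hw00 i
          have := hw00 j
          have := hΛne y'
          field_simp
      have hyy' : y = y' := Subtype.ext hyy
      subst hyy'
      refine ⟨rfl, ?_⟩
      have h5 : ((t y)⁻¹ * uu z * t y) • a = b := by
        rw [mul_smul, mul_smul, h, inv_smul_smul]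
      have h6 : (t y)⁻¹ * uu z * t y ∈ (Un (ZMod p)) := by
        rw [mem_Un_iff]
        have h7 : (t y)⁻¹ * uu z * t y ∈ (Bo (ZMod p)) :=
          ((Bo (ZMod p))).mul_mem (((Bo (ZMod p))).mul_mem (((Bo (ZMod p))).inv_mem (htB y)) (uu_mem_Bo z)) (htB y)
        refine ⟨mem_Bo.1 h7, ?_⟩
        rw [Bo_mul00 (htB y), Bo_mul00 (uu_mem_Bo z), Bo_inv00 (htB y), ht00]
        have := hΛne y
        simp only [uu00, mul_one]
        field_simp
      rw [hQ1s a ha b hb _ h6 h5])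
  -- voltages
  obtain ⟨Gs, hGs, hGs0, hcov⟩ := squares_cover (F := ZMod p)
    (by rw [ZMod.ringChar_zmod_n]; omega) κ' hκ'0 (Θ ∪ Θ.image (·⁻¹)) (Λ : Set (ZMod p))
    (by
      intro hmem
      rcases Finset.mem_union.1 hmem with h | h
      · exact hΘ0' h
      · obtain ⟨θ, hθ, h⟩ := Finset.mem_image.1 h
        exact hΘ0' (inv_eq_zero.1 h ▸ hθ)) hΛc
  refine final_minor (m := 64 * k0 ^ 2) hadj (uu : ZMod p → (Matrix.SpecialLinearGroup (Fin 2) (ZMod p))) uu_add hQc ?_ Gs hGs0 ?_ ?_ ?_ hk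
  · intro a ha b hb x hx
    have h4 := hQs a ha b hb _ (uu_mem_Un x) hx
    rw [← h4] at hx
    exact hfree a (hQC ha) x hx
  · have : 1 ≤ k0 ^ 2 := Nat.one_le_pow _ _ hk01
    omega
  · have h4 : (Θ ∪ Θ.image (·⁻¹)).card ≤ Θ.card + Θ.card :=
      (Finset.card_union_le _ _).trans (Nat.add_le_add le_rfl Finset.card_image_le)
    omega
  · intro d hd
    obtain ⟨g, hg, y, hy, hgd⟩ := hcov d hd
    refine ⟨g, hg, ?_⟩
    obtain ⟨g', ⟨z, rfl⟩, hz⟩ := hQΔ ⟨y, hy⟩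
    have h5 := hadj ((uu z : (Matrix.SpecialLinearGroup (Fin 2) (ZMod p))) * t ⟨y, hy⟩) _ _ hac
    refine ⟨_, hz _ ⟨a', ha', rfl⟩, _, hz _ ⟨c', hc', rfl⟩, ?_⟩
    rw [← mul_smul, ← mul_smul, ← mul_smul]
    rw [← mul_smul] at h5
    have h6 : (uu (g * d) : (Matrix.SpecialLinearGroup (Fin 2) (ZMod p))) * ((uu z : (Matrix.SpecialLinearGroup (Fin 2) (ZMod p))) * t ⟨y, hy⟩) = (uu z : (Matrix.SpecialLinearGroup (Fin 2) (ZMod p))) * t ⟨y, hy⟩ * uu κ' := by
      rw [mul_assoc, Bo_conj (htB _), ht00, ← mul_assoc, ← mul_assoc, ← uu_add, ← uu_add, hgd]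
      congr 2
      ring
    rw [mul_assoc, h6]
    exact h5

end

end Pool.Agent.H16.PSL
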