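import Mathlib

set_option autoImplicit false

namespace Pool.Agent.H16.PSL

section field
variable {F : Type*} [Field F]


theorem mul00 (g h : (Matrix.SpecialLinearGroup (Fin 2) F)) : (g * h) 0 0 = g 0 0 * h 0 0 + g 0 1 * h 1 0 := by
  simp [Matrix.mul_apply, Fin.sum_univ_two]
theorem mul01 (g h : (Matrix.SpecialLinearGroup (Fin 2) F)) : (g * h) 0 1 = g 0 0 * h 0 1 + g 0 1 * h 1 1 := by
  simp [Matrix.mul_apply, Fin.sum_univ_two]
theorem mul10 (g h : (Matrix.SpecialLinearGroup (Fin 2) F)) : (g * h) 1 0 = g 1 0 * h 0 0 + g 1 1 * h 1 0 := by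
  simp [Matrix.mul_apply, Fin.sum_univ_two]
theorem mul11 (g h : (Matrix.SpecialLinearGroup (Fin 2) F)) : (g * h) 1 1 = g 1 0 * h 0 1 + g 1 1 * h 1 1 := by
  simp [Matrix.mul_apply, Fin.sum_univ_two]

theorem inv00 (g : (Matrix.SpecialLinearGroup (Fin 2) F)) : g⁻¹ 0 0 = g 1 1 := by
  have h := congrFun (congrFun (Matrix.SpecialLinearGroup.coe_inv g) 0) 0
  rw [Matrix.adjugate_fin_two] at h
  exact h
theorem inv01 (g : (Matrix.SpecialLinearGroup (Fin 2) F)) : g⁻¹ 0 1 = - g 0 1 := by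
  have h := congrFun (congrFun (Matrix.SpecialLinearGroup.coe_inv g) 0) 1
  rw [Matrix.adjugate_fin_two] at h
  exact h
theorem inv10 (g : (Matrix.SpecialLinearGroup (Fin 2) F)) : g⁻¹ 1 0 = - g 1 0 := by
  have h := congrFun (congrFun (Matrix.SpecialLinearGroup.coe_inv g) 1) 0
  rw [Matrix.adjugate_fin_two] at h
  exact h
theorem inv11 (g : (Matrix.SpecialLinearGroup (Fin 2) F)) : g⁻¹ 1 1 = g 0 0 := by
  have h := congrFun (congrFun (Matrix.SpecialLinearGroup.coe_inv g) 1) 1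
  rw [Matrix.adjugate_fin_two] at h
  exact h

theorem det_eq (g : (Matrix.SpecialLinearGroup (Fin 2) F)) : g 0 0 * g 1 1 - g 0 1 * g 1 0 = 1 := by
  have := g.det_coe
  rwa [Matrix.det_fin_two] at this

theorem one00 : (1 : (Matrix.SpecialLinearGroup (Fin 2) F)) 0 0 = 1 := by simp
theorem one01 : (1 : (Matrix.SpecialLinearGroup (Fin 2) F)) 0 1 = 0 := by simp
theorem one10 : (1 : (Matrix.SpecialLinearGroup (Fin 2) F)) 1 0 = 0 := by simp
theorem one11 : (1 : (Matrix.SpecialLinearGroup (Fin 2) F)) 1 1 = 1 := by simp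

theorem neg00 (g : (Matrix.SpecialLinearGroup (Fin 2) F)) : (-g) 0 0 = - g 0 0 := by simp
theorem neg01 (g : (Matrix.SpecialLinearGroup (Fin 2) F)) : (-g) 0 1 = - g 0 1 := by simp
theorem neg10 (g : (Matrix.SpecialLinearGroup (Fin 2) F)) : (-g) 1 0 = - g 1 0 := by simp
theorem neg11 (g : (Matrix.SpecialLinearGroup (Fin 2) F)) : (-g) 1 1 = - g 1 1 := by simp

theorem ext4 {g h : (Matrix.SpecialLinearGroup (Fin 2) F)} (h00 : g 0 0 = h 0 0) (h01 : g 0 1 = h 0 1) (h10 : g 1 0 = h 1 0)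
    (h11 : g 1 1 = h 1 1) : g = h := by
  apply Matrix.SpecialLinearGroup.ext
  intro i j
  fin_cases i <;> fin_cases j <;> assumption

theorem smul0 (g : (Matrix.SpecialLinearGroup (Fin 2) F)) (v : Fin 2 → F) : (g • v) 0 = g 0 0 * v 0 + g 0 1 * v 1 := by
  change (g.1.mulVec v) 0 = _
  simp [Matrix.mulVec, dotProduct, Fin.sum_univ_two]
theorem smul1 (g : (Matrix.SpecialLinearGroup (Fin 2) F)) (v : Fin 2 → F) : (g • v) 1 = g 1 0 * v 0 + g 1 1 * v 1 := by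
  change (g.1.mulVec v) 1 = _
  simp [Matrix.mulVec, dotProduct, Fin.sum_univ_two]

/-- the upper unipotent element -/
def uu (x : F) : (Matrix.SpecialLinearGroup (Fin 2) F) := ⟨!![1, x; 0, 1], by simp [Matrix.det_fin_two]⟩

/-- the diagonal element -/
def dd (a : Fˣ) : (Matrix.SpecialLinearGroup (Fin 2) F) := ⟨!![(a : F), 0; 0, ((a⁻¹ : Fˣ) : F)], by simp [Matrix.det_fin_two]⟩

@[simp] theorem uu00 (x : F) : uu x 0 0 = 1 := rfl
@[simp] theorem uu01 (x : F) : uu x 0 1 = x := rfl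
@[simp] theorem uu10 (x : F) : uu x 1 0 = 0 := rfl
@[simp] theorem uu11 (x : F) : uu x 1 1 = 1 := rfl
@[simp] theorem dd00 (a : Fˣ) : dd a 0 0 = a := rfl
@[simp] theorem dd01 (a : Fˣ) : dd a 0 1 = 0 := rfl
@[simp] theorem dd10 (a : Fˣ) : dd a 1 0 = 0 := rfl
@[simp] theorem dd11 (a : Fˣ) : dd a 1 1 = ((a⁻¹ : Fˣ) : F) := rfl

theorem uu_add (x y : F) : (uu (x + y) : (Matrix.SpecialLinearGroup (Fin 2) F)) = uu x * uu y := by
  apply ext4
  · rw [mul00]; simp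
  · rw [mul01]; simp [add_comm]
  · rw [mul10]; simp
  · rw [mul11]; simp

theorem uu_zero : (uu 0 : (Matrix.SpecialLinearGroup (Fin 2) F)) = 1 := by
  apply ext4 <;> simp

theorem uu_inv (x : F) : (uu x : (Matrix.SpecialLinearGroup (Fin 2) F))⁻¹ = uu (-x) := by
  rw [inv_eq_iff_mul_eq_one, ← uu_add, add_neg_cancel, uu_zero]

theorem uu_injective : Function.Injective (uu : F → (Matrix.SpecialLinearGroup (Fin 2) F)) := by
  intro x y h
  have : (uu x : (Matrix.SpecialLinearGroup (Fin 2) F)) 0 1 = (uu y : (Matrix.SpecialLinearGroup (Fin 2) F)) 0 1 := by rw [h]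
  simpa using this

theorem uu_pow (x : F) (n : ℕ) : (uu x : (Matrix.SpecialLinearGroup (Fin 2) F)) ^ n = uu (n * x) := by
  induction n with
  | zero => rw [pow_zero, Nat.cast_zero, zero_mul, uu_zero]
  | succ n ih => rw [pow_succ, ih, ← uu_add]; congr 1; push_cast; ring

/-- upper triangular matrices -/
def Bo (F : Type*) [Field F] : Subgroup (Matrix.SpecialLinearGroup (Fin 2) F) where
  carrier := {g | g 1 0 = 0}
  mul_mem' := by
    intro g h hg hh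
    simp only [Set.mem_ofPred_eq] at *
    rw [mul10, hg, hh]; ring
  one_mem' := by simp
  inv_mem' := by
    intro g hg
    simp only [Set.mem_ofPred_eq] at *
    rw [inv10, hg, neg_zero]

/-- upper unipotent matrices -/
def Un (F : Type*) [Field F] : Subgroup (Matrix.SpecialLinearGroup (Fin 2) F) where
  carrier := {g | ∃ x, g = uu x}
  mul_mem' := by
    rintro _ _ ⟨x, rfl⟩ ⟨y, rfl⟩
    exact ⟨x + y, (uu_add x y).symm⟩
  one_mem' := ⟨0, uu_zero.symm⟩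
  inv_mem' := by
    rintro _ ⟨x, rfl⟩
    exact ⟨-x, uu_inv x⟩

theorem mem_Bo {g : (Matrix.SpecialLinearGroup (Fin 2) F)} : g ∈ Bo F ↔ g 1 0 = 0 := Iff.rfl
theorem mem_Un {g : (Matrix.SpecialLinearGroup (Fin 2) F)} : g ∈ Un F ↔ ∃ x, g = uu x := Iff.rfl

theorem uu_mem_Bo (x : F) : (uu x : (Matrix.SpecialLinearGroup (Fin 2) F)) ∈ Bo F := rfl
theorem dd_mem_Bo (x : Fˣ) : (dd x : (Matrix.SpecialLinearGroup (Fin 2) F)) ∈ Bo F := rfl
theorem uu_mem_Un (x : F) : (uu x : (Matrix.SpecialLinearGroup (Fin 2) F)) ∈ Un F := ⟨x, rfl⟩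

theorem Un_le_Bo : Un F ≤ Bo F := by
  rintro _ ⟨x, rfl⟩; exact uu_mem_Bo x

theorem mem_Un_iff {g : (Matrix.SpecialLinearGroup (Fin 2) F)} : g ∈ Un F ↔ g 1 0 = 0 ∧ g 0 0 = 1 := by
  constructor
  · rintro ⟨x, rfl⟩; simp
  · rintro ⟨h1, h2⟩
    have h3 := det_eq g
    rw [h1, h2] at h3
    have h4 : g 1 1 = 1 := by linear_combination h3
    exact ⟨g 0 1, ext4 (by simp [h2]) (by simp) (by simp [h1]) (by simp [h4])⟩

theorem Bo_ne {g : (Matrix.SpecialLinearGroup (Fin 2) F)} (hg : g ∈ Bo F) : g 0 0 ≠ 0 := by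
  intro h
  have := det_eq g
  rw [h, mem_Bo.1 hg] at this
  simp at this

theorem Bo_11 {g : (Matrix.SpecialLinearGroup (Fin 2) F)} (hg : g ∈ Bo F) : g 0 0 * g 1 1 = 1 := by
  have := det_eq g
  rw [mem_Bo.1 hg] at this
  linear_combination this

theorem Bo_mul00 {g h : (Matrix.SpecialLinearGroup (Fin 2) F)} (hh : h ∈ Bo F) : (g * h) 0 0 = g 0 0 * h 0 0 := by
  rw [mul00, mem_Bo.1 hh]; ring

theorem Bo_inv00 {g : (Matrix.SpecialLinearGroup (Fin 2) F)} (hg : g ∈ Bo F) : g⁻¹ 0 0 = (g 0 0)⁻¹ := by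
  rw [inv00, eq_comm, inv_eq_iff_eq_inv, eq_comm, inv_eq_of_mul_eq_one_right]
  rw [mul_comm]; exact Bo_11 hg

theorem Bo_conj {g : (Matrix.SpecialLinearGroup (Fin 2) F)} (hg : g ∈ Bo F) (x : F) : g * uu x = uu (g 0 0 ^ 2 * x) * g := by
  have h1 := mem_Bo.1 hg
  have h2 := Bo_11 hg
  apply ext4
  · rw [mul00, mul00, h1]; simp
  · rw [mul01, mul01]; simp only [uu00, uu01, uu11]
    linear_combination (-(g 0 0 * x)) * h2
  · rw [mul10, mul10, h1]; simp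
  · rw [mul11, mul11, h1]; simp

theorem Bo_eq_of_00 {g h : (Matrix.SpecialLinearGroup (Fin 2) F)} (hg : g ∈ Bo F) (hh : h ∈ Bo F) (h0 : g 0 0 = h 0 0) :
    ∃ x, g = uu x * h := by
  have h1 : g * h⁻¹ ∈ Un F := by
    rw [mem_Un_iff]
    refine ⟨mem_Bo.1 ((Bo F).mul_mem hg ((Bo F).inv_mem hh)), ?_⟩
    rw [Bo_mul00 ((Bo F).inv_mem hh), Bo_inv00 hh, h0, mul_inv_cancel₀ (Bo_ne hh)]
  obtain ⟨x, hx⟩ := h1
  exact ⟨x, by rw [← hx]; group⟩

end field

/-- finitely many dilates of `{κ y² : y ∈ Λ}` cover everything -/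
theorem squares_cover {F : Type*} [Field F] [Fintype F] [DecidableEq F] (hF : ringChar F ≠ 2)
    (κ : F) (hκ : κ ≠ 0) (Θ : Finset F) (Λ : Set F)
    (hΘ0 : (0 : F) ∉ Θ) (hΛ : ∀ x : F, x ≠ 0 → ∃ θ ∈ Θ, θ * x ∈ Λ) :
    ∃ Gs : Finset F, Gs.card ≤ 2 * Θ.card ∧ (0 : F) ∉ Gs ∧ ∀ d : F, d ≠ 0 → ∃ g ∈ Gs, ∃ y ∈ Λ, g * d = κ * y ^ 2 := by
  obtain ⟨n, hn⟩ := FiniteField.exists_nonsquare hF
  have hn0 : n ≠ 0 := by
    rintro rfl
    exact hn ⟨0, by simp⟩
  refine ⟨Θ.image (fun θ => θ ^ 2) ∪ Θ.image (fun θ => θ ^ 2 * n), ?_, ?_, ?_⟩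
  · calc _ ≤ _ := Finset.card_union_le _ _
      _ ≤ Θ.card + Θ.card := Nat.add_le_add Finset.card_image_le Finset.card_image_le
      _ = 2 * Θ.card := by ring
  · rw [Finset.mem_union, Finset.mem_image, Finset.mem_image]
    rintro (⟨θ, hθ, h⟩ | ⟨θ, hθ, h⟩)
    · exact hΘ0 ((pow_eq_zero_iff two_ne_zero).1 h ▸ hθ)
    · exact hΘ0 ((pow_eq_zero_iff two_ne_zero).1 ((mul_eq_zero.1 h).resolve_right hn0) ▸ hθ)
  · intro d hd
    have h1 : ∀ e : F, e ≠ 0 → IsSquare (e / κ) → ∃ θ ∈ Θ, ∃ y ∈ Λ, θ ^ 2 * e = κ * y ^ 2 := by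
      intro e he ⟨x, hx⟩
      have hx0 : x ≠ 0 := by
        rintro rfl
        rw [mul_zero, div_eq_zero_iff] at hx
        exact hx.elim he hκ
      obtain ⟨θ, hθ, hy⟩ := hΛ x hx0
      refine ⟨θ, hθ, _, hy, ?_⟩
      have : e = κ * (x * x) := by rw [← hx]; field_simp
      rw [this]; ring
    by_cases hsq : IsSquare (d / κ)
    · obtain ⟨θ, hθ, y, hy, h⟩ := h1 d hd hsq
      exact ⟨θ ^ 2, Finset.mem_union_left _ (Finset.mem_image_of_mem _ hθ), y, hy, h⟩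
    · have h2 : IsSquare (n * d / κ) := by
        have h3 : quadraticChar F n = -1 := quadraticChar_neg_one_iff_not_isSquare.2 hn
        have h4 : quadraticChar F (d / κ) = -1 := quadraticChar_neg_one_iff_not_isSquare.2 hsq
        rw [← quadraticChar_one_iff_isSquare (div_ne_zero (mul_ne_zero hn0 hd) hκ), mul_div_assoc,
          map_mul, h3, h4]
        norm_num
      obtain ⟨θ, hθ, y, hy, h⟩ := h1 (n * d) (mul_ne_zero hn0 hd) h2
      refine ⟨θ ^ 2 * n, Finset.mem_union_right _ (Finset.mem_image_of_mem (fun θ => θ ^ 2 * n) hθ),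
        y, hy, ?_⟩
      rw [← h]; ring

end Pool.Agent.H16.PSL
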