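import Pool.Agent.H16.PSL.Core
import Pool.Agent.H16.PSL.SL2

/-!
Subtask Giant (helper16, MP_d4104f_co Q2): a giant component invariant under the upper triangular group.
Proved by helper390.
-/

set_option autoImplicit false

namespace Pool.Agent.H16.PSL

open Pool.Agent.Helper999.HM SimpleGraph

section giant_aux

variable {V : Type*} {Y : SimpleGraph V}

theorem giant_symm {Hv : Set V} {u v : V} (hu : u ∉ Hv)
    (h : Relation.ReflTransGen (StepIn Y Hvᶜ) u v) :
    v ∉ Hv ∧ Relation.ReflTransGen (StepIn Y Hvᶜ) v u := by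
  induction h with
  | refl => exact ⟨hu, Relation.ReflTransGen.refl⟩
  | tail _ hs ih =>
    exact ⟨hs.2, Relation.ReflTransGen.head ⟨hs.1.symm, ih.1⟩ ih.2⟩

theorem giant_walk {Γ : Type*} [Group Γ] [MulAction Γ V]
    (hadj : ∀ (g : Γ) (a b : V), Y.Adj a b → Y.Adj (g • a) (g • b)) {Hv : Set V} (g : Γ)
    {a b : V} (W : Y.Walk a b) (h : ∀ y ∈ W.support, g • y ∉ Hv) :
    Relation.ReflTransGen (StepIn Y Hvᶜ) (g • a) (g • b) := by
  induction W with
  | nil => exact Relation.ReflTransGen.refl
  | cons hab W ih =>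
    refine Relation.ReflTransGen.head ⟨hadj g _ _ hab, ?_⟩ (ih ?_)
    · apply h
      rw [Walk.support_cons]
      exact List.mem_cons_of_mem _ W.start_mem_support
    · intro y hy
      apply h
      rw [Walk.support_cons]
      exact List.mem_cons_of_mem _ hy

/-- the lower unipotent element -/
def gl {F : Type*} [Field F] (x : F) : Matrix.SpecialLinearGroup (Fin 2) F :=
  ⟨!![1, 0; x, 1], by simp [Matrix.det_fin_two]⟩

theorem giant_card {p : ℕ} [Fact p.Prime] :
    p * Nat.card (Bo (ZMod p)) ≤ Nat.card (Matrix.SpecialLinearGroup (Fin 2) (ZMod p)) := by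
  have h1 : p * Nat.card (Bo (ZMod p)) = Nat.card (ZMod p × Bo (ZMod p)) := by
    rw [Nat.card_prod, Nat.card_zmod]
  rw [h1]
  apply Nat.card_le_card_of_injective
    (fun q : ZMod p × Bo (ZMod p) => (q.2 : Matrix.SpecialLinearGroup (Fin 2) (ZMod p)) * gl q.1)
  rintro ⟨x, b⟩ ⟨y, c⟩ h
  simp only at h
  have h10 : (b : Matrix.SpecialLinearGroup (Fin 2) (ZMod p)) 1 0 = 0 := b.2
  have k10 : (c : Matrix.SpecialLinearGroup (Fin 2) (ZMod p)) 1 0 = 0 := c.2
  have e10 : b.1 1 1 * x = c.1 1 1 * y := by
    have := congrArg (fun m : Matrix.SpecialLinearGroup (Fin 2) (ZMod p) => m 1 0) h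
    simp only [mul10, gl] at this
    simpa [h10, k10] using this
  have e11 : b.1 1 1 = c.1 1 1 := by
    have := congrArg (fun m : Matrix.SpecialLinearGroup (Fin 2) (ZMod p) => m 1 1) h
    simp only [mul11, gl] at this
    simpa [h10, k10] using this
  have hne : c.1 1 1 ≠ 0 := by
    intro h0
    have := Bo_11 c.2
    rw [h0, mul_zero] at this
    exact zero_ne_one this
  rw [e11] at e10
  have hxy : x = y := mul_left_cancel₀ hne e10
  subst hxy
  have hbc : b = c := Subtype.ext (mul_right_cancel h)
  rw [hbc]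

end giant_aux

theorem giant {p : ℕ} [Fact p.Prime] {V : Type*} [Finite V]
    [MulAction (Matrix.SpecialLinearGroup (Fin 2) (ZMod p)) V] {Y : SimpleGraph V}
    (hadj : ∀ (g : Matrix.SpecialLinearGroup (Fin 2) (ZMod p)) (a b : V), Y.Adj a b → Y.Adj (g • a) (g • b))
    (hconn : Y.Connected) (v0 : V) (D : ℕ)
    (hD : ∀ g : Matrix.SpecialLinearGroup (Fin 2) (ZMod p), Y.dist v0 (g • v0) ≤ D)
    (hDp : 8 * (D + 1) ≤ p) (Hv : Set V) (hinv : ∀ b ∈ Bo (ZMod p), ∀ v ∈ Hv, b • v ∈ Hv)
    (hfew : ∀ v : V, Set.ncard {g : Matrix.SpecialLinearGroup (Fin 2) (ZMod p) | g • v ∈ Hv} ≤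
      2 * Nat.card (Bo (ZMod p))) :
    ∃ C : Set V, Disjoint C Hv ∧ (Y.induce C).Connected ∧ ∀ b ∈ Bo (ZMod p), ∀ v ∈ C, b • v ∈ C := by
  classical
  haveI : Fintype (Matrix.SpecialLinearGroup (Fin 2) (ZMod p)) := Fintype.ofFinite _
  have hw : ∀ x : Matrix.SpecialLinearGroup (Fin 2) (ZMod p),
      ∃ P : Y.Walk v0 (x • v0), P.length ≤ D := by
    intro x
    obtain ⟨P, hP⟩ := hconn.exists_walk_length_eq_dist v0 (x • v0)
    exact ⟨P, by rw [hP]; exact hD x⟩
  choose P hP using hw
  let bad : Matrix.SpecialLinearGroup (Fin 2) (ZMod p) →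
    Matrix.SpecialLinearGroup (Fin 2) (ZMod p) → Prop := fun g x => ∃ y ∈ (P x).support, g • y ∈ Hv
  have hcard := giant_card (p := p)
  rw [Nat.card_eq_fintype_card (α := Matrix.SpecialLinearGroup (Fin 2) (ZMod p))] at hcard
  have hbad : ∀ x, 4 * (Finset.univ.filter (fun g => bad g x)).card ≤
      Fintype.card (Matrix.SpecialLinearGroup (Fin 2) (ZMod p)) := by
    intro x
    have h1 : Finset.univ.filter (fun g => bad g x) ⊆
        (P x).support.toFinset.biUnion (fun y => Finset.univ.filter (fun g => g • y ∈ Hv)) := by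
      intro g hg
      obtain ⟨y, hy, hyg⟩ := (Finset.mem_filter.1 hg).2
      rw [Finset.mem_biUnion]
      exact ⟨y, List.mem_toFinset.2 hy, Finset.mem_filter.2 ⟨Finset.mem_univ _, hyg⟩⟩
    have h2 : (Finset.univ.filter (fun g => bad g x)).card ≤
        (D + 1) * (2 * Nat.card (Bo (ZMod p))) := by
      calc _ ≤ _ := Finset.card_le_card h1
        _ ≤ ∑ y ∈ (P x).support.toFinset, (Finset.univ.filter (fun g => g • y ∈ Hv)).card :=
            Finset.card_biUnion_le
        _ ≤ ∑ _y ∈ (P x).support.toFinset, 2 * Nat.card (Bo (ZMod p)) := by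
            apply Finset.sum_le_sum
            intro y _
            have h3 := hfew y
            rw [← Set.ncard_coe_finset]
            refine le_trans (le_of_eq ?_) h3
            congr 1
            ext g
            simp
        _ = (P x).support.toFinset.card * (2 * Nat.card (Bo (ZMod p))) := by
            rw [Finset.sum_const, smul_eq_mul]
        _ ≤ (D + 1) * (2 * Nat.card (Bo (ZMod p))) := by
            apply Nat.mul_le_mul_right
            calc _ ≤ (P x).support.length := List.toFinset_card_le _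
              _ = (P x).length + 1 := Walk.length_support _
              _ ≤ D + 1 := Nat.add_le_add_right (hP x) 1
    calc _ ≤ 4 * ((D + 1) * (2 * Nat.card (Bo (ZMod p)))) := Nat.mul_le_mul_left _ h2
      _ = 8 * (D + 1) * Nat.card (Bo (ZMod p)) := by ring
      _ ≤ p * Nat.card (Bo (ZMod p)) := Nat.mul_le_mul_right _ hDp
      _ ≤ _ := hcard
  have hpos : 0 < Fintype.card (Matrix.SpecialLinearGroup (Fin 2) (ZMod p)) := Fintype.card_pos
  obtain ⟨g, hg⟩ : ∃ g, 4 * (Finset.univ.filter (fun x => bad g x)).card ≤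
      Fintype.card (Matrix.SpecialLinearGroup (Fin 2) (ZMod p)) := by
    by_contra hcon
    push Not at hcon
    have h1 : ∑ _g : Matrix.SpecialLinearGroup (Fin 2) (ZMod p),
        Fintype.card (Matrix.SpecialLinearGroup (Fin 2) (ZMod p)) <
        ∑ g : Matrix.SpecialLinearGroup (Fin 2) (ZMod p),
          4 * (Finset.univ.filter (fun x => bad g x)).card :=
      Finset.sum_lt_sum_of_nonempty Finset.univ_nonempty (fun g _ => hcon g)
    have h2 : ∑ g : Matrix.SpecialLinearGroup (Fin 2) (ZMod p),
          4 * (Finset.univ.filter (fun x => bad g x)).card =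
        ∑ x : Matrix.SpecialLinearGroup (Fin 2) (ZMod p),
          4 * (Finset.univ.filter (fun g => bad g x)).card := by
      rw [← Finset.mul_sum, ← Finset.mul_sum]
      congr 1
      exact Finset.sum_card_bipartiteAbove_eq_sum_card_bipartiteBelow bad
    rw [h2] at h1
    exact absurd (Finset.sum_le_sum (fun x _ => hbad x)) (not_le_of_gt h1)
  -- the good elements
  have hgood : ∀ x, ¬ bad g x → g • v0 ∉ Hv ∧ g • x • v0 ∉ Hv ∧
      Relation.ReflTransGen (StepIn Y Hvᶜ) (g • v0) (g • x • v0) := by
    intro x hx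
    have hx' : ∀ y ∈ (P x).support, g • y ∉ Hv := fun y hy h => hx ⟨y, hy, h⟩
    exact ⟨hx' _ (P x).start_mem_support, hx' _ (P x).end_mem_support,
      giant_walk hadj g (P x) hx'⟩
  have hcount : Fintype.card (Matrix.SpecialLinearGroup (Fin 2) (ZMod p)) <
      2 * (Finset.univ.filter (fun x => ¬ bad g x)).card := by
    have h1 := Finset.card_filter_add_card_filter_not (s := Finset.univ)
      (p := fun x => bad g x)
    rw [Finset.card_univ] at h1
    omega
  have hex : ∃ x, ¬ bad g x := by
    by_contra hcon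
    push Not at hcon
    have : (Finset.univ.filter (fun x => ¬ bad g x)).card = 0 := by
      rw [Finset.card_eq_zero, Finset.filter_eq_empty_iff]
      intro x _ hx
      exact hx (hcon x)
    omega
  have hv0 : g • v0 ∉ Hv := by
    obtain ⟨x, hx⟩ := hex
    exact (hgood x hx).1
  let C : Set V := {v | Relation.ReflTransGen (StepIn Y Hvᶜ) (g • v0) v}
  refine ⟨C, ?_, ?_, ?_⟩
  · rw [Set.disjoint_left]
    intro v hv
    exact (giant_symm hv0 hv).1
  · refine conn_of_base (b := g • v0) Relation.ReflTransGen.refl ?_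
    intro a ha
    have key : ∀ a, Relation.ReflTransGen (StepIn Y Hvᶜ) (g • v0) a →
        Relation.ReflTransGen (StepIn Y C) (g • v0) a := by
      intro a ha
      induction ha with
      | refl => exact Relation.ReflTransGen.refl
      | tail h1 hs ih => exact Relation.ReflTransGen.tail ih ⟨hs.1, Relation.ReflTransGen.tail h1 hs⟩
    exact key a ha
  · intro b hb v hv
    have hbinv : ∀ w, w ∉ Hv → b • w ∉ Hv := by
      intro w hw h
      apply hw
      have := hinv b⁻¹ ((Bo (ZMod p)).inv_mem hb) _ h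
      rwa [inv_smul_smul] at this
    have hstep : ∀ u w, Relation.ReflTransGen (StepIn Y Hvᶜ) u w →
        Relation.ReflTransGen (StepIn Y Hvᶜ) (b • u) (b • w) := by
      intro u w h
      induction h with
      | refl => exact Relation.ReflTransGen.refl
      | tail _ hs ih => exact Relation.ReflTransGen.tail ih ⟨hadj b _ _ hs.1, hbinv _ hs.2⟩
    let T : Finset (Matrix.SpecialLinearGroup (Fin 2) (ZMod p)) :=
      Finset.univ.filter (fun h => h • v0 ∈ C)
    have hT : Fintype.card (Matrix.SpecialLinearGroup (Fin 2) (ZMod p)) < 2 * T.card := by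
      refine lt_of_lt_of_le hcount (Nat.mul_le_mul_left _ ?_)
      apply Finset.card_le_card_of_injOn (fun x => g * x)
      · intro x hx
        have hx' := (Finset.mem_filter.1 (Finset.mem_coe.1 hx)).2
        rw [Finset.mem_coe, Finset.mem_filter]
        refine ⟨Finset.mem_univ _, ?_⟩
        rw [mul_smul]
        exact (hgood x hx').2.2
      · intro x _ y _ h
        exact mul_left_cancel h
    have hT' : (T.image (fun h => b * h)).card = T.card :=
      Finset.card_image_of_injective _ (mul_right_injective b)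
    obtain ⟨h, hh⟩ := Finset.inter_nonempty_of_card_lt_card_add_card
      (Finset.subset_univ T) (Finset.subset_univ (T.image (fun h => b * h)))
      (by rw [hT', Finset.card_univ]; omega)
    rw [Finset.mem_inter, Finset.mem_image] at hh
    obtain ⟨h1, c, h2, rfl⟩ := hh
    have h3 : (b * c) • v0 ∈ C := (Finset.mem_filter.1 h1).2
    have h4 : c • v0 ∈ C := (Finset.mem_filter.1 h2).2
    have h5 : Relation.ReflTransGen (StepIn Y Hvᶜ) (c • v0) v :=
      (giant_symm hv0 h4).2.trans hv
    have h6 := hstep _ _ h5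
    rw [← mul_smul] at h6
    exact Relation.ReflTransGen.trans h3 h6

end Pool.Agent.H16.PSL
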