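import Pool.Agent.H16.PSL.SubLP

/-!
Subtask Growth (helper16, MP_d4104f_co Q2): (Matrix.SpecialLinearGroup (Fin 2) F)(2,p) has small diameter w.r.t. a length function vanishing on many
diagonal elements.   Uses theorem `lp` of SubLP.lean.

Notation: S = (Matrix.SpecialLinearGroup (Fin 2) F)(2,Z/p), |S| = p(p-1)(p+1) < p³, Ball r = {ℓ ≤ r}, s(r) = |Ball r|, T₀ = diagonal matrices.
(0) intermediate values: for n ≤ ℓ g there is h with n ≤ ℓ h ≤ n+2 (closure induction, steps of length ≤ 3).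
(1) linear growth: suppose some g has 100 ℓ g > p.  Take h_j (j ≤ n, n = ⌊ℓ g/(2r+4)⌋) with
    j(2r+4) ≤ ℓ h_j ≤ j(2r+4)+2; the sets h_j Ball r are disjoint; so (n+1) s(r) ≤ |S| and s(r) ≤ 200 (r+2) p².
(2) `lp` for A = Ball R (R ≥ 3; A^5 ⊆ Ball 5R; A generates, so it fixes no line).  Fix r, M := s(20r+30).
    P(h): some a ∈ h T₀ h⁻¹ has ℓ a ≤ 2r+6 and tr a ∉ {0,2,-2}.
    P(h) ⇒ the map Ball r → Ball(4r+6) ∩ {tr = tr a}, g ↦ g a g⁻¹ has fibres of size ≤ |Ball(2r) ∩ C(a)|, C(a) = h T₀ h⁻¹, so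
    with τ_h = |Ball(2r) ∩ h T₀ h⁻¹|:  s(r)^4 ≤ 60 M³ τ_h^4.
    If s(r)^4 > 60 M³ 4^4 then τ_h ≥ 5, so for ℓ x ≤ 3, x (Ball(2r) ∩ hT₀h⁻¹) x⁻¹ ⊆ Ball(2r+6) ∩ (xh)T₀(xh)⁻¹ has ≥ 5
    elements, one of them has trace ∉ {0,±2} (at most 4 diagonal matrices have trace in {0,±2}): P(xh).
    P(1) holds because ≥ q0 ≥ 5 diagonal elements have length 0.  So P(h) for all h ∈ S (closure induction).
(3) double counting pairs (h, a), a ∈ Ball(2r) ∩ hT₀h⁻¹, a ≠ ±1: for given a ≠ ±1 at most 2(p-1) h's; so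
    |S| (τ_min - 2) ≤ 2(p-1) s(2r), τ_min p² ≤ 4 s(2r) ≤ 4M  (τ_min ≥ 5).
    Conclusion: for every r: s(r)^4 ≤ 15360 M³  or  p^8 s(r)^4 ≤ 15360 M^7, M = s(20r+30).
(4) K := 20^6.  If s(20r+30) ≤ K s(r): either s(r) ≤ 15360 K³, or p^8 ≤ 15360 K^7 s(r)³ ≤ 15360 K^7 (200(r+2))³ p^6.
    Let r_0 = 0, r_{j+1} = 20 r_j + 30, so r_j + 2 ≤ 3·20^j.  With q0 := 15360 K³ + 1 and c₁ := 15360·K^7·200³·27:
    as long as c₁ 20^{3i} < p² for all i < j we get s(r_j) ≥ K^j.  Take the first j with c₁ 20^{3j} ≥ p²: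
    s(r_j) ≥ 20^{6j} ≥ p⁴/c₁² ≥ p³ for p ≥ c₁²: contradiction with s ≤ |S| < p³.
(all constants are free: only ∃ q0 p0 is claimed.)
-/

set_option autoImplicit false

namespace Pool.Agent.H16.PSL

/-- a length function whose ball of radius 3 generates -/
structure PLen {G : Type*} [Group G] (ℓ : G → ℕ) : Prop where
  one : ℓ 1 = 0
  inv : ∀ g, ℓ g⁻¹ = ℓ g
  mul : ∀ g h, ℓ (g * h) ≤ ℓ g + ℓ h
  gen : Subgroup.closure {g | ℓ g ≤ 3} = ⊤

section grp
variable {G : Type*} [Group G] {ℓ : G → ℕ}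

theorem PLen.induction (H : PLen ℓ) {P : G → Prop} (h1 : P 1)
    (hm : ∀ x y, ℓ x ≤ 3 → P y → P (x * y)) (g : G) : P g := by
  have hg : g ∈ Subgroup.closure {g | ℓ g ≤ 3} := by rw [H.gen]; trivial
  induction hg using Subgroup.closure_induction_left with
  | one => exact h1
  | mul_left x hx y _ ih => exact hm x y hx ih
  | inv_mul_cancel x hx y _ ih => exact hm x⁻¹ y (by rw [H.inv]; exact hx) ih

theorem PLen.between (H : PLen ℓ) (g : G) : ∀ n ≤ ℓ g, ∃ x, n ≤ ℓ x ∧ ℓ x ≤ n + 2 := by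
  refine H.induction (P := fun g => ∀ n ≤ ℓ g, ∃ x, n ≤ ℓ x ∧ ℓ x ≤ n + 2) ?_ ?_ g
  · intro n hn
    rw [H.one] at hn
    exact ⟨1, by rw [H.one]; omega, by rw [H.one]; omega⟩
  · intro x y hx ih n hn
    by_cases h : n ≤ ℓ y
    · exact ih n h
    · refine ⟨x * y, hn, ?_⟩
      have := H.mul x y
      omega

/-- the ball of radius `r` -/
noncomputable def Ball [Fintype G] (ℓ : G → ℕ) (r : ℕ) : Finset G := Finset.univ.filter (fun g => ℓ g ≤ r)

omit [Group G] in
theorem mem_Ball [Fintype G] {r : ℕ} {g : G} : g ∈ Ball ℓ r ↔ ℓ g ≤ r := by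
  simp [Ball]

omit [Group G] in
theorem Ball_mono [Fintype G] {r s : ℕ} (h : r ≤ s) : Ball ℓ r ⊆ Ball ℓ s := by
  intro g hg
  rw [mem_Ball] at *
  omega

theorem PLen.linear [Fintype G] (H : PLen ℓ) {g : G} {N : ℕ} (hN : N < 100 * ℓ g) (r : ℕ) :
    N * (Ball ℓ r).card ≤ 200 * (r + 2) * Fintype.card G := by
  classical
  set n := ℓ g / (2 * r + 4) with hn
  have hd : n * (2 * r + 4) ≤ ℓ g := Nat.div_mul_le_self _ _
  have hd2 : ℓ g < (n + 1) * (2 * r + 4) := by
    have := Nat.lt_div_mul_add (a := ℓ g) (b := 2 * r + 4) (by omega)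
    rw [← hn] at this
    nlinarith
  have hex : ∀ j : ℕ, j ≤ n → ∃ x, j * (2 * r + 4) ≤ ℓ x ∧ ℓ x ≤ j * (2 * r + 4) + 2 := by
    intro j hj
    exact H.between g _ (le_trans (Nat.mul_le_mul_right _ hj) hd)
  choose! x hx1 hx2 using hex
  have hcard : (n + 1) * (Ball ℓ r).card ≤ Fintype.card G := by
    have := Finset.card_le_card_of_injOn (s := Finset.range (n + 1) ×ˢ Ball ℓ r)
      (t := (Finset.univ : Finset G)) (fun q => x q.1 * q.2) (by intro q _; simp) (by
        have key : ∀ j k : ℕ, j ≤ n → k ≤ n → ∀ b b' : G, ℓ b ≤ r → ℓ b' ≤ r → x j * b = x k * b' → ¬ j < k := by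
          intro j k hj hk b b' hb hb' he hjk
          have h1 : x k = x j * (b * b'⁻¹) := by
            rw [← mul_assoc, he]; group
          have h2 := H.mul (x j) (b * b'⁻¹)
          have h3 := H.mul b b'⁻¹
          rw [H.inv] at h3
          rw [← h1] at h2
          have h4 := hx1 k hk
          have h5 := hx2 j hj
          have h6 : (j + 1) * (2 * r + 4) ≤ k * (2 * r + 4) := Nat.mul_le_mul_right _ hjk
          have h7 : (j + 1) * (2 * r + 4) = j * (2 * r + 4) + (2 * r + 4) := by ring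
          omega
        rintro ⟨j, b⟩ hjb ⟨k, b'⟩ hkb' he
        simp only [Finset.coe_product, Set.mem_prod, Finset.mem_coe, Finset.mem_range, mem_Ball] at hjb hkb'
        simp only at he
        have e1 := key j k (by omega) (by omega) b b' hjb.2 hkb'.2 he
        have e2 := key k j (by omega) (by omega) b' b hkb'.2 hjb.2 he.symm
        have e3 : j = k := by omega
        subst e3
        have e4 := mul_left_cancel he
        rw [e4])
    rw [Finset.card_product, Finset.card_range, Finset.card_univ] at this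
    exact this
  calc N * (Ball ℓ r).card ≤ (200 * (r + 2) * (n + 1)) * (Ball ℓ r).card := by
        apply Nat.mul_le_mul_right
        nlinarith
    _ = 200 * (r + 2) * ((n + 1) * (Ball ℓ r).card) := by ring
    _ ≤ _ := Nat.mul_le_mul_left _ hcard

end grp

section field
variable {F : Type*} [Field F]

theorem fixes_of_eig {g : (Matrix.SpecialLinearGroup (Fin 2) F)} {e : Fin 2 → F} {c : F} (h : g • e = c • e) : fixes g e := by
  unfold fixes
  rw [h]
  simp only [Pi.smul_apply, smul_eq_mul]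
  ring

theorem eig_of_fixes {g : (Matrix.SpecialLinearGroup (Fin 2) F)} {e : Fin 2 → F} (he : e ≠ 0) (h : fixes g e) : ∃ c : F, g • e = c • e := by
  unfold fixes at h
  by_cases h0 : e 0 = 0
  · have h1 : e 1 ≠ 0 := by
      intro h1
      apply he
      funext i
      fin_cases i
      · exact h0
      · exact h1
    refine ⟨(g • e) 1 / e 1, ?_⟩
    funext i
    fin_cases i
    · have : (g • e) 0 = 0 := by
        rw [h0, mul_zero, sub_zero] at h
        exact (mul_eq_zero.1 h).resolve_right h1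
      show (g • e) 0 = ((g • e) 1 / e 1) * e 0
      rw [this, h0, mul_zero]
    · show (g • e) 1 = ((g • e) 1 / e 1) * e 1
      field_simp
  · refine ⟨(g • e) 0 / e 0, ?_⟩
    funext i
    fin_cases i
    · show (g • e) 0 = ((g • e) 0 / e 0) * e 0
      field_simp
    · show (g • e) 1 = ((g • e) 0 / e 0) * e 1
      field_simp
      linear_combination -h

/-- the lower unipotent element -/
def ll1 : (Matrix.SpecialLinearGroup (Fin 2) F) := ⟨!![1, 0; 1, 1], by simp [Matrix.det_fin_two]⟩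
theorem ll00 : (ll1 : (Matrix.SpecialLinearGroup (Fin 2) F)) 0 0 = 1 := rfl
theorem ll01 : (ll1 : (Matrix.SpecialLinearGroup (Fin 2) F)) 0 1 = 0 := rfl
theorem ll10 : (ll1 : (Matrix.SpecialLinearGroup (Fin 2) F)) 1 0 = 1 := rfl
theorem ll11 : (ll1 : (Matrix.SpecialLinearGroup (Fin 2) F)) 1 1 = 1 := rfl

/-- the ball of radius 3 fixes no line -/
theorem PLen.no_line {ℓ : (Matrix.SpecialLinearGroup (Fin 2) F) → ℕ} (H : PLen ℓ) {e : Fin 2 → F} (he : e ≠ 0) : ∃ g : (Matrix.SpecialLinearGroup (Fin 2) F), ℓ g ≤ 3 ∧ ¬ fixes g e := by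
  by_contra hc
  push Not at hc
  have hall : ∀ g : (Matrix.SpecialLinearGroup (Fin 2) F), ∃ c : F, g • e = c • e := by
    intro g
    refine H.induction (P := fun g => ∃ c : F, g • e = c • e) ⟨1, by simp⟩ ?_ g
    rintro x y hx ⟨c, hc'⟩
    obtain ⟨d, hd⟩ := eig_of_fixes he (hc x hx)
    refine ⟨c * d, ?_⟩
    rw [mul_smul, hc', smul_comm, hd, smul_smul]
  have h1 : fixes (uu 1 : (Matrix.SpecialLinearGroup (Fin 2) F)) e := by
    obtain ⟨c, hc⟩ := hall (uu 1)
    exact fixes_of_eig hc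
  have h2 : fixes (ll1 : (Matrix.SpecialLinearGroup (Fin 2) F)) e := by
    obtain ⟨c, hc⟩ := hall _
    exact fixes_of_eig hc
  unfold fixes at h1 h2
  rw [smul0, smul1] at h1 h2
  rw [uu00, uu01, uu10, uu11] at h1
  rw [ll00, ll01, ll10, ll11] at h2
  apply he
  have h3 : e 1 = 0 := by
    have : e 1 * e 1 = 0 := by linear_combination h1
    exact mul_self_eq_zero.1 this
  have h4 : e 0 = 0 := by
    have : e 0 * e 0 = 0 := by linear_combination -h2
    exact mul_self_eq_zero.1 this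
  funext i
  fin_cases i
  · exact h4
  · exact h3

theorem tr_conj (g a : (Matrix.SpecialLinearGroup (Fin 2) F)) : (g * a * g⁻¹) 0 0 + (g * a * g⁻¹) 1 1 = a 0 0 + a 1 1 := by
  rw [mul00, mul11, mul00, mul01, mul10, mul11, inv00, inv01, inv10, inv11]
  linear_combination (a 0 0 + a 1 1) * det_eq g

theorem comm_diag {c d : (Matrix.SpecialLinearGroup (Fin 2) F)} (h01 : d 0 1 = 0) (h10 : d 1 0 = 0) (hne : d 0 0 ≠ d 1 1)
    (hc : c * d = d * c) : c 0 1 = 0 ∧ c 1 0 = 0 := by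
  have e1 : (c * d) 0 1 = (d * c) 0 1 := by rw [hc]
  have e2 : (c * d) 1 0 = (d * c) 1 0 := by rw [hc]
  rw [mul01, mul01, h01] at e1
  rw [mul10, mul10, h10] at e2
  constructor
  · have : c 0 1 * (d 1 1 - d 0 0) = 0 := by linear_combination e1
    rcases mul_eq_zero.1 this with h | h
    · exact h
    · exact absurd (by linear_combination -h) hne
  · have : c 1 0 * (d 0 0 - d 1 1) = 0 := by linear_combination e2
    rcases mul_eq_zero.1 this with h | h
    · exact h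
    · exact absurd (by linear_combination h) hne

theorem diag_ext {c d : (Matrix.SpecialLinearGroup (Fin 2) F)} (hc : c 0 1 = 0 ∧ c 1 0 = 0) (hd : d 0 1 = 0 ∧ d 1 0 = 0) (h : c 0 0 = d 0 0) : c = d := by
  have e1 := det_eq c
  have e2 := det_eq d
  rw [hc.1, zero_mul, sub_zero] at e1
  rw [hd.1, zero_mul, sub_zero] at e2
  have h0 : d 0 0 ≠ 0 := by
    intro h0
    rw [h0, zero_mul] at e2
    exact zero_ne_one e2
  apply ext4 h (by rw [hc.1, hd.1]) (by rw [hc.2, hd.2])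
  apply mul_left_cancel₀ h0
  rw [e2, ← h, e1]

/-- bounded number of diagonal elements with `d₀₀⁴ = 1` -/
theorem card_diag4 [Fintype F] [DecidableEq F] (s : Finset (Matrix.SpecialLinearGroup (Fin 2) F)) (hs : ∀ d ∈ s, (d 0 1 = 0 ∧ d 1 0 = 0) ∧ (d 0 0) ^ 4 = 1) :
    s.card ≤ 4 := by
  calc s.card ≤ ((Polynomial.nthRoots 4 (1 : F)).toFinset).card := by
        apply Finset.card_le_card_of_injOn (fun d => d 0 0)
        · intro d hd
          simp only [Finset.mem_coe, Multiset.mem_toFinset]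
          rw [Polynomial.mem_nthRoots (by norm_num)]
          exact (hs d hd).2
        · intro c hc d hd h
          exact diag_ext (hs c hc).1 (hs d hd).1 h
    _ ≤ Multiset.card (Polynomial.nthRoots 4 (1 : F)) := Multiset.toFinset_card_le _
    _ ≤ 4 := Polynomial.card_nthRoots 4 1

theorem card_diag2 [Fintype F] [DecidableEq F] (s : Finset (Matrix.SpecialLinearGroup (Fin 2) F)) (hs : ∀ d ∈ s, (d 0 1 = 0 ∧ d 1 0 = 0) ∧ (d 0 0) ^ 2 = 1) :
    s.card ≤ 2 := by
  calc s.card ≤ ((Polynomial.nthRoots 2 (1 : F)).toFinset).card := by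
        apply Finset.card_le_card_of_injOn (fun d => d 0 0)
        · intro d hd
          simp only [Finset.mem_coe, Multiset.mem_toFinset]
          rw [Polynomial.mem_nthRoots (by norm_num)]
          exact (hs d hd).2
        · intro c hc d hd h
          exact diag_ext (hs c hc).1 (hs d hd).1 h
    _ ≤ Multiset.card (Polynomial.nthRoots 2 (1 : F)) := Multiset.toFinset_card_le _
    _ ≤ 2 := Polynomial.card_nthRoots 2 1

theorem card_SL_le [Fintype F] [DecidableEq F] : Fintype.card (Matrix.SpecialLinearGroup (Fin 2) F) ≤ 2 * (Fintype.card F) ^ 3 := by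
  have h : Fintype.card (Matrix.SpecialLinearGroup (Fin 2) F) ≤ Fintype.card (F × F × F × Bool) := by
    apply Fintype.card_le_of_injective
      (fun g : (Matrix.SpecialLinearGroup (Fin 2) F) => if g 0 0 = 0 then (g 0 1, g 1 1, (0 : F), false) else (g 0 0, g 0 1, g 1 0, true))
    intro g h hgh
    simp only at hgh
    have e1 := det_eq g
    have e2 := det_eq h
    by_cases hg : g 0 0 = 0 <;> by_cases hh : h 0 0 = 0
    · simp only [hg, hh, if_true, Prod.mk.injEq] at hgh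
      apply ext4 (by rw [hg, hh]) hgh.1 ?_ hgh.2.1
      rw [hg, zero_mul, zero_sub] at e1
      rw [hh, zero_mul, zero_sub] at e2
      have h0 : h 0 1 ≠ 0 := by
        intro h0
        rw [h0, zero_mul, neg_zero] at e2
        exact zero_ne_one e2
      apply mul_left_cancel₀ h0
      rw [hgh.1] at e1
      linear_combination e2 - e1
    · simp [hg, hh] at hgh
    · simp [hg, hh] at hgh
    · simp only [hg, hh, if_false, Prod.mk.injEq] at hgh
      apply ext4 hgh.1 hgh.2.1 hgh.2.2.1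
      apply mul_left_cancel₀ hh
      rw [hgh.1, hgh.2.1, hgh.2.2.1] at e1
      linear_combination e1 - e2
  refine h.trans (le_of_eq ?_)
  simp only [Fintype.card_prod, Fintype.card_bool]
  ring

theorem le_card_SL [Fintype F] [DecidableEq F] : (Fintype.card F - 1) * (Fintype.card F) ^ 2 ≤ Fintype.card (Matrix.SpecialLinearGroup (Fin 2) F) := by
  have h : Fintype.card (Fˣ × F × F) ≤ Fintype.card (Matrix.SpecialLinearGroup (Fin 2) F) := by
    apply Fintype.card_le_of_injective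
      (fun q : Fˣ × F × F => (⟨!![(q.1 : F), q.2.1; q.2.2, (1 + q.2.1 * q.2.2) * ((q.1⁻¹ : Fˣ) : F)], by
        rw [Matrix.det_fin_two_of]
        have : (q.1 : F) * ((q.1⁻¹ : Fˣ) : F) = 1 := by simp
        linear_combination (1 + q.2.1 * q.2.2) * this⟩ : (Matrix.SpecialLinearGroup (Fin 2) F)))
    rintro ⟨a, b, c⟩ ⟨a', b', c'⟩ h
    have e1 := congrArg (fun g : (Matrix.SpecialLinearGroup (Fin 2) F) => g 0 0) h
    have e2 := congrArg (fun g : (Matrix.SpecialLinearGroup (Fin 2) F) => g 0 1) h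
    have e3 := congrArg (fun g : (Matrix.SpecialLinearGroup (Fin 2) F) => g 1 0) h
    simp at e1 e2 e3
    rw [Prod.mk.injEq, Prod.mk.injEq]
    exact ⟨Units.ext e1, e2, e3⟩
  simp only [Fintype.card_prod, Fintype.card_units] at h
  calc _ = (Fintype.card F - 1) * (Fintype.card F * Fintype.card F) := by ring
    _ ≤ _ := h

theorem card_diag [Fintype F] [DecidableEq F] (s : Finset (Matrix.SpecialLinearGroup (Fin 2) F)) (hs : ∀ d ∈ s, (d 0 1 = 0 ∧ d 1 0 = 0)) :
    s.card ≤ Fintype.card F - 1 := by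
  rw [← Fintype.card_units, ← Finset.card_univ]
  have hne : ∀ d : (Matrix.SpecialLinearGroup (Fin 2) F), d 0 1 = 0 ∧ d 1 0 = 0 → d 0 0 ≠ 0 := by
    intro d hd h0
    have := det_eq d
    rw [h0, hd.1] at this
    simp at this
  apply Finset.card_le_card_of_injOn (fun d => if h : d 0 1 = 0 ∧ d 1 0 = 0 then Units.mk0 (d 0 0) (hne d h) else 1)
  · intro d _
    simp
  · intro c hc d hd h
    simp only [hs c hc, hs d hd] at h
    simp at h
    exact diag_ext (hs c hc) (hs d hd) h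

end field



section main
variable {F : Type*} [Field F] [Fintype F] [DecidableEq F]

open scoped Pointwise

theorem lp_ball (h2 : (2 : F) ≠ 0) {ℓ : (Matrix.SpecialLinearGroup (Fin 2) F) → ℕ} (H : PLen ℓ) {R : ℕ} (hR : 3 ≤ R) (t : F) (ht0 : t ≠ 0)
    (ht2 : t ≠ 2) (ht2' : t ≠ -2) :
    ((Ball ℓ R).filter (fun x => x 0 0 + x 1 1 = t)).card ^ 4 ≤ 60 * (Ball ℓ (5 * R)).card ^ 3 := by
  have h := lp h2 (Ball ℓ R) (by rw [mem_Ball, H.one]; omega) (by
    intro a ha
    rw [mem_Ball, H.inv]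
    exact mem_Ball.1 ha) (by
    intro e he
    obtain ⟨g, hg, hf⟩ := H.no_line he
    exact ⟨g, mem_Ball.2 (hg.trans hR), hf⟩) t ht0 ht2 ht2'
  refine h.trans (Nat.mul_le_mul_left _ (Nat.pow_le_pow_left (Finset.card_le_card ?_) 3))
  intro x hx
  rw [Finset.mem_mul] at hx
  obtain ⟨y, hy, a5, h5, rfl⟩ := hx
  rw [Finset.mem_mul] at hy
  obtain ⟨z, hz, a4, h4, rfl⟩ := hy
  rw [Finset.mem_mul] at hz
  obtain ⟨u, hu, a3, h3, rfl⟩ := hz
  rw [Finset.mem_mul] at hu
  obtain ⟨a1, h1, a2, h2', rfl⟩ := hu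
  rw [mem_Ball] at *
  have e1 := H.mul a1 a2
  have e2 := H.mul (a1 * a2) a3
  have e3 := H.mul (a1 * a2 * a3) a4
  have e4 := H.mul (a1 * a2 * a3 * a4) a5
  omega

/-- traces allowed in `lp` -/
def tgood (t : F) : Prop := t ≠ 0 ∧ t ≠ 2 ∧ t ≠ -2

/-- diagonal -/
def isd (d : (Matrix.SpecialLinearGroup (Fin 2) F)) : Prop := d 0 1 = 0 ∧ d 1 0 = 0

/-- a short regular element of `h T₀ h⁻¹` -/
def PP (ℓ : (Matrix.SpecialLinearGroup (Fin 2) F) → ℕ) (r : ℕ) (h : (Matrix.SpecialLinearGroup (Fin 2) F)) : Prop :=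
  ∃ d : (Matrix.SpecialLinearGroup (Fin 2) F), isd d ∧ ℓ (h * d * h⁻¹) ≤ 2 * r + 6 ∧ tgood (d 0 0 + d 1 1)

open Classical in
/-- short elements of `h T₀ h⁻¹` -/
noncomputable def TT (ℓ : (Matrix.SpecialLinearGroup (Fin 2) F) → ℕ) (r : ℕ) (h : (Matrix.SpecialLinearGroup (Fin 2) F)) : Finset (Matrix.SpecialLinearGroup (Fin 2) F) :=
  Finset.univ.filter (fun d => isd d ∧ ℓ (h * d * h⁻¹) ≤ 2 * r)

omit [DecidableEq F] in
theorem mem_TT {ℓ : (Matrix.SpecialLinearGroup (Fin 2) F) → ℕ} {r : ℕ} {h d : (Matrix.SpecialLinearGroup (Fin 2) F)} [DecidableEq F] : d ∈ TT ℓ r h ↔ isd d ∧ ℓ (h * d * h⁻¹) ≤ 2 * r := by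
  simp [TT]

omit [Fintype F] [DecidableEq F] in
theorem isd_det {d : (Matrix.SpecialLinearGroup (Fin 2) F)} (hd : isd d) : d 0 0 * d 1 1 = 1 := by
  have := det_eq d
  rw [hd.1] at this
  linear_combination this

omit [Fintype F] [DecidableEq F] in
theorem good_of_not4 {d : (Matrix.SpecialLinearGroup (Fin 2) F)} (hd : isd d) (h : (d 0 0) ^ 4 ≠ 1) : tgood (d 0 0 + d 1 1) := by
  have h1 := isd_det hd
  refine ⟨fun h0 => h ?_, fun h0 => h ?_, fun h0 => h ?_⟩
  · have e : d 1 1 = - d 0 0 := by linear_combination h0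
    rw [e] at h1
    have e2 : d 0 0 ^ 2 = -1 := by linear_combination -h1
    calc d 0 0 ^ 4 = (d 0 0 ^ 2) ^ 2 := by ring
      _ = 1 := by rw [e2]; ring
  · have e : d 1 1 = 2 - d 0 0 := by linear_combination h0
    rw [e] at h1
    have e2 : (d 0 0 - 1) ^ 2 = 0 := by linear_combination -h1
    have e3 : d 0 0 = 1 := by linear_combination (pow_eq_zero_iff two_ne_zero).1 e2
    rw [e3]; ring
  · have e : d 1 1 = -2 - d 0 0 := by linear_combination h0
    rw [e] at h1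
    have e2 : (d 0 0 + 1) ^ 2 = 0 := by linear_combination -h1
    have e3 : d 0 0 = -1 := by linear_combination (pow_eq_zero_iff two_ne_zero).1 e2
    rw [e3]; ring

omit [Fintype F] [DecidableEq F] in
theorem ne_of_good {d : (Matrix.SpecialLinearGroup (Fin 2) F)} (hd : isd d) (h : tgood (d 0 0 + d 1 1)) : d 0 0 ≠ d 1 1 := by
  intro he
  have h1 := isd_det hd
  rw [← he] at h1
  have h2 : (d 0 0 - 1) * (d 0 0 + 1) = 0 := by linear_combination h1
  rcases mul_eq_zero.1 h2 with h3 | h3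
  · apply h.2.1
    rw [← he]; linear_combination 2 * h3
  · apply h.2.2
    rw [← he]; linear_combination 2 * h3

theorem fib (h2 : (2 : F) ≠ 0) {ℓ : (Matrix.SpecialLinearGroup (Fin 2) F) → ℕ} (H : PLen ℓ) {r : ℕ} {h : (Matrix.SpecialLinearGroup (Fin 2) F)} (hP : PP ℓ r h) :
    (Ball ℓ r).card ^ 4 ≤ 60 * (Ball ℓ (20 * r + 30)).card ^ 3 * (TT ℓ r h).card ^ 4 := by
  obtain ⟨d, hd, hl, hg⟩ := hP
  have hne := ne_of_good hd hg
  set a := h * d * h⁻¹ with ha
  have hta : a 0 0 + a 1 1 = d 0 0 + d 1 1 := tr_conj h d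
  have hR := lp_ball h2 H (R := 4 * r + 6) (by omega) (a 0 0 + a 1 1) (by rw [hta]; exact hg.1)
    (by rw [hta]; exact hg.2.1) (by rw [hta]; exact hg.2.2)
  have h5 : 5 * (4 * r + 6) = 20 * r + 30 := by ring
  rw [h5] at hR
  have hc : (Ball ℓ r).card ≤ (TT ℓ r h).card *
      ((Ball ℓ (4 * r + 6)).filter (fun x => x 0 0 + x 1 1 = a 0 0 + a 1 1)).card := by
    apply Finset.card_le_mul_card_image_of_maps_to (f := fun g => g * a * g⁻¹)
    · intro g hg'
      rw [mem_Ball] at hg'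
      rw [Finset.mem_filter, mem_Ball]
      refine ⟨?_, tr_conj g a⟩
      have e1 := H.mul (g * a) g⁻¹
      have e2 := H.mul g a
      have e3 := H.inv g
      omega
    · intro b hb
      by_cases hemp : ((Ball ℓ r).filter (fun g => g * a * g⁻¹ = b)).Nonempty
      · obtain ⟨g₀, hg₀⟩ := hemp
        rw [Finset.mem_filter, mem_Ball] at hg₀
        apply Finset.card_le_card_of_injOn (fun g => h⁻¹ * (g₀⁻¹ * g) * h)
        · intro g hg'
          rw [Finset.mem_coe, Finset.mem_filter, mem_Ball] at hg'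
          rw [Finset.mem_coe, mem_TT]
          constructor
          · apply comm_diag hd.1 hd.2 hne
            have e : g * a * g⁻¹ = g₀ * a * g₀⁻¹ := by rw [hg'.2, hg₀.2]
            rw [ha] at e
            have e2 : g₀⁻¹ * (g * (h * d * h⁻¹) * g⁻¹) * g = g₀⁻¹ * (g₀ * (h * d * h⁻¹) * g₀⁻¹) * g := by rw [e]
            have e3 : h⁻¹ * (g₀⁻¹ * (g * (h * d * h⁻¹) * g⁻¹) * g) * h = h⁻¹ * (g₀⁻¹ * (g₀ * (h * d * h⁻¹) * g₀⁻¹) * g) * h := by rw [e2]
            calc h⁻¹ * (g₀⁻¹ * g) * h * d = h⁻¹ * (g₀⁻¹ * (g * (h * d * h⁻¹) * g⁻¹) * g) * h := by group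
              _ = h⁻¹ * (g₀⁻¹ * (g₀ * (h * d * h⁻¹) * g₀⁻¹) * g) * h := e3
              _ = d * (h⁻¹ * (g₀⁻¹ * g) * h) := by group
          · have e : h * (h⁻¹ * (g₀⁻¹ * g) * h) * h⁻¹ = g₀⁻¹ * g := by group
            rw [e]
            have e1 := H.mul g₀⁻¹ g
            have e2 := H.inv g₀
            omega
        · intro g _ g' _ he
          simp only at he
          have := mul_right_cancel he
          have := mul_left_cancel this
          exact mul_left_cancel this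
      · rw [Finset.not_nonempty_iff_eq_empty] at hemp
        rw [hemp]; simp
  calc (Ball ℓ r).card ^ 4 ≤ ((TT ℓ r h).card *
      ((Ball ℓ (4 * r + 6)).filter (fun x => x 0 0 + x 1 1 = a 0 0 + a 1 1)).card) ^ 4 := Nat.pow_le_pow_left hc 4
    _ = ((Ball ℓ (4 * r + 6)).filter (fun x => x 0 0 + x 1 1 = a 0 0 + a 1 1)).card ^ 4 * (TT ℓ r h).card ^ 4 := by ring
    _ ≤ _ := Nat.mul_le_mul_right _ hR

theorem exists_good (s : Finset (Matrix.SpecialLinearGroup (Fin 2) F)) (hs : ∀ d ∈ s, isd d) (h5 : 5 ≤ s.card) :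
    ∃ d ∈ s, tgood (d 0 0 + d 1 1) := by
  by_contra hc
  push Not at hc
  have : s.card ≤ 4 := by
    apply card_diag4
    intro d hd
    refine ⟨hs d hd, ?_⟩
    by_contra h4
    exact hc d hd (good_of_not4 (hs d hd) h4)
  omega

theorem PP_step {ℓ : (Matrix.SpecialLinearGroup (Fin 2) F) → ℕ} (H : PLen ℓ) {r : ℕ} {h x : (Matrix.SpecialLinearGroup (Fin 2) F)} (hx : ℓ x ≤ 3)
    (hT : 5 ≤ (TT ℓ r h).card) : PP ℓ r (x * h) := by
  obtain ⟨d, hd, hg⟩ := exists_good (TT ℓ r h) (fun d hd => (mem_TT.1 hd).1) hT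
  rw [mem_TT] at hd
  refine ⟨d, hd.1, ?_, hg⟩
  have e : x * h * d * (x * h)⁻¹ = x * (h * d * h⁻¹) * x⁻¹ := by group
  rw [e]
  have e1 := H.mul (x * (h * d * h⁻¹)) x⁻¹
  have e2 := H.mul x (h * d * h⁻¹)
  have e3 := H.inv x
  omega

omit [Fintype F] [DecidableEq F] in
theorem eq_or_inv {d e : (Matrix.SpecialLinearGroup (Fin 2) F)} (hd : isd d) (he : isd e) (ht : d 0 0 + d 1 1 = e 0 0 + e 1 1) : d = e ∨ d = e⁻¹ := by
  have h1 := isd_det hd
  have h2 := isd_det he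
  have h3 : (d 0 0 - e 0 0) * (d 0 0 - e 1 1) = 0 := by
    linear_combination (d 0 0) * ht - h1 + h2
  rcases mul_eq_zero.1 h3 with h | h
  · left
    exact diag_ext hd he (by linear_combination h)
  · right
    refine diag_ext hd ⟨?_, ?_⟩ ?_
    · rw [inv01, he.1, neg_zero]
    · rw [inv10, he.2, neg_zero]
    · rw [inv00]; linear_combination h

/-- double counting -/
theorem dc {ℓ : (Matrix.SpecialLinearGroup (Fin 2) F) → ℕ} {r τ : ℕ} (hτ : ∀ h, τ ≤ (TT ℓ r h).card) :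
    (Fintype.card F) ^ 2 * (τ - 2) ≤ 2 * (Ball ℓ (2 * r)).card := by
  classical
  set U : Finset (Σ _ : (Matrix.SpecialLinearGroup (Fin 2) F), (Matrix.SpecialLinearGroup (Fin 2) F)) := (Finset.univ : Finset (Matrix.SpecialLinearGroup (Fin 2) F)).sigma
    (fun h => (TT ℓ r h).filter (fun d => d 0 0 ≠ d 1 1)) with hU
  have hlow : Fintype.card (Matrix.SpecialLinearGroup (Fin 2) F) * (τ - 2) ≤ U.card := by
    rw [hU, Finset.card_sigma]
    calc Fintype.card (Matrix.SpecialLinearGroup (Fin 2) F) * (τ - 2) = (Finset.univ : Finset (Matrix.SpecialLinearGroup (Fin 2) F)).card • (τ - 2) := by rw [Finset.card_univ, smul_eq_mul]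
      _ ≤ _ := by
        apply Finset.card_nsmul_le_sum
        intro h _
        have e1 : ((TT ℓ r h).filter (fun d => d 0 0 ≠ d 1 1)).card + ((TT ℓ r h).filter (fun d => ¬ d 0 0 ≠ d 1 1)).card
          = (TT ℓ r h).card := Finset.card_filter_add_card_filter_not _
        have e2 : ((TT ℓ r h).filter (fun d => ¬ d 0 0 ≠ d 1 1)).card ≤ 2 := by
          apply card_diag2
          intro d hd
          rw [Finset.mem_filter, mem_TT, not_not] at hd
          refine ⟨hd.1.1, ?_⟩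
          have := isd_det hd.1.1
          rw [← hd.2] at this
          rw [pow_two]; exact this
        have := hτ h
        omega
  have hsub : ∀ (b e : (Matrix.SpecialLinearGroup (Fin 2) F)), (U.filter (fun x => x.1 * x.2 * x.1⁻¹ = b ∧ x.2 = e)).card ≤ Fintype.card F - 1 := by
    intro b e
    by_cases hemp : (U.filter (fun x => x.1 * x.2 * x.1⁻¹ = b ∧ x.2 = e)).Nonempty
    · obtain ⟨⟨h₀, e'⟩, h0⟩ := hemp
      rw [Finset.mem_filter, hU, Finset.mem_sigma, Finset.mem_filter, mem_TT] at h0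
      obtain ⟨⟨_, ⟨hd1, hd2⟩, hne⟩, hb, he⟩ := h0
      simp only at hd1 hd2 hne hb he
      subst he
      refine le_trans (Finset.card_le_card_of_injOn (t := (Finset.univ : Finset (Matrix.SpecialLinearGroup (Fin 2) F)).filter (fun d => isd d)) (fun x => h₀⁻¹ * x.1) ?_ ?_) (card_diag _ ?_)
      · rintro ⟨h, d⟩ hx
        rw [Finset.mem_coe, Finset.mem_filter] at hx
        obtain ⟨hx1, hx2, hx3⟩ := hx
        simp only at hx2 hx3
        subst hx3
        rw [Finset.mem_coe, Finset.mem_filter]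
        refine ⟨Finset.mem_univ _, ?_⟩
        apply comm_diag hd1.1 hd1.2 hne
        simp only
        have e1 : h * d * h⁻¹ = h₀ * d * h₀⁻¹ := by rw [hx2, hb]
        calc h₀⁻¹ * h * d = h₀⁻¹ * (h * d * h⁻¹) * h := by group
          _ = h₀⁻¹ * (h₀ * d * h₀⁻¹) * h := by rw [e1]
          _ = d * (h₀⁻¹ * h) := by group
      · rintro ⟨h, d⟩ hx ⟨h', d'⟩ hx' heq
        rw [Finset.mem_coe, Finset.mem_filter] at hx hx'
        obtain ⟨hx1, hx2, hx3⟩ := hx
        obtain ⟨hx1', hx2', hx3'⟩ := hx'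
        simp only at hx3 hx3' heq
        subst hx3
        subst hx3'
        have := mul_left_cancel heq
        subst this
        rfl
      · intro d hd
        exact (Finset.mem_filter.1 hd).2
    · rw [Finset.not_nonempty_iff_eq_empty] at hemp
      rw [hemp]; simp
  have hup : U.card ≤ (2 * (Fintype.card F - 1)) * (Ball ℓ (2 * r)).card := by
    apply Finset.card_le_mul_card_image_of_maps_to (f := fun x : (Σ _ : (Matrix.SpecialLinearGroup (Fin 2) F), (Matrix.SpecialLinearGroup (Fin 2) F)) => x.1 * x.2 * x.1⁻¹)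
    · rintro ⟨h, d⟩ hx
      rw [hU, Finset.mem_sigma, Finset.mem_filter, mem_TT] at hx
      rw [mem_Ball]
      exact hx.2.1.2
    · intro b _
      by_cases hemp : (U.filter (fun x => x.1 * x.2 * x.1⁻¹ = b)).Nonempty
      · obtain ⟨⟨h₀, e⟩, h0⟩ := hemp
        rw [Finset.mem_filter, hU, Finset.mem_sigma, Finset.mem_filter, mem_TT] at h0
        obtain ⟨⟨_, ⟨hd1, hd2⟩, hne⟩, hb⟩ := h0
        simp only at hd1 hd2 hne hb
        have hsubset : U.filter (fun x => x.1 * x.2 * x.1⁻¹ = b) ⊆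
            (U.filter (fun x => x.1 * x.2 * x.1⁻¹ = b ∧ x.2 = e)) ∪ (U.filter (fun x => x.1 * x.2 * x.1⁻¹ = b ∧ x.2 = e⁻¹)) := by
          rintro ⟨h, d⟩ hx
          rw [Finset.mem_filter] at hx
          obtain ⟨hx1, hx2⟩ := hx
          have hx1' := hx1
          rw [hU, Finset.mem_sigma, Finset.mem_filter, mem_TT] at hx1'
          simp only at hx2 hx1'
          have htr : d 0 0 + d 1 1 = e 0 0 + e 1 1 := by
            rw [← tr_conj h d, ← tr_conj h₀ e, hx2, hb]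
          rw [Finset.mem_union, Finset.mem_filter, Finset.mem_filter]
          rcases eq_or_inv hx1'.2.1.1 hd1 htr with h1 | h1
          · left; exact ⟨hx1, hx2, h1⟩
          · right; exact ⟨hx1, hx2, h1⟩
        refine (Finset.card_le_card hsubset).trans ((Finset.card_union_le _ _).trans ?_)
        have := hsub b e
        have := hsub b e⁻¹
        omega
      · rw [Finset.not_nonempty_iff_eq_empty] at hemp
        rw [hemp]; simp
  have hq : 0 < Fintype.card F - 1 := by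
    have := Fintype.one_lt_card (α := F)
    omega
  have hall : (Fintype.card F - 1) * ((Fintype.card F) ^ 2 * (τ - 2)) ≤
      (Fintype.card F - 1) * (2 * (Ball ℓ (2 * r)).card) := by
    calc (Fintype.card F - 1) * ((Fintype.card F) ^ 2 * (τ - 2)) = ((Fintype.card F - 1) * (Fintype.card F) ^ 2) * (τ - 2) := by ring
      _ ≤ Fintype.card (Matrix.SpecialLinearGroup (Fin 2) F) * (τ - 2) := Nat.mul_le_mul_right _ le_card_SL
      _ ≤ U.card := hlow
      _ ≤ _ := hup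
      _ = _ := by ring
  exact Nat.le_of_mul_le_mul_left hall hq

theorem alt (h2 : (2 : F) ≠ 0) {ℓ : (Matrix.SpecialLinearGroup (Fin 2) F) → ℕ} (H : PLen ℓ) (s0 : Finset (Matrix.SpecialLinearGroup (Fin 2) F)) (hs0 : ∀ d ∈ s0, isd d ∧ ℓ d = 0)
    (h5 : 5 ≤ s0.card) (r : ℕ) :
    (Ball ℓ r).card ^ 4 ≤ 15360 * (Ball ℓ (20 * r + 30)).card ^ 3 ∨
    (Fintype.card F) ^ 8 * (Ball ℓ r).card ^ 4 ≤ 15360 * (Ball ℓ (20 * r + 30)).card ^ 7 := by
  by_contra hc
  push Not at hc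
  obtain ⟨hc1, hc2⟩ := hc
  set M := (Ball ℓ (20 * r + 30)).card with hM
  set s := (Ball ℓ r).card with hs
  have hT5 : ∀ h, PP ℓ r h → 5 ≤ (TT ℓ r h).card := by
    intro h hP
    by_contra hlt
    have h4 : (TT ℓ r h).card ≤ 4 := by omega
    have := fib h2 H hP
    rw [← hM, ← hs] at this
    have h6 : (TT ℓ r h).card ^ 4 ≤ 4 ^ 4 := Nat.pow_le_pow_left h4 4
    have h7 : 60 * M ^ 3 * (TT ℓ r h).card ^ 4 ≤ 60 * M ^ 3 * 4 ^ 4 := Nat.mul_le_mul_left _ h6
    have h8 : 60 * M ^ 3 * 4 ^ 4 = 15360 * M ^ 3 := by ring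
    omega
  have hP1 : PP ℓ r 1 := by
    obtain ⟨d, hd, hg⟩ := exists_good s0 (fun d hd => (hs0 d hd).1) h5
    refine ⟨d, (hs0 d hd).1, ?_, hg⟩
    rw [one_mul, inv_one, mul_one, (hs0 d hd).2]
    omega
  have hPall : ∀ h, PP ℓ r h := by
    intro h
    refine H.induction (P := fun h => PP ℓ r h) hP1 ?_ h
    intro x y hx hy
    exact PP_step H hx (hT5 y hy)
  obtain ⟨h₀, _, hmin⟩ := Finset.exists_min_image (Finset.univ : Finset (Matrix.SpecialLinearGroup (Fin 2) F)) (fun h => (TT ℓ r h).card) ⟨1, Finset.mem_univ _⟩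
  set τ := (TT ℓ r h₀).card with hτ
  have hdc := dc (ℓ := ℓ) (r := r) (τ := τ) (fun h => hmin h (Finset.mem_univ _))
  have hτ5 : 5 ≤ τ := hT5 h₀ (hPall h₀)
  have hM2 : (Ball ℓ (2 * r)).card ≤ M := Finset.card_le_card (Ball_mono (by omega))
  have hfib := fib h2 H (hPall h₀)
  rw [← hM, ← hs, ← hτ] at hfib
  have h1 : (Fintype.card F) ^ 2 * τ ≤ 4 * M := by
    obtain ⟨k, hk⟩ : ∃ k, τ = k + 2 := ⟨τ - 2, by omega⟩
    rw [hk] at hdc hτ5 ⊢
    rw [Nat.add_sub_cancel] at hdc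
    have h3 : 3 ≤ k := by omega
    have h4 : (Fintype.card F) ^ 2 * 2 * 3 ≤ (Fintype.card F) ^ 2 * 2 * k := Nat.mul_le_mul_left _ h3
    nlinarith
  have h3 : (Fintype.card F) ^ 8 * s ^ 4 ≤ 15360 * M ^ 7 := by
    calc (Fintype.card F) ^ 8 * s ^ 4 ≤ (Fintype.card F) ^ 8 * (60 * M ^ 3 * τ ^ 4) := Nat.mul_le_mul_left _ hfib
      _ = 60 * M ^ 3 * ((Fintype.card F) ^ 2 * τ) ^ 4 := by ring
      _ ≤ 60 * M ^ 3 * (4 * M) ^ 4 := Nat.mul_le_mul_left _ (Nat.pow_le_pow_left h1 4)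
      _ = 15360 * M ^ 7 := by ring
  omega

end main



/-- the radii `r₀ = 0`, `r_{j+1} = 20 r_j + 30` -/
def rad : ℕ → ℕ
  | 0 => 0
  | j + 1 => 20 * rad j + 30

theorem rad_eq (j : ℕ) : 19 * rad j + 30 = 30 * 20 ^ j := by
  induction j with
  | zero => rfl
  | succ j ih =>
    rw [rad, pow_succ]
    omega

theorem rad_le (j : ℕ) : rad j + 2 ≤ 3 * 20 ^ j := by
  have h := rad_eq j
  have h1 : 1 ≤ 20 ^ j := Nat.one_le_pow _ _ (by norm_num)
  omega

theorem iter {K c q : ℕ} (s : ℕ → ℕ) (hK : K = 20 ^ 6) (hc : c = 15360 * K ^ 7 * 400 ^ 3 * 27) (hq : 2 * c ^ 2 < q)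
    (halt : ∀ r, s r ^ 4 ≤ 15360 * s (20 * r + 30) ^ 3 ∨ q ^ 8 * s r ^ 4 ≤ 15360 * s (20 * r + 30) ^ 7)
    (hlin : ∀ r, s r ≤ 400 * (r + 2) * q ^ 2) (h0 : 15360 * K ^ 3 < s 0) (htop : ∀ r, s r ≤ 2 * q ^ 3) : False := by
  have hq0 : 0 < q := by omega
  have hK0 : 0 < K := by rw [hK]; positivity
  have hc0 : 0 < c := by rw [hc]; positivity
  have main : ∀ j, (∀ i < j, c * 20 ^ (3 * i) < q ^ 2) → K ^ j * s 0 ≤ s (rad j) := by
    intro j
    induction j with
    | zero => intro _; rw [pow_zero, one_mul]; exact le_rfl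
    | succ j ih =>
      intro hj
      have ih' := ih (fun i hi => hj i (by omega))
      have hj' := hj j (by omega)
      have hbig : 15360 * K ^ 3 < s (rad j) := by
        calc 15360 * K ^ 3 < s 0 := h0
          _ = 1 * s 0 := by ring
          _ ≤ K ^ j * s 0 := Nat.mul_le_mul_right _ (Nat.one_le_pow _ _ hK0)
          _ ≤ _ := ih'
      by_contra hlt
      push Not at hlt
      have hlt2 : s (rad (j + 1)) < K * s (rad j) := by
        calc s (rad (j + 1)) < K ^ (j + 1) * s 0 := hlt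
          _ = K * (K ^ j * s 0) := by ring
          _ ≤ _ := Nat.mul_le_mul_left _ ih'
      have hr : rad (j + 1) = 20 * rad j + 30 := rfl
      rw [hr] at hlt2
      set S := s (rad j) with hS
      have hS0 : 0 < S := by omega
      rcases halt (rad j) with h | h
      · rw [← hS] at h
        have h1 : S ^ 4 ≤ 15360 * (K * S) ^ 3 :=
          h.trans (Nat.mul_le_mul_left _ (Nat.pow_le_pow_left hlt2.le 3))
        have h2 : S ^ 3 * S ≤ S ^ 3 * (15360 * K ^ 3) := by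
          calc S ^ 3 * S = S ^ 4 := by ring
            _ ≤ 15360 * (K * S) ^ 3 := h1
            _ = _ := by ring
        have h3 := Nat.le_of_mul_le_mul_left h2 (by positivity)
        omega
      · rw [← hS] at h
        have h1 : q ^ 8 * S ^ 4 ≤ 15360 * (K * S) ^ 7 :=
          h.trans (Nat.mul_le_mul_left _ (Nat.pow_le_pow_left hlt2.le 7))
        have h2 : S ^ 4 * q ^ 8 ≤ S ^ 4 * (15360 * K ^ 7 * S ^ 3) := by
          calc S ^ 4 * q ^ 8 = q ^ 8 * S ^ 4 := by ring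
            _ ≤ 15360 * (K * S) ^ 7 := h1
            _ = _ := by ring
        have h3 := Nat.le_of_mul_le_mul_left h2 (by positivity)
        have h4 : S ^ 3 ≤ (400 * (rad j + 2) * q ^ 2) ^ 3 := Nat.pow_le_pow_left (hlin (rad j)) 3
        have h5 : q ^ 6 * q ^ 2 ≤ q ^ 6 * (15360 * K ^ 7 * 400 ^ 3 * (rad j + 2) ^ 3) := by
          calc q ^ 6 * q ^ 2 = q ^ 8 := by ring
            _ ≤ 15360 * K ^ 7 * S ^ 3 := h3
            _ ≤ 15360 * K ^ 7 * (400 * (rad j + 2) * q ^ 2) ^ 3 := Nat.mul_le_mul_left _ h4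
            _ = _ := by ring
        have h6 := Nat.le_of_mul_le_mul_left h5 (by positivity)
        have h7 : (rad j + 2) ^ 3 ≤ 27 * 20 ^ (3 * j) := by
          calc (rad j + 2) ^ 3 ≤ (3 * 20 ^ j) ^ 3 := Nat.pow_le_pow_left (rad_le j) 3
            _ = 27 * 20 ^ (3 * j) := by rw [mul_pow, ← pow_mul, mul_comm j 3]; norm_num
        have h8 : q ^ 2 ≤ c * 20 ^ (3 * j) := by
          calc q ^ 2 ≤ 15360 * K ^ 7 * 400 ^ 3 * (rad j + 2) ^ 3 := h6
            _ ≤ 15360 * K ^ 7 * 400 ^ 3 * (27 * 20 ^ (3 * j)) := Nat.mul_le_mul_left _ h7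
            _ = c * 20 ^ (3 * j) := by rw [hc]; ring
        omega
  have hex : ∃ j, q ^ 2 ≤ c * 20 ^ (3 * j) := by
    refine ⟨q ^ 2, ?_⟩
    calc q ^ 2 ≤ 3 * q ^ 2 := by omega
      _ ≤ 20 ^ (3 * q ^ 2) := (Nat.lt_pow_self (by norm_num)).le
      _ = 1 * 20 ^ (3 * q ^ 2) := by ring
      _ ≤ _ := Nat.mul_le_mul_right _ hc0
  classical
  set j := Nat.find hex with hj
  have hj1 : q ^ 2 ≤ c * 20 ^ (3 * j) := Nat.find_spec hex
  have hj2 : ∀ i < j, c * 20 ^ (3 * i) < q ^ 2 := by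
    intro i hi
    have := Nat.find_min hex hi
    omega
  have hm := main j hj2
  have hKj : K ^ j = (20 ^ (3 * j)) ^ 2 := by
    rw [hK, ← pow_mul, ← pow_mul]; congr 1; ring
  have h1 : (20 ^ (3 * j)) ^ 2 ≤ s (rad j) := by
    rw [← hKj]
    calc K ^ j = K ^ j * 1 := by ring
      _ ≤ K ^ j * s 0 := Nat.mul_le_mul_left _ (by omega)
      _ ≤ _ := hm
  have h2 : q ^ 3 * q ≤ q ^ 3 * (2 * c ^ 2) := by
    calc q ^ 3 * q = (q ^ 2) ^ 2 := by ring
      _ ≤ (c * 20 ^ (3 * j)) ^ 2 := Nat.pow_le_pow_left hj1 2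
      _ = c ^ 2 * (20 ^ (3 * j)) ^ 2 := by ring
      _ ≤ c ^ 2 * s (rad j) := Nat.mul_le_mul_left _ h1
      _ ≤ c ^ 2 * (2 * q ^ 3) := Nat.mul_le_mul_left _ (htop _)
      _ = _ := by ring
  have h3 := Nat.le_of_mul_le_mul_left h2 (by positivity)
  omega

theorem growth_aux {K c : ℕ} (hK : K = 20 ^ 6) (hc : c = 15360 * K ^ 7 * 400 ^ 3 * 27) (p : ℕ) [Fact p.Prime]
    (hp : 2 * c ^ 2 < p) (ℓ : Matrix.SpecialLinearGroup (Fin 2) (ZMod p) → ℕ) (H : PLen ℓ)
    (hq : 15360 * K ^ 3 + 1 ≤ Set.ncard {g : Matrix.SpecialLinearGroup (Fin 2) (ZMod p) | g 0 1 = 0 ∧ g 1 0 = 0 ∧ ℓ g = 0}) :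
    ∀ g, 100 * ℓ g ≤ p := by
  intro g
  by_contra hg
  push Not at hg
  have hK0 : 0 < K := by rw [hK]; positivity
  have hc3 : 3 ≤ c := by
    rw [hc]
    have : 0 < K ^ 7 := by positivity
    nlinarith
  have hp3 : 3 ≤ p := by nlinarith
  have h2 : (2 : ZMod p) ≠ 0 := by
    intro h
    have h' : ((2 : ℕ) : ZMod p) = 0 := by exact_mod_cast h
    rw [ZMod.natCast_eq_zero_iff] at h'
    have := Nat.le_of_dvd (by norm_num) h'
    omega
  have hcard : Fintype.card (ZMod p) = p := ZMod.card p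
  classical
  set s0 : Finset (Matrix.SpecialLinearGroup (Fin 2) (ZMod p)) :=
    Finset.univ.filter (fun d => isd d ∧ ℓ d = 0) with hs0
  have hset : {g : Matrix.SpecialLinearGroup (Fin 2) (ZMod p) | g 0 1 = 0 ∧ g 1 0 = 0 ∧ ℓ g = 0} = ↑s0 := by
    ext d
    rw [hs0]
    simp only [Finset.coe_filter, Finset.mem_univ, true_and, isd, and_assoc]
  rw [hset, Set.ncard_coe_finset] at hq
  have hK3 : 1 ≤ K ^ 3 := Nat.one_le_pow _ _ hK0
  have hs0B : s0.card ≤ (Ball ℓ 0).card := by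
    apply Finset.card_le_card
    intro d hd
    rw [hs0, Finset.mem_filter] at hd
    rw [mem_Ball]
    omega
  have halt := alt h2 H s0 (fun d hd => (Finset.mem_filter.1 hd).2) (by omega)
  rw [hcard] at halt
  have hSL := card_SL_le (F := ZMod p)
  rw [hcard] at hSL
  refine iter (s := fun r => (Ball ℓ r).card) hK hc hp halt ?_ ?_ ?_
  · intro r
    have h1 := H.linear hg r
    have h3 : p * (Ball ℓ r).card ≤ p * (400 * (r + 2) * p ^ 2) := by
      calc p * (Ball ℓ r).card ≤ 200 * (r + 2) * Fintype.card _ := h1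
        _ ≤ 200 * (r + 2) * (2 * p ^ 3) := Nat.mul_le_mul_left _ hSL
        _ = _ := by ring
    exact Nat.le_of_mul_le_mul_left h3 (by omega)
  · show 15360 * K ^ 3 < (Ball ℓ 0).card
    omega
  · intro r
    refine le_trans ?_ hSL
    rw [← Finset.card_univ]
    exact Finset.card_le_card (Finset.subset_univ _)

theorem growth : ∃ q0 p0 : ℕ, ∀ (p : ℕ) [Fact p.Prime], p0 ≤ p →
    ∀ ℓ : Matrix.SpecialLinearGroup (Fin 2) (ZMod p) → ℕ, PLen ℓ →
    q0 ≤ Set.ncard {g : Matrix.SpecialLinearGroup (Fin 2) (ZMod p) | g 0 1 = 0 ∧ g 1 0 = 0 ∧ ℓ g = 0} →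
    ∀ g, 100 * ℓ g ≤ p := by
  obtain ⟨K, hK⟩ : ∃ K : ℕ, K = 20 ^ 6 := ⟨_, rfl⟩
  obtain ⟨c, hc⟩ : ∃ c : ℕ, c = 15360 * K ^ 7 * 400 ^ 3 * 27 := ⟨_, rfl⟩
  refine ⟨15360 * K ^ 3 + 1, 2 * c ^ 2 + 1, ?_⟩
  intro p _ hp ℓ H hq
  exact growth_aux hK hc p (by omega) ℓ H hq

end Pool.Agent.H16.PSL
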