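import Mathlib

set_option autoImplicit false
set_option maxHeartbeats 1000000

namespace Pool.Agent.H16.PSL

open Matrix

namespace LemS

section abs

variable {H : Type} [Group H] [Fintype H] [DecidableEq H]

/-- centralizer as a finset -/
def C (x : H) : Finset H := Finset.univ.filter fun h => h * x = x * h

/-- elements sending `x` to `x` or its inverse -/
def N (x : H) : Finset H := Finset.univ.filter fun h => h * x * h⁻¹ = x ∨ h * x * h⁻¹ = x⁻¹

/-- the class -/
def E (z x : H) : Finset H :=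
  (Finset.univ ×ˢ ((C x).filter fun c => c ≠ 1 ∧ c ≠ z)).image fun q : H × H => q.1 * q.2 * q.1⁻¹

structure Good (z : H) : Prop where
  hz1 : z ≠ 1
  hz2 : z * z = 1
  hzc : ∀ h : H, z * h = h * z
  inv : ∀ x : H, x * x = 1 → x = 1 ∨ x = z
  trans : ∀ x y w : H, y ≠ 1 → y ≠ z → x * y = y * x → y * w = w * y → x * w = w * x
  conj : ∀ x c g : H, x ≠ 1 → x ≠ z → c ≠ 1 → c ≠ z → c * x = x * c →
    (g * c * g⁻¹) * x = x * (g * c * g⁻¹) → g * x * g⁻¹ = x ∨ g * x * g⁻¹ = x⁻¹

variable {z : H}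

lemma mem_C {x h : H} : h ∈ C x ↔ h * x = x * h := by simp [C]

lemma mem_N {x h : H} : h ∈ N x ↔ (h * x * h⁻¹ = x ∨ h * x * h⁻¹ = x⁻¹) := by simp [N]

lemma mem_E {x e : H} : e ∈ E z x ↔ ∃ g c : H, (c * x = x * c ∧ c ≠ 1 ∧ c ≠ z) ∧ g * c * g⁻¹ = e := by
  simp [E, mem_C]

lemma N_mul {x g h : H} (hg : g ∈ N x) (hh : h ∈ N x) : g * h ∈ N x := by
  rw [mem_N] at *
  have e : g * h * x * (g * h)⁻¹ = g * (h * x * h⁻¹) * g⁻¹ := by group
  rw [e]
  rcases hh with hh | hh
  · rw [hh]; exact hg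
  · rw [hh]
    have e2 : g * x⁻¹ * g⁻¹ = (g * x * g⁻¹)⁻¹ := by group
    rw [e2]
    rcases hg with hg | hg
    · rw [hg]; right; rfl
    · rw [hg]; left; simp

lemma N_inv {x g : H} (hg : g ∈ N x) : g⁻¹ ∈ N x := by
  rw [mem_N] at *
  rcases hg with hg | hg
  · left
    have : x = g⁻¹ * (g * x * g⁻¹) * g := by group
    conv_rhs => rw [this, hg]
    group
  · right
    have : x = g⁻¹ * (g * x * g⁻¹) * g := by group
    rw [hg] at this
    have h3 : x⁻¹ = g⁻¹ * x * g := by
      conv_lhs => rw [this]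
      group
    rw [h3]; group

/-- `N x` as a subgroup -/
def NS (x : H) : Subgroup H where
  carrier := {h | h ∈ N x}
  mul_mem' := fun ha hb => N_mul ha hb
  one_mem' := by simp [N]
  inv_mem' := fun ha => N_inv ha

lemma card_N_dvd (x : H) : (N x).card ∣ Fintype.card H := by
  have h := Subgroup.card_subgroup_dvd_card (NS x)
  have h2 : Nat.card (NS x) = (N x).card := by
    have h3 : Nat.card (NS x) = Nat.card {h : H // h ∈ N x} := rfl
    rw [h3, Nat.card_eq_fintype_card, Fintype.card_coe]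
  rw [h2, Nat.card_eq_fintype_card] at h
  exact h

lemma C_sub_N (x : H) : C x ⊆ N x := by
  intro h hh
  rw [mem_C] at hh
  rw [mem_N]
  left
  rw [hh]; group

lemma card_N (hG : Good z) {x : H} (hx1 : x ≠ 1) (hxz : x ≠ z) :
    (N x).card = (C x).card ∨ (N x).card = 2 * (C x).card := by
  classical
  have hxx : x ≠ x⁻¹ := by
    intro h
    have : x * x = 1 := by
      conv_lhs => rw [h]
      rw [← h]
      have := mul_inv_cancel x
      rw [← h] at this
      exact this
    rcases hG.inv x this with h | h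
    · exact hx1 h
    · exact hxz h
  by_cases hex : ∃ g : H, g * x * g⁻¹ = x⁻¹
  · right
    obtain ⟨g, hg⟩ := hex
    have hN : N x = C x ∪ (C x).image (fun c => g * c) := by
      ext h
      rw [mem_N, Finset.mem_union, Finset.mem_image, mem_C]
      constructor
      · rintro (h1 | h1)
        · left
          calc h * x = h * x * h⁻¹ * h := by group
            _ = x * h := by rw [h1]
        · right
          refine ⟨g⁻¹ * h, ?_, by group⟩
          rw [mem_C]
          have h2 : h * x = x⁻¹ * h := by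
            calc h * x = h * x * h⁻¹ * h := by group
              _ = x⁻¹ * h := by rw [h1]
          have h3 : g * x = x⁻¹ * g := by
            calc g * x = g * x * g⁻¹ * g := by group
              _ = x⁻¹ * g := by rw [hg]
          have h4 : x * g⁻¹ = g⁻¹ * x⁻¹ := by
            calc x * g⁻¹ = g⁻¹ * (g * x) * g⁻¹ := by group
              _ = g⁻¹ * (x⁻¹ * g) * g⁻¹ := by rw [h3]
              _ = g⁻¹ * x⁻¹ := by group
          calc g⁻¹ * h * x = g⁻¹ * (h * x) := by group
            _ = g⁻¹ * (x⁻¹ * h) := by rw [h2]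
            _ = (g⁻¹ * x⁻¹) * h := by group
            _ = (x * g⁻¹) * h := by rw [h4]
            _ = x * (g⁻¹ * h) := by group
      · rintro (h1 | ⟨c, hc, rfl⟩)
        · left
          rw [h1]; group
        · right
          rw [mem_C] at hc
          calc g * c * x * (g * c)⁻¹ = g * (c * x) * c⁻¹ * g⁻¹ := by group
            _ = g * (x * c) * c⁻¹ * g⁻¹ := by rw [hc]
            _ = g * x * g⁻¹ := by group
            _ = x⁻¹ := hg
    have hdis : Disjoint (C x) ((C x).image (fun c => g * c)) := by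
      rw [Finset.disjoint_left]
      intro h h1 h2
      rw [Finset.mem_image] at h2
      obtain ⟨c, hc, rfl⟩ := h2
      rw [mem_C] at h1 hc
      apply hxx
      have : g * x = x * g := by
        calc g * x = g * (c * x) * c⁻¹ * 1 := by rw [hc]; group
          _ = (g * c * x) * c⁻¹ := by group
          _ = (x * (g * c)) * c⁻¹ := by rw [h1]
          _ = x * g := by group
      calc x = x * g * g⁻¹ := by group
        _ = g * x * g⁻¹ := by rw [this]
        _ = x⁻¹ := hg
    rw [hN, Finset.card_union_of_disjoint hdis, Finset.card_image_of_injective _ (mul_right_injective g)]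
    ring
  · left
    congr 1
    apply Finset.Subset.antisymm
    · intro h hh
      rw [mem_N] at hh
      rw [mem_C]
      rcases hh with h1 | h1
      · calc h * x = h * x * h⁻¹ * h := by group
            _ = x * h := by rw [h1]
      · exact absurd ⟨h, h1⟩ hex
    · exact C_sub_N x

lemma card_C (hG : Good z) {x : H} (hx1 : x ≠ 1) (hxz : x ≠ z) : 4 ≤ (C x).card := by
  have hsub : ({1, z, x, x * z} : Finset H) ⊆ C x := by
    intro h hh
    simp only [Finset.mem_insert, Finset.mem_singleton] at hh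
    rw [mem_C]
    rcases hh with rfl | rfl | rfl | rfl
    · simp
    · exact hG.hzc x
    · rfl
    · rw [mul_assoc, hG.hzc x]
  have hcard : ({1, z, x, x * z} : Finset H).card = 4 := by
    have h1 : x * z ≠ 1 := by
      intro h
      apply hxz
      calc x = x * z * z⁻¹ := by group
        _ = z⁻¹ := by rw [h]; group
        _ = z := by rw [inv_eq_iff_mul_eq_one]; exact hG.hz2
    have h2 : x * z ≠ z := by
      intro h
      apply hx1
      exact mul_eq_right.mp h
    have h3 : x * z ≠ x := by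
      intro h
      exact hG.hz1 (mul_eq_left.mp h)
    rw [Finset.card_insert_of_notMem, Finset.card_insert_of_notMem, Finset.card_insert_of_notMem,
      Finset.card_singleton]
    · simp only [Finset.mem_singleton]; exact fun h => h3 h.symm
    · simp only [Finset.mem_insert, Finset.mem_singleton, not_or]
      exact ⟨fun h => hxz h.symm, fun h => h2 h.symm⟩
    · simp only [Finset.mem_insert, Finset.mem_singleton, not_or]
      refine ⟨fun h => hG.hz1 h.symm, fun h => hx1 h.symm, fun h => h1 h.symm⟩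
  rw [← hcard]
  exact Finset.card_le_card hsub

lemma card_filter (hG : Good z) {x : H} : ((C x).filter fun c => c ≠ 1 ∧ c ≠ z).card + 2 = (C x).card := by
  classical
  have h1 : (C x).filter (fun c => ¬ (c ≠ 1 ∧ c ≠ z)) = {1, z} := by
    ext c
    rw [Finset.mem_filter, mem_C]
    simp only [Finset.mem_insert, Finset.mem_singleton]
    constructor
    · rintro ⟨_, h⟩
      by_contra h2
      push Not at h2
      exact h h2
    · rintro (rfl | rfl)
      · simp
      · exact ⟨hG.hzc x, by simp⟩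
  have h2 := Finset.card_filter_add_card_filter_not (s := C x) (fun c => c ≠ 1 ∧ c ≠ z)
  rw [h1, Finset.card_pair hG.hz1.symm] at h2
  exact h2

lemma card_E (hG : Good z) {x : H} (hx1 : x ≠ 1) (hxz : x ≠ z) :
    (E z x).card * (N x).card + 2 * Fintype.card H = Fintype.card H * (C x).card := by
  classical
  set P : Finset (H × H) := Finset.univ ×ˢ ((C x).filter fun c => c ≠ 1 ∧ c ≠ z) with hP
  have hPc : P.card = Fintype.card H * ((C x).filter fun c => c ≠ 1 ∧ c ≠ z).card := by
    rw [hP, Finset.card_product, Finset.card_univ]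
  have hfib := Finset.card_eq_sum_card_fiberwise (s := P) (t := E z x)
    (f := fun q : H × H => q.1 * q.2 * q.1⁻¹) (by
      intro q hq
      exact Finset.mem_image_of_mem _ hq)
  have hconst : ∀ e ∈ E z x, (P.filter fun q : H × H => q.1 * q.2 * q.1⁻¹ = e).card = (N x).card := by
    intro e he
    rw [mem_E] at he
    obtain ⟨g0, c0, ⟨hc0, hc1, hcz⟩, rfl⟩ := he
    symm
    apply Finset.card_bij' (fun n _ => ((g0 * n, n⁻¹ * c0 * n) : H × H)) (fun q _ => g0⁻¹ * q.1)
    · intro n hn
      have hn' := N_inv hn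
      rw [mem_N] at hn'
      rw [Finset.mem_filter, hP, Finset.mem_product, Finset.mem_filter, mem_C]
      refine ⟨⟨Finset.mem_univ _, ?_, ?_, ?_⟩, ?_⟩
      · -- commutes
        have e1 : (n⁻¹ * c0 * n) * (n⁻¹ * x * n) = (n⁻¹ * x * n) * (n⁻¹ * c0 * n) := by
          calc (n⁻¹ * c0 * n) * (n⁻¹ * x * n) = n⁻¹ * (c0 * x) * n := by group
            _ = n⁻¹ * (x * c0) * n := by rw [hc0]
            _ = _ := by group
        rw [inv_inv] at hn'
        rcases hn' with h | h
        · rw [h] at e1; exact e1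
        · rw [h] at e1
          calc (n⁻¹ * c0 * n) * x = x * (x⁻¹ * (n⁻¹ * c0 * n)) * x := by group
            _ = x * ((n⁻¹ * c0 * n) * x⁻¹) * x := by rw [e1]
            _ = _ := by group
      · intro h
        have h : n⁻¹ * c0 * n = 1 := h
        apply hc1
        calc c0 = n * (n⁻¹ * c0 * n) * n⁻¹ := by group
          _ = 1 := by rw [h]; group
      · intro h
        have h : n⁻¹ * c0 * n = z := h
        apply hcz
        calc c0 = n * (n⁻¹ * c0 * n) * n⁻¹ := by group
          _ = n * z * n⁻¹ := by rw [h]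
          _ = z * n * n⁻¹ := by rw [hG.hzc n]
          _ = z := by group
      · show g0 * n * (n⁻¹ * c0 * n) * (g0 * n)⁻¹ = _
        group
    · intro q hq
      rw [Finset.mem_filter, hP, Finset.mem_product, Finset.mem_filter, mem_C] at hq
      obtain ⟨⟨_, hq1, hq2, hq3⟩, hq4⟩ := hq
      rw [mem_N]
      apply hG.conj x q.2 (g0⁻¹ * q.1) hx1 hxz hq2 hq3 hq1
      have : g0⁻¹ * q.1 * q.2 * (g0⁻¹ * q.1)⁻¹ = c0 := by
        calc g0⁻¹ * q.1 * q.2 * (g0⁻¹ * q.1)⁻¹ = g0⁻¹ * (q.1 * q.2 * q.1⁻¹) * g0 := by group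
          _ = g0⁻¹ * (g0 * c0 * g0⁻¹) * g0 := by rw [hq4]
          _ = c0 := by group
      rw [this]
      exact hc0
    · intro n hn
      group
    · intro q hq
      rw [Finset.mem_filter] at hq
      obtain ⟨_, hq4⟩ := hq
      have : (g0⁻¹ * q.1)⁻¹ * c0 * (g0⁻¹ * q.1) = q.2 := by
        calc (g0⁻¹ * q.1)⁻¹ * c0 * (g0⁻¹ * q.1) = q.1⁻¹ * (g0 * c0 * g0⁻¹) * q.1 := by group
          _ = q.1⁻¹ * (q.1 * q.2 * q.1⁻¹) * q.1 := by rw [hq4]
          _ = q.2 := by group
      apply Prod.ext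
      · show g0 * (g0⁻¹ * q.1) = q.1
        group
      · exact this
  rw [Finset.sum_congr rfl hconst, Finset.sum_const, smul_eq_mul, hPc] at hfib
  rw [← hfib, ← card_filter hG (x := x)]
  ring

lemma E_disj (hG : Good z) {x y : H} (hy1 : y ≠ 1) (hyz : y ≠ z)
    (hy : y ∉ E z x) : Disjoint (E z x) (E z y) := by
  rw [Finset.disjoint_left]
  intro e h1 h2
  rw [mem_E] at h1 h2
  obtain ⟨g, c, ⟨hc, hc1, hcz⟩, rfl⟩ := h1
  obtain ⟨g', c', ⟨hc', hc1', hcz'⟩, h⟩ := h2
  apply hy
  rw [mem_E]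
  refine ⟨g'⁻¹ * g, (g⁻¹ * g') * y * (g⁻¹ * g')⁻¹, ⟨?_, ?_, ?_⟩, by group⟩
  · have hk : (g⁻¹ * g') * c' * (g⁻¹ * g')⁻¹ = c := by
      calc (g⁻¹ * g') * c' * (g⁻¹ * g')⁻¹ = g⁻¹ * (g' * c' * g'⁻¹) * g := by group
        _ = g⁻¹ * (g * c * g⁻¹) * g := by rw [h]
        _ = c := by group
    set k := g⁻¹ * g' with hkdef
    apply hG.trans (k * y * k⁻¹) c x hc1 hcz _ hc
    rw [← hk]
    calc k * y * k⁻¹ * (k * c' * k⁻¹) = k * (y * c') * k⁻¹ := by group
      _ = k * (c' * y) * k⁻¹ := by rw [hc']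
      _ = _ := by group
  · intro h3
    apply hy1
    calc y = (g⁻¹ * g')⁻¹ * ((g⁻¹ * g') * y * (g⁻¹ * g')⁻¹) * (g⁻¹ * g') := by group
      _ = 1 := by rw [h3]; group
  · intro h3
    apply hyz
    calc y = (g⁻¹ * g')⁻¹ * ((g⁻¹ * g') * y * (g⁻¹ * g')⁻¹) * (g⁻¹ * g') := by group
      _ = (g⁻¹ * g')⁻¹ * z * (g⁻¹ * g') := by rw [h3]
      _ = (g⁻¹ * g')⁻¹ * ((g⁻¹ * g') * z) := by rw [← hG.hzc (g⁻¹ * g')]; group
      _ = z := by group

lemma E_not (hG : Good z) (x : H) : (1 : H) ∉ E z x ∧ z ∉ E z x := by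
  constructor
  · intro h
    rw [mem_E] at h
    obtain ⟨g, c, ⟨_, h1, _⟩, h2⟩ := h
    apply h1
    calc c = g⁻¹ * (g * c * g⁻¹) * g := by group
      _ = 1 := by rw [h2]; group
  · intro h
    rw [mem_E] at h
    obtain ⟨g, c, ⟨_, _, h1⟩, h2⟩ := h
    apply h1
    calc c = g⁻¹ * (g * c * g⁻¹) * g := by group
      _ = g⁻¹ * (z * g) := by rw [h2]; group
      _ = g⁻¹ * (g * z) := by rw [hG.hzc g]
      _ = z := by group

/-- the size of a class, in rational form -/
lemma size (hG : Good z) {x : H} (hx1 : x ≠ 1) (hxz : x ≠ z) :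
    ∃ a : ℚ, a = (C x).card ∧ 4 ≤ a ∧ (a = 4 ∨ 5 ≤ a) ∧
      ((((N x).card : ℚ) = a ∧ ((E z x).card : ℚ) = Fintype.card H * (1 - 2 / a)) ∨
       (((N x).card : ℚ) = 2 * a ∧ ((E z x).card : ℚ) = Fintype.card H * (1 / 2 - 1 / a))) := by
  have h4 := card_C hG hx1 hxz
  refine ⟨(C x).card, rfl, by exact_mod_cast h4, ?_, ?_⟩
  · rcases Nat.eq_or_lt_of_le h4 with h | h
    · left; rw [← h]; norm_num
    · right; exact_mod_cast h
  · have hE := card_E hG hx1 hxz
    have ha : ((C x).card : ℚ) ≠ 0 := by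
      have : (0 : ℚ) < (C x).card := by exact_mod_cast (by omega : 0 < (C x).card)
      exact this.ne'
    have hEq : ((E z x).card : ℚ) * (N x).card + 2 * Fintype.card H = Fintype.card H * (C x).card := by
      exact_mod_cast hE
    rcases card_N hG hx1 hxz with h | h
    · left
      have h' : ((N x).card : ℚ) = (C x).card := by exact_mod_cast h
      refine ⟨h', ?_⟩
      rw [h'] at hEq
      field_simp
      linarith
    · right
      have h' : ((N x).card : ℚ) = 2 * (C x).card := by exact_mod_cast h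
      refine ⟨h', ?_⟩
      rw [h'] at hEq
      field_simp
      linarith

theorem main (hG : Good z) {x : H} (hx1 : x ≠ 1) (hxz : x ≠ z) (h20 : 20 < (C x).card) :
    ∀ h : H, h * x * h⁻¹ = x ∨ h * x * h⁻¹ = x⁻¹ := by
  classical
  by_contra hcon
  push Not at hcon
  obtain ⟨b, hb⟩ := hcon
  have hbN : b ∉ N x := by rw [mem_N]; push Not; exact hb
  -- |N| ≤ h/2
  have hNh : 2 * (N x).card ≤ Fintype.card H := by
    obtain ⟨k, hk⟩ := card_N_dvd x
    have hlt : (N x).card < Fintype.card H := by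
      rw [← Finset.card_univ]
      apply Finset.card_lt_card
      rw [Finset.ssubset_iff_of_subset (Finset.subset_univ _)]
      exact ⟨b, Finset.mem_univ _, hbN⟩
    rw [hk] at hlt ⊢
    have hk2 : 2 ≤ k := by
      by_contra hk2
      interval_cases k
      · simp at hlt
      · simp at hlt
    nlinarith
  have hNhQ : 2 * ((N x).card : ℚ) ≤ Fintype.card H := by exact_mod_cast hNh
  set h : ℚ := (Fintype.card H : ℚ) with hh
  have hpos : 0 < h := by
    rw [hh]; exact_mod_cast Fintype.card_pos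
  -- existence of elements outside a small union
  have pick : ∀ S : Finset H, (S.card : ℚ) + 2 < h → ∃ y, y ∉ S ∧ y ≠ 1 ∧ y ≠ z := by
    intro S hS
    by_contra hne
    push Not at hne
    have hsub : (Finset.univ : Finset H) ⊆ S ∪ {1, z} := by
      intro y _
      rw [Finset.mem_union]
      by_cases hy : y ∈ S
      · left; exact hy
      · right
        simp only [Finset.mem_insert, Finset.mem_singleton]
        by_cases hy1 : y = 1
        · left; exact hy1
        · right; exact hne y hy hy1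
    have h1 := Finset.card_le_card hsub
    have h2 := Finset.card_union_le S {1, z}
    rw [Finset.card_univ] at h1
    have h3 : ({1, z} : Finset H).card ≤ 2 := Finset.card_le_two
    have : Fintype.card H ≤ S.card + 2 := by omega
    have : h ≤ (S.card : ℚ) + 2 := by rw [hh]; exact_mod_cast this
    linarith
  have fit : ∀ S : Finset H, 1 ∉ S → z ∉ S → (S.card : ℚ) + 2 ≤ h := by
    intro S h1 hz
    have : (insert 1 (insert z S)).card = S.card + 2 := by
      rw [Finset.card_insert_of_notMem, Finset.card_insert_of_notMem hz]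
      rw [Finset.mem_insert]
      push Not
      exact ⟨hG.hz1.symm, h1⟩
    have h2 : (insert 1 (insert z S)).card ≤ Fintype.card H := Finset.card_le_univ _
    rw [this] at h2
    rw [hh]; exact_mod_cast h2
  obtain ⟨a, ha, ha4, _, hcase⟩ := size hG hx1 hxz
  have ha20 : 20 < a := by rw [ha]; exact_mod_cast h20
  have hapos : 0 < a := by linarith
  have hE1 := E_not hG x
  have frac : h / a < h / 20 := by
    apply div_lt_div_of_pos_left hpos (by norm_num) ha20
  -- lower bound for every class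
  have low : ∀ y : H, y ≠ 1 → y ≠ z → h / 4 ≤ ((E z y).card : ℚ) := by
    intro y hy1 hyz
    obtain ⟨a', _, ha4', _, hc'⟩ := size hG hy1 hyz
    have h4 : 1 / a' ≤ 1 / 4 := one_div_le_one_div_of_le (by norm_num) ha4'
    have h5 : 2 / a' = 2 * (1 / a') := by ring
    rcases hc' with ⟨_, hc⟩ | ⟨_, hc⟩
    · rw [hc, ← hh, h5]; nlinarith
    · rw [hc, ← hh]; nlinarith
  rcases hcase with ⟨hN1, hE⟩ | ⟨hN1, hE⟩
  · rw [← hh] at hE
    have e1 : h * (1 - 2 / a) = h - 2 * (h / a) := by ring
    rw [e1] at hE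
    have e2 : 2 ≤ h / a := by
      rw [le_div_iff₀ hapos]; rw [hN1] at hNhQ; exact hNhQ
    obtain ⟨y, hyE, hy1, hyz⟩ := pick (E z x) (by rw [hE]; linarith)
    have hlow := low y hy1 hyz
    have hdis := E_disj hG hy1 hyz hyE
    have hEy := E_not hG y
    have hf := fit (E z x ∪ E z y) (by simp only [Finset.mem_union, not_or]; exact ⟨hE1.1, hEy.1⟩)
      (by simp only [Finset.mem_union, not_or]; exact ⟨hE1.2, hEy.2⟩)
    rw [Finset.card_union_of_disjoint hdis] at hf
    push_cast at hf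
    rw [hE] at hf
    linarith
  · rw [← hh] at hE
    have e1 : h * (1 / 2 - 1 / a) = h / 2 - h / a := by ring
    rw [e1] at hE
    have e2 : 4 ≤ h / a := by
      rw [le_div_iff₀ hapos]; rw [hN1] at hNhQ; linarith
    -- second class
    obtain ⟨y, hyE, hy1, hyz⟩ := pick (E z x) (by rw [hE]; linarith)
    have hEy := E_not hG y
    have hdis := E_disj hG hy1 hyz hyE
    have hf2 := fit (E z x ∪ E z y) (by simp only [Finset.mem_union, not_or]; exact ⟨hE1.1, hEy.1⟩)
      (by simp only [Finset.mem_union, not_or]; exact ⟨hE1.2, hEy.2⟩)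
    have hcard2 := Finset.card_union_of_disjoint hdis
    have hcard2Q : ((E z x ∪ E z y).card : ℚ) = (E z x).card + (E z y).card := by
      rw [hcard2]; push_cast; rfl
    rw [hcard2Q] at hf2
    obtain ⟨a2, _, ha24, ha25, hcase2⟩ := size hG hy1 hyz
    have ha2pos : 0 < a2 := by linarith
    -- generic third class argument
    have third : ((E z y).card : ℚ) ≤ h / 2 → ∃ w, w ≠ 1 ∧ w ≠ z ∧ w ∉ E z x ∧ w ∉ E z y := by
      intro hle
      obtain ⟨w, hw, hw1, hwz⟩ := pick (E z x ∪ E z y) (by rw [hcard2Q, hE]; linarith)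
      rw [Finset.mem_union] at hw
      push Not at hw
      exact ⟨w, hw1, hwz, hw.1, hw.2⟩
    have sum3 : ∀ w : H, w ≠ 1 → w ≠ z → w ∉ E z x → w ∉ E z y →
        ((E z x ∪ E z y ∪ E z w).card : ℚ) = (E z x).card + (E z y).card + (E z w).card ∧
        ((E z x).card : ℚ) + (E z y).card + (E z w).card + 2 ≤ h := by
      intro w hw1 hwz hwx hwy
      have hEw := E_not hG w
      have d1 := E_disj hG hw1 hwz hwx
      have d2 := E_disj hG hw1 hwz hwy
      have d3 : Disjoint (E z x ∪ E z y) (E z w) := by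
        rw [Finset.disjoint_union_left]; exact ⟨d1, d2⟩
      have hc3 := Finset.card_union_of_disjoint d3
      have hc3Q : ((E z x ∪ E z y ∪ E z w).card : ℚ) = (E z x).card + (E z y).card + (E z w).card := by
        rw [hc3]; push_cast; rw [hcard2Q]
      refine ⟨hc3Q, ?_⟩
      rw [← hc3Q]
      apply fit
      · simp only [Finset.mem_union, not_or]; exact ⟨⟨hE1.1, hEy.1⟩, hEw.1⟩
      · simp only [Finset.mem_union, not_or]; exact ⟨⟨hE1.2, hEy.2⟩, hEw.2⟩
    rcases hcase2 with ⟨_, hE2⟩ | ⟨_, hE2⟩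
    · rw [← hh] at hE2
      rcases ha25 with h4 | h5
      · rw [h4] at hE2
        have hE2' : ((E z y).card : ℚ) = h / 2 := by rw [hE2]; ring
        obtain ⟨w, hw1, hwz, hwx, hwy⟩ := third hE2'.le
        have := (sum3 w hw1 hwz hwx hwy).2
        have hl := low w hw1 hwz
        linarith
      · have h4 : 1 / a2 ≤ 1 / 5 := one_div_le_one_div_of_le (by norm_num) h5
        have h5' : 2 / a2 = 2 * (1 / a2) := by ring
        rw [h5'] at hE2
        nlinarith
    · rw [← hh] at hE2
      have e3 : h * (1 / 2 - 1 / a2) = h / 2 - h / a2 := by ring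
      rw [e3] at hE2
      have hpa2 : 0 < h / a2 := div_pos hpos ha2pos
      obtain ⟨w, hw1, hwz, hwx, hwy⟩ := third (by rw [hE2]; linarith)
      obtain ⟨hs3, hs3'⟩ := sum3 w hw1 hwz hwx hwy
      obtain ⟨a3, _, ha34, ha35, hcase3⟩ := size hG hw1 hwz
      have ha3pos : 0 < a3 := by linarith
      have hly := low y hy1 hyz
      have i2 : 1 / a2 ≤ 1 / 4 := one_div_le_one_div_of_le (by norm_num) ha24
      have i3 : 1 / a3 ≤ 1 / 4 := one_div_le_one_div_of_le (by norm_num) ha34
      rcases hcase3 with ⟨_, hE3⟩ | ⟨_, hE3⟩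
      · rw [← hh] at hE3
        have h5' : 2 / a3 = 2 * (1 / a3) := by ring
        rw [h5'] at hE3
        nlinarith
      · rw [← hh] at hE3
        have e4 : h * (1 / 2 - 1 / a3) = h / 2 - h / a3 := by ring
        rw [e4] at hE3
        have j2 : h / a2 = h * (1 / a2) := by ring
        have j3 : h / a3 = h * (1 / a3) := by ring
        by_cases h44 : a2 = 4 ∧ a3 = 4
        · obtain ⟨h2, h3⟩ := h44
          rw [h2] at hE2
          rw [h3] at hE3
          obtain ⟨v, hv, hv1, hvz⟩ := pick (E z x ∪ E z y ∪ E z w) (by rw [hs3, hE, hE2, hE3]; linarith)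
          rw [Finset.mem_union, Finset.mem_union] at hv
          push Not at hv
          have hEv := E_not hG v
          have hEw := E_not hG w
          have d1 := E_disj hG hv1 hvz hv.1.1
          have d2 := E_disj hG hv1 hvz hv.1.2
          have d3 := E_disj hG hv1 hvz hv.2
          have d4 : Disjoint (E z x ∪ E z y ∪ E z w) (E z v) := by
            rw [Finset.disjoint_union_left, Finset.disjoint_union_left]; exact ⟨⟨d1, d2⟩, d3⟩
          have hc4 := Finset.card_union_of_disjoint d4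
          have hf4 := fit (E z x ∪ E z y ∪ E z w ∪ E z v)
            (by simp only [Finset.mem_union, not_or]; exact ⟨⟨⟨hE1.1, hEy.1⟩, hEw.1⟩, hEv.1⟩)
            (by simp only [Finset.mem_union, not_or]; exact ⟨⟨⟨hE1.2, hEy.2⟩, hEw.2⟩, hEv.2⟩)
          rw [hc4] at hf4
          push_cast at hf4
          rw [hs3, hE, hE2, hE3] at hf4
          have hl := low v hv1 hvz
          linarith
        · have hsum : 1 / a2 + 1 / a3 ≤ 9 / 20 := by
            rcases ha25 with h2 | h2
            · rcases ha35 with h3 | h3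
              · exact absurd ⟨h2, h3⟩ h44
              · have : 1 / a3 ≤ 1 / 5 := one_div_le_one_div_of_le (by norm_num) h3
                linarith
            · have : 1 / a2 ≤ 1 / 5 := one_div_le_one_div_of_le (by norm_num) h2
              linarith
          rw [hE, hE2, hE3, j2, j3] at hs3'
          nlinarith

end abs

section mat

variable {F : Type} [Field F]

/-- commuting of 2x2 matrices in coordinates -/
lemma comm_iff (x y : Matrix (Fin 2) (Fin 2) F) :
    x * y = y * x ↔ (x 0 1 * y 1 0 = y 0 1 * x 1 0 ∧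
      x 0 1 * (y 0 0 - y 1 1) = y 0 1 * (x 0 0 - x 1 1) ∧
      x 1 0 * (y 0 0 - y 1 1) = y 1 0 * (x 0 0 - x 1 1)) := by
  constructor
  · intro h
    have h00 := congrFun (congrFun h 0) 0
    have h01 := congrFun (congrFun h 0) 1
    have h10 := congrFun (congrFun h 1) 0
    simp only [Matrix.mul_apply, Fin.sum_univ_two] at h00 h01 h10
    refine ⟨by linear_combination h00, by linear_combination (-1 : F) * h01, by linear_combination h10⟩
  · rintro ⟨h1, h2, h3⟩
    ext i j
    fin_cases i <;> fin_cases j <;> simp only [Matrix.mul_apply, Fin.sum_univ_two, Fin.zero_eta, Fin.mk_one, Fin.isValue]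
    · linear_combination h1
    · linear_combination (-1 : F) * h2
    · linear_combination h3
    · linear_combination (-1 : F) * h1

lemma par (x y : Matrix (Fin 2) (Fin 2) F)
    (hy : ¬ (y 0 1 = 0 ∧ y 1 0 = 0 ∧ y 0 0 = y 1 1)) (h1 : x * y = y * x) :
    ∃ s : F, x 0 1 = s * y 0 1 ∧ x 1 0 = s * y 1 0 ∧ x 0 0 - x 1 1 = s * (y 0 0 - y 1 1) := by
  rw [comm_iff] at h1
  obtain ⟨a1, a2, a3⟩ := h1
  by_cases h01 : y 0 1 = 0
  · by_cases h10 : y 1 0 = 0
    · have hd : y 0 0 - y 1 1 ≠ 0 := by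
        intro h
        exact hy ⟨h01, h10, sub_eq_zero.mp h⟩
      refine ⟨(x 0 0 - x 1 1) / (y 0 0 - y 1 1), ?_, ?_, ?_⟩
      · field_simp
        linear_combination a2
      · field_simp
        linear_combination a3
      · field_simp
    · refine ⟨x 1 0 / y 1 0, ?_, ?_, ?_⟩
      · field_simp
        linear_combination a1
      · field_simp
      · field_simp
        linear_combination (-1 : F) * a3
  · refine ⟨x 0 1 / y 0 1, ?_, ?_, ?_⟩
    · field_simp
    · field_simp
      linear_combination (-1 : F) * a1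
    · field_simp
      linear_combination (-1 : F) * a2

lemma comm_trans (x y w : Matrix (Fin 2) (Fin 2) F)
    (hy : ¬ (y 0 1 = 0 ∧ y 1 0 = 0 ∧ y 0 0 = y 1 1)) (h1 : x * y = y * x) (h2 : y * w = w * y) :
    x * w = w * x := by
  obtain ⟨s, s1, s2, s3⟩ := par x y hy h1
  obtain ⟨t, t1, t2, t3⟩ := par w y hy h2.symm
  rw [comm_iff, s1, s2, s3, t1, t2, t3]
  refine ⟨by ring, by ring, by ring⟩

/-- a matrix commuting with a nonscalar `x` of determinant one and trace not `2, -2`, having the same trace and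
determinant, is `x` or its adjugate -/
lemma same (h2 : (2 : F) ≠ 0) (x y : Matrix (Fin 2) (Fin 2) F)
    (hx : ¬ (x 0 1 = 0 ∧ x 1 0 = 0 ∧ x 0 0 = x 1 1)) (h1 : y * x = x * y)
    (htr : y 0 0 + y 1 1 = x 0 0 + x 1 1) (hdx : x 0 0 * x 1 1 - x 0 1 * x 1 0 = 1)
    (hdy : y 0 0 * y 1 1 - y 0 1 * y 1 0 = 1)
    (ht : x 0 0 + x 1 1 ≠ 2) (ht' : x 0 0 + x 1 1 ≠ -2) :
    (y 0 0 = x 0 0 ∧ y 0 1 = x 0 1 ∧ y 1 0 = x 1 0 ∧ y 1 1 = x 1 1) ∨
    (y 0 0 = x 1 1 ∧ y 0 1 = - x 0 1 ∧ y 1 0 = - x 1 0 ∧ y 1 1 = x 0 0) := by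
  obtain ⟨s, s1, s2, s3⟩ := par y x hx h1
  have key : (1 - s) * (1 + s) * ((x 0 0 + x 1 1 - 2) * (x 0 0 + x 1 1 - (-2))) = 0 := by
    have e1 : (y 0 0 + y 1 1) ^ 2 - (y 0 0 - y 1 1) ^ 2 - 4 * (y 0 1 * y 1 0) = 4 := by
      linear_combination 4 * hdy
    have e2 : (x 0 0 + x 1 1) ^ 2 - (x 0 0 - x 1 1) ^ 2 - 4 * (x 0 1 * x 1 0) = 4 := by
      linear_combination 4 * hdx
    rw [htr, s3, s1, s2] at e1
    linear_combination e1 - s ^ 2 * e2
  have h3 : (x 0 0 + x 1 1 - 2) * (x 0 0 + x 1 1 - (-2)) ≠ 0 :=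
    mul_ne_zero (sub_ne_zero.mpr ht) (sub_ne_zero.mpr ht')
  have h4 := (mul_eq_zero.mp key).resolve_right h3
  rcases mul_eq_zero.mp h4 with h | h
  · left
    have hs : s = 1 := by linear_combination (-1 : F) * h
    rw [hs] at s1 s2 s3
    refine ⟨?_, by linear_combination s1, by linear_combination s2, ?_⟩
    · apply mul_left_cancel₀ h2
      linear_combination htr + s3
    · apply mul_left_cancel₀ h2
      linear_combination htr - s3
  · right
    have hs : s = -1 := by linear_combination h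
    rw [hs] at s1 s2 s3
    refine ⟨?_, by linear_combination s1, by linear_combination s2, ?_⟩
    · apply mul_left_cancel₀ h2
      linear_combination htr + s3
    · apply mul_left_cancel₀ h2
      linear_combination htr - s3

end mat

section sl

variable {p : ℕ}

lemma two_ne (hp : 2 < p) : (2 : ZMod p) ≠ 0 := by
  intro h
  have h2 : ((2 : ℕ) : ZMod p) = 0 := by exact_mod_cast h
  rw [ZMod.natCast_eq_zero_iff] at h2
  have := Nat.le_of_dvd (by norm_num) h2
  omega

lemma det_eq (h : SpecialLinearGroup (Fin 2) (ZMod p)) : h 0 0 * h 1 1 - h 0 1 * h 1 0 = 1 := by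
  have := h.det_coe
  rw [Matrix.det_fin_two] at this
  exact this

lemma ext4 {g h : SpecialLinearGroup (Fin 2) (ZMod p)} (h00 : g 0 0 = h 0 0) (h01 : g 0 1 = h 0 1)
    (h10 : g 1 0 = h 1 0) (h11 : g 1 1 = h 1 1) : g = h := by
  apply Subtype.ext
  ext i j
  fin_cases i <;> fin_cases j <;> assumption

lemma neg_ent (i j : Fin 2) : (-1 : SpecialLinearGroup (Fin 2) (ZMod p)) i j =
    - (1 : Matrix (Fin 2) (Fin 2) (ZMod p)) i j := by
  simp

lemma nonscalar [Fact p.Prime] {h : SpecialLinearGroup (Fin 2) (ZMod p)} (h1 : h ≠ 1) (h2 : h ≠ -1) :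
    ¬ (h 0 1 = 0 ∧ h 1 0 = 0 ∧ h 0 0 = h 1 1) := by
  rintro ⟨a, b, c⟩
  have hd := det_eq h
  rw [a, b, ← c] at hd
  have hd' : h 0 0 = 1 ∨ h 0 0 = -1 := by
    have : (h 0 0 - 1) * (h 0 0 + 1) = 0 := by linear_combination hd
    rcases mul_eq_zero.mp this with h | h
    · left; linear_combination h
    · right; linear_combination h
  rcases hd' with h0 | h0
  · apply h1
    apply ext4
    · rw [h0]; simp
    · rw [a]; simp
    · rw [b]; simp
    · rw [← c, h0]; simp
  · apply h2
    apply ext4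
    · rw [h0, neg_ent]; simp
    · rw [a, neg_ent]; simp
    · rw [b, neg_ent]; simp
    · rw [← c, h0, neg_ent]; simp

lemma coe_comm {g h : SpecialLinearGroup (Fin 2) (ZMod p)} :
    g * h = h * g ↔ (g : Matrix (Fin 2) (Fin 2) (ZMod p)) * h = h * g := by
  constructor
  · intro e
    have := congrArg (fun x : SpecialLinearGroup (Fin 2) (ZMod p) => (x : Matrix (Fin 2) (Fin 2) (ZMod p))) e
    simpa using this
  · intro e
    apply Subtype.ext
    simpa using e

lemma tr_conj (g x : SpecialLinearGroup (Fin 2) (ZMod p)) :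
    (g * x * g⁻¹) 0 0 + (g * x * g⁻¹) 1 1 = x 0 0 + x 1 1 := by
  have h := det_eq g
  have e : ∀ i j, (g * x * g⁻¹) i j = ((g : Matrix (Fin 2) (Fin 2) (ZMod p)) * (x : Matrix (Fin 2) (Fin 2) (ZMod p)) *
      (g : Matrix (Fin 2) (Fin 2) (ZMod p)).adjugate) i j := by
    intro i j; rfl
  rw [e, e, Matrix.adjugate_fin_two]
  simp only [Matrix.mul_apply, Fin.sum_univ_two, Matrix.of_apply, Matrix.cons_val', Matrix.cons_val_zero,
    Matrix.cons_val_one, Matrix.cons_val_fin_one]
  linear_combination (x 0 0 + x 1 1) * h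

end sl

/-- the hypotheses of the abstract lemma -/
lemma good {p : ℕ} [Fact p.Prime] (hp : 2 < p)
    (H : Subgroup (SpecialLinearGroup (Fin 2) (ZMod p)))
    (hneg : (-1 : SpecialLinearGroup (Fin 2) (ZMod p)) ∈ H)
    (hp' : ∀ h ∈ H, h 0 0 + h 1 1 = 2 → h = 1) [Fintype H] [DecidableEq H] :
    Good (H := H) ⟨-1, hneg⟩ := by
  have h2 := two_ne hp
  have hm2 : ∀ h ∈ H, h 0 0 + h 1 1 = -2 → h = -1 := by
    intro h hh ht
    have : -h ∈ H := by
      have := H.mul_mem hneg hh
      simpa using this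
    have h3 := hp' (-h) this (by
      have e : ∀ i j, (-h) i j = - (h i j) := by intro i j; simp
      rw [e, e]; linear_combination (-1 : ZMod p) * ht)
    rw [← h3]; simp
  have nsc : ∀ h : H, h ≠ 1 → h ≠ ⟨-1, hneg⟩ →
      ¬ ((h : SpecialLinearGroup (Fin 2) (ZMod p)) 0 1 = 0 ∧ (h : SpecialLinearGroup (Fin 2) (ZMod p)) 1 0 = 0 ∧
        (h : SpecialLinearGroup (Fin 2) (ZMod p)) 0 0 = (h : SpecialLinearGroup (Fin 2) (ZMod p)) 1 1) := by
    intro h h1 hz
    apply nonscalar
    · intro e; apply h1; apply Subtype.ext; exact e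
    · intro e; apply hz; apply Subtype.ext; exact e
  have cc : ∀ a b : H, a * b = b * a ↔ (((a : SpecialLinearGroup (Fin 2) (ZMod p)) : Matrix (Fin 2) (Fin 2) (ZMod p)) *
      ((b : SpecialLinearGroup (Fin 2) (ZMod p)) : Matrix (Fin 2) (Fin 2) (ZMod p)) =
      ((b : SpecialLinearGroup (Fin 2) (ZMod p)) : Matrix (Fin 2) (Fin 2) (ZMod p)) *
      ((a : SpecialLinearGroup (Fin 2) (ZMod p)) : Matrix (Fin 2) (Fin 2) (ZMod p))) := by
    intro a b
    rw [← coe_comm, Subtype.ext_iff]
    rfl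
  refine ⟨?_, ?_, ?_, ?_, ?_, ?_⟩
  · intro e
    have e1 := congrArg Subtype.val e
    have e2 : (-1 : SpecialLinearGroup (Fin 2) (ZMod p)) 0 0 = (1 : SpecialLinearGroup (Fin 2) (ZMod p)) 0 0 := by
      rw [show (-1 : SpecialLinearGroup (Fin 2) (ZMod p)) = 1 from e1]
    rw [neg_ent] at e2
    simp at e2
    apply h2
    linear_combination (-1 : ZMod p) * e2
  · apply Subtype.ext
    show (-1 : SpecialLinearGroup (Fin 2) (ZMod p)) * (-1) = 1
    simp
  · intro h
    apply Subtype.ext
    show (-1 : SpecialLinearGroup (Fin 2) (ZMod p)) * h = h * (-1)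
    simp
  · intro x hx
    by_contra hcon
    push Not at hcon
    obtain ⟨h1, hz⟩ := hcon
    have ns := nsc x h1 hz
    have hd := det_eq (x : SpecialLinearGroup (Fin 2) (ZMod p))
    have e : ∀ i j, ((x : SpecialLinearGroup (Fin 2) (ZMod p)) * (x : SpecialLinearGroup (Fin 2) (ZMod p))) i j =
      (1 : SpecialLinearGroup (Fin 2) (ZMod p)) i j := by
      intro i j
      have := congrArg Subtype.val hx
      rw [show ((x : SpecialLinearGroup (Fin 2) (ZMod p)) * (x : SpecialLinearGroup (Fin 2) (ZMod p))) =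
        (1 : SpecialLinearGroup (Fin 2) (ZMod p)) from this]
    have e00 := e 0 0
    have e01 := e 0 1
    have e10 := e 1 0
    have e11 := e 1 1
    have em : ∀ i j, ((x : SpecialLinearGroup (Fin 2) (ZMod p)) * (x : SpecialLinearGroup (Fin 2) (ZMod p))) i j =
      ((x : SpecialLinearGroup (Fin 2) (ZMod p)) : Matrix (Fin 2) (Fin 2) (ZMod p)) i 0 *
        ((x : SpecialLinearGroup (Fin 2) (ZMod p)) : Matrix (Fin 2) (Fin 2) (ZMod p)) 0 j +
      ((x : SpecialLinearGroup (Fin 2) (ZMod p)) : Matrix (Fin 2) (Fin 2) (ZMod p)) i 1 *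
        ((x : SpecialLinearGroup (Fin 2) (ZMod p)) : Matrix (Fin 2) (Fin 2) (ZMod p)) 1 j := by
      intro i j
      have : ((x : SpecialLinearGroup (Fin 2) (ZMod p)) * (x : SpecialLinearGroup (Fin 2) (ZMod p))) i j =
        (((x : SpecialLinearGroup (Fin 2) (ZMod p)) : Matrix (Fin 2) (Fin 2) (ZMod p)) *
        ((x : SpecialLinearGroup (Fin 2) (ZMod p)) : Matrix (Fin 2) (Fin 2) (ZMod p))) i j := rfl
      rw [this, Matrix.mul_apply, Fin.sum_univ_two]
    have o00 : (1 : SpecialLinearGroup (Fin 2) (ZMod p)) 0 0 = 1 := by simp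
    have o01 : (1 : SpecialLinearGroup (Fin 2) (ZMod p)) 0 1 = 0 := by simp
    have o10 : (1 : SpecialLinearGroup (Fin 2) (ZMod p)) 1 0 = 0 := by simp
    have o11 : (1 : SpecialLinearGroup (Fin 2) (ZMod p)) 1 1 = 1 := by simp
    rw [em, o00] at e00
    rw [em, o01] at e01
    rw [em, o10] at e10
    rw [em, o11] at e11
    by_cases ht : (x : SpecialLinearGroup (Fin 2) (ZMod p)) 0 0 + (x : SpecialLinearGroup (Fin 2) (ZMod p)) 1 1 = 0
    · -- then x^2 = -1
      apply h2
      linear_combination (-1 : ZMod p) * e00 + (-1 : ZMod p) * hd +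
        (x : SpecialLinearGroup (Fin 2) (ZMod p)) 0 0 * ht
    · apply ns
      refine ⟨?_, ?_, ?_⟩
      · have : (x : SpecialLinearGroup (Fin 2) (ZMod p)) 0 1 *
          ((x : SpecialLinearGroup (Fin 2) (ZMod p)) 0 0 + (x : SpecialLinearGroup (Fin 2) (ZMod p)) 1 1) = 0 := by
          linear_combination e01
        exact (mul_eq_zero.mp this).resolve_right ht
      · have : (x : SpecialLinearGroup (Fin 2) (ZMod p)) 1 0 *
          ((x : SpecialLinearGroup (Fin 2) (ZMod p)) 0 0 + (x : SpecialLinearGroup (Fin 2) (ZMod p)) 1 1) = 0 := by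
          linear_combination e10
        exact (mul_eq_zero.mp this).resolve_right ht
      · have : ((x : SpecialLinearGroup (Fin 2) (ZMod p)) 0 0 - (x : SpecialLinearGroup (Fin 2) (ZMod p)) 1 1) *
          ((x : SpecialLinearGroup (Fin 2) (ZMod p)) 0 0 + (x : SpecialLinearGroup (Fin 2) (ZMod p)) 1 1) = 0 := by
          linear_combination e00 - e11
        exact sub_eq_zero.mp ((mul_eq_zero.mp this).resolve_right ht)
  · intro x y w hy1 hyz hxy hyw
    rw [cc] at *
    exact comm_trans _ _ _ (nsc y hy1 hyz) hxy hyw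
  · intro x c g hx1 hxz hc1 hcz hcx hgc
    have hg1 : g * c * g⁻¹ ≠ 1 := by
      intro e
      apply hc1
      calc c = g⁻¹ * (g * c * g⁻¹) * g := by group
        _ = 1 := by rw [e]; group
    have hzc : ∀ h : H, (⟨-1, hneg⟩ : H) * h = h * ⟨-1, hneg⟩ := by
      intro h
      apply Subtype.ext
      show (-1 : SpecialLinearGroup (Fin 2) (ZMod p)) * h = h * (-1)
      simp
    have hgz : g * c * g⁻¹ ≠ ⟨-1, hneg⟩ := by
      intro e
      apply hcz
      calc c = g⁻¹ * (g * c * g⁻¹) * g := by group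
        _ = g⁻¹ * (⟨-1, hneg⟩ * g) := by rw [e]; group
        _ = g⁻¹ * (g * ⟨-1, hneg⟩) := by rw [hzc g]
        _ = _ := by group
    have hyx : (g * x * g⁻¹) * x = x * (g * x * g⁻¹) := by
      rw [cc]
      refine comm_trans _ _ _ (nsc _ hg1 hgz) ?_ ((cc _ _).mp hgc)
      rw [← cc]
      calc g * x * g⁻¹ * (g * c * g⁻¹) = g * (x * c) * g⁻¹ := by group
        _ = g * (c * x) * g⁻¹ := by rw [hcx]
        _ = _ := by group
    have htx : (x : SpecialLinearGroup (Fin 2) (ZMod p)) 0 0 + (x : SpecialLinearGroup (Fin 2) (ZMod p)) 1 1 ≠ 2 := by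
      intro e
      apply hx1
      apply Subtype.ext
      exact hp' _ x.2 e
    have htx' : (x : SpecialLinearGroup (Fin 2) (ZMod p)) 0 0 + (x : SpecialLinearGroup (Fin 2) (ZMod p)) 1 1 ≠ -2 := by
      intro e
      apply hxz
      apply Subtype.ext
      exact hm2 _ x.2 e
    have hs := same h2 _ _ (nsc x hx1 hxz) ((cc _ _).mp hyx)
      (tr_conj (g : SpecialLinearGroup (Fin 2) (ZMod p)) (x : SpecialLinearGroup (Fin 2) (ZMod p)))
      (det_eq (x : SpecialLinearGroup (Fin 2) (ZMod p)))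
      (det_eq ((g * x * g⁻¹ : H) : SpecialLinearGroup (Fin 2) (ZMod p))) htx htx'
    rcases hs with ⟨h00, h01, h10, h11⟩ | ⟨h00, h01, h10, h11⟩
    · left
      apply Subtype.ext
      exact ext4 h00 h01 h10 h11
    · right
      apply Subtype.ext
      have e : ∀ i j, ((x⁻¹ : H) : SpecialLinearGroup (Fin 2) (ZMod p)) i j =
        ((x : SpecialLinearGroup (Fin 2) (ZMod p)) : Matrix (Fin 2) (Fin 2) (ZMod p)).adjugate i j := by
        intro i j; rfl
      apply ext4
      · rw [e, Matrix.adjugate_fin_two]; exact h00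
      · rw [e, Matrix.adjugate_fin_two]; exact h01
      · rw [e, Matrix.adjugate_fin_two]; exact h10
      · rw [e, Matrix.adjugate_fin_two]; exact h11

end LemS

theorem lemmaS {p : ℕ} [Fact p.Prime] (hp : 2 < p)
    (H : Subgroup (SpecialLinearGroup (Fin 2) (ZMod p)))
    (hneg : (-1 : SpecialLinearGroup (Fin 2) (ZMod p)) ∈ H)
    (hp' : ∀ h ∈ H, h 0 0 + h 1 1 = 2 → h = 1)
    (hC : 20 < Set.ncard {h : SpecialLinearGroup (Fin 2) (ZMod p) | h ∈ H ∧ h 0 1 = 0 ∧ h 1 0 = 0}) :
    ∀ h ∈ H, (h 0 1 = 0 ∧ h 1 0 = 0) ∨ (h 0 0 = 0 ∧ h 1 1 = 0) := by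
  classical
  have : Fintype H := Fintype.ofFinite H
  have hG := LemS.good hp H hneg hp'
  set D : Set (SpecialLinearGroup (Fin 2) (ZMod p)) := {h | h ∈ H ∧ h 0 1 = 0 ∧ h 1 0 = 0} with hD
  -- a noncentral diagonal element
  obtain ⟨x, hxD, hx1, hxz⟩ : ∃ x ∈ D, x ≠ 1 ∧ x ≠ -1 := by
    by_contra hcon
    push Not at hcon
    have hsub : D ⊆ ({1, -1} : Set (SpecialLinearGroup (Fin 2) (ZMod p))) := by
      intro h hh
      by_cases h1 : h = 1
      · left; exact h1
      · right; exact hcon h hh h1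
    have h3 := Set.ncard_le_ncard hsub (Set.toFinite _)
    have h4 : ({1, -1} : Set (SpecialLinearGroup (Fin 2) (ZMod p))).ncard ≤ 2 := by
      have := Set.ncard_insert_le (1 : SpecialLinearGroup (Fin 2) (ZMod p)) {-1}
      rw [Set.ncard_singleton] at this
      exact this
    omega
  obtain ⟨hxH, hx01, hx10⟩ := hxD
  have ns := LemS.nonscalar hx1 hxz
  have hxd : x 0 0 - x 1 1 ≠ 0 := by
    intro e
    exact ns ⟨hx01, hx10, sub_eq_zero.mp e⟩
  have hDC : D.ncard ≤ (LemS.C (⟨x, hxH⟩ : H)).card := by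
    have hsub : D ⊆ ((LemS.C (⟨x, hxH⟩ : H)).image (fun h : H => (h : SpecialLinearGroup (Fin 2) (ZMod p))) :
        Finset (SpecialLinearGroup (Fin 2) (ZMod p))) := by
      intro h hh
      rw [Finset.mem_coe, Finset.mem_image]
      refine ⟨⟨h, hh.1⟩, ?_, rfl⟩
      rw [LemS.mem_C]
      apply Subtype.ext
      show h * x = x * h
      rw [LemS.coe_comm, LemS.comm_iff, hx01, hx10, hh.2.1, hh.2.2]
      simp
    have h5 := Set.ncard_le_ncard hsub (Set.toFinite _)
    rw [Set.ncard_coe_finset] at h5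
    exact h5.trans Finset.card_image_le
  have hmain := LemS.main hG (x := (⟨x, hxH⟩ : H))
    (by intro e; exact hx1 (congrArg Subtype.val e)) (by intro e; exact hxz (congrArg Subtype.val e))
    (by omega)
  intro h hh
  have hd := LemS.det_eq h
  rcases hmain ⟨h, hh⟩ with e | e
  · left
    have e1 : h * x * h⁻¹ = x := congrArg Subtype.val e
    have e2 : h * x = x * h := by
      calc h * x = h * x * h⁻¹ * h := by group
        _ = x * h := by rw [e1]
    rw [LemS.coe_comm, LemS.comm_iff, hx01, hx10] at e2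
    obtain ⟨_, e3, e4⟩ := e2
    constructor
    · have : h 0 1 * (x 0 0 - x 1 1) = 0 := by linear_combination e3
      exact (mul_eq_zero.mp this).resolve_right hxd
    · have : h 1 0 * (x 0 0 - x 1 1) = 0 := by linear_combination e4
      exact (mul_eq_zero.mp this).resolve_right hxd
  · right
    have e1 : h * x * h⁻¹ = x⁻¹ := congrArg Subtype.val e
    have e2 : h * x = x⁻¹ * h := by
      calc h * x = h * x * h⁻¹ * h := by group
        _ = x⁻¹ * h := by rw [e1]
    have ex : ∀ i j, (x⁻¹ * h) i j = ((x : Matrix (Fin 2) (Fin 2) (ZMod p)).adjugate *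
      (h : Matrix (Fin 2) (Fin 2) (ZMod p))) i j := by
      intro i j; rfl
    have eh : ∀ i j, (h * x) i j = ((h : Matrix (Fin 2) (Fin 2) (ZMod p)) *
      (x : Matrix (Fin 2) (Fin 2) (ZMod p))) i j := by
      intro i j; rfl
    have e00 : ((h : Matrix (Fin 2) (Fin 2) (ZMod p)) * (x : Matrix (Fin 2) (Fin 2) (ZMod p))) 0 0 =
      ((x : Matrix (Fin 2) (Fin 2) (ZMod p)).adjugate * (h : Matrix (Fin 2) (Fin 2) (ZMod p))) 0 0 := by
      rw [← ex, ← eh, e2]
    have e11 : ((h : Matrix (Fin 2) (Fin 2) (ZMod p)) * (x : Matrix (Fin 2) (Fin 2) (ZMod p))) 1 1 =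
      ((x : Matrix (Fin 2) (Fin 2) (ZMod p)).adjugate * (h : Matrix (Fin 2) (Fin 2) (ZMod p))) 1 1 := by
      rw [← ex, ← eh, e2]
    rw [Matrix.adjugate_fin_two] at e00 e11
    simp only [Matrix.mul_apply, Fin.sum_univ_two, Matrix.of_apply, Matrix.cons_val', Matrix.cons_val_zero,
      Matrix.cons_val_one, Matrix.cons_val_fin_one, hx01, hx10] at e00 e11
    constructor
    · have : h 0 0 * (x 0 0 - x 1 1) = 0 := by linear_combination e00
      exact (mul_eq_zero.mp this).resolve_right hxd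
    · have : h 1 1 * (x 0 0 - x 1 1) = 0 := by linear_combination (-1 : ZMod p) * e11
      exact (mul_eq_zero.mp this).resolve_right hxd

end Pool.Agent.H16.PSL
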