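import Pool.Agent.H16.PSL.SL2
import Pool.Agent.H16.PSL.SubS

/-!
Subtask Heavy (helper16, MP_d4104f_co Q2): consequences of lemmaS.
Proved by helper390.
-/

set_option autoImplicit false

namespace Pool.Agent.H16.PSL

section heavy_aux

variable {p : ℕ} [Fact p.Prime]

theorem hv_tr (g b : Matrix.SpecialLinearGroup (Fin 2) (ZMod p)) :
    (g⁻¹ * b * g) 0 0 + (g⁻¹ * b * g) 1 1 = b 0 0 + b 1 1 := by
  simp only [mul00, mul01, mul10, mul11, inv00, inv01, inv10, inv11]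
  linear_combination (b 0 0 + b 1 1) * det_eq g

/-- the conjugate subgroup `h K h⁻¹` -/
def hvC (K : Subgroup (Matrix.SpecialLinearGroup (Fin 2) (ZMod p)))
    (h : Matrix.SpecialLinearGroup (Fin 2) (ZMod p)) :
    Subgroup (Matrix.SpecialLinearGroup (Fin 2) (ZMod p)) :=
  K.comap (MulAut.conj h⁻¹).toMonoidHom

theorem mem_hvC {K : Subgroup (Matrix.SpecialLinearGroup (Fin 2) (ZMod p))}
    {h x : Matrix.SpecialLinearGroup (Fin 2) (ZMod p)} : x ∈ hvC K h ↔ h⁻¹ * x * h ∈ K := by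
  rw [hvC, Subgroup.mem_comap]
  change (MulAut.conj h⁻¹) x ∈ K ↔ _
  rw [MulAut.conj_apply, inv_inv]

theorem hvC_tr {K : Subgroup (Matrix.SpecialLinearGroup (Fin 2) (ZMod p))}
    (hp' : ∀ h ∈ K, h 0 0 + h 1 1 = 2 → h = 1)
    (h : Matrix.SpecialLinearGroup (Fin 2) (ZMod p)) :
    ∀ x ∈ hvC K h, x 0 0 + x 1 1 = 2 → x = 1 := by
  intro x hx htr
  rw [← hv_tr h x] at htr
  have h1 := hp' _ (mem_hvC.1 hx) htr
  have h2 : x = h * (h⁻¹ * x * h) * h⁻¹ := by group
  rw [h2, h1]; group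

theorem hvC_neg {K : Subgroup (Matrix.SpecialLinearGroup (Fin 2) (ZMod p))}
    (hneg : (-1 : Matrix.SpecialLinearGroup (Fin 2) (ZMod p)) ∈ K)
    (h : Matrix.SpecialLinearGroup (Fin 2) (ZMod p)) :
    (-1 : Matrix.SpecialLinearGroup (Fin 2) (ZMod p)) ∈ hvC K h := by
  rw [mem_hvC]
  have h1 : h⁻¹ * (-1) * h = -1 := by
    rw [mul_neg, mul_one, neg_mul, inv_mul_cancel]
  rw [h1]; exact hneg

theorem hv_two : ((2 : ℕ) : ZMod p) = 2 := by norm_num

theorem hv_ne (hp : 2 < p) : (2 : ZMod p) ≠ 0 := by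
  intro h
  rw [← hv_two, ZMod.natCast_eq_zero_iff] at h
  exact absurd (Nat.le_of_dvd (by norm_num) h) (by omega)

/-- the square roots of an element -/
noncomputable def hvN (r : ZMod p) : Finset (ZMod p) := (Polynomial.nthRoots 2 r).toFinset

theorem mem_hvN {r t : ZMod p} : t ∈ hvN r ↔ t ^ 2 = r := by
  rw [hvN, Multiset.mem_toFinset, Polynomial.mem_nthRoots (by norm_num)]

theorem card_hvN (r : ZMod p) : (hvN r).card ≤ 2 :=
  (Multiset.toFinset_card_le _).trans (Polynomial.card_nthRoots 2 r)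

theorem hv_few {H : Set (Matrix.SpecialLinearGroup (Fin 2) (ZMod p))}
    (hH : ∀ h ∈ H, (h 0 1 = 0 ∧ h 1 0 = 0) ∨ (h 0 0 = 0 ∧ h 1 1 = 0))
    (m : Matrix.SpecialLinearGroup (Fin 2) (ZMod p)) (h10 : m 1 0 ≠ 0) (h11 : m 1 1 ≠ 0) :
    Set.ncard {b : Matrix.SpecialLinearGroup (Fin 2) (ZMod p) |
      b ∈ Bo (ZMod p) ∧ m⁻¹ * b * m ∈ H} ≤ 4 := by
  classical
  let T : Finset (ZMod p × ZMod p) :=
    (hvN 1 ×ˢ {0}) ∪ ({0} ×ˢ hvN (-(m 1 1 / m 1 0) ^ 2))
  have hT : T.card ≤ 4 := by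
    refine (Finset.card_union_le _ _).trans ?_
    rw [Finset.card_product, Finset.card_product, Finset.card_singleton, mul_one, one_mul]
    have := card_hvN (1 : ZMod p)
    have := card_hvN (-(m 1 1 / m 1 0) ^ 2)
    omega
  refine le_trans ?_ hT
  rw [← Set.ncard_coe_finset T]
  apply Set.ncard_le_ncard_of_injOn (fun b => ((m⁻¹ * b * m) 0 0, (m⁻¹ * b * m) 0 1))
  · rintro b ⟨hb, hbH⟩
    have hb' : (m * (m⁻¹ * b * m) * m⁻¹) 1 0 = 0 := by
      have : m * (m⁻¹ * b * m) * m⁻¹ = b := by group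
      rw [this]; exact hb
    have hdet := det_eq (m⁻¹ * b * m)
    have hcase := hH _ hbH
    generalize m⁻¹ * b * m = h at hb' hdet hcase ⊢
    rw [mul10, mul10, mul11, inv00, inv10] at hb'
    rw [Finset.mem_coe, Finset.mem_union, Finset.mem_product, Finset.mem_product]
    rcases hcase with ⟨e1, e2⟩ | ⟨e1, e2⟩
    · left
      refine ⟨?_, Finset.mem_singleton.2 e1⟩
      rw [mem_hvN]
      rw [e1, e2] at hb'
      rw [e1, e2] at hdet
      have h1 : m 1 0 * m 1 1 * (h 0 0 - h 1 1) = 0 := by linear_combination hb'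
      have h2 : h 0 0 - h 1 1 = 0 := by
        rcases mul_eq_zero.1 h1 with h3 | h3
        · exact absurd h3 (mul_ne_zero h10 h11)
        · exact h3
      linear_combination hdet + h 0 0 * h2
    · right
      refine ⟨Finset.mem_singleton.2 e1, ?_⟩
      rw [mem_hvN]
      rw [e1, e2] at hb' hdet
      have h1 : m 1 0 ^ 2 * h 0 1 ^ 2 = - (m 1 1) ^ 2 := by
        linear_combination (-h 0 1) * hb' + (- (m 1 1) ^ 2) * hdet
      rw [div_pow]
      field_simp
      linear_combination h1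
  · rintro b ⟨hb, hbH⟩ c ⟨hc, hcH⟩ hbc
    have hdet := det_eq (m⁻¹ * b * m)
    have hdet' := det_eq (m⁻¹ * c * m)
    have hcase := hH _ hbH
    have hcase' := hH _ hcH
    have e00 : (m⁻¹ * b * m) 0 0 = (m⁻¹ * c * m) 0 0 := (Prod.ext_iff.1 hbc).1
    have e01 : (m⁻¹ * b * m) 0 1 = (m⁻¹ * c * m) 0 1 := (Prod.ext_iff.1 hbc).2
    suffices h : m⁻¹ * b * m = m⁻¹ * c * m by
      exact mul_left_cancel (mul_right_cancel h)
    generalize m⁻¹ * b * m = h at hdet hcase e00 e01 ⊢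
    generalize m⁻¹ * c * m = h' at hdet' hcase' e00 e01 ⊢
    rcases hcase with ⟨e1, e2⟩ | ⟨e1, e2⟩
    · rcases hcase' with ⟨e1', e2'⟩ | ⟨e1', e2'⟩
      · apply ext4 e00 e01 (by rw [e2, e2'])
        rw [e1, e2] at hdet
        rw [e1', e2', ← e00] at hdet'
        have hne : h 0 0 ≠ 0 := by
          intro h0
          rw [h0] at hdet
          simp at hdet
        apply mul_left_cancel₀ hne
        linear_combination hdet - hdet'
      · exfalso
        rw [e1, e00, e1'] at hdet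
        simp at hdet
    · rcases hcase' with ⟨e1', e2'⟩ | ⟨e1', e2'⟩
      · exfalso
        rw [e1', ← e00, e1] at hdet'
        simp at hdet'
      · refine ext4 e00 e01 ?_ (by rw [e2, e2'])
        rw [e1, e2] at hdet
        rw [e1', e2', ← e01] at hdet'
        have hne : h 0 1 ≠ 0 := by
          intro h0
          rw [h0] at hdet
          simp at hdet
        apply mul_left_cancel₀ hne
        linear_combination hdet' - hdet

end heavy_aux

theorem heavy_diag {p : ℕ} [Fact p.Prime] (hp : 2 < p) (K : Subgroup (Matrix.SpecialLinearGroup (Fin 2) (ZMod p)))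
    (hp' : ∀ h ∈ K, h 0 0 + h 1 1 = 2 → h = 1) (k0 : ℕ) (hk0 : 2 ≤ k0)
    (g : Matrix.SpecialLinearGroup (Fin 2) (ZMod p))
    (hg : k0 < Set.ncard {b : Matrix.SpecialLinearGroup (Fin 2) (ZMod p) | b ∈ Bo (ZMod p) ∧ g⁻¹ * b * g ∈ K}) :
    ∃ x : ZMod p, k0 < Set.ncard {b : Matrix.SpecialLinearGroup (Fin 2) (ZMod p) |
      b 0 1 = 0 ∧ b 1 0 = 0 ∧ (uu x * g)⁻¹ * b * (uu x * g) ∈ K} := by
  classical
  set A := {b : Matrix.SpecialLinearGroup (Fin 2) (ZMod p) | b ∈ Bo (ZMod p) ∧ g⁻¹ * b * g ∈ K}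
    with hA
  have htr := hvC_tr hp' g
  have hAC : ∀ b ∈ A, b ∈ hvC K g := fun b hb => mem_hvC.2 hb.2
  have hinj : ∀ b ∈ A, ∀ c ∈ A, b 0 0 = c 0 0 → b = c := by
    intro b hb c hc hbc
    obtain ⟨x, hx⟩ := Bo_eq_of_00 hb.1 hc.1 hbc
    have h1 : (uu x : Matrix.SpecialLinearGroup (Fin 2) (ZMod p)) ∈ hvC K g := by
      have : uu x = b * c⁻¹ := by rw [hx]; group
      rw [this]
      exact (hvC K g).mul_mem (hAC b hb) ((hvC K g).inv_mem (hAC c hc))
    have h2 := htr _ h1 (by simp; norm_num)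
    rw [hx, h2, one_mul]
  have hAmul : ∀ b ∈ A, ∀ c ∈ A, b * c ∈ A := by
    intro b hb c hc
    exact ⟨(Bo _).mul_mem hb.1 hc.1,
      mem_hvC.1 ((hvC K g).mul_mem (hAC b hb) (hAC c hc))⟩
  have hcomm : ∀ b ∈ A, ∀ c ∈ A, b * c = c * b := by
    intro b hb c hc
    apply hinj _ (hAmul b hb c hc) _ (hAmul c hc b hb)
    rw [Bo_mul00 hc.1, Bo_mul00 hb.1, mul_comm]
  -- an element with different eigenvalues
  obtain ⟨b, hbA, hb1⟩ : ∃ b ∈ A, (b 0 0) ^ 2 ≠ 1 := by
    by_contra hcon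
    push Not at hcon
    have h1 : A.ncard ≤ (hvN (1 : ZMod p)).card := by
      rw [← Set.ncard_coe_finset]
      apply Set.ncard_le_ncard_of_injOn (fun b => b 0 0)
      · intro b hb
        exact Finset.mem_coe.2 (mem_hvN.2 (hcon b hb))
      · intro b hb c hc h
        exact hinj b hb c hc h
    have := card_hvN (1 : ZMod p)
    omega
  have hb11 := Bo_11 hbA.1
  have hne : b 0 0 - b 1 1 ≠ 0 := by
    intro h
    apply hb1
    linear_combination hb11 + b 0 0 * h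
  let x : ZMod p := b 0 1 / (b 0 0 - b 1 1)
  refine ⟨x, lt_of_lt_of_le hg ?_⟩
  apply Set.ncard_le_ncard_of_injOn (fun c => uu x * c * uu (-x))
  · intro c hc
    have hc10 : c 1 0 = 0 := hc.1
    have hb10 : b 1 0 = 0 := hbA.1
    have hcc := hcomm b hbA c hc
    have e01 : b 0 0 * c 0 1 + b 0 1 * c 1 1 = c 0 0 * b 0 1 + c 0 1 * b 1 1 := by
      have := congrArg (fun m : Matrix.SpecialLinearGroup (Fin 2) (ZMod p) => m 0 1) hcc
      simpa only [mul01] using this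
    refine ⟨?_, ?_, ?_⟩
    · rw [mul01, mul00, mul01]
      simp only [uu00, uu01, uu11, hc10]
      have hx : x * (b 0 0 - b 1 1) = b 0 1 := div_mul_cancel₀ _ hne
      apply mul_left_cancel₀ hne
      linear_combination (c 1 1 - c 0 0) * hx + e01
    · rw [mul10, mul10, mul11]
      simp [hc10]
    · have : (uu x * g)⁻¹ * (uu x * c * uu (-x)) * (uu x * g) = g⁻¹ * c * g := by
        rw [← uu_inv]; group
      rw [this]; exact hc.2
  · intro c _ c' _ h
    exact mul_left_cancel (mul_right_cancel h)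

theorem few_heavy {p : ℕ} [Fact p.Prime] (hp : 2 < p) (K : Subgroup (Matrix.SpecialLinearGroup (Fin 2) (ZMod p)))
    (hneg : (-1 : Matrix.SpecialLinearGroup (Fin 2) (ZMod p)) ∈ K)
    (hp' : ∀ h ∈ K, h 0 0 + h 1 1 = 2 → h = 1) :
    Set.ncard {g : Matrix.SpecialLinearGroup (Fin 2) (ZMod p) |
      20 < Set.ncard {b : Matrix.SpecialLinearGroup (Fin 2) (ZMod p) | b ∈ Bo (ZMod p) ∧ g⁻¹ * b * g ∈ K}} ≤
      2 * Nat.card (Bo (ZMod p)) := by
  classical
  by_cases hex : ∃ g₁ : Matrix.SpecialLinearGroup (Fin 2) (ZMod p),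
      20 < Set.ncard {b : Matrix.SpecialLinearGroup (Fin 2) (ZMod p) |
        b ∈ Bo (ZMod p) ∧ g₁⁻¹ * b * g₁ ∈ K}
  · obtain ⟨g₁, hg₁⟩ := hex
    obtain ⟨x, hx⟩ := heavy_diag hp K hp' 20 (by norm_num) g₁ hg₁
    set h₁ := uu x * g₁ with hh₁
    have hmono := lemmaS hp (hvC K h₁) (hvC_neg hneg h₁) (hvC_tr hp' h₁) (by
      refine lt_of_lt_of_le hx (Set.ncard_le_ncard ?_ (Set.toFinite _))
      rintro b ⟨h1, h2, h3⟩
      exact ⟨mem_hvC.2 h3, h1, h2⟩)
    let w : Matrix.SpecialLinearGroup (Fin 2) (ZMod p) :=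
      ⟨!![0, 1; -1, 0], by simp [Matrix.det_fin_two]⟩
    have hsub : {g : Matrix.SpecialLinearGroup (Fin 2) (ZMod p) |
        20 < Set.ncard {b : Matrix.SpecialLinearGroup (Fin 2) (ZMod p) |
          b ∈ Bo (ZMod p) ∧ g⁻¹ * b * g ∈ K}} ⊆
        Set.range (fun b : Bo (ZMod p) => (b : Matrix.SpecialLinearGroup (Fin 2) (ZMod p)) * h₁) ∪
        Set.range (fun b : Bo (ZMod p) =>
          (b : Matrix.SpecialLinearGroup (Fin 2) (ZMod p)) * w⁻¹ * h₁) := by
      intro g hg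
      by_cases h10 : (g * h₁⁻¹) 1 0 = 0
      · left
        exact ⟨⟨g * h₁⁻¹, h10⟩, by simp⟩
      by_cases h11 : (g * h₁⁻¹) 1 1 = 0
      · right
        refine ⟨⟨g * h₁⁻¹ * w, ?_⟩, by simp⟩
        rw [mem_Bo, mul10, h11]
        simp [w]
      exfalso
      have h4 := hv_few (H := (hvC K h₁ : Set _)) hmono (g * h₁⁻¹) h10 h11
      have h5 : {b : Matrix.SpecialLinearGroup (Fin 2) (ZMod p) |
          b ∈ Bo (ZMod p) ∧ (g * h₁⁻¹)⁻¹ * b * (g * h₁⁻¹) ∈ (hvC K h₁ : Set _)} =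
          {b : Matrix.SpecialLinearGroup (Fin 2) (ZMod p) |
          b ∈ Bo (ZMod p) ∧ g⁻¹ * b * g ∈ K} := by
        ext b
        rw [Set.mem_ofPred_eq, Set.mem_ofPred_eq, SetLike.mem_coe, mem_hvC]
        have h6 : h₁⁻¹ * ((g * h₁⁻¹)⁻¹ * b * (g * h₁⁻¹)) * h₁ = g⁻¹ * b * g := by group
        rw [h6]
      rw [h5] at h4
      have h7 : 20 < Set.ncard {b : Matrix.SpecialLinearGroup (Fin 2) (ZMod p) |
          b ∈ Bo (ZMod p) ∧ g⁻¹ * b * g ∈ K} := hg
      omega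
    have hr : ∀ y : Matrix.SpecialLinearGroup (Fin 2) (ZMod p),
        (Set.range (fun b : Bo (ZMod p) =>
          (b : Matrix.SpecialLinearGroup (Fin 2) (ZMod p)) * y)).ncard ≤ Nat.card (Bo (ZMod p)) := by
      intro y
      rw [← Set.image_univ, ← Set.ncard_univ]
      exact Set.ncard_image_le (Set.toFinite _)
    calc _ ≤ _ := Set.ncard_le_ncard hsub (Set.toFinite _)
      _ ≤ _ := Set.ncard_union_le _ _
      _ ≤ Nat.card (Bo (ZMod p)) + Nat.card (Bo (ZMod p)) := by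
          apply Nat.add_le_add (hr h₁)
          have := hr (w⁻¹ * h₁)
          simpa only [mul_assoc] using this
      _ = 2 * Nat.card (Bo (ZMod p)) := by ring
  · push Not at hex
    have h1 : {g : Matrix.SpecialLinearGroup (Fin 2) (ZMod p) |
        20 < Set.ncard {b : Matrix.SpecialLinearGroup (Fin 2) (ZMod p) |
          b ∈ Bo (ZMod p) ∧ g⁻¹ * b * g ∈ K}} = ∅ := by
      rw [Set.eq_empty_iff_forall_notMem]
      intro g hg
      exact absurd (hex g) (not_le_of_gt hg)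
    rw [h1, Set.ncard_empty]
    exact Nat.zero_le _

theorem good_infty {p : ℕ} [Fact p.Prime] (hp : 2 < p) (K : Subgroup (Matrix.SpecialLinearGroup (Fin 2) (ZMod p)))
    (hneg : (-1 : Matrix.SpecialLinearGroup (Fin 2) (ZMod p)) ∈ K)
    (hp' : ∀ h ∈ K, h 0 0 + h 1 1 = 2 → h = 1) (e : Fin 2 → ZMod p) (he : e ≠ 0)
    (hk : ∃ k ∈ K, (k • e) 0 * e 1 - (k • e) 1 * e 0 ≠ 0) :
    ∃ k ∈ K, (k • e) 0 * e 1 - (k • e) 1 * e 0 ≠ 0 ∧
      ∀ g : Matrix.SpecialLinearGroup (Fin 2) (ZMod p), (g • (k • e - e)) 1 = 0 →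
        Set.ncard {b : Matrix.SpecialLinearGroup (Fin 2) (ZMod p) | b ∈ Bo (ZMod p) ∧ g⁻¹ * b * g ∈ K} ≤ 20 := by
  classical
  by_cases hex : ∃ g₁ : Matrix.SpecialLinearGroup (Fin 2) (ZMod p),
      20 < Set.ncard {b : Matrix.SpecialLinearGroup (Fin 2) (ZMod p) |
        b ∈ Bo (ZMod p) ∧ g₁⁻¹ * b * g₁ ∈ K}
  swap
  · push Not at hex
    obtain ⟨k, h1, h2⟩ := hk
    exact ⟨k, h1, h2, fun g _ => hex g⟩
  obtain ⟨g₁, hg₁⟩ := hex
  obtain ⟨x, hx⟩ := heavy_diag hp K hp' 20 (by norm_num) g₁ hg₁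
  set h₁ := uu x * g₁ with hh₁
  have hmono := lemmaS hp (hvC K h₁) (hvC_neg hneg h₁) (hvC_tr hp' h₁) (by
    refine lt_of_lt_of_le hx (Set.ncard_le_ncard ?_ (Set.toFinite _))
    rintro b ⟨h1, h2, h3⟩
    exact ⟨mem_hvC.2 h3, h1, h2⟩)
  -- it suffices to make both coordinates of `h₁ (k e - e)` nonzero
  have key : ∀ k ∈ K, (h₁ • (k • e - e)) 0 ≠ 0 → (h₁ • (k • e - e)) 1 ≠ 0 →
      ∀ g : Matrix.SpecialLinearGroup (Fin 2) (ZMod p), (g • (k • e - e)) 1 = 0 →
        Set.ncard {b : Matrix.SpecialLinearGroup (Fin 2) (ZMod p) |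
          b ∈ Bo (ZMod p) ∧ g⁻¹ * b * g ∈ K} ≤ 20 := by
    intro k _ h0 h1 g hg
    have hm : (g * h₁⁻¹) 1 0 * (h₁ • (k • e - e)) 0 + (g * h₁⁻¹) 1 1 * (h₁ • (k • e - e)) 1 = 0 := by
      rw [← smul1, mul_smul, inv_smul_smul]; exact hg
    have hdet := det_eq (g * h₁⁻¹)
    have h10 : (g * h₁⁻¹) 1 0 ≠ 0 := by
      intro h
      rw [h, zero_mul, zero_add] at hm
      have := (mul_eq_zero.1 hm).resolve_right h1
      rw [h, this] at hdet
      simp at hdet
    have h11 : (g * h₁⁻¹) 1 1 ≠ 0 := by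
      intro h
      rw [h, zero_mul, add_zero] at hm
      have := (mul_eq_zero.1 hm).resolve_right h0
      rw [h, this] at hdet
      simp at hdet
    have h4 := hv_few (H := (hvC K h₁ : Set _)) hmono (g * h₁⁻¹) h10 h11
    have h5 : {b : Matrix.SpecialLinearGroup (Fin 2) (ZMod p) |
        b ∈ Bo (ZMod p) ∧ (g * h₁⁻¹)⁻¹ * b * (g * h₁⁻¹) ∈ (hvC K h₁ : Set _)} =
        {b : Matrix.SpecialLinearGroup (Fin 2) (ZMod p) |
        b ∈ Bo (ZMod p) ∧ g⁻¹ * b * g ∈ K} := by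
      ext b
      rw [Set.mem_ofPred_eq, Set.mem_ofPred_eq, SetLike.mem_coe, mem_hvC]
      have h6 : h₁⁻¹ * ((g * h₁⁻¹)⁻¹ * b * (g * h₁⁻¹)) * h₁ = g⁻¹ * b * g := by group
      rw [h6]
    rw [h5] at h4
    omega
  have hdet1 := det_eq h₁
  -- transfer of the determinant form
  have hform : ∀ k : Matrix.SpecialLinearGroup (Fin 2) (ZMod p),
      (k • e) 0 * e 1 - (k • e) 1 * e 0 =
      (h₁ • k • e) 0 * (h₁ • e) 1 - (h₁ • k • e) 1 * (h₁ • e) 0 := by
    intro k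
    simp only [smul0 h₁, smul1 h₁]
    linear_combination (-((k • e) 0 * e 1 - (k • e) 1 * e 0)) * hdet1
  have hact : ∀ k : Matrix.SpecialLinearGroup (Fin 2) (ZMod p),
      h₁ • k • e = (h₁ * k * h₁⁻¹) • (h₁ • e) := by
    intro k
    rw [← mul_smul, ← mul_smul]
    congr 1
    group
  have hconj : ∀ k ∈ K, h₁ * k * h₁⁻¹ ∈ hvC K h₁ := by
    intro k hk
    rw [mem_hvC]
    have : h₁⁻¹ * (h₁ * k * h₁⁻¹) * h₁ = k := by group
    rw [this]; exact hk
  have hsub : ∀ k : Matrix.SpecialLinearGroup (Fin 2) (ZMod p),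
      h₁ • (k • e - e) = h₁ • k • e - h₁ • e := by
    intro k
    funext i
    fin_cases i
    · simp only [Fin.zero_eta, Pi.sub_apply, smul0 h₁]; ring
    · simp only [Fin.mk_one, Pi.sub_apply, smul1 h₁]; ring
  by_cases hxy : (h₁ • e) 0 ≠ 0 ∧ (h₁ • e) 1 ≠ 0
  · -- a diagonal element
    obtain ⟨b, ⟨hb01, hb10, hbK⟩, hb1⟩ : ∃ b ∈ {b : Matrix.SpecialLinearGroup (Fin 2) (ZMod p) |
        b 0 1 = 0 ∧ b 1 0 = 0 ∧ h₁⁻¹ * b * h₁ ∈ K}, (b 0 0) ^ 2 ≠ 1 := by
      by_contra hcon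
      push Not at hcon
      have h1 : {b : Matrix.SpecialLinearGroup (Fin 2) (ZMod p) |
        b 0 1 = 0 ∧ b 1 0 = 0 ∧ h₁⁻¹ * b * h₁ ∈ K}.ncard ≤ (hvN (1 : ZMod p)).card := by
        rw [← Set.ncard_coe_finset]
        apply Set.ncard_le_ncard_of_injOn (fun b => b 0 0)
        · intro b hb
          exact Finset.mem_coe.2 (mem_hvN.2 (hcon b hb))
        · intro b hb c hc h
          simp only at h
          refine ext4 h (by rw [hb.1, hc.1]) (by rw [hb.2.1, hc.2.1]) ?_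
          have d1 := det_eq b
          have d2 := det_eq c
          rw [hb.1] at d1
          rw [hc.1, ← h] at d2
          have hne : b 0 0 ≠ 0 := by
            intro h0
            rw [h0] at d1
            simp at d1
          apply mul_left_cancel₀ hne
          linear_combination d1 - d2
      have := card_hvN (1 : ZMod p)
      omega
    have hdb := det_eq b
    rw [hb01, zero_mul, sub_zero] at hdb
    have e1 : h₁ * (h₁⁻¹ * b * h₁) * h₁⁻¹ = b := by group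
    have c0 : (h₁ • (h₁⁻¹ * b * h₁) • e) 0 = b 0 0 * (h₁ • e) 0 := by
      rw [hact, e1, smul0 b, hb01]; ring
    have c1 : (h₁ • (h₁⁻¹ * b * h₁) • e) 1 = b 1 1 * (h₁ • e) 1 := by
      rw [hact, e1, smul1 b, hb10]; ring
    have hb00 : b 0 0 ≠ 1 := by
      intro h; apply hb1; rw [h]; ring
    have hb11 : b 1 1 ≠ 1 := by
      intro h
      apply hb00
      rw [h, mul_one] at hdb; exact hdb
    have hbb : b 0 0 - b 1 1 ≠ 0 := by
      intro h
      apply hb1
      linear_combination hdb + b 0 0 * h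
    refine ⟨h₁⁻¹ * b * h₁, hbK, ?_, key _ hbK ?_ ?_⟩
    · rw [hform, c0, c1]
      have : b 0 0 * (h₁ • e) 0 * (h₁ • e) 1 - b 1 1 * (h₁ • e) 1 * (h₁ • e) 0 =
        (b 0 0 - b 1 1) * ((h₁ • e) 0 * (h₁ • e) 1) := by ring
      rw [this]
      exact mul_ne_zero hbb (mul_ne_zero hxy.1 hxy.2)
    · rw [hsub, Pi.sub_apply, c0]
      have : b 0 0 * (h₁ • e) 0 - (h₁ • e) 0 = (b 0 0 - 1) * (h₁ • e) 0 := by ring
      rw [this]
      exact mul_ne_zero (sub_ne_zero.2 hb00) hxy.1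
    · rw [hsub, Pi.sub_apply, c1]
      have : b 1 1 * (h₁ • e) 1 - (h₁ • e) 1 = (b 1 1 - 1) * (h₁ • e) 1 := by ring
      rw [this]
      exact mul_ne_zero (sub_ne_zero.2 hb11) hxy.2
  · -- the given element is antidiagonal
    obtain ⟨k, hkK, hke⟩ := hk
    have hm := hmono _ (hconj k hkK)
    have hdk := det_eq (h₁ * k * h₁⁻¹)
    have c0 : (h₁ • k • e) 0 = (h₁ * k * h₁⁻¹) 0 0 * (h₁ • e) 0 +
        (h₁ * k * h₁⁻¹) 0 1 * (h₁ • e) 1 := by rw [hact, smul0]
    have c1 : (h₁ • k • e) 1 = (h₁ * k * h₁⁻¹) 1 0 * (h₁ • e) 0 +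
        (h₁ * k * h₁⁻¹) 1 1 * (h₁ • e) 1 := by rw [hact, smul1]
    have hke' := hke
    rw [hform, c0, c1] at hke'
    have hprod : (h₁ • e) 0 * (h₁ • e) 1 = 0 := by
      by_contra hcon
      exact hxy ⟨left_ne_zero_of_mul hcon, right_ne_zero_of_mul hcon⟩
    refine ⟨k, hkK, hke, ?_⟩
    generalize h₁ * k * h₁⁻¹ = y at *
    rcases hm with ⟨e1, e2⟩ | ⟨e1, e2⟩
    · exfalso
      apply hke'
      rw [e1, e2]
      linear_combination (y 0 0 - y 1 1) * hprod
    · rw [e1] at c0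
      rw [e2] at c1
      rw [e1, e2] at hke' hdk
      have hy : y 0 1 ≠ 0 ∧ y 1 0 ≠ 0 := by
        constructor
        · intro h; rw [h] at hdk; simp at hdk
        · intro h; rw [h] at hdk; simp at hdk
      have hs : (h₁ • e) 0 ≠ 0 ∨ (h₁ • e) 1 ≠ 0 := by
        by_contra hcon
        push Not at hcon
        apply hke'
        rw [hcon.1, hcon.2]; ring
      apply key k hkK
      · rw [hsub, Pi.sub_apply, c0]
        rcases hs with h | h
        · have h' := (mul_eq_zero.1 hprod).resolve_left h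
          rw [h']
          intro h3
          apply h
          linear_combination -h3
        · have h' := (mul_eq_zero.1 hprod).resolve_right h
          rw [h']
          intro h3
          apply mul_ne_zero hy.1 h
          linear_combination h3
      · rw [hsub, Pi.sub_apply, c1]
        rcases hs with h | h
        · have h' := (mul_eq_zero.1 hprod).resolve_left h
          rw [h']
          intro h3
          apply mul_ne_zero hy.2 h
          linear_combination h3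
        · have h' := (mul_eq_zero.1 hprod).resolve_right h
          rw [h']
          intro h3
          apply h
          linear_combination -h3

end Pool.Agent.H16.PSL
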