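import Pool.Agent.H16.PSL.Vec
import Pool.Agent.H16.PSL.Light2
import Pool.Agent.H16.PSL.SubGrowth
import Pool.Agent.H16.PSL.SubGiant
import Pool.Agent.H16.PSL.SubHeavy

set_option autoImplicit false

namespace Pool.Agent.H16.PSL

open Pool.Agent.Helper999.HM SimpleGraph

section
variable {Γ V : Type*} [Group Γ] [MulAction Γ V] {Y : SimpleGraph V}

theorem dist_smul_le (hadj : ∀ (g : Γ) (a b : V), Y.Adj a b → Y.Adj (g • a) (g • b))
    (hconn : Y.Connected) (g : Γ) (a b : V) : Y.dist (g • a) (g • b) ≤ Y.dist a b := by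
  have hmap : ∀ {a b : V} (w : Y.Walk a b), ∃ w' : Y.Walk (g • a) (g • b),
      w'.length = w.length := by
    intro a b w
    induction w with
    | nil => exact ⟨Walk.nil, rfl⟩
    | cons h _ ih =>
      obtain ⟨w', hw'⟩ := ih
      exact ⟨Walk.cons (hadj g _ _ h) w', by simp [hw']⟩
  obtain ⟨w, hw⟩ := hconn.exists_walk_length_eq_dist a b
  obtain ⟨w', hw'⟩ := hmap w
  rw [← hw, ← hw']
  exact SimpleGraph.dist_le w'

theorem dist_smul (hadj : ∀ (g : Γ) (a b : V), Y.Adj a b → Y.Adj (g • a) (g • b))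
    (hconn : Y.Connected) (g : Γ) (a b : V) : Y.dist (g • a) (g • b) = Y.dist a b := by
  refine le_antisymm (dist_smul_le hadj hconn g a b) ?_
  have := dist_smul_le hadj hconn g⁻¹ (g • a) (g • b)
  rwa [inv_smul_smul, inv_smul_smul] at this

theorem plen_dist (hadj : ∀ (g : Γ) (a b : V), Y.Adj a b → Y.Adj (g • a) (g • b))
    (hconn : Y.Connected) {v0 : V} (hnear : ∀ z : V, ∃ g : Γ, Y.dist z (g • v0) ≤ 1) :
    PLen (fun g : Γ => Y.dist v0 (g • v0)) := by
  refine ⟨by simp, ?_, ?_, ?_⟩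
  · intro g
    have := dist_smul hadj hconn g v0 (g⁻¹ • v0)
    rw [smul_inv_smul] at this
    rw [← this, SimpleGraph.dist_comm]
  · intro g h
    have h1 := hconn.dist_triangle (u := v0) (v := g • v0) (w := (g * h) • v0)
    rw [mul_smul, dist_smul hadj hconn] at h1
    rw [mul_smul]
    exact h1
  · rw [eq_top_iff]
    intro g _
    set E : Set Γ := {g | Y.dist v0 (g • v0) ≤ 3} with hE
    have hlen : ∀ h k : Γ, Y.dist (h • v0) (k • v0) ≤ 3 → h ∈ Subgroup.closure E →
        k ∈ Subgroup.closure E := by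
      intro h k hhk hh
      have h1 : h⁻¹ * k ∈ E := by
        change Y.dist v0 ((h⁻¹ * k) • v0) ≤ 3
        have h2 := dist_smul hadj hconn h v0 ((h⁻¹ * k) • v0)
        rw [← mul_smul, mul_inv_cancel_left] at h2
        rw [← h2]; exact hhk
      have h3 := Subgroup.mul_mem _ hh (Subgroup.subset_closure h1)
      rwa [mul_inv_cancel_left] at h3
    have hstep : ∀ a b : V, Y.Adj a b → (∃ h ∈ Subgroup.closure E, Y.dist a (h • v0) ≤ 1) →
        ∃ h ∈ Subgroup.closure E, Y.dist b (h • v0) ≤ 1 := by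
      rintro a b hab ⟨h, hh, hah⟩
      obtain ⟨k, hk⟩ := hnear b
      refine ⟨k, hlen h k ?_ hh, hk⟩
      have h1 := hconn.dist_triangle (u := h • v0) (v := a) (w := k • v0)
      have h2 := hconn.dist_triangle (u := a) (v := b) (w := k • v0)
      have h3 : Y.dist a b ≤ 1 := by
        have := SimpleGraph.dist_le (Walk.cons hab Walk.nil)
        simpa using this
      have h4 : Y.dist (h • v0) a = Y.dist a (h • v0) := SimpleGraph.dist_comm
      omega
    have hall : ∀ a b : V, ∀ w : Y.Walk a b, (∃ h ∈ Subgroup.closure E, Y.dist a (h • v0) ≤ 1) →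
        ∃ h ∈ Subgroup.closure E, Y.dist b (h • v0) ≤ 1 := by
      intro a b w
      induction w with
      | nil => exact id
      | cons h _ ih => exact fun ha => ih (hstep _ _ h ha)
    obtain ⟨w⟩ := hconn.preconnected v0 (g • v0)
    obtain ⟨h, hh, hgh⟩ := hall _ _ w ⟨1, Subgroup.one_mem _, by simp⟩
    refine hlen h g ?_ hh
    rw [SimpleGraph.dist_comm]
    omega

end

section
variable {p : ℕ} [Fact p.Prime] {V : Type*} [Finite V]
  [MulAction (Matrix.SpecialLinearGroup (Fin 2) (ZMod p)) V] {Y : SimpleGraph V}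


theorem caseA {k0 k : ℕ}
    (hgr : ∀ ℓ : (Matrix.SpecialLinearGroup (Fin 2) (ZMod p)) → ℕ, PLen ℓ →
      k0 ≤ Set.ncard {g : (Matrix.SpecialLinearGroup (Fin 2) (ZMod p)) | g 0 1 = 0 ∧ g 1 0 = 0 ∧ ℓ g = 0} → ∀ g, 100 * ℓ g ≤ p)
    (hk0 : 20 ≤ k0) (hk0p : k0 < p) (hp : 100 ≤ p)
    (hadj : ∀ (g : (Matrix.SpecialLinearGroup (Fin 2) (ZMod p))) (a b : V), Y.Adj a b → Y.Adj (g • a) (g • b))
    (hconn : Y.Connected) (hneg : ∀ v : V, (-1 : (Matrix.SpecialLinearGroup (Fin 2) (ZMod p))) • v = v)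
    (hp' : ∀ (v : V) (h : (Matrix.SpecialLinearGroup (Fin 2) (ZMod p))), h • v = v → h 0 0 + h 1 1 = 2 → h = 1)
    (hnear : ∀ v0 z : V, ∃ g : (Matrix.SpecialLinearGroup (Fin 2) (ZMod p)), Y.dist z (g • v0) ≤ 1)
    (hk : 100 * (64 * k0 ^ 2) ^ 3 * k ≤ p) : HasKMinor Y k := by
  classical
  by_cases hH : ∀ v : V, Set.ncard {b : (Matrix.SpecialLinearGroup (Fin 2) (ZMod p)) | b ∈ Bo (ZMod p) ∧ b • v = v} ≤ k0
  · refine light (k0 := k0) (C := Set.univ) hadj (fun _ _ _ _ => Set.mem_univ _) ?_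
      (fun v _ => hH v) (by omega) hk0p hk
    obtain ⟨v⟩ := hconn.nonempty
    refine conn_of_base (b := v) (Set.mem_univ _) ?_
    rintro a -
    obtain ⟨w⟩ := hconn.preconnected v a
    induction w with
    | nil => exact Relation.ReflTransGen.refl
    | cons h _ ih => exact Relation.ReflTransGen.head ⟨h, Set.mem_univ _⟩ ih
  · push Not at hH
    obtain ⟨v1, hv1⟩ := hH
    have hstab : ∀ (v : V) (g b : (Matrix.SpecialLinearGroup (Fin 2) (ZMod p))), g⁻¹ * b * g ∈ MulAction.stabilizer (Matrix.SpecialLinearGroup (Fin 2) (ZMod p)) v ↔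
        b • (g • v) = g • v := by
      intro v g b
      rw [MulAction.mem_stabilizer_iff, mul_smul, mul_smul, inv_smul_eq_iff]
    obtain ⟨x, hx⟩ := heavy_diag (by omega) (MulAction.stabilizer (Matrix.SpecialLinearGroup (Fin 2) (ZMod p)) v1)
      (fun h hh => hp' v1 h hh) k0 (by omega) 1 (by
        refine lt_of_lt_of_le hv1 (le_of_eq ?_)
        congr 1
        ext b
        simp)
    set v0 : V := (uu x : (Matrix.SpecialLinearGroup (Fin 2) (ZMod p))) • v1 with hv0
    have hdiag : k0 < Set.ncard {g : (Matrix.SpecialLinearGroup (Fin 2) (ZMod p)) | g 0 1 = 0 ∧ g 1 0 = 0 ∧ Y.dist v0 (g • v0) = 0} := by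
      refine lt_of_lt_of_le hx (Set.ncard_le_ncard ?_ (Set.toFinite _))
      rintro b ⟨h1, h2, h3⟩
      refine ⟨h1, h2, ?_⟩
      rw [hconn.dist_eq_zero_iff, hv0, eq_comm, ← hstab]
      simpa using h3
    have hlen : PLen (fun g : (Matrix.SpecialLinearGroup (Fin 2) (ZMod p)) => Y.dist v0 (g • v0)) := plen_dist hadj hconn (hnear v0)
    have hD := hgr _ hlen hdiag.le
    let Hv : Set V := {v | k0 < Set.ncard {b : (Matrix.SpecialLinearGroup (Fin 2) (ZMod p)) | b ∈ Bo (ZMod p) ∧ b • v = v}}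
    obtain ⟨C, hC1, hC2, hC3⟩ := giant hadj hconn v0 (p / 100) (by
        intro g
        have := hD g
        rw [Nat.le_div_iff_mul_le (by norm_num)]
        linarith) (by omega) Hv (by
        intro b hb v hv
        refine lt_of_lt_of_le (show k0 < _ from hv) ?_
        refine Set.ncard_le_ncard_of_injOn (fun c => b * c * b⁻¹) ?_ ?_ (Set.toFinite _)
        · rintro c ⟨hc, hcv⟩
          refine ⟨(Bo (ZMod p)).mul_mem ((Bo (ZMod p)).mul_mem hb hc) ((Bo (ZMod p)).inv_mem hb), ?_⟩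
          rw [mul_smul, inv_smul_smul, mul_smul, hcv]
        · intro c _ d _ hcd
          simpa using hcd) (by
        intro v
        have hneg' : (-1 : (Matrix.SpecialLinearGroup (Fin 2) (ZMod p))) ∈ MulAction.stabilizer (Matrix.SpecialLinearGroup (Fin 2) (ZMod p)) v := hneg v
        refine le_trans (Set.ncard_le_ncard ?_ (Set.toFinite _))
          (few_heavy (by omega) (MulAction.stabilizer (Matrix.SpecialLinearGroup (Fin 2) (ZMod p)) v) hneg' (fun h hh => hp' v h hh))
        intro g hg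
        have hg' : k0 < Set.ncard {b : (Matrix.SpecialLinearGroup (Fin 2) (ZMod p)) | b ∈ Bo (ZMod p) ∧ b • (g • v) = g • v} := hg
        refine lt_of_le_of_lt hk0 (lt_of_lt_of_le hg' (le_of_eq ?_))
        congr 1
        ext b
        rw [Set.mem_ofPred_eq, Set.mem_ofPred_eq, hstab])
    refine light (k0 := k0) (C := C) hadj hC3 hC2 ?_ (by omega) hk0p hk
    intro v hv
    by_contra hcon
    push Not at hcon
    exact Set.disjoint_left.1 hC1 hv hcon

end

end Pool.Agent.H16.PSL
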