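import Pool.Graph.R_seed8.Helper999.HMBasic

/-!
Subtask Bip (helper16, MP_d4104f_co): linear clique minor in a bipartite determinant graph.
Proof by helper189, following the sketch of helper16.
-/

set_option autoImplicit false

namespace Pool.Agent.H16.PSL

open Pool.Agent.Helper999.HM

/-- The combinatorial part (`m ≥ 2` classes). -/
theorem abs_minor {V P Q : Type*} [Fintype P] [DecidableEq P] [Fintype Q] [DecidableEq Q]
    [CommGroup Q] {Y : SimpleGraph V} (x z : P → Q → V) (c : P → P → Q)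
    (hx : ∀ l j l' j', x l j = x l' j' → l = l' ∧ j = j')
    (hz : ∀ l j l' j', z l j = z l' j' → l = l' ∧ j = j')
    (hxz : ∀ l j l' j', x l j ≠ z l' j')
    (hadj : ∀ l l' j j', l ≠ l' → j * j' = c l l' → Y.Adj (x l j) (z l' j'))
    (n : ℕ) (hn : 1 ≤ n)
    (hcount : ∀ l1 l2 q1 q2, l1 ≠ l2 →
      n ≤ (Finset.univ.filter
        (fun l => l ≠ l1 ∧ l ≠ l2 ∧ c l l1 * q1⁻¹ = c l l2 * q2⁻¹)).card)
    (k : ℕ) (hQ : 2 ≤ Fintype.card Q) (h1 : k ≤ ((n + 1) / 2) * Fintype.card Q)
    (h2 : k + (n + 1) / 2 ≤ Fintype.card P) : HasKMinor Y k := by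
  classical
  set f := (n + 1) / 2 with hf
  have hfn : f ≤ n := by omega
  obtain ⟨e⟩ : Nonempty ((Fin k ⊕ Fin f) ↪ P) :=
    Function.Embedding.nonempty_of_card_le (by simpa using h2)
  obtain ⟨hb⟩ : Nonempty (Fin k ↪ Fin f × Q) :=
    Function.Embedding.nonempty_of_card_le (by simpa using h1)
  set M : Fin k → P := fun i => e (Sum.inl i) with hM
  set H : Fin f → P := fun i => e (Sum.inr i) with hH
  have hMi : ∀ i j, M i = M j → i = j := fun i j h => Sum.inl_injective (e.injective h)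
  have hHi : ∀ i j, H i = H j → i = j := fun i j h => Sum.inr_injective (e.injective h)
  have hMH : ∀ i j, M i ≠ H j := fun i j h => by
    have := e.injective h
    simp at this
  let N : Fin k × Q → Finset (P × Q) := fun s => Finset.univ.filter (fun t =>
    t.1 ≠ M s.1 ∧ t.1 ≠ H (hb s.1).1 ∧ t.2 * s.2 = c t.1 (M s.1) ∧
      t.2 * (hb s.1).2 = c t.1 (H (hb s.1).1))
  have memN : ∀ s t, t ∈ N s ↔ (t.1 ≠ M s.1 ∧ t.1 ≠ H (hb s.1).1 ∧ t.2 * s.2 = c t.1 (M s.1) ∧
      t.2 * (hb s.1).2 = c t.1 (H (hb s.1).1)) := by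
    intro s t; simp [N]
  have hNcard : ∀ s, n ≤ (N s).card := by
    intro s
    refine (hcount (M s.1) (H (hb s.1).1) s.2 (hb s.1).2 (hMH _ _)).trans ?_
    refine Finset.card_le_card_of_injOn (fun l => (l, c l (M s.1) * s.2⁻¹)) ?_ ?_
    · intro l hl
      simp only [Finset.coe_filter, Finset.mem_univ, true_and, Set.mem_setOf_eq] at hl
      obtain ⟨a1, a2, a3⟩ := hl
      simp only [Finset.mem_coe, memN]
      refine ⟨a1, a2, by simp, ?_⟩
      rw [a3]; simp
    · intro l _ l' _ h
      exact (Prod.mk.inj h).1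
  have hmult : ∀ (S : Finset (Fin k × Q)) (t : P × Q), (S.filter (fun s => t ∈ N s)).card ≤ f := by
    intro S t
    have : (S.filter (fun s => t ∈ N s)).card ≤ (Finset.univ : Finset (Fin f)).card := by
      refine Finset.card_le_card_of_injOn (fun s => (hb s.1).1) (fun _ _ => by simp) ?_
      intro s hs s' hs' h
      simp only [Finset.coe_filter, Set.mem_setOf_eq, memN] at hs hs'
      obtain ⟨_, _, _, a3, a4⟩ := hs
      obtain ⟨_, _, _, b3, b4⟩ := hs'
      simp only at h
      rw [← h, ← a4] at b4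
      have h2' : (hb s.1).2 = (hb s'.1).2 := (mul_left_cancel b4).symm
      have h3 : s.1 = s'.1 := hb.injective (Prod.ext h h2')
      rw [← h3, ← a3] at b3
      exact Prod.ext h3 (mul_left_cancel b3).symm
    simpa using this
  obtain ⟨γ, hγi, hγ⟩ : ∃ γ : Fin k × Q → P × Q, Function.Injective γ ∧ ∀ s, γ s ∈ N s := by
    rw [← Finset.all_card_le_biUnion_card_iff_exists_injective]
    intro S
    have h3 := Finset.card_mul_le_card_mul (s := S) (t := S.biUnion N) (fun s t => t ∈ N s)
      (m := n) (n := f) (fun s hs => by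
        refine (hNcard s).trans (Finset.card_le_card ?_)
        intro t ht
        rw [Finset.mem_bipartiteAbove]
        exact ⟨Finset.mem_biUnion.2 ⟨s, hs, ht⟩, ht⟩)
      (fun t _ => by
        refine le_trans (Finset.card_le_card ?_) (hmult S t)
        intro s hs
        rw [Finset.mem_bipartiteBelow] at hs
        exact Finset.mem_filter.2 hs)
    have h4 : (S.biUnion N).card * f ≤ (S.biUnion N).card * n := Nat.mul_le_mul_left _ hfn
    exact Nat.le_of_mul_le_mul_right (h3.trans h4) (by omega)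
  have hγ' : ∀ i j, (γ (i, j)).1 ≠ M i ∧ (γ (i, j)).1 ≠ H (hb i).1 ∧
      (γ (i, j)).2 * j = c (γ (i, j)).1 (M i) ∧
      (γ (i, j)).2 * (hb i).2 = c (γ (i, j)).1 (H (hb i).1) := by
    intro i j
    have := hγ (i, j)
    rwa [memN] at this
  let hub : Fin k → V := fun i => z (H (hb i).1) (hb i).2
  let xs : Fin k → Q → V := fun i j => x (γ (i, j)).1 (γ (i, j)).2
  have hubadj : ∀ i j, Y.Adj (xs i j) (hub i) := fun i j =>
    hadj _ _ _ _ (hγ' i j).2.1 (hγ' i j).2.2.2
  have xsadj : ∀ i j, Y.Adj (xs i j) (z (M i) j) := fun i j =>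
    hadj _ _ _ _ (hγ' i j).1 (hγ' i j).2.2.1
  have xsinj : ∀ i j i' j', xs i j = xs i' j' → i = i' ∧ j = j' := by
    intro i j i' j' h
    obtain ⟨a1, a2⟩ := hx _ _ _ _ h
    have := hγi (Prod.ext a1 a2)
    exact Prod.mk.inj this
  refine ⟨fun i => {v | (∃ j, v = z (M i) j) ∨ (∃ j, v = xs i j) ∨ v = hub i}, ?_, ?_, ?_⟩
  · intro i
    refine conn_of_base (b := hub i) (Or.inr (Or.inr rfl)) ?_
    have s1 : ∀ j, Relation.ReflTransGen (StepIn Y {v | (∃ j, v = z (M i) j) ∨
        (∃ j, v = xs i j) ∨ v = hub i}) (hub i) (xs i j) := fun j =>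
      Relation.ReflTransGen.single ⟨(hubadj i j).symm, Or.inr (Or.inl ⟨j, rfl⟩)⟩
    rintro a (⟨j, rfl⟩ | ⟨j, rfl⟩ | rfl)
    · exact (s1 j).tail ⟨xsadj i j, Or.inl ⟨j, rfl⟩⟩
    · exact s1 j
    · exact Relation.ReflTransGen.refl
  · intro i i' hii
    rw [Set.disjoint_left]
    rintro v (⟨j, rfl⟩ | ⟨j, rfl⟩ | rfl) (⟨j', h⟩ | ⟨j', h⟩ | h)
    · exact hii (hMi _ _ (hz _ _ _ _ h).1)
    · exact hxz _ _ _ _ h.symm
    · exact hMH _ _ (hz _ _ _ _ h).1
    · exact hxz _ _ _ _ h
    · exact hii (xsinj _ _ _ _ h).1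
    · exact hxz _ _ _ _ h
    · exact hMH _ _ (hz _ _ _ _ h).1.symm
    · exact hxz _ _ _ _ h.symm
    · obtain ⟨a1, a2⟩ := hz _ _ _ _ h
      exact hii (hb.injective (Prod.ext (hHi _ _ a1) a2))
  · intro i i' hii
    obtain ⟨j1, j2, hj⟩ := Fintype.exists_pair_of_one_lt_card (by omega : 1 < Fintype.card Q)
    have hdir : (γ (i, j1)).1 ≠ (γ (i, j2)).1 := by
      intro h
      have a1 := (hγ' i j1).2.2.2
      have a2 := (hγ' i j2).2.2.2
      rw [← h, ← a1] at a2
      have := hγi (Prod.ext h (mul_right_cancel a2).symm)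
      exact hj (Prod.mk.inj this).2
    have : ∃ j, (γ (i, j)).1 ≠ M i' := by
      by_contra hcon
      push Not at hcon
      exact hdir ((hcon j1).trans (hcon j2).symm)
    obtain ⟨j, hj'⟩ := this
    refine ⟨xs i j, Or.inr (Or.inl ⟨j, rfl⟩), z (M i') ((γ (i, j)).2⁻¹ * c (γ (i, j)).1 (M i')),
      Or.inl ⟨_, rfl⟩, ?_⟩
    exact hadj _ _ _ _ hj' (by simp)

/-- the representatives of the directions -/
def pt {p : ℕ} : Option (ZMod p) → (Fin 2 → ZMod p)
  | none => ![1, 0]
  | some w => ![w, 1]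

/-- the determinant -/
def dt {p : ℕ} (a b : Fin 2 → ZMod p) : ZMod p := a 0 * b 1 - a 1 * b 0

theorem dt_ne {p : ℕ} [Fact p.Prime] {l l' : Option (ZMod p)} (h : l ≠ l') :
    dt (pt l) (pt l') ≠ 0 := by
  rcases l with _ | a <;> rcases l' with _ | b
  · exact absurd rfl h
  · simp [dt, pt]
  · simp [dt, pt]
  · simp only [dt, pt]
    simp only [Matrix.cons_val_zero, Matrix.cons_val_one, mul_one, one_mul, ne_eq]
    intro h'
    exact h (by rw [sub_eq_zero.1 h'])

theorem dt_smul {p : ℕ} (u v : ZMod p) (a b : Fin 2 → ZMod p) :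
    dt (u • a) (v • b) = u * v * dt a b := by
  simp only [dt, Pi.smul_apply, smul_eq_mul]; ring

theorem pt_ne {p : ℕ} [Fact p.Prime] (l : Option (ZMod p)) : pt l ≠ 0 := by
  rcases l with _ | a
  · intro h; have := congrFun h 0; simp [pt] at this
  · intro h; have := congrFun h 1; simp [pt] at this

theorem exists_pt {p : ℕ} [Fact p.Prime] (v : Fin 2 → ZMod p) (hv : v ≠ 0) :
    ∃ (l : Option (ZMod p)) (s : (ZMod p)ˣ), v = (s : ZMod p) • pt l := by
  by_cases h1 : v 1 = 0
  · have h0 : v 0 ≠ 0 := by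
      intro h0
      apply hv
      ext i
      fin_cases i
      · exact h0
      · exact h1
    refine ⟨none, Units.mk0 _ h0, ?_⟩
    ext i
    fin_cases i
    · simp [pt]
    · simp [pt, h1]
  · refine ⟨some (v 0 / v 1), Units.mk0 _ h1, ?_⟩
    ext i
    fin_cases i
    · simp only [pt, Units.val_mk0, Pi.smul_apply, smul_eq_mul]
      simp
      field_simp
    · simp [pt]

theorem bip_minor {p : ℕ} [Fact p.Prime] (hp : 2 < p) {V : Type*} [Finite V] {Y : SimpleGraph V}
    (X Z : (Fin 2 → ZMod p) → V) (N : Subgroup (ZMod p)ˣ)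
    (hXX : ∀ a b, a ≠ 0 → b ≠ 0 → X a = X b → ∃ s ∈ N, b = (s : ZMod p) • a)
    (hZZ : ∀ a b, a ≠ 0 → b ≠ 0 → Z a = Z b → ∃ s ∈ N, b = (s : ZMod p) • a)
    (hXZ : ∀ a b, a ≠ 0 → b ≠ 0 → X a ≠ Z b)
    (hadj : ∀ a b, ∀ s ∈ N, a 0 * b 1 - a 1 * b 0 = ((s : (ZMod p)ˣ) : ZMod p) → Y.Adj (X a) (Z b))
    {k : ℕ} (hk : 4 * k ≤ p) : HasKMinor Y k := by
  classical
  have hadj' : ∀ a b, ∀ s ∈ N, dt a b = ((s : (ZMod p)ˣ) : ZMod p) → Y.Adj (X a) (Z b) := hadj
  -- separation of directions and classes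
  have sep : ∀ (l l' : Option (ZMod p)) (u u' : (ZMod p)ˣ) (s : (ZMod p)ˣ), s ∈ N →
      ((u' : ZMod p) • pt l' : Fin 2 → ZMod p) = (s : ZMod p) • ((u : ZMod p) • pt l) →
      l = l' ∧ (QuotientGroup.mk u : (ZMod p)ˣ ⧸ N) = QuotientGroup.mk u' := by
    intro l l' u u' s hs h
    have hll : l = l' := by
      by_contra hne
      have h0 := dt_ne hne
      have h1 : dt ((u : ZMod p) • pt l) ((u' : ZMod p) • pt l') = 0 := by
        rw [h]
        simp only [dt, Pi.smul_apply, smul_eq_mul]; ring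
      rw [dt_smul] at h1
      exact mul_ne_zero (mul_ne_zero u.ne_zero u'.ne_zero) h0 h1
    refine ⟨hll, ?_⟩
    subst hll
    have hu : (u' : ZMod p) = s * u := by
      have h2 : ∀ i, pt l i ≠ 0 → (u' : ZMod p) = s * u := by
        intro i hi
        have := congrFun h i
        simp only [Pi.smul_apply, smul_eq_mul] at this
        rw [← mul_assoc] at this
        exact mul_right_cancel₀ hi this
      have h3 : ∃ i, pt l i ≠ 0 := by
        by_contra hcon
        push Not at hcon
        exact pt_ne l (funext hcon)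
      obtain ⟨i, hi⟩ := h3
      exact h2 i hi
    have hu' : u' = s * u := Units.ext (by simpa using hu)
    rw [QuotientGroup.eq, hu']
    have : u⁻¹ * (s * u) = s := by rw [mul_comm s u, inv_mul_cancel_left]
    rw [this]; exact hs
  by_cases hN : N = ⊤
  · -- one class: a large biclique
    have hcard : k + k ≤ Fintype.card (Option (ZMod p)) := by
      rw [Fintype.card_option, ZMod.card]; omega
    obtain ⟨e⟩ : Nonempty ((Fin k ⊕ Fin k) ↪ Option (ZMod p)) :=
      Function.Embedding.nonempty_of_card_le (by simpa using hcard)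
    refine hasKMinor_of_biclique (fun i => {X (pt (e (Sum.inl i)))})
      (fun i => {Z (pt (e (Sum.inr i)))}) (fun i => conn_singleton _ _)
      (fun i => conn_singleton _ _) ?_ ?_ ?_ ?_
    · intro i j hij
      rw [Set.disjoint_singleton]
      intro h
      obtain ⟨s, hs, h'⟩ := hXX _ _ (pt_ne _) (pt_ne _) h
      have := (sep _ _ 1 1 s hs (by simpa using h')).1
      exact hij (Sum.inl_injective (e.injective this))
    · intro i j hij
      rw [Set.disjoint_singleton]
      intro h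
      obtain ⟨s, hs, h'⟩ := hZZ _ _ (pt_ne _) (pt_ne _) h
      have := (sep _ _ 1 1 s hs (by simpa using h')).1
      exact hij (Sum.inr_injective (e.injective this))
    · intro i j
      rw [Set.disjoint_singleton]
      exact hXZ _ _ (pt_ne _) (pt_ne _)
    · intro i j
      refine ⟨_, rfl, _, rfl, ?_⟩
      have hne : e (Sum.inl i) ≠ e (Sum.inr j) := fun h => by
        have := e.injective h; simp at this
      exact hadj' _ _ (Units.mk0 _ (dt_ne hne)) (by rw [hN]; trivial) (by simp)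
  · -- at least two classes
    let Q := (ZMod p)ˣ ⧸ N
    let rep : Q → (ZMod p)ˣ := Quotient.out
    have hrep : ∀ q : Q, (QuotientGroup.mk (rep q) : (ZMod p)ˣ ⧸ N) = q := fun q =>
      QuotientGroup.out_eq' q
    let c : Option (ZMod p) → Option (ZMod p) → Q := fun l l' =>
      if h : l ≠ l' then (QuotientGroup.mk (Units.mk0 _ (dt_ne h)) : (ZMod p)ˣ ⧸ N)⁻¹ else 1
    have hc : ∀ l l' (h : l ≠ l'), c l l' =
        (QuotientGroup.mk (Units.mk0 _ (dt_ne h)) : (ZMod p)ˣ ⧸ N)⁻¹ := by
      intro l l' h; simp only [c]; rw [dif_pos h]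
    have hrn : ∀ (q : Q) (l : Option (ZMod p)), ((rep q : ZMod p) • pt l : Fin 2 → ZMod p) ≠ 0 :=
      fun q l => smul_ne_zero (rep q).ne_zero (pt_ne l)
    have hcardQ : Nat.card (ZMod p)ˣ = Nat.card Q * Nat.card N :=
      Subgroup.card_eq_card_quotient_mul_card_subgroup N
    have hcardU : Nat.card (ZMod p)ˣ = p - 1 := by
      rw [Nat.card_eq_fintype_card, ZMod.card_units]
    have hQ2 : 2 ≤ Fintype.card Q := by
      by_contra hcon
      have h1 : Nat.card Q = 1 := by
        have h0 : 0 < Nat.card Q := Nat.card_pos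
        rw [Nat.card_eq_fintype_card] at h0 ⊢
        omega
      apply hN
      rwa [← Subgroup.index_eq_one]
    set n := Nat.card N with hn
    have hn1 : 1 ≤ n := Nat.card_pos
    have hprod : Fintype.card Q * n = p - 1 := by
      rw [← hcardU, hcardQ, Nat.card_eq_fintype_card]
    refine abs_minor (P := Option (ZMod p)) (Q := Q) (fun l q => X ((rep q : ZMod p) • pt l))
      (fun l q => Z ((rep q : ZMod p) • pt l)) c ?_ ?_ ?_ ?_ n hn1 ?_ k hQ2 ?_ ?_
    · intro l j l' j' h
      obtain ⟨s, hs, h'⟩ := hXX _ _ (hrn _ _) (hrn _ _) h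
      obtain ⟨h1, h2⟩ := sep _ _ _ _ s hs h'
      rw [hrep, hrep] at h2
      exact ⟨h1, h2⟩
    · intro l j l' j' h
      obtain ⟨s, hs, h'⟩ := hZZ _ _ (hrn _ _) (hrn _ _) h
      obtain ⟨h1, h2⟩ := sep _ _ _ _ s hs h'
      rw [hrep, hrep] at h2
      exact ⟨h1, h2⟩
    · intro l j l' j'
      exact hXZ _ _ (hrn _ _) (hrn _ _)
    · intro l l' j j' hne h
      rw [hc l l' hne] at h
      set d := Units.mk0 _ (dt_ne hne) with hd
      refine hadj' _ _ (rep j * rep j' * d) ?_ ?_
      · rw [← QuotientGroup.eq_one_iff]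
        have : (QuotientGroup.mk (rep j * rep j' * d) : (ZMod p)ˣ ⧸ N) =
          QuotientGroup.mk (rep j) * QuotientGroup.mk (rep j') * QuotientGroup.mk d := rfl
        rw [this, hrep, hrep, h]; simp
      · rw [dt_smul]; simp [hd]
    · intro l1 l2 q1 q2 hne
      -- the coset
      set t0 : (ZMod p)ˣ := rep (q2 * q1⁻¹) with ht0
      -- for every `s ∈ N` a direction with `dt l l1 = s t0 dt l l2`
      have hex : ∀ s : N, ∃ l, l ≠ l1 ∧ l ≠ l2 ∧
          dt (pt l) (pt l1) = ((s : (ZMod p)ˣ) * t0 : (ZMod p)ˣ) * dt (pt l) (pt l2) := by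
        intro s
        set t : (ZMod p)ˣ := (s : (ZMod p)ˣ) * t0 with ht
        have h12 := dt_ne hne
        have hv : pt l1 - (t : ZMod p) • pt l2 ≠ 0 := by
          intro h
          apply h12
          have : dt (pt l1 - (t : ZMod p) • pt l2) (pt l2) = dt (pt l1) (pt l2) := by
            simp only [dt, Pi.sub_apply, Pi.smul_apply, smul_eq_mul]; ring
          rw [← this, h]; simp [dt]
        obtain ⟨l, r, hr⟩ := exists_pt _ hv
        have e1 : (r : ZMod p) * dt (pt l) (pt l1) = t * dt (pt l1) (pt l2) := by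
          have := dt_smul (r : ZMod p) 1 (pt l) (pt l1)
          rw [← hr, one_smul, mul_one] at this
          rw [← this]
          simp only [dt, Pi.sub_apply, Pi.smul_apply, smul_eq_mul]; ring
        have e2 : (r : ZMod p) * dt (pt l) (pt l2) = dt (pt l1) (pt l2) := by
          have := dt_smul (r : ZMod p) 1 (pt l) (pt l2)
          rw [← hr, one_smul, mul_one] at this
          rw [← this]
          simp only [dt, Pi.sub_apply, Pi.smul_apply, smul_eq_mul]; ring
        refine ⟨l, ?_, ?_, ?_⟩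
        · rintro rfl
          have : dt (pt l) (pt l) = 0 := by simp only [dt]; ring
          rw [this, mul_zero] at e1
          exact mul_ne_zero t.ne_zero h12 e1.symm
        · rintro rfl
          have : dt (pt l) (pt l) = 0 := by simp only [dt]; ring
          rw [this, mul_zero] at e2
          exact h12 e2.symm
        · have := e1.trans (congrArg (fun w => (t : ZMod p) * w) e2.symm)
          have h5 : (r : ZMod p) * dt (pt l) (pt l1) = r * (t * dt (pt l) (pt l2)) := by
            rw [this]; ring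
          exact mul_left_cancel₀ r.ne_zero h5
      choose g hg1 hg2 hg3 using hex
      have hnc : n = (Finset.univ : Finset N).card := by
        rw [hn, Nat.card_eq_fintype_card, Finset.card_univ]
      rw [hnc]
      refine Finset.card_le_card_of_injOn g ?_ ?_
      · intro s _
        simp only [Finset.coe_filter, Finset.mem_univ, true_and, Set.mem_setOf_eq]
        refine ⟨hg1 s, hg2 s, ?_⟩
        rw [hc _ _ (hg1 s), hc _ _ (hg2 s)]
        have hu : Units.mk0 _ (dt_ne (hg1 s)) = (s : (ZMod p)ˣ) * t0 * Units.mk0 _ (dt_ne (hg2 s)) :=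
          Units.ext (by simpa using hg3 s)
        rw [hu]
        have h6 : (QuotientGroup.mk ((s : (ZMod p)ˣ) * t0 * Units.mk0 _ (dt_ne (hg2 s))) :
            (ZMod p)ˣ ⧸ N) = QuotientGroup.mk (s : (ZMod p)ˣ) * QuotientGroup.mk t0 *
            QuotientGroup.mk (Units.mk0 _ (dt_ne (hg2 s))) := rfl
        have h7 : (QuotientGroup.mk (s : (ZMod p)ˣ) : (ZMod p)ˣ ⧸ N) = 1 :=
          (QuotientGroup.eq_one_iff _).2 s.2
        rw [h6, h7, one_mul, ht0, hrep]
        generalize (QuotientGroup.mk (Units.mk0 _ (dt_ne (hg2 s))) : (ZMod p)ˣ ⧸ N) = D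
        have key : ∀ (a b D : (ZMod p)ˣ ⧸ N), (b * a⁻¹ * D)⁻¹ * a⁻¹ = D⁻¹ * b⁻¹ := by
          intro a b D
          rw [mul_comm b a⁻¹]
          group
        exact key q1 q2 D
      · intro s _ s' _ h
        have h8 := hg3 s
        have h9 := hg3 s'
        rw [← h, h8] at h9
        have h10 := mul_right_cancel₀ (dt_ne (hg2 s)) h9
        have h11 := Units.ext h10
        exact Subtype.ext (mul_right_cancel h11)
    · -- k ≤ f m
      have h1 : n ≤ 2 * ((n + 1) / 2) := by omega
      have h2 : Fintype.card Q * n ≤ 2 * ((n + 1) / 2 * Fintype.card Q) := by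
        calc Fintype.card Q * n ≤ Fintype.card Q * (2 * ((n + 1) / 2)) := Nat.mul_le_mul_left _ h1
          _ = _ := by ring
      omega
    · rw [Fintype.card_option, ZMod.card]
      have h1 : 2 * n ≤ Fintype.card Q * n := Nat.mul_le_mul_right _ hQ2
      omega

end Pool.Agent.H16.PSL
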