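import Pool.Agent.H16.PSL.Light2

set_option autoImplicit false

namespace Pool.Agent.H16.PSL

open Pool.Agent.Helper999.HM SimpleGraph

section aux
variable {p : ℕ} [Fact p.Prime]


theorem ii_ne_of_one {a : Fin 2 → ZMod p} (h : a 1 ≠ 0) : a ≠ 0 := by
  rintro rfl
  exact h rfl

theorem ii_uu_smul1 (x : ZMod p) (a : Fin 2 → ZMod p) : ((uu x : (Matrix.SpecialLinearGroup (Fin 2) (ZMod p))) • a) 1 = a 1 := by
  rw [smul1]; simp

theorem ii_uu_smul0 (x : ZMod p) (a : Fin 2 → ZMod p) :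
    ((uu x : (Matrix.SpecialLinearGroup (Fin 2) (ZMod p))) • a) 0 = a 0 + x * a 1 := by
  rw [smul0]; simp

theorem ii_ext {a b : Fin 2 → ZMod p} (h0 : a 0 = b 0) (h1 : a 1 = b 1) : a = b := by
  funext i; fin_cases i <;> assumption

theorem ii_two (hp : 3 < p) : (2 : ZMod p) ≠ 0 := by
  intro h
  have h1 : ((2 : ℕ) : ZMod p) = 0 := by exact_mod_cast h
  rw [ZMod.natCast_eq_zero_iff] at h1
  have := Nat.le_of_dvd (by norm_num) h1
  omega

/-- connectivity of the relation (determinant `κ`) on vectors with nonzero second coordinate -/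
theorem ii_link (hp : 3 < p) {κ : ZMod p} (hκ : κ ≠ 0) {R : (Fin 2 → ZMod p) → (Fin 2 → ZMod p) → Prop}
    (hR : ∀ a b : Fin 2 → ZMod p, a 1 ≠ 0 → b 1 ≠ 0 → a 0 * b 1 - a 1 * b 0 = κ → R a b)
    (hsymm : ∀ a b, a 1 ≠ 0 → b 1 ≠ 0 → R a b → R b a)
    (htrans : ∀ a b c, a 1 ≠ 0 → b 1 ≠ 0 → c 1 ≠ 0 → R a b → R b c → R a c)
    (a b : Fin 2 → ZMod p) (ha : a 1 ≠ 0) (hb : b 1 ≠ 0) : R a b := by
  have key : ∀ a b : Fin 2 → ZMod p, a 1 ≠ 0 → b 1 ≠ 0 → a 0 * b 1 - a 1 * b 0 ≠ 0 → R a b := by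
    intro a b ha hb hδ
    set δ := a 0 * b 1 - a 1 * b 0 with hδd
    by_cases h : b 1 - a 1 = 0
    · -- use the sum
      have h2 : b 1 + a 1 ≠ 0 := by
        intro h3
        have h4 : 2 * a 1 = 0 := by linear_combination h3 - h
        exact (mul_ne_zero (ii_two hp) ha) h4
      let c : Fin 2 → ZMod p := ![κ / δ * (b 0 + a 0), κ / δ * (b 1 + a 1)]
      have hc0 : c 0 = κ / δ * (b 0 + a 0) := rfl
      have hc1 : c 1 = κ / δ * (b 1 + a 1) := rfl
      have hc : c 1 ≠ 0 := by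
        rw [hc1]
        exact mul_ne_zero (div_ne_zero hκ hδ) h2
      refine htrans a c b ha hc hb (hR a c ha hc ?_) (hR c b hc hb ?_)
      · rw [hc0, hc1]
        have : κ / δ * δ = κ := div_mul_cancel₀ _ hδ
        linear_combination this + κ / δ * hδd * 0 
      · rw [hc0, hc1]
        have : κ / δ * δ = κ := div_mul_cancel₀ _ hδ
        linear_combination this
    · let c : Fin 2 → ZMod p := ![κ / δ * (b 0 - a 0), κ / δ * (b 1 - a 1)]
      have hc0 : c 0 = κ / δ * (b 0 - a 0) := rfl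
      have hc1 : c 1 = κ / δ * (b 1 - a 1) := rfl
      have hc : c 1 ≠ 0 := by
        rw [hc1]
        exact mul_ne_zero (div_ne_zero hκ hδ) h
      refine htrans a c b ha hc hb (hR a c ha hc ?_) (hsymm b c hb hc (hR b c hb hc ?_))
      · rw [hc0, hc1]
        have : κ / δ * δ = κ := div_mul_cancel₀ _ hδ
        linear_combination this
      · rw [hc0, hc1]
        have : κ / δ * δ = κ := div_mul_cancel₀ _ hδ
        linear_combination this
  by_cases hδ : a 0 * b 1 - a 1 * b 0 = 0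
  · let c : Fin 2 → ZMod p := ![a 0 + 1, a 1]
    have hc0 : c 0 = a 0 + 1 := rfl
    have hc1 : c 1 = a 1 := rfl
    have hc : c 1 ≠ 0 := by rwa [hc1]
    refine htrans a c b ha hc hb (key a c ha hc ?_) (key c b hc hb ?_)
    · rw [hc0, hc1]
      intro h
      apply ha
      linear_combination -h
    · rw [hc0, hc1]
      intro h
      apply hb
      linear_combination h - hδ
  · exact key a b ha hb hδ

variable {V : Type*} [MulAction (Matrix.SpecialLinearGroup (Fin 2) (ZMod p)) V]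

theorem ii_uu_free (X : (Fin 2 → ZMod p) → V)
    (hX : ∀ (g : (Matrix.SpecialLinearGroup (Fin 2) (ZMod p))) (a : Fin 2 → ZMod p), a ≠ 0 → g • X a = X (g • a))
    (N : Subgroup (ZMod p)ˣ)
    (hXX : ∀ a b : Fin 2 → ZMod p, a ≠ 0 → b ≠ 0 → (X a = X b ↔ ∃ s ∈ N, b = (s : ZMod p) • a))
    {x : ZMod p} {a : Fin 2 → ZMod p} (ha : a 1 ≠ 0) (h : (uu x : (Matrix.SpecialLinearGroup (Fin 2) (ZMod p))) • X a = X a) : x = 0 := by
  have ha' := ii_ne_of_one ha
  rw [hX _ _ ha'] at h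
  have hb : ((uu x : (Matrix.SpecialLinearGroup (Fin 2) (ZMod p))) • a) ≠ 0 := ii_ne_of_one (by rwa [ii_uu_smul1])
  obtain ⟨s, -, hs⟩ := (hXX _ _ hb ha').1 h
  have h1 := congrFun hs 1
  have h0 := congrFun hs 0
  rw [Pi.smul_apply, smul_eq_mul, ii_uu_smul1] at h1
  rw [Pi.smul_apply, smul_eq_mul, ii_uu_smul0] at h0
  have hs1 : (s : ZMod p) = 1 := by
    have h2 : ((s : ZMod p) - 1) * a 1 = 0 := by linear_combination -h1
    rcases mul_eq_zero.1 h2 with h3 | h3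
    · linear_combination h3
    · exact absurd h3 ha
  rw [hs1] at h0
  have h2 : x * a 1 = 0 := by linear_combination -h0
  exact (mul_eq_zero.1 h2).resolve_right ha

theorem ii_uu_e2 (X : (Fin 2 → ZMod p) → V)
    (hX : ∀ (g : (Matrix.SpecialLinearGroup (Fin 2) (ZMod p))) (a : Fin 2 → ZMod p), a ≠ 0 → g • X a = X (g • a))
    (N : Subgroup (ZMod p)ˣ)
    (hXX : ∀ a b : Fin 2 → ZMod p, a ≠ 0 → b ≠ 0 → (X a = X b ↔ ∃ s ∈ N, b = (s : ZMod p) • a))
    {x s t : ZMod p} (hs : s ≠ 0) (ht : t ≠ 0) (h : (uu x : (Matrix.SpecialLinearGroup (Fin 2) (ZMod p))) • X ![0, s] = X ![0, t]) :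
    x = 0 := by
  have ha : (![0, s] : Fin 2 → ZMod p) 1 ≠ 0 := hs
  have hb : (![0, t] : Fin 2 → ZMod p) 1 ≠ 0 := ht
  have ha' := ii_ne_of_one ha
  have hb' := ii_ne_of_one hb
  rw [hX _ _ ha'] at h
  have hc : ((uu x : (Matrix.SpecialLinearGroup (Fin 2) (ZMod p))) • (![0, s] : Fin 2 → ZMod p)) ≠ 0 :=
    ii_ne_of_one (by rw [ii_uu_smul1]; exact ha)
  obtain ⟨r, -, hr⟩ := (hXX _ _ hc hb').1 h
  have h0 := congrFun hr 0
  rw [Pi.smul_apply, smul_eq_mul, ii_uu_smul0] at h0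
  simp only [Matrix.cons_val_zero, Matrix.cons_val_one, zero_add] at h0
  have h1 := h0.symm
  rcases mul_eq_zero.1 h1 with h2 | h2
  · exact absurd h2 r.ne_zero
  · exact (mul_eq_zero.1 h2).resolve_right hs

end aux

theorem caseII0 {p k : ℕ} [Fact p.Prime] (hp : 3 < p) {V : Type*} [Finite V]
    [MulAction (Matrix.SpecialLinearGroup (Fin 2) (ZMod p)) V] {Y : SimpleGraph V}
    (hadj : ∀ (g : Matrix.SpecialLinearGroup (Fin 2) (ZMod p)) (a b : V), Y.Adj a b → Y.Adj (g • a) (g • b))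
    (X : (Fin 2 → ZMod p) → V)
    (hX : ∀ (g : Matrix.SpecialLinearGroup (Fin 2) (ZMod p)) (a : Fin 2 → ZMod p), a ≠ 0 → g • X a = X (g • a))
    (N : Subgroup (ZMod p)ˣ)
    (hXX : ∀ a b : Fin 2 → ZMod p, a ≠ 0 → b ≠ 0 → (X a = X b ↔ ∃ s ∈ N, b = (s : ZMod p) • a))
    (κ0 : ZMod p) (hκ0 : κ0 ≠ 0)
    (hE : ∀ a b : Fin 2 → ZMod p, a 0 * b 1 - a 1 * b 0 = κ0 → Y.Adj (X a) (X b))
    (hk : 100 * 2 ^ 3 * k ≤ p) : HasKMinor Y k := by
  classical
  have := Fintype.ofFinite (ZMod p)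
  set W : Set V := {v | ∃ a : Fin 2 → ZMod p, a 1 ≠ 0 ∧ v = X a} with hW
  have hWinv : ∀ g ∈ Un (ZMod p), ∀ v ∈ W, g • v ∈ W := by
    rintro _ ⟨x, rfl⟩ _ ⟨a, ha, rfl⟩
    refine ⟨(uu x : Matrix.SpecialLinearGroup (Fin 2) (ZMod p)) • a, ?_, hX _ _ (ii_ne_of_one ha)⟩
    rwa [ii_uu_smul1]
  have he : ∀ s : ZMod p, s ≠ 0 → X ![0, s] ∈ W := fun s hs => ⟨![0, s], hs, rfl⟩
  have hWc : (Y.induce W).Connected := by
    refine conn_of_base (b := X ![0, 1]) (he 1 one_ne_zero) ?_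
    rintro _ ⟨a, ha, rfl⟩
    refine ii_link hp hκ0 (R := fun a b => Relation.ReflTransGen (StepIn Y W) (X a) (X b)) ?_ ?_ ?_
      ![0, 1] a (one_ne_zero) ha
    · intro a b ha hb h
      exact Relation.ReflTransGen.single ⟨hE a b h, b, hb, rfl⟩
    · intro a b ha hb h
      -- symmetric closure
      have key : ∀ u v, u ∈ W → Relation.ReflTransGen (StepIn Y W) u v →
          Relation.ReflTransGen (StepIn Y W) v u := by
        intro u v hu h
        have : v ∈ W ∧ Relation.ReflTransGen (StepIn Y W) v u := by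
          induction h with
          | refl => exact ⟨hu, Relation.ReflTransGen.refl⟩
          | tail _ hs ih => exact ⟨hs.2, Relation.ReflTransGen.head ⟨hs.1.symm, ih.1⟩ ih.2⟩
        exact this.2
      exact key _ _ ⟨a, ha, rfl⟩ h
    · intro a b c _ _ _ h1 h2
      exact h1.trans h2
  have hfree : ∀ v ∈ W, ∀ x : ZMod p,
      (uu x : Matrix.SpecialLinearGroup (Fin 2) (ZMod p)) • v = v → x = 0 := by
    rintro _ ⟨a, ha, rfl⟩ x hx
    exact ii_uu_free X hX N hXX ha hx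
  obtain ⟨Q, hQW, hQc, hQs, -, hQΔ⟩ := exists_section hadj (Un (ZMod p)) hWinv hWc
    (fun v : {v : V // ∃ s : ZMod p, s ≠ 0 ∧ v = X ![0, s]} => ({v.1} : Set V))
    (by
      rintro ⟨v, s, hs, rfl⟩ _ rfl
      exact he s hs)
    (fun v => conn_singleton _ _)
    (by
      rintro ⟨_, s, hs, rfl⟩ ⟨_, t, ht, rfl⟩ a ha b hb _ ⟨x, rfl⟩ h
      rw [Set.mem_singleton_iff] at ha hb
      rw [ha, hb] at h
      have hx : x = 0 := ii_uu_e2 X hX N hXX hs ht h
      rw [hx, uu_zero, one_smul] at h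
      exact ⟨Subtype.ext h, by rw [ha, hb]; exact h⟩)
  obtain ⟨Gs, hGs, hGs0, hcov⟩ := squares_cover (F := ZMod p)
    (by rw [ZMod.ringChar_zmod_n]; omega) (-κ0) (neg_ne_zero.2 hκ0) {1} {y | y ≠ 0}
    (by simp) (fun x hx => ⟨1, by simp, by simpa using hx⟩)
  refine final_minor (m := 2) hadj
    (uu : ZMod p → Matrix.SpecialLinearGroup (Fin 2) (ZMod p)) uu_add hQc ?_ Gs hGs0
    (by norm_num) (by simpa using hGs) ?_ hk
  · intro a ha b hb x hx
    have h4 := hQs a ha b hb _ (uu_mem_Un x) hx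
    rw [← h4] at hx
    exact hfree a (hQW ha) x hx
  · intro d hd
    obtain ⟨g, hg, y, hy, hgd⟩ := hcov d hd
    refine ⟨g, hg, ?_⟩
    have hy' : y ≠ 0 := hy
    have hs : y⁻¹ ≠ 0 := inv_ne_zero hy'
    obtain ⟨g', ⟨z, rfl⟩, hz⟩ := hQΔ ⟨X ![0, y⁻¹], y⁻¹, hs, rfl⟩
    have hzQ := hz (X ![0, y⁻¹]) rfl
    refine ⟨_, hzQ, _, hzQ, ?_⟩
    have h1 : Y.Adj (X ![0, y⁻¹]) (X ((uu (g * d) : Matrix.SpecialLinearGroup (Fin 2) (ZMod p)) •
        (![0, y⁻¹] : Fin 2 → ZMod p))) := by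
      apply hE
      rw [ii_uu_smul1, ii_uu_smul0, hgd]
      simp only [Matrix.cons_val_zero, Matrix.cons_val_one]
      field_simp
      ring
    rw [← hX _ _ (ii_ne_of_one hs)] at h1
    have h2 := hadj (uu z) _ _ h1
    rw [← mul_smul, ← uu_add] at h2 ⊢
    rwa [add_comm] at h2

theorem caseIIa {p k k0 : ℕ} [Fact p.Prime] (hp : 3 < p) {V : Type*} [Finite V]
    [MulAction (Matrix.SpecialLinearGroup (Fin 2) (ZMod p)) V] {Y : SimpleGraph V}
    (hadj : ∀ (g : Matrix.SpecialLinearGroup (Fin 2) (ZMod p)) (a b : V), Y.Adj a b → Y.Adj (g • a) (g • b))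
    (X : (Fin 2 → ZMod p) → V)
    (hX : ∀ (g : Matrix.SpecialLinearGroup (Fin 2) (ZMod p)) (a : Fin 2 → ZMod p), a ≠ 0 → g • X a = X (g • a))
    (N : Subgroup (ZMod p)ˣ)
    (hXX : ∀ a b : Fin 2 → ZMod p, a ≠ 0 → b ≠ 0 → (X a = X b ↔ ∃ s ∈ N, b = (s : ZMod p) • a))
    (w0 : V) (hw0X : ∀ a : Fin 2 → ZMod p, a ≠ 0 → X a ≠ w0)
    (hw0 : ∀ h : Matrix.SpecialLinearGroup (Fin 2) (ZMod p), h • w0 = w0 → h 0 0 + h 1 1 = 2 → h = 1)
    (hst : Set.ncard {b : Matrix.SpecialLinearGroup (Fin 2) (ZMod p) | b ∈ Bo (ZMod p) ∧ b • w0 = w0} ≤ k0)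
    (d0 : ZMod p) (hd0 : d0 ≠ 0) (h1 : Y.Adj w0 (X ![0, 1])) (h2 : Y.Adj w0 (X ![d0, 1]))
    (hk : 100 * (4 * k0) ^ 3 * k ≤ p) : HasKMinor Y k := by
  classical
  have := Fintype.ofFinite (ZMod p)
  set W : Set V := {v | (∃ a : Fin 2 → ZMod p, a 1 ≠ 0 ∧ v = X a) ∨
    ∃ (g : Matrix.SpecialLinearGroup (Fin 2) (ZMod p)) (a : Fin 2 → ZMod p), a 1 ≠ 0 ∧ v = g • w0 ∧
      Y.Adj v (X a)} with hW
  have hWinv : ∀ g ∈ Un (ZMod p), ∀ v ∈ W, g • v ∈ W := by
    rintro _ ⟨x, rfl⟩ v (⟨a, ha, rfl⟩ | ⟨g, a, ha, rfl, hga⟩)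
    · left
      refine ⟨(uu x : Matrix.SpecialLinearGroup (Fin 2) (ZMod p)) • a, ?_, hX _ _ (ii_ne_of_one ha)⟩
      rwa [ii_uu_smul1]
    · right
      refine ⟨uu x * g, (uu x : Matrix.SpecialLinearGroup (Fin 2) (ZMod p)) • a, ?_, ?_, ?_⟩
      · rwa [ii_uu_smul1]
      · rw [mul_smul]
      · rw [← hX _ _ (ii_ne_of_one ha)]
        exact hadj _ _ _ hga
  have he : ∀ s : ZMod p, s ≠ 0 → X ![0, s] ∈ W := fun s hs => Or.inl ⟨![0, s], hs, rfl⟩
  have hXW : ∀ a : Fin 2 → ZMod p, a 1 ≠ 0 → X a ∈ W := fun a ha => Or.inl ⟨a, ha, rfl⟩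
  have hsymm : ∀ u v, u ∈ W → Relation.ReflTransGen (StepIn Y W) u v →
      Relation.ReflTransGen (StepIn Y W) v u := by
    intro u v hu h
    have : v ∈ W ∧ Relation.ReflTransGen (StepIn Y W) v u := by
      induction h with
      | refl => exact ⟨hu, Relation.ReflTransGen.refl⟩
      | tail _ hs ih => exact ⟨hs.2, Relation.ReflTransGen.head ⟨hs.1.symm, ih.1⟩ ih.2⟩
    exact this.2
  have hlink : ∀ a : Fin 2 → ZMod p, a 1 ≠ 0 →
      Relation.ReflTransGen (StepIn Y W) (X ![0, 1]) (X a) := by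
    intro a ha
    refine ii_link hp (neg_ne_zero.2 hd0)
      (R := fun a b => Relation.ReflTransGen (StepIn Y W) (X a) (X b)) ?_ ?_ ?_
      ![0, 1] a (one_ne_zero) ha
    · intro a b ha hb h
      let g : Matrix.SpecialLinearGroup (Fin 2) (ZMod p) :=
        ⟨!![(b 0 - a 0) / d0, a 0; (b 1 - a 1) / d0, a 1], by
          rw [Matrix.det_fin_two_of]
          field_simp
          linear_combination -h⟩
      have hg1 : g • (![0, 1] : Fin 2 → ZMod p) = a := by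
        apply ii_ext
        · rw [smul0]
          change (b 0 - a 0) / d0 * 0 + a 0 * 1 = a 0
          ring
        · rw [smul1]
          change (b 1 - a 1) / d0 * 0 + a 1 * 1 = a 1
          ring
      have hg2 : g • (![d0, 1] : Fin 2 → ZMod p) = b := by
        apply ii_ext
        · rw [smul0]
          change (b 0 - a 0) / d0 * d0 + a 0 * 1 = b 0
          field_simp; ring
        · rw [smul1]
          change (b 1 - a 1) / d0 * d0 + a 1 * 1 = b 1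
          field_simp; ring
      have e1 := hadj g _ _ h1
      have e2 := hadj g _ _ h2
      rw [hX _ _ (ii_ne_of_one one_ne_zero), hg1] at e1
      rw [hX _ _ (ii_ne_of_one one_ne_zero), hg2] at e2
      refine Relation.ReflTransGen.tail (b := g • w0) (Relation.ReflTransGen.single
        ⟨e1.symm, Or.inr ⟨g, a, ha, rfl, e1⟩⟩) ⟨e2, hXW b hb⟩
    · intro a b ha hb h
      exact hsymm _ _ (hXW a ha) h
    · intro a b c _ _ _ h1 h2
      exact h1.trans h2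
  have hWc : (Y.induce W).Connected := by
    refine conn_of_base (b := X ![0, 1]) (he 1 one_ne_zero) ?_
    rintro v (⟨a, ha, rfl⟩ | ⟨g, a, ha, hv, hga⟩)
    · exact hlink a ha
    · exact Relation.ReflTransGen.tail (hlink a ha) ⟨hga.symm, Or.inr ⟨g, a, ha, hv, hga⟩⟩
  have hconj : ∀ (g : Matrix.SpecialLinearGroup (Fin 2) (ZMod p)) (x : ZMod p),
      (uu x : Matrix.SpecialLinearGroup (Fin 2) (ZMod p)) • (g • w0) = g • w0 → x = 0 := by
    intro g x hx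
    have h3 : (g⁻¹ * uu x * g) • w0 = w0 := by
      rw [mul_smul, mul_smul, hx, inv_smul_smul]
    have h4 := hw0 _ h3 (by
      rw [mul_assoc, mul00, mul11, mul00, mul01, mul10, mul11, inv00, inv01, inv10, inv11]
      simp only [uu00, uu01, uu10, uu11]
      have := det_eq g
      linear_combination 2 * this)
    have h5 : (uu x : Matrix.SpecialLinearGroup (Fin 2) (ZMod p)) = 1 := by
      have h6 : (uu x : Matrix.SpecialLinearGroup (Fin 2) (ZMod p)) = g * (g⁻¹ * uu x * g) * g⁻¹ := by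
        group
      rw [h6, h4]; group
    rw [← uu_zero] at h5
    exact uu_injective h5
  have hfree : ∀ v ∈ W, ∀ x : ZMod p,
      (uu x : Matrix.SpecialLinearGroup (Fin 2) (ZMod p)) • v = v → x = 0 := by
    rintro v (⟨a, ha, rfl⟩ | ⟨g, a, ha, rfl, hga⟩) x hx
    · exact ii_uu_free X hX N hXX ha hx
    · exact hconj g x hx
  -- the multipliers
  set Θ : Finset (ZMod p) := (Set.toFinite ((fun b : Matrix.SpecialLinearGroup (Fin 2) (ZMod p) =>
    b 0 0) '' {b | b ∈ Bo (ZMod p) ∧ b • w0 = w0})).toFinset with hΘ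
  have hΘmem : ∀ θ, θ ∈ Θ ↔ ∃ b : Matrix.SpecialLinearGroup (Fin 2) (ZMod p),
      (b ∈ Bo (ZMod p) ∧ b • w0 = w0) ∧ b 0 0 = θ := by
    intro θ
    rw [hΘ, Set.Finite.mem_toFinset]
    rfl
  have hΘcard : Θ.card ≤ k0 := by
    rw [hΘ, ← Set.ncard_eq_toFinset_card]
    exact (Set.ncard_image_le (Set.toFinite _)).trans hst
  have hΘ1 : (1 : ZMod p) ∈ Θ := by
    rw [hΘmem]
    exact ⟨1, ⟨(Bo (ZMod p)).one_mem, one_smul _ _⟩, by simp⟩
  have hΘ0 : (0 : ZMod p) ∉ Θ := by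
    rw [hΘmem]
    rintro ⟨b, ⟨hb, -⟩, h⟩
    exact Bo_ne hb h
  have hk01 : 1 ≤ k0 := le_trans (Finset.card_pos.2 ⟨1, hΘ1⟩) hΘcard
  obtain ⟨Λ, hΛ0, hΛs, hΛc⟩ := exists_spread Θ hΘ1 hΘ0
  have hΛne : ∀ s ∈ Λ, s ≠ 0 := fun y hy h => hΛ0 (h ▸ hy)
  have hddX : ∀ s : (ZMod p)ˣ, Y.Adj ((dd s : Matrix.SpecialLinearGroup (Fin 2) (ZMod p)) • w0)
      (X ![0, ((s⁻¹ : (ZMod p)ˣ) : ZMod p)]) := by
    intro s
    have e1 := hadj (dd s) _ _ h1
    rw [hX _ _ (ii_ne_of_one one_ne_zero)] at e1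
    have : (dd s : Matrix.SpecialLinearGroup (Fin 2) (ZMod p)) • (![0, 1] : Fin 2 → ZMod p) =
        ![0, ((s⁻¹ : (ZMod p)ˣ) : ZMod p)] := by
      apply ii_ext
      · rw [smul0, dd00, dd01]
        change (s : ZMod p) * 0 + 0 * 1 = 0
        ring
      · rw [smul1, dd10, dd11]
        change 0 * 0 + ((s⁻¹ : (ZMod p)ˣ) : ZMod p) * 1 = ((s⁻¹ : (ZMod p)ˣ) : ZMod p)
        ring
    rwa [this] at e1
  have hddX2 : ∀ s : (ZMod p)ˣ, Y.Adj ((dd s : Matrix.SpecialLinearGroup (Fin 2) (ZMod p)) • w0)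
      ((uu (d0 * (s : ZMod p) ^ 2) : Matrix.SpecialLinearGroup (Fin 2) (ZMod p)) •
        X ![0, ((s⁻¹ : (ZMod p)ˣ) : ZMod p)]) := by
    intro s
    have e1 := hadj (dd s) _ _ h2
    rw [hX _ _ (ii_ne_of_one one_ne_zero)] at e1
    rw [hX _ _ (ii_ne_of_one (Units.ne_zero _))]
    have : (dd s : Matrix.SpecialLinearGroup (Fin 2) (ZMod p)) • (![d0, 1] : Fin 2 → ZMod p) =
        (uu (d0 * (s : ZMod p) ^ 2) : Matrix.SpecialLinearGroup (Fin 2) (ZMod p)) •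
        ![0, ((s⁻¹ : (ZMod p)ˣ) : ZMod p)] := by
      have hs : (s : ZMod p) * ((s⁻¹ : (ZMod p)ˣ) : ZMod p) = 1 := Units.mul_inv s
      apply ii_ext
      · rw [smul0, smul0, dd00, dd01, uu00, uu01]
        change (s : ZMod p) * d0 + 0 * 1 =
          1 * 0 + d0 * (s : ZMod p) ^ 2 * ((s⁻¹ : (ZMod p)ˣ) : ZMod p)
        linear_combination (-(d0 * (s : ZMod p))) * hs
      · rw [smul1, smul1, dd10, dd11, uu10, uu11]
        change 0 * d0 + ((s⁻¹ : (ZMod p)ˣ) : ZMod p) * 1 =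
          0 * 0 + 1 * ((s⁻¹ : (ZMod p)ˣ) : ZMod p)
        ring
    rwa [this] at e1
  obtain ⟨Q, hQW, hQc, hQs, -, hQΔ⟩ := exists_section hadj (Un (ZMod p)) hWinv hWc
    (fun v : {v : V // ∃ s : ZMod p, s ≠ 0 ∧ v = X ![0, s]} =>
      ({u | u = v.1 ∨ ∃ s : (ZMod p)ˣ, (s : ZMod p) ∈ Λ ∧ v.1 = X ![0, ((s⁻¹ : (ZMod p)ˣ) : ZMod p)] ∧
        u = (dd s : Matrix.SpecialLinearGroup (Fin 2) (ZMod p)) • w0} : Set V))
    (by
      rintro ⟨v, s, hs, rfl⟩ u (rfl | ⟨s, hsΛ, hv, rfl⟩)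
      · exact he s hs
      · exact Or.inr ⟨dd s, ![0, ((s⁻¹ : (ZMod p)ˣ) : ZMod p)], Units.ne_zero _, rfl, hddX s⟩)
    (by
      rintro ⟨v, s, hs, rfl⟩
      refine conn_of_base (b := X ![0, s]) (Or.inl rfl) ?_
      rintro u (rfl | ⟨s', hsΛ, hv, rfl⟩)
      · exact Relation.ReflTransGen.refl
      · refine Relation.ReflTransGen.single ⟨?_, Or.inr ⟨s', hsΛ, hv, rfl⟩⟩
        have h3 := hddX s'
        rw [← hv] at h3
        exact h3.symm)
    (by
      have hXw : ∀ (g g' : Matrix.SpecialLinearGroup (Fin 2) (ZMod p)) (s : ZMod p), s ≠ 0 →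
          g • X ![0, s] ≠ g' • w0 := by
        intro g g' s hs h
        have h3 : (g'⁻¹ * g) • X ![0, s] = w0 := by rw [mul_smul, h, inv_smul_smul]
        rw [hX _ _ (ii_ne_of_one hs)] at h3
        refine hw0X _ ?_ h3
        intro h4
        have h5 : (![0, s] : Fin 2 → ZMod p) = 0 := by
          have h6 := congrArg (fun z => (g'⁻¹ * g)⁻¹ • z) h4
          rwa [inv_smul_smul, smul_zero] at h6
        exact hs (congrFun h5 1)
      rintro ⟨v, s, hs, rfl⟩ ⟨v', t, ht, rfl⟩ a ha b hb _ ⟨x, rfl⟩ h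
      rcases ha with ha | ⟨s', hs'Λ, hv, ha⟩
      · rcases hb with hb | ⟨t', ht'Λ, hv', hb⟩
        · rw [ha, hb] at h
          have hx : x = 0 := ii_uu_e2 X hX N hXX hs ht h
          rw [hx, uu_zero, one_smul] at h
          exact ⟨Subtype.ext h, by rw [ha, hb]; exact h⟩
        · exfalso
          rw [ha, hb] at h
          exact hXw _ _ s hs h
      · rcases hb with hb | ⟨t', ht'Λ, hv', hb⟩
        · exfalso
          rw [ha, hb, ← mul_smul] at h
          refine hXw 1 (uu x * dd s') t ht ?_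
          rw [one_smul]
          exact h.symm
        · rw [ha, hb] at h
          set g1 : Matrix.SpecialLinearGroup (Fin 2) (ZMod p) := (dd t')⁻¹ * (uu x * dd s') with hg1
          have hg1w : g1 • w0 = w0 := by
            rw [hg1, mul_smul, mul_smul, h, inv_smul_smul]
          have hm2 : (uu x * dd s' : Matrix.SpecialLinearGroup (Fin 2) (ZMod p)) ∈ Bo (ZMod p) :=
            (Bo (ZMod p)).mul_mem (uu_mem_Bo _) (dd_mem_Bo _)
          have hg1B : g1 ∈ Bo (ZMod p) :=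
            (Bo (ZMod p)).mul_mem ((Bo (ZMod p)).inv_mem (dd_mem_Bo _)) hm2
          have hg100 : g1 0 0 = ((t' : ZMod p))⁻¹ * (s' : ZMod p) := by
            rw [hg1, Bo_mul00 hm2, Bo_inv00 (dd_mem_Bo _), Bo_mul00 (dd_mem_Bo _), dd00, dd00,
              uu00, one_mul]
          have hst' : (s' : ZMod p) = t' := by
            refine hΛs _ hs'Λ _ ht'Λ (g1 0 0) ?_ ?_
            · rw [hΘmem]
              exact ⟨g1, ⟨hg1B, hg1w⟩, rfl⟩
            · rw [hg100]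
              have := t'.ne_zero
              field_simp
          have hst'' : s' = t' := Units.ext hst'
          subst hst''
          have hx := hconj _ _ h
          subst hx
          rw [uu_zero, one_smul] at h
          exact ⟨Subtype.ext (hv.trans hv'.symm), by rw [ha, hb]⟩)
  obtain ⟨Gs, hGs, hGs0, hcov⟩ := squares_cover (F := ZMod p)
    (by rw [ZMod.ringChar_zmod_n]; omega) d0 hd0 (Θ ∪ Θ.image (·⁻¹)) (Λ : Set (ZMod p))
    (by
      intro hmem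
      rcases Finset.mem_union.1 hmem with h | h
      · exact hΘ0 h
      · obtain ⟨θ, hθ, h⟩ := Finset.mem_image.1 h
        exact hΘ0 (inv_eq_zero.1 h ▸ hθ)) hΛc
  refine final_minor (m := 4 * k0) hadj
    (uu : ZMod p → Matrix.SpecialLinearGroup (Fin 2) (ZMod p)) uu_add hQc ?_ Gs hGs0
    (by omega) ?_ ?_ hk
  · intro a ha b hb x hx
    have h4 := hQs a ha b hb _ (uu_mem_Un x) hx
    rw [← h4] at hx
    exact hfree a (hQW ha) x hx
  · have h4 : (Θ ∪ Θ.image (·⁻¹)).card ≤ Θ.card + Θ.card :=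
      (Finset.card_union_le _ _).trans (Nat.add_le_add le_rfl Finset.card_image_le)
    omega
  · intro d hd
    obtain ⟨g, hg, y, hy, hgd⟩ := hcov d hd
    refine ⟨g, hg, ?_⟩
    have hy' : y ≠ 0 := hΛne y hy
    let s : (ZMod p)ˣ := Units.mk0 y hy'
    have hsv : (s : ZMod p) = y := rfl
    obtain ⟨g', ⟨z, rfl⟩, hz⟩ := hQΔ ⟨X ![0, ((s⁻¹ : (ZMod p)ˣ) : ZMod p)], _, Units.ne_zero _, rfl⟩
    have hz1 := hz _ (Or.inl rfl)
    have hz2 := hz _ (Or.inr ⟨s, by rw [hsv]; exact hy, rfl, rfl⟩)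
    refine ⟨_, hz2, _, hz1, ?_⟩
    have h3 := hadj (uu z) _ _ (hddX2 s)
    rw [hsv, ← hgd] at h3
    rw [← mul_smul (uu (g * d)), ← uu_add, add_comm (g * d), uu_add, mul_smul]
    exact h3

end Pool.Agent.H16.PSL
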