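import Pool.Agent.H16.PSL.SL2

/-!
Subtask PType (helper16, MP_d4104f_co Q2): proper subgroups of (Matrix.SpecialLinearGroup (Fin 2) F)(2,p) containing a unipotent element.
-/

set_option autoImplicit false

namespace Pool.Agent.H16.PSL

section field
variable {F : Type*} [Field F]


/-- lower unipotent -/
def lo (z : F) : (Matrix.SpecialLinearGroup (Fin 2) F) := ⟨!![1, 0; z, 1], by simp [Matrix.det_fin_two]⟩

@[simp] theorem lo00 (x : F) : lo x 0 0 = 1 := rfl
@[simp] theorem lo01 (x : F) : lo x 0 1 = 0 := rfl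
@[simp] theorem lo10 (x : F) : lo x 1 0 = x := rfl
@[simp] theorem lo11 (x : F) : lo x 1 1 = 1 := rfl

theorem exists_conj_unip (x : (Matrix.SpecialLinearGroup (Fin 2) F)) (hx : x 0 0 + x 1 1 = 2) :
    ∃ g : (Matrix.SpecialLinearGroup (Fin 2) F), (g * x * g⁻¹) 1 0 = 0 ∧ (g * x * g⁻¹) 0 0 = 1 := by
  have hd := det_eq x
  by_cases hc : x 1 0 = 0
  · refine ⟨1, by simpa using hc, ?_⟩
    rw [hc] at hd
    have h1 : (x 0 0 - 1) ^ 2 = 0 := by
      linear_combination (x 0 0) * hx - hd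
    have h2 : x 0 0 - 1 = 0 := by
      simpa using h1
    simpa using sub_eq_zero.1 h2
  · let g : (Matrix.SpecialLinearGroup (Fin 2) F) := ⟨!![0, (x 1 0)⁻¹; -(x 1 0), x 0 0 - 1], by
      rw [Matrix.det_fin_two]
      simp [hc]⟩
    have g00 : g 0 0 = 0 := rfl
    have g01 : g 0 1 = (x 1 0)⁻¹ := rfl
    have g10 : g 1 0 = -(x 1 0) := rfl
    have g11 : g 1 1 = x 0 0 - 1 := rfl
    refine ⟨g, ?_, ?_⟩
    · rw [mul10, mul10, mul11, inv00, inv10, g10, g11]
      linear_combination (x 1 0) * hd - (x 1 0) * hx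
    · rw [mul00, mul00, mul01, inv00, inv10, g00, g01, g10, g11]
      field_simp
      linear_combination hx

theorem mem_of_uu_of_lo (K : Subgroup (Matrix.SpecialLinearGroup (Fin 2) F)) (hu : ∀ y, uu y ∈ K) (hl : ∀ z, lo z ∈ K) : K = ⊤ := by
  rw [eq_top_iff]
  have key : ∀ k : (Matrix.SpecialLinearGroup (Fin 2) F), k 1 0 ≠ 0 → k ∈ K := by
    intro k hk
    have hd := det_eq k
    have h1 : k = uu ((k 0 0 - 1) / k 1 0) * lo (k 1 0) * uu ((k 1 1 - 1) / k 1 0) := by
      apply ext4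
      · rw [mul00, mul00, mul01]
        simp only [uu00, uu01, uu10, uu11, lo00, lo01, lo10, lo11]
        field_simp
        ring
      · rw [mul01, mul00, mul01]
        simp only [uu00, uu01, uu10, uu11, lo00, lo01, lo10, lo11]
        field_simp
        linear_combination -hd
      · rw [mul10, mul10, mul11]
        simp only [uu00, uu01, uu10, uu11, lo00, lo01, lo10, lo11]
        ring
      · rw [mul11, mul10, mul11]
        simp only [uu00, uu01, uu10, uu11, lo00, lo01, lo10, lo11]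
        field_simp
        ring
    rw [h1]
    exact K.mul_mem (K.mul_mem (hu _) (hl _)) (hu _)
  intro k _
  by_cases hk : k 1 0 = 0
  · have h1 : k * lo 1 ∈ K := by
      apply key
      rw [mul10, hk]
      simp only [lo00, lo10, zero_mul, zero_add, mul_one]
      intro h
      have hd := det_eq k
      rw [h, hk] at hd
      simp at hd
    have h2 := K.mul_mem h1 (K.inv_mem (hl 1))
    rwa [mul_inv_cancel_right] at h2
  · exact key k hk

theorem lo_mem (K : Subgroup (Matrix.SpecialLinearGroup (Fin 2) F)) (hu : ∀ y, uu y ∈ K) (h : (Matrix.SpecialLinearGroup (Fin 2) F)) (hh : h ∈ K) (hc : h 1 0 ≠ 0)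
    (z : F) : lo z ∈ K := by
  have hd := det_eq h
  have hw : uu (-(h 0 0) / h 1 0) * h * uu (-(h 1 1) / h 1 0) ∈ K :=
    K.mul_mem (K.mul_mem (hu _) hh) (hu _)
  obtain ⟨w, hwd⟩ : ∃ w : (Matrix.SpecialLinearGroup (Fin 2) F), w = uu (-(h 0 0) / h 1 0) * h * uu (-(h 1 1) / h 1 0) := ⟨_, rfl⟩
  rw [← hwd] at hw
  have w00 : w 0 0 = 0 := by
    rw [hwd, mul00, mul00, mul01]
    simp only [uu00, uu01, uu10, uu11]
    field_simp
    ring
  have w01 : w 0 1 = -(h 1 0)⁻¹ := by
    rw [hwd, mul01, mul00, mul01]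
    simp only [uu00, uu01, uu10, uu11]
    field_simp
    linear_combination -hd
  have w10 : w 1 0 = h 1 0 := by
    rw [hwd, mul10, mul10, mul11]
    simp only [uu00, uu01, uu10, uu11]
    ring
  have w11 : w 1 1 = 0 := by
    rw [hwd, mul11, mul10, mul11]
    simp only [uu00, uu01, uu10, uu11]
    field_simp
    ring
  have h3 : lo z = w * uu (-z / (h 1 0) ^ 2) * w⁻¹ := by
    apply ext4
    · rw [mul00, mul00, mul01, inv00, inv10, w00, w01, w10, w11]
      simp only [uu00, uu01, uu10, uu11, lo00]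
      field_simp
      try ring
    · rw [mul01, mul00, mul01, inv01, inv11, w00, w01]
      simp only [uu00, uu01, uu10, uu11, lo01]
      ring
    · rw [mul10, mul10, mul11, inv00, inv10, w10, w11]
      simp only [uu00, uu01, uu10, uu11, lo10]
      field_simp
      try ring
    · rw [mul11, mul10, mul11, inv01, inv11, w00, w01, w10, w11]
      simp only [uu00, uu01, uu10, uu11, lo11]
      field_simp
      try ring
  rw [h3]
  exact K.mul_mem (K.mul_mem hw (hu _)) (K.inv_mem hw)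

end field

theorem ptype {p : ℕ} [Fact p.Prime] (hp : 2 < p) (H : Subgroup (Matrix.SpecialLinearGroup (Fin 2) (ZMod p)))
    (hne : H ≠ ⊤) (hx : ∃ x ∈ H, x ≠ 1 ∧ x 0 0 + x 1 1 = 2) :
    ∃ (g : Matrix.SpecialLinearGroup (Fin 2) (ZMod p)) (N : Subgroup (ZMod p)ˣ),
      ∀ h : Matrix.SpecialLinearGroup (Fin 2) (ZMod p), h ∈ H ↔
        (g * h * g⁻¹) 1 0 = 0 ∧ ∃ s ∈ N, (g * h * g⁻¹) 0 0 = (s : ZMod p) := by
  obtain ⟨x, hxH, hx1, hxt⟩ := hx
  obtain ⟨g, hg10, hg00⟩ := exists_conj_unip x hxt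
  have hun : g * x * g⁻¹ ∈ Un (ZMod p) := mem_Un_iff.2 ⟨hg10, hg00⟩
  obtain ⟨t, ht⟩ := hun
  have ht0 : t ≠ 0 := by
    rintro rfl
    rw [uu_zero] at ht
    apply hx1
    have : x = g⁻¹ * (g * x * g⁻¹) * g := by group
    rw [this, ht]; group
  set K : Subgroup (Matrix.SpecialLinearGroup (Fin 2) (ZMod p)) :=
    H.map (MulAut.conj g).toMonoidHom with hK
  have hmem : ∀ h, h ∈ H ↔ g * h * g⁻¹ ∈ K := by
    intro h
    rw [hK, Subgroup.mem_map]
    constructor
    · intro hh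
      exact ⟨h, hh, rfl⟩
    · rintro ⟨h', hh', e⟩
      have e' : g * h' * g⁻¹ = g * h * g⁻¹ := e
      have : h' = h := by
        have := congrArg (fun y => g⁻¹ * y * g) e'
        simpa [mul_assoc] using this
      rwa [← this]
  have hKtop : K ≠ ⊤ := by
    intro h
    apply hne
    rw [eq_top_iff]
    intro y _
    rw [hmem, h]
    trivial
  have hu : ∀ y, uu y ∈ K := by
    intro y
    have h1 : uu t ∈ K := by rw [← ht, ← hmem]; exact hxH
    have h2 := K.pow_mem h1 (y / t).val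
    rw [uu_pow, ZMod.natCast_zmod_val, div_mul_cancel₀ _ ht0] at h2
    exact h2
  have hB : K ≤ Bo (ZMod p) := by
    intro h hh
    by_contra hc
    exact hKtop (mem_of_uu_of_lo K hu fun z => lo_mem K hu h hh hc z)
  refine ⟨g,
    { carrier := {s | ∃ h ∈ K, h 0 0 = (s : ZMod p)}
      mul_mem' := ?_
      one_mem' := ⟨1, K.one_mem, by simp⟩
      inv_mem' := ?_ }, fun h => ?_⟩
  · rintro a b ⟨h, hh, e⟩ ⟨h', hh', e'⟩
    refine ⟨h * h', K.mul_mem hh hh', ?_⟩
    rw [Bo_mul00 (hB hh'), e, e']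
    push_cast; rfl
  · rintro a ⟨h, hh, e⟩
    refine ⟨h⁻¹, K.inv_mem hh, ?_⟩
    rw [Bo_inv00 (hB hh), e]
    push_cast; rfl
  · rw [hmem]
    constructor
    · intro hh
      exact ⟨hB hh, Units.mk0 _ (Bo_ne (hB hh)), ⟨_, hh, rfl⟩, rfl⟩
    · rintro ⟨h10, s, ⟨k, hk, e⟩, e'⟩
      obtain ⟨y, hy⟩ := Bo_eq_of_00 (g := g * h * g⁻¹) (h := k) h10 (hB hk) (by rw [e', e])
      rw [hy]
      exact K.mul_mem (hu y) hk

end Pool.Agent.H16.PSL
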