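import Pool.Agent.H16.PSL.Vec
import Pool.Agent.H16.PSL.Light2
import Pool.Agent.H16.PSL.SubBip
import Pool.Agent.H16.PSL.SubHeavy
import Pool.Agent.H16.PSL.SubII
import Pool.Agent.H16.PSL.SubPType

set_option autoImplicit false

namespace Pool.Agent.H16.PSL

open Pool.Agent.Helper999.HM SimpleGraph

section
variable {p : ℕ} [Fact p.Prime] {V : Type*}
  [MulAction (Matrix.SpecialLinearGroup (Fin 2) (ZMod p)) V] {Y : SimpleGraph V}


open Classical in
/-- the vertex attached to a vector -/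
noncomputable def XX (x : V) (a : Fin 2 → ZMod p) : V :=
  if h : ∃ g : (Matrix.SpecialLinearGroup (Fin 2) (ZMod p)), g • e1 (ZMod p) = a then h.choose • x else x

/-- the stabilizer of `x` is in standard position -/
def Std (x : V) (N : Subgroup (ZMod p)ˣ) : Prop :=
  ∀ h : (Matrix.SpecialLinearGroup (Fin 2) (ZMod p)), h • x = x ↔ h 1 0 = 0 ∧ ∃ s ∈ N, h 0 0 = (s : ZMod p)

theorem XX_eq {x : V} {N : Subgroup (ZMod p)ˣ} (hN : Std x N) {g : (Matrix.SpecialLinearGroup (Fin 2) (ZMod p))} {a : Fin 2 → ZMod p}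
    (hg : g • e1 (ZMod p) = a) : XX x a = g • x := by
  have h : ∃ g : (Matrix.SpecialLinearGroup (Fin 2) (ZMod p)), g • e1 (ZMod p) = a := ⟨g, hg⟩
  rw [XX, dif_pos h]
  have h1 := h.choose_spec
  set g' := h.choose
  have h2 : (g⁻¹ * g') • e1 (ZMod p) = e1 (ZMod p) := by
    rw [mul_smul, h1, ← hg, inv_smul_smul]
  have h3 := stab_e1 h2
  have h4 : (g⁻¹ * g') • x = x := (hN _).2 ⟨h3.1, 1, N.one_mem, by rw [h3.2]; rfl⟩
  rw [mul_smul, inv_smul_eq_iff] at h4
  exact h4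

theorem XX_smul {x : V} {N : Subgroup (ZMod p)ˣ} (hN : Std x N) (g : (Matrix.SpecialLinearGroup (Fin 2) (ZMod p))) (a : Fin 2 → ZMod p)
    (ha : a ≠ 0) : g • XX x a = XX x (g • a) := by
  obtain ⟨h, hh⟩ := exists_single (e1_ne (F := ZMod p)) ha
  rw [XX_eq hN hh, XX_eq hN (g := g * h) (a := g • a) (by rw [mul_smul, hh]), mul_smul]

theorem XX_inj {x : V} {N : Subgroup (ZMod p)ˣ} (hN : Std x N) (a b : Fin 2 → ZMod p)
    (ha : a ≠ 0) (hb : b ≠ 0) : XX x a = XX x b ↔ ∃ s ∈ N, b = (s : ZMod p) • a := by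
  obtain ⟨g, hg⟩ := exists_single (e1_ne (F := ZMod p)) ha
  obtain ⟨g', hg'⟩ := exists_single (e1_ne (F := ZMod p)) hb
  rw [XX_eq hN hg, XX_eq hN hg']
  have h1 : g • x = g' • x ↔ (g⁻¹ * g') • x = x := by
    rw [mul_smul, inv_smul_eq_iff, eq_comm]
  rw [h1, hN]
  constructor
  · rintro ⟨h2, s, hs, h3⟩
    refine ⟨s, hs, ?_⟩
    have h4 : (g⁻¹ * g') • e1 (ZMod p) = (s : ZMod p) • e1 (ZMod p) := by
      apply vec_ext
      · rw [smul_e1_0, h3]; simp
      · rw [smul_e1_1, h2]; simp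
    rw [mul_smul, hg', inv_smul_eq_iff, smul_comm, hg] at h4
    exact h4
  · rintro ⟨s, hs, h2⟩
    have h4 : (g⁻¹ * g') • e1 (ZMod p) = (s : ZMod p) • e1 (ZMod p) := by
      rw [mul_smul, hg', inv_smul_eq_iff, smul_comm, hg]
      exact h2
    refine ⟨?_, s, hs, ?_⟩
    · rw [← smul_e1_1, h4]; simp
    · rw [← smul_e1_0, h4]; simp

theorem exists_notBo : ∃ g : (Matrix.SpecialLinearGroup (Fin 2) (ZMod p)), g 1 0 ≠ 0 :=
  ⟨mk4 0 (-1) 1 0 (by ring), by simp⟩

theorem Std.bo {x : V} {N : Subgroup (ZMod p)ˣ} (hN : Std x N) {g h : (Matrix.SpecialLinearGroup (Fin 2) (ZMod p))} (hgh : g • x = h • x)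
    (hg : g ∈ Bo (ZMod p)) : h ∈ Bo (ZMod p) := by
  have h1 : (g⁻¹ * h) • x = x := by rw [mul_smul, ← hgh, inv_smul_smul]
  have h2 : g⁻¹ * h ∈ Bo (ZMod p) := ((hN _).1 h1).1
  have := (Bo (ZMod p)).mul_mem hg h2
  rwa [mul_inv_cancel_left] at this

variable (p) in
/-- edge transitivity -/
def ETr (Y : SimpleGraph V) (x y : V) : Prop :=
  ∀ a b : V, Y.Adj a b → ∃ g : (Matrix.SpecialLinearGroup (Fin 2) (ZMod p)), (a = g • x ∧ b = g • y) ∨ (a = g • y ∧ b = g • x)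

theorem all_of_closed (hconn : Y.Connected) {D : Set V} {x : V} (hx : x ∈ D)
    (hcl : ∀ a ∈ D, ∀ b, Y.Adj a b → b ∈ D) (v : V) : v ∈ D := by
  obtain ⟨w⟩ := hconn.preconnected x v
  induction w with
  | nil => exact hx
  | cons h _ ih => exact ih (hcl _ hx _ h)

theorem dirA (hconn : Y.Connected) {x : V} {N : Subgroup (ZMod p)ˣ} (hN : Std x N) {k : (Matrix.SpecialLinearGroup (Fin 2) (ZMod p))}
    (hE : ETr p Y x (k • x)) : k 1 0 ≠ 0 := by
  intro hk
  have hkB : k ∈ Bo (ZMod p) := hk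
  obtain ⟨g, hg⟩ := exists_notBo (p := p)
  have h := all_of_closed hconn (D := {v | ∃ g ∈ Bo (ZMod p), v = g • x}) (x := x)
    ⟨1, (Bo (ZMod p)).one_mem, (one_smul _ _).symm⟩ ?_ (g • x)
  · obtain ⟨h, hh, hgh⟩ := h
    exact hg (hN.bo hgh.symm hh)
  · rintro _ ⟨g, hg, rfl⟩ b hab
    obtain ⟨h, ⟨h1, h2⟩ | ⟨h1, h2⟩⟩ := hE _ _ hab
    · have h3 := hN.bo h1 hg
      exact ⟨h * k, (Bo (ZMod p)).mul_mem h3 hkB, by rw [h2, mul_smul]⟩
    · rw [← mul_smul] at h1
      have h3 := hN.bo h1 hg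
      refine ⟨h, ?_, h2⟩
      have := (Bo (ZMod p)).mul_mem h3 ((Bo (ZMod p)).inv_mem hkB)
      rwa [mul_inv_cancel_right] at this

theorem dirB (hconn : Y.Connected) {x y : V} {N : Subgroup (ZMod p)ˣ} (hN : Std x N)
    (hE : ETr p Y x y) (hxy : ¬ ∃ k : (Matrix.SpecialLinearGroup (Fin 2) (ZMod p)), y = k • x) : ∃ k : (Matrix.SpecialLinearGroup (Fin 2) (ZMod p)), k • y = y ∧ k 1 0 ≠ 0 := by
  by_contra hcon
  push Not at hcon
  have hno : ∀ g h : (Matrix.SpecialLinearGroup (Fin 2) (ZMod p)), g • x ≠ h • y := by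
    intro g h hgh
    apply hxy
    refine ⟨h⁻¹ * g, ?_⟩
    rw [mul_smul, hgh, inv_smul_smul]
  obtain ⟨g, hg⟩ := exists_notBo (p := p)
  have h := all_of_closed hconn (D := {v | ∃ g ∈ Bo (ZMod p), v = g • x ∨ v = g • y}) (x := x)
    ⟨1, (Bo (ZMod p)).one_mem, Or.inl (one_smul _ _).symm⟩ ?_ (g • x)
  · obtain ⟨h, hh, hgh | hgh⟩ := h
    · exact hg (hN.bo hgh.symm hh)
    · exact hno _ _ hgh
  · rintro _ ⟨g, hg, rfl | rfl⟩ b hab
    · obtain ⟨h, ⟨h1, h2⟩ | ⟨h1, h2⟩⟩ := hE _ _ hab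
      · exact ⟨h, hN.bo h1 hg, Or.inr h2⟩
      · exact absurd h1 (hno _ _)
    · obtain ⟨h, ⟨h1, h2⟩ | ⟨h1, h2⟩⟩ := hE _ _ hab
      · exact absurd h1.symm (hno _ _)
      · refine ⟨h, ?_, Or.inl h2⟩
        have h3 : (g⁻¹ * h) • y = y := by rw [mul_smul, ← h1, inv_smul_smul]
        have h4 : g⁻¹ * h ∈ Bo (ZMod p) := hcon _ h3
        have := (Bo (ZMod p)).mul_mem hg h4
        rwa [mul_inv_cancel_left] at this

theorem std_of_ptype {x : V} {g : (Matrix.SpecialLinearGroup (Fin 2) (ZMod p))} {N : Subgroup (ZMod p)ˣ}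
    (hgN : ∀ h : (Matrix.SpecialLinearGroup (Fin 2) (ZMod p)), h ∈ MulAction.stabilizer (Matrix.SpecialLinearGroup (Fin 2) (ZMod p)) x ↔
        (g * h * g⁻¹) 1 0 = 0 ∧ ∃ s ∈ N, (g * h * g⁻¹) 0 0 = (s : ZMod p)) : Std (g • x) N := by
  intro h
  have h1 := hgN (g⁻¹ * h * g)
  have h2 : g * (g⁻¹ * h * g) * g⁻¹ = h := by group
  rw [h2, MulAction.mem_stabilizer_iff, mul_smul, mul_smul, inv_smul_eq_iff] at h1
  exact h1

theorem ETr.smul {x y : V} (hE : ETr p Y x y) (g : (Matrix.SpecialLinearGroup (Fin 2) (ZMod p))) : ETr p Y (g • x) (g • y) := by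
  intro a b hab
  obtain ⟨h, h1⟩ := hE a b hab
  refine ⟨h * g⁻¹, ?_⟩
  rw [← mul_smul, ← mul_smul, inv_mul_cancel_right]
  exact h1

variable [Finite V]

theorem caseB_std {k : ℕ} (hp : 3 < p)
    (hadj : ∀ (g : (Matrix.SpecialLinearGroup (Fin 2) (ZMod p))) (a b : V), Y.Adj a b → Y.Adj (g • a) (g • b))
    (hconn : Y.Connected) (hneg : ∀ v : V, (-1 : (Matrix.SpecialLinearGroup (Fin 2) (ZMod p))) • v = v) (hnofix : ∀ v : V, ∃ g : (Matrix.SpecialLinearGroup (Fin 2) (ZMod p)), g • v ≠ v)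
    {x y : V} {N : Subgroup (ZMod p)ˣ} (hN : Std x N) (hxy : Y.Adj x y) (hE : ETr p Y x y)
    (hk : 100 * 80 ^ 3 * k ≤ p) : HasKMinor Y k := by
  by_cases hy : ∃ g : (Matrix.SpecialLinearGroup (Fin 2) (ZMod p)), y = g • x
  · obtain ⟨g, rfl⟩ := hy
    have h0 := dirA hconn hN hE
    refine caseII0 hp hadj (XX x) (XX_smul hN) N (XX_inj hN) (g 1 0) h0 ?_ (by omega)
    intro a b hab
    obtain ⟨h, h1, h2⟩ := exists_pair (a := e1 (ZMod p)) (b := g • e1 (ZMod p)) (c := a) (d := b) (by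
      unfold dt2
      rw [hab, smul_e1_1]; simp) (by
      unfold dt2
      rw [smul_e1_1]; simpa using h0)
    rw [XX_eq hN h1, XX_eq hN (g := h * g) (a := b) (by rw [mul_smul, h2]), mul_smul]
    exact hadj h _ _ hxy
  have hno : ∀ g h : (Matrix.SpecialLinearGroup (Fin 2) (ZMod p)), g • x ≠ h • y := by
    intro g h hgh
    apply hy
    refine ⟨h⁻¹ * g, ?_⟩
    rw [mul_smul, hgh, inv_smul_smul]
  obtain ⟨k', hk'y, hk'0⟩ := dirB hconn hN hE hy
  by_cases hPy : ∃ h : (Matrix.SpecialLinearGroup (Fin 2) (ZMod p)), h • y = y ∧ h ≠ 1 ∧ h 0 0 + h 1 1 = 2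
  · obtain ⟨h, hhy, hh1, hh2⟩ := hPy
    obtain ⟨g', N', hgN'⟩ := ptype (by omega) (MulAction.stabilizer (Matrix.SpecialLinearGroup (Fin 2) (ZMod p)) y) (by
      intro htop
      obtain ⟨g, hg⟩ := hnofix y
      apply hg
      have : g ∈ MulAction.stabilizer (Matrix.SpecialLinearGroup (Fin 2) (ZMod p)) y := by rw [htop]; trivial
      exact this) ⟨h, hhy, hh1, hh2⟩
    have hN' := std_of_ptype hgN'
    set y0 := g' • y with hy0
    set f := g'⁻¹ • e1 (ZMod p) with hf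
    have hf0 : f ≠ 0 := smul_ne_zero' _ e1_ne
    have hXf : XX y0 f = y := by
      rw [XX_eq hN' (g := g'⁻¹) hf.symm, hy0, inv_smul_smul]
    set κ := dt2 (e1 (ZMod p)) f with hκ
    have hκf : κ = f 1 := by rw [hκ, dt2]; simp
    have hκ0 : κ ≠ 0 := by
      rw [hκf]
      intro hf1
      obtain ⟨h1, s, hs, h2⟩ := (hgN' k').1 hk'y
      have h3 : (g' * k' * g'⁻¹) • e1 (ZMod p) = (s : ZMod p) • e1 (ZMod p) := by
        apply vec_ext
        · rw [smul_e1_0, h2]; simp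
        · rw [smul_e1_1, h1]; simp
      have h3' : k' • f = (s : ZMod p) • f := by
        calc k' • f = g'⁻¹ • ((g' * k' * g'⁻¹) • e1 (ZMod p)) := by
              rw [hf, ← mul_smul, ← mul_smul]; congr 1; group
          _ = g'⁻¹ • ((s : ZMod p) • e1 (ZMod p)) := by rw [h3]
          _ = (s : ZMod p) • f := by rw [smul_comm, hf]
      have h4 := congrFun h3' 1
      rw [smul1] at h4
      simp only [Pi.smul_apply, smul_eq_mul] at h4
      rw [hf1] at h4
      simp only [mul_zero, add_zero] at h4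
      rcases mul_eq_zero.1 h4 with h5 | h5
      · exact hk'0 h5
      · exact hf0 (vec_ext h5 hf1)
    have hadj2 : ∀ a b : Fin 2 → ZMod p, dt2 a b = κ → Y.Adj (XX x a) (XX y0 b) := by
      intro a b hab
      obtain ⟨g, h1, h2⟩ := exists_pair (a := e1 (ZMod p)) (b := f) (c := a) (d := b)
        (by rw [hab]) hκ0
      rw [XX_eq hN h1, ← h2, ← XX_smul hN' g f hf0, hXf]
      exact hadj g _ _ hxy
    refine bip_minor (by omega) (XX x) (fun b => XX y0 (κ • b)) (N ⊔ N') ?_ ?_ ?_ ?_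
      (by omega)
    · intro a b ha hb hab
      obtain ⟨s, hs, h⟩ := (XX_inj hN a b ha hb).1 hab
      exact ⟨s, Subgroup.mem_sup_left hs, h⟩
    · intro a b ha hb hab
      obtain ⟨s, hs, h⟩ := (XX_inj hN' (κ • a) (κ • b) (smul_ne_zero hκ0 ha)
        (smul_ne_zero hκ0 hb)).1 hab
      refine ⟨s, Subgroup.mem_sup_right hs, ?_⟩
      rw [smul_comm] at h
      exact smul_right_injective _ hκ0 h
    · intro a b ha hb hab
      obtain ⟨g, hg⟩ := exists_single (e1_ne (F := ZMod p)) ha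
      obtain ⟨g2, hg2⟩ := exists_single (e1_ne (F := ZMod p)) (smul_ne_zero hκ0 hb)
      change XX x a = XX y0 (κ • b) at hab
      rw [XX_eq hN hg, XX_eq hN' hg2, hy0, ← mul_smul] at hab
      exact hno _ _ hab
    · intro a b s hs hab
      obtain ⟨s1, hs1, s2, hs2, rfl⟩ := Subgroup.mem_sup.1 hs
      have hs10 : (s1 : ZMod p) ≠ 0 := s1.ne_zero
      have hs20 : (s2 : ZMod p) ≠ 0 := s2.ne_zero
      have ha : a ≠ 0 := by
        rintro rfl
        have : ((s1 * s2 : (ZMod p)ˣ) : ZMod p) = 0 := by rw [← hab]; simp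
        exact (s1 * s2).ne_zero this
      have hb : b ≠ 0 := by
        rintro rfl
        have : ((s1 * s2 : (ZMod p)ˣ) : ZMod p) = 0 := by rw [← hab]; simp
        exact (s1 * s2).ne_zero this
      have h1 : XX x a = XX x ((s1⁻¹ : (ZMod p)ˣ) • a) := by
        rw [XX_inj hN a _ ha (by
          intro h
          apply ha
          have := congrArg (fun z => s1 • z) h
          simpa using this)]
        exact ⟨s1⁻¹, N.inv_mem hs1, rfl⟩
      have h2 : XX y0 (κ • b) = XX y0 ((s2⁻¹ : (ZMod p)ˣ) • κ • b) := by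
        rw [XX_inj hN' _ _ (smul_ne_zero hκ0 hb) (by
          intro h
          apply smul_ne_zero hκ0 hb
          have := congrArg (fun z => s2 • z) h
          simpa using this)]
        exact ⟨s2⁻¹, N'.inv_mem hs2, rfl⟩
      change Y.Adj (XX x a) (XX y0 (κ • b))
      rw [h1, h2]
      apply hadj2
      unfold dt2
      simp only [Pi.smul_apply, smul_eq_mul, Units.smul_def, Units.val_inv_eq_inv_val]
      rw [Units.val_mul] at hab
      field_simp
      linear_combination hab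
  · push Not at hPy
    have hp' : ∀ h ∈ MulAction.stabilizer (Matrix.SpecialLinearGroup (Fin 2) (ZMod p)) y, h 0 0 + h 1 1 = 2 → h = 1 := by
      intro h hh h2
      by_contra h1
      exact hPy h hh h1 h2
    obtain ⟨k1, hk1, hk10, hgood⟩ := good_infty (by omega) (MulAction.stabilizer (Matrix.SpecialLinearGroup (Fin 2) (ZMod p)) y) (hneg y) hp'
      (e1 (ZMod p)) e1_ne ⟨k', hk'y, by rw [smul_e1_1]; simpa using hk'0⟩
    have hk10' : k1 1 0 ≠ 0 := by
      intro h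
      apply hk10
      rw [smul_e1_1, h]; simp
    obtain ⟨g0, h1, h2⟩ := exists_pair (a := e1 (ZMod p)) (b := k1 • e1 (ZMod p)) (c := ![0, 1])
      (d := ![-(k1 1 0), 1]) (by
        unfold dt2
        rw [smul_e1_1]; simp) (by
        unfold dt2
        rw [smul_e1_1]; simpa using hk10')
    have hcard := hgood g0 (by
      rw [smul_sub, h1, h2]; simp)
    refine caseIIa (k0 := 20) hp hadj (XX x) (XX_smul hN) N (XX_inj hN) (g0 • y) ?_ ?_ ?_
      (-(k1 1 0)) (neg_ne_zero.2 hk10') ?_ ?_ (by omega)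
    · intro a ha
      obtain ⟨g, hg⟩ := exists_single (e1_ne (F := ZMod p)) ha
      rw [XX_eq hN hg]
      exact hno _ _
    · intro h hh htr
      have h3 : g0⁻¹ * h * g0 ∈ MulAction.stabilizer (Matrix.SpecialLinearGroup (Fin 2) (ZMod p)) y := by
        rw [MulAction.mem_stabilizer_iff, mul_smul, mul_smul, hh, inv_smul_smul]
      have h4 := hp' _ h3 (by
        have := trace_conj g0⁻¹ h
        rw [inv_inv] at this
        rw [this, htr])
      have h5 := congrArg (fun z => g0 * z * g0⁻¹) h4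
      simpa [mul_assoc] using h5
    · refine le_trans (Set.ncard_le_ncard ?_ (Set.toFinite _)) hcard
      rintro b ⟨hb1, hb2⟩
      refine ⟨hb1, ?_⟩
      rw [MulAction.mem_stabilizer_iff, mul_smul, mul_smul, hb2, inv_smul_smul]
    · rw [XX_eq hN h1]
      exact hadj g0 _ _ hxy.symm
    · rw [XX_eq hN (g := g0 * k1) (a := ![-(k1 1 0), 1]) (by rw [mul_smul, h2])]
      have h3 := hadj (g0 * k1) _ _ hxy.symm
      have h4 : (g0 * k1) • y = g0 • y := by
        rw [mul_smul]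
        congr 1
      rw [h4] at h3
      exact h3

theorem caseB {k : ℕ} (hp : 3 < p)
    (hadj : ∀ (g : (Matrix.SpecialLinearGroup (Fin 2) (ZMod p))) (a b : V), Y.Adj a b → Y.Adj (g • a) (g • b))
    (hconn : Y.Connected) (hneg : ∀ v : V, (-1 : (Matrix.SpecialLinearGroup (Fin 2) (ZMod p))) • v = v) (hnofix : ∀ v : V, ∃ g : (Matrix.SpecialLinearGroup (Fin 2) (ZMod p)), g • v ≠ v)
    {x y : V} (hxy : Y.Adj x y) (hE : ETr p Y x y)
    (hx : ∃ h : (Matrix.SpecialLinearGroup (Fin 2) (ZMod p)), h • x = x ∧ h ≠ 1 ∧ h 0 0 + h 1 1 = 2)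
    (hk : 100 * 80 ^ 3 * k ≤ p) : HasKMinor Y k := by
  obtain ⟨h, hhx, hh1, hh2⟩ := hx
  obtain ⟨g, N, hgN⟩ := ptype (by omega) (MulAction.stabilizer (Matrix.SpecialLinearGroup (Fin 2) (ZMod p)) x) (by
      intro htop
      obtain ⟨g, hg⟩ := hnofix x
      apply hg
      have : g ∈ MulAction.stabilizer (Matrix.SpecialLinearGroup (Fin 2) (ZMod p)) x := by rw [htop]; trivial
      exact this) ⟨h, hhx, hh1, hh2⟩
  exact caseB_std hp hadj hconn hneg hnofix (std_of_ptype hgN) (hadj g _ _ hxy) (hE.smul g) hk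

end

end Pool.Agent.H16.PSL
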