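import Pool.Graph.R_seed8.Helper999.HMBasic

set_option autoImplicit false

namespace Pool.Agent.H16.PSL

open Pool.Agent.Helper999.HM SimpleGraph

section
variable {Γ V : Type*} [Group Γ] [MulAction Γ V] {Y : SimpleGraph V}

/-- image of a connected set under a group element -/
theorem conn_image (hadj : ∀ (g : Γ) (a b : V), Y.Adj a b → Y.Adj (g • a) (g • b)) (g : Γ)
    {D : Set V} (hD : (Y.induce D).Connected) :
    (Y.induce {v | ∃ a ∈ D, v = g • a}).Connected := by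
  obtain ⟨⟨d, hd⟩⟩ := hD.nonempty
  refine conn_of_base (b := g • d) ⟨d, hd, rfl⟩ ?_
  rintro _ ⟨a, ha, rfl⟩
  have h := step_of_conn hD hd ha
  clear ha
  induction h with
  | refl => exact Relation.ReflTransGen.refl
  | tail _ hs ih => exact Relation.ReflTransGen.tail ih ⟨hadj _ _ _ hs.1, _, hs.2, rfl⟩

/-- a connected section of the action of `L` on the connected invariant set `W`, containing
translates of given disjoint connected partial sections -/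
theorem exists_section [Finite V] (hadj : ∀ (g : Γ) (a b : V), Y.Adj a b → Y.Adj (g • a) (g • b))
    (L : Subgroup Γ) {W : Set V} (hWinv : ∀ g ∈ L, ∀ v ∈ W, g • v ∈ W)
    (hWc : (Y.induce W).Connected) {ι : Type*} (Δ : ι → Set V) (hΔW : ∀ i, Δ i ⊆ W)
    (hΔc : ∀ i, (Y.induce (Δ i)).Connected)
    (hΔs : ∀ i j, ∀ a ∈ Δ i, ∀ b ∈ Δ j, ∀ g ∈ L, g • a = b → i = j ∧ a = b) :
    ∃ Q : Set V, Q ⊆ W ∧ (Y.induce Q).Connected ∧
      (∀ a ∈ Q, ∀ b ∈ Q, ∀ g ∈ L, g • a = b → a = b) ∧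
      (∀ v ∈ W, ∃ g ∈ L, ∃ q ∈ Q, v = g • q) ∧
      ∀ i, ∃ g ∈ L, ∀ a ∈ Δ i, g • a ∈ Q := by
  classical
  -- blocks
  have block : ∀ z ∈ W, ∃ B : Set V, B ⊆ W ∧ z ∈ B ∧ (Y.induce B).Connected ∧
      (∀ a ∈ B, ∀ b ∈ B, ∀ g ∈ L, g • a = b → a = b) ∧
      (∀ i, (∃ g ∈ L, ∀ a ∈ Δ i, g • a ∈ B) ∨ (∀ a ∈ Δ i, ∀ g ∈ L, g • a ∉ B)) ∧
      (∀ b ∈ B, b = z ∨ ∃ i, ∃ g ∈ L, (∃ a ∈ Δ i, z = g • a) ∧ ∃ b' ∈ Δ i, b = g • b') := by
    intro z hz
    by_cases h : ∃ i, ∃ g ∈ L, ∃ a ∈ Δ i, z = g • a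
    · obtain ⟨i, g, hg, a, ha, hza⟩ := h
      refine ⟨{v | ∃ a ∈ Δ i, v = g • a}, ?_, ⟨a, ha, hza⟩, conn_image hadj g (hΔc i), ?_, ?_, ?_⟩
      · rintro _ ⟨b, hb, rfl⟩
        exact hWinv g hg _ (hΔW i hb)
      · rintro _ ⟨b, hb, rfl⟩ _ ⟨c, hc, rfl⟩ k hk hkb
        have h1 : (g⁻¹ * k * g) • b = c := by
          rw [mul_smul, mul_smul, hkb, inv_smul_smul]
        rw [(hΔs i i b hb c hc _ (L.mul_mem (L.mul_mem (L.inv_mem hg) hk) hg) h1).2]
      · intro j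
        by_cases hij : i = j
        · subst hij
          exact Or.inl ⟨g, hg, fun a ha => ⟨a, ha, rfl⟩⟩
        · right
          rintro b hb k hk ⟨c, hc, hbc⟩
          have h1 : (k⁻¹ * g) • c = b := by rw [mul_smul, ← hbc, inv_smul_smul]
          exact hij (hΔs i j c hc b hb _ (L.mul_mem (L.inv_mem hk) hg) h1).1
      · rintro _ ⟨b, hb, rfl⟩
        exact Or.inr ⟨i, g, hg, ⟨a, ha, hza⟩, b, hb, rfl⟩
    · push Not at h
      refine ⟨{z}, by simpa using hz, rfl, conn_singleton _ _, ?_, ?_, ?_⟩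
      · rintro a rfl b rfl _ _ _; rfl
      · intro i
        right
        rintro a ha g hg (hga : g • a = z)
        exact h i g hg a ha hga.symm
      · rintro b rfl; exact Or.inl rfl
  let good : Set (Set V) := {Q | Q ⊆ W ∧ (Y.induce Q).Connected ∧
      (∀ a ∈ Q, ∀ b ∈ Q, ∀ g ∈ L, g • a = b → a = b) ∧
      (∀ i, (∃ g ∈ L, ∀ a ∈ Δ i, g • a ∈ Q) ∨ (∀ a ∈ Δ i, ∀ g ∈ L, g • a ∉ Q))}
  obtain ⟨⟨z₀, hz₀⟩⟩ := hWc.nonempty
  have hne : good.Nonempty := by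
    obtain ⟨B, h1, _, h3, h4, h5, _⟩ := block z₀ hz₀
    exact ⟨B, h1, h3, h4, h5⟩
  obtain ⟨Q, ⟨hQW, hQc, hQs, hQΔ⟩, hmax⟩ :=
    Set.exists_max_image good (fun Q => Q.ncard) (Set.toFinite _) hne
  obtain ⟨⟨q₀, hq₀⟩⟩ := hQc.nonempty
  have hclosed : ∀ v v' : V, Y.Adj v v' → v' ∈ W → (∃ g ∈ L, ∃ q ∈ Q, v = g • q) →
      ∃ g ∈ L, ∃ q ∈ Q, v' = g • q := by
    rintro v v' hvv' hv'W ⟨w, hw, q, hq, rfl⟩
    by_contra hcon
    push Not at hcon
    set z := w⁻¹ • v' with hz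
    have hzadj : Y.Adj q z := by
      have := hadj w⁻¹ _ _ hvv'
      rwa [inv_smul_smul] at this
    have hzW : z ∈ W := hWinv _ (L.inv_mem hw) _ hv'W
    have hznot : ∀ g ∈ L, ∀ q' ∈ Q, z ≠ g • q' := by
      intro g hg q' hq' h
      apply hcon (w * g) (L.mul_mem hw hg) q' hq'
      rw [mul_smul, ← h, hz, smul_inv_smul]
    obtain ⟨B, hBW, hzB, hBc, hBs, hBΔ, hBz⟩ := block z hzW
    -- no orbit of `Q` meets `B`
    have hsep : ∀ b ∈ B, ∀ q' ∈ Q, ∀ g ∈ L, g • q' ≠ b := by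
      intro b hb q' hq' g hg hgq
      rcases hBz b hb with rfl | ⟨i, k, hk, ⟨a, ha, hza⟩, b', hb', rfl⟩
      · exact hznot g hg q' hq' hgq.symm
      · rcases hQΔ i with ⟨h, hh, hhQ⟩ | hnot
        · apply hznot (k * h⁻¹) (L.mul_mem hk (L.inv_mem hh)) _ (hhQ a ha)
          rw [mul_smul, inv_smul_smul, hza]
        · apply hnot b' hb' (g⁻¹ * k) (L.mul_mem (L.inv_mem hg) hk)
          rw [mul_smul, ← hgq, inv_smul_smul]
          exact hq'
    have hgood : Q ∪ B ∈ good := by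
      refine ⟨Set.union_subset hQW hBW, conn_union hQc hBc hq hzB hzadj, ?_, ?_⟩
      · rintro a (ha | ha) b (hb | hb) g hg hgab
        · exact hQs a ha b hb g hg hgab
        · exact absurd hgab (hsep b hb a ha g hg)
        · exfalso
          apply hsep a ha b hb g⁻¹ (L.inv_mem hg)
          rw [← hgab, inv_smul_smul]
        · exact hBs a ha b hb g hg hgab
      · intro i
        rcases hQΔ i with ⟨h, hh, hhQ⟩ | hnot
        · exact Or.inl ⟨h, hh, fun a ha => Or.inl (hhQ a ha)⟩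
        · rcases hBΔ i with ⟨h, hh, hhB⟩ | hnot'
          · exact Or.inl ⟨h, hh, fun a ha => Or.inr (hhB a ha)⟩
          · right
            rintro a ha g hg (h | h)
            · exact hnot a ha g hg h
            · exact hnot' a ha g hg h
    have h2 : (Q ∪ B).ncard ≤ Q.ncard := hmax _ hgood
    have h3 : Q ⊂ Q ∪ B := by
      refine ⟨Set.subset_union_left, fun h => ?_⟩
      have hzQ : z ∈ Q := h (Or.inr hzB)
      exact hznot 1 L.one_mem z hzQ (one_smul _ _).symm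
    have h4 := Set.ncard_lt_ncard h3 (Set.toFinite _)
    omega
  have hsurj : ∀ v ∈ W, ∃ g ∈ L, ∃ q ∈ Q, v = g • q := by
    intro v hv
    have h := step_of_conn hWc (hQW hq₀) hv
    clear hv
    induction h with
    | refl => exact ⟨1, L.one_mem, q₀, hq₀, (one_smul _ _).symm⟩
    | tail _ hs ih => exact hclosed _ _ hs.1 hs.2 ih
  refine ⟨Q, hQW, hQc, hQs, hsurj, ?_⟩
  intro i
  rcases hQΔ i with h | hnot
  · exact h
  · exfalso
    obtain ⟨⟨a, ha⟩⟩ := (hΔc i).nonempty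
    obtain ⟨g, hg, q, hq, hag⟩ := hsurj a (hΔW i ha)
    apply hnot a ha g⁻¹ (L.inv_mem hg)
    rw [hag, inv_smul_smul]
    exact hq

end

end Pool.Agent.H16.PSL
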