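import Pool.Graph.R_seed8.Helper999.HMBasic

set_option autoImplicit false

namespace Pool.Agent.H16.PSL

open Pool.Agent.Helper999.HM

/-- the Cayley graph of `ZMod p` -/
def cay {p : ℕ} (D : Finset (ZMod p)) : SimpleGraph (ZMod p) where
  Adj x y := x ≠ y ∧ (y - x ∈ D ∨ x - y ∈ D)
  symm := ⟨fun _ _ h => ⟨h.1.symm, h.2.symm⟩⟩
  loopless := ⟨fun _ h => h.1 rfl⟩

namespace Cay

open scoped Pointwise

variable {p : ℕ} [Fact p.Prime]

/-- balls around `x` avoiding `R` -/
def ball (D R : Finset (ZMod p)) (x : ZMod p) : ℕ → Finset (ZMod p)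
  | 0 => {x}
  | n + 1 => ball D R x n ∪ ((ball D R x n + D) \ R)

theorem ball_avoid {D R : Finset (ZMod p)} {x : ZMod p} (hx : x ∉ R) (n : ℕ) :
    Disjoint (ball D R x n) R := by
  induction n with
  | zero => simpa [ball] using hx
  | succ n ih =>
    rw [ball, Finset.disjoint_union_left]
    exact ⟨ih, Finset.sdiff_disjoint⟩

theorem x_mem_ball {D R : Finset (ZMod p)} {x : ZMod p} (n : ℕ) : x ∈ ball D R x n := by
  induction n with
  | zero => simp [ball]
  | succ n ih => exact Finset.mem_union_left _ ih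

theorem card_ball_succ {D R : Finset (ZMod p)} {x : ZMod p} (h0 : (0 : ZMod p) ∉ D)
    (n : ℕ) : min p ((ball D R x n).card + D.card) ≤ (ball D R x (n + 1)).card + R.card := by
  classical
  have hcd := ZMod.cauchy_davenport (Fact.out : p.Prime) (s := ball D R x n) (t := insert 0 D)
    ⟨x, x_mem_ball n⟩ (Finset.insert_nonempty _ _)
  rw [Finset.card_insert_of_notMem h0] at hcd
  have e1 : (ball D R x n).card + (D.card + 1) - 1 = (ball D R x n).card + D.card := by omega
  rw [e1] at hcd
  refine hcd.trans ?_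
  have hsub : ball D R x n + insert 0 D ⊆ ball D R x (n + 1) ∪ R := by
    intro z hz
    rw [Finset.mem_add] at hz
    obtain ⟨a, ha, b, hb, rfl⟩ := hz
    rw [Finset.mem_insert] at hb
    rcases hb with rfl | hb
    · rw [add_zero]
      exact Finset.mem_union_left _ (Finset.mem_union_left _ ha)
    · by_cases hR : a + b ∈ R
      · exact Finset.mem_union_right _ hR
      · exact Finset.mem_union_left _ (Finset.mem_union_right _
          (Finset.mem_sdiff.2 ⟨Finset.add_mem_add ha hb, hR⟩))
  exact (Finset.card_le_card hsub).trans (Finset.card_union_le _ _)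

theorem card_ball {D R : Finset (ZMod p)} {x : ZMod p} (h0 : (0 : ZMod p) ∉ D)
    (hR : R.card ≤ D.card) (n : ℕ) :
    min (p - R.card) (n * (D.card - R.card)) ≤ (ball D R x n).card := by
  induction n with
  | zero => simp
  | succ n ih =>
    have h := card_ball_succ (D := D) (R := R) (x := x) h0 n
    have e : (n + 1) * (D.card - R.card) = n * (D.card - R.card) + (D.card - R.card) := by ring
    rw [e]
    generalize n * (D.card - R.card) = u at *
    generalize (ball D R x n).card = v at *
    generalize (ball D R x (n + 1)).card = w at *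
    omega

/-- paths -/
theorem path_of_ball {D R : Finset (ZMod p)} {x : ZMod p} (h0 : (0 : ZMod p) ∉ D) (hx : x ∉ R)
    (n : ℕ) : ∀ z ∈ ball D R x n, ∃ P : Finset (ZMod p),
      ((cay D).induce (P : Set (ZMod p))).Connected ∧ x ∈ P ∧ z ∈ P ∧ Disjoint P R ∧
        P.card ≤ n + 1 := by
  classical
  induction n with
  | zero =>
    intro z hz
    simp only [ball, Finset.mem_singleton] at hz
    subst hz
    refine ⟨{z}, ?_, by simp, by simp, by simpa using hx, by simp⟩
    rw [Finset.coe_singleton]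
    exact conn_singleton _ _
  | succ n ih =>
    intro z hz
    rw [ball, Finset.mem_union] at hz
    rcases hz with hz | hz
    · obtain ⟨P, h1, h2, h3, h4, h5⟩ := ih z hz
      exact ⟨P, h1, h2, h3, h4, by omega⟩
    · rw [Finset.mem_sdiff, Finset.mem_add] at hz
      obtain ⟨⟨u, hu, e, he, rfl⟩, hzR⟩ := hz
      obtain ⟨P, h1, h2, h3, h4, h5⟩ := ih u hu
      refine ⟨insert (u + e) P, ?_, Finset.mem_insert_of_mem h2, Finset.mem_insert_self _ _, ?_,
        (Finset.card_insert_le _ _).trans (by omega)⟩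
      · have hadj : (cay D).Adj u (u + e) := by
          refine ⟨?_, Or.inl (by simpa using he)⟩
          intro h
          apply h0
          have : e = 0 := by simpa using h.symm
          rwa [this] at he
        have := conn_union h1 (conn_singleton (cay D) (u + e)) (a := u) (b := u + e)
          (by simpa using h3) rfl hadj
        rw [Finset.coe_insert, Set.insert_eq, Set.union_comm]
        exact this
      · rw [Finset.disjoint_insert_left]
        exact ⟨hzR, h4⟩

/-- union of paths -/
theorem hub {D R S : Finset (ZMod p)} {m : ℕ} (h0 : (0 : ZMod p) ∉ D)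
    (hp : 3 ≤ p) (hmd : p - 1 ≤ m * D.card) (hR : 4 * R.card ≤ D.card) (hS : S.Nonempty)
    (hSR : Disjoint S R) : ∃ W : Finset (ZMod p),
      ((cay D).induce (W : Set (ZMod p))).Connected ∧ S ⊆ W ∧ Disjoint W R ∧
        W.card ≤ S.card * (2 * m + 1) := by
  classical
  obtain ⟨x, hxS⟩ := hS
  have hx : x ∉ R := Finset.disjoint_left.1 hSR hxS
  have hfull : ∀ z, z ∉ R → z ∈ ball D R x (2 * m) := by
    have h1 := card_ball (D := D) (R := R) (x := x) h0 (by omega) (2 * m)
    have h2 : p - R.card ≤ 2 * m * (D.card - R.card) := by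
      have h4 : 3 * D.card ≤ 4 * (D.card - R.card) := by omega
      have h5 : 2 * m * (3 * D.card) ≤ 2 * m * (4 * (D.card - R.card)) := Nat.mul_le_mul_left _ h4
      have h6 : 2 * m * (3 * D.card) = 6 * (m * D.card) := by ring
      have h7 : 2 * m * (4 * (D.card - R.card)) = 4 * (2 * m * (D.card - R.card)) := by ring
      omega
    rw [min_eq_left h2] at h1
    have h3 : (ball D R x (2 * m)) = Finset.univ \ R := by
      apply Finset.eq_of_subset_of_card_le
      · intro z hz
        rw [Finset.mem_sdiff]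
        exact ⟨Finset.mem_univ _, Finset.disjoint_left.1 (ball_avoid hx _) hz⟩
      · rw [Finset.card_sdiff_of_subset (Finset.subset_univ _), Finset.card_univ, ZMod.card]
        exact h1
    intro z hz
    rw [h3, Finset.mem_sdiff]
    exact ⟨Finset.mem_univ _, hz⟩
  have hpath : ∀ z, ∃ P : Finset (ZMod p), z ∈ S →
      (((cay D).induce (P : Set (ZMod p))).Connected ∧ x ∈ P ∧ z ∈ P ∧ Disjoint P R ∧
        P.card ≤ 2 * m + 1) := by
    intro z
    by_cases hz : z ∈ S
    · obtain ⟨P, hP⟩ := path_of_ball (D := D) h0 hx (2 * m) z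
        (hfull z (Finset.disjoint_left.1 hSR hz))
      exact ⟨P, fun _ => hP⟩
    · exact ⟨∅, fun h => absurd h hz⟩
  choose P hP using hpath
  refine ⟨S.biUnion P, ?_, ?_, ?_, ?_⟩
  · refine conn_of_base (b := x) ?_ ?_
    · simp only [Finset.coe_biUnion, Set.mem_iUnion]
      exact ⟨x, hxS, (hP x hxS).2.1⟩
    · intro a ha
      simp only [Finset.coe_biUnion, Set.mem_iUnion] at ha
      obtain ⟨z, hz, haz⟩ := ha
      have hsub : (P z : Set (ZMod p)) ⊆ (S.biUnion P : Finset (ZMod p)) := by
        intro b hb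
        simp only [Finset.coe_biUnion, Set.mem_iUnion]
        exact ⟨z, hz, hb⟩
      exact StepIn.mono hsub (step_of_conn (hP z hz).1 (hP z hz).2.1 haz)
  · intro z hz
    rw [Finset.mem_biUnion]
    exact ⟨z, hz, (hP z hz).2.2.1⟩
  · rw [Finset.disjoint_biUnion_left]
    intro z hz
    exact (hP z hz).2.2.2.1
  · exact Finset.card_biUnion_le_card_mul _ _ _ (fun z hz => (hP z hz).2.2.2.2)

/-- the greedy step -/
theorem greedy {D G : Finset (ZMod p)} {m k : ℕ} (h0 : (0 : ZMod p) ∉ D) (hG0 : (0 : ZMod p) ∉ G)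
    (hGne : G.Nonempty) (hGm : G.card ≤ m) (hp : 3 ≤ p) (hmd : p - 1 ≤ m * D.card)
    (h1 : 4 * (k * (m * (2 * m + 1))) ≤ D.card) (h2 : m * (k * (m * (2 * m + 1))) < p) :
    ∀ j ≤ k, ∃ (W : ℕ → Finset (ZMod p)) (x : ℕ → ZMod p),
      (∀ i < j, ((cay D).induce (W i : Set (ZMod p))).Connected ∧ (∀ g ∈ G, g * x i ∈ W i) ∧
        (W i).card ≤ m * (2 * m + 1)) ∧ ∀ i < j, ∀ i' < j, i ≠ i' → Disjoint (W i) (W i') := by
  classical
  intro j
  induction j with
  | zero => intro _; exact ⟨fun _ => ∅, fun _ => 0, by simp, by simp⟩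
  | succ j ih =>
    intro hj
    obtain ⟨W, x, hW, hd⟩ := ih (by omega)
    set R : Finset (ZMod p) := (Finset.range j).biUnion W with hRdef
    have hRcard : R.card ≤ j * (m * (2 * m + 1)) := by
      have := Finset.card_biUnion_le_card_mul (Finset.range j) W (m * (2 * m + 1))
        (fun i hi => (hW i (Finset.mem_range.1 hi)).2.2)
      rwa [Finset.card_range] at this
    have hRcard' : R.card ≤ k * (m * (2 * m + 1)) :=
      hRcard.trans (Nat.mul_le_mul_right _ (by omega))
    -- a good point
    obtain ⟨y, hy⟩ : ∃ y : ZMod p, ∀ g ∈ G, g * y ∉ R := by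
      by_contra hcon
      push Not at hcon
      have hsub : (Finset.univ : Finset (ZMod p)) ⊆ G.biUnion (fun g => R.image (fun r => g⁻¹ * r)) := by
        intro y _
        obtain ⟨g, hg, hgy⟩ := hcon y
        rw [Finset.mem_biUnion]
        refine ⟨g, hg, ?_⟩
        rw [Finset.mem_image]
        refine ⟨g * y, hgy, ?_⟩
        have hg0 : g ≠ 0 := fun h => hG0 (h ▸ hg)
        rw [← mul_assoc, inv_mul_cancel₀ hg0, one_mul]
      have hc := Finset.card_le_card hsub
      rw [Finset.card_univ, ZMod.card] at hc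
      have hc2 := Finset.card_biUnion_le_card_mul G (fun g => R.image (fun r => g⁻¹ * r)) R.card
        (fun g _ => Finset.card_image_le)
      have hc3 : G.card * R.card ≤ m * (k * (m * (2 * m + 1))) := Nat.mul_le_mul hGm hRcard'
      omega
    obtain ⟨W', hW'1, hW'2, hW'3, hW'4⟩ := hub (D := D) (R := R) (S := G.image (fun g => g * y)) (m := m)
      h0 hp hmd (by omega) (hGne.image _) (by
        rw [Finset.disjoint_left]
        intro z hz
        rw [Finset.mem_image] at hz
        obtain ⟨g, hg, rfl⟩ := hz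
        exact hy g hg)
    refine ⟨fun i => if i < j then W i else W', fun i => if i < j then x i else y, ?_, ?_⟩
    · intro i hi
      by_cases hij : i < j
      · have e1 : (if i < j then W i else W') = W i := if_pos hij
        have e2 : (if i < j then x i else y) = x i := if_pos hij
        beta_reduce
        rw [e1, e2]
        exact hW i hij
      · have e1 : (if i < j then W i else W') = W' := if_neg hij
        have e2 : (if i < j then x i else y) = y := if_neg hij
        beta_reduce
        rw [e1, e2]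
        refine ⟨hW'1, ?_, ?_⟩
        · intro g hg
          exact hW'2 (Finset.mem_image_of_mem _ hg)
        · exact hW'4.trans (Nat.mul_le_mul_right _ (Finset.card_image_le.trans hGm))
    · have hdis : ∀ i < j, Disjoint (W i) W' := by
        intro i hi
        have : W i ⊆ R := by
          intro z hz
          rw [hRdef, Finset.mem_biUnion]
          exact ⟨i, Finset.mem_range.2 hi, hz⟩
        exact (Finset.disjoint_of_subset_right this hW'3).symm
      intro i hi i' hi' hne
      by_cases hij : i < j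
      · by_cases hij' : i' < j
        · simp only [hij, hij', if_true]
          exact hd i hij i' hij' hne
        · simp only [hij, hij', if_true, if_false]
          exact hdis i hij
      · by_cases hij' : i' < j
        · simp only [hij, hij', if_true, if_false]
          exact (hdis i' hij').symm
        · omega

end Cay

theorem cay_minor {p : ℕ} [Fact p.Prime] {m k : ℕ} (hm : 1 ≤ m) (hk : 100 * m ^ 3 * k ≤ p)
    (D Gs : Finset (ZMod p)) (hG : Gs.card ≤ m) (h0 : (0 : ZMod p) ∉ D ∨ (0 : ZMod p) ∉ Gs)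
    (hcov : ∀ d : ZMod p, d ≠ 0 → ∃ g ∈ Gs, g * d ∈ D) : HasKMinor (cay D) k := by
  classical
  rcases Nat.eq_zero_or_pos k with rfl | hkpos
  · exact ⟨fun i => i.elim0, fun i => i.elim0, fun i => i.elim0, fun i => i.elim0⟩
  set D' := D.erase 0 with hD'
  set G' := Gs.erase 0 with hG'
  have hcov' : ∀ d : ZMod p, d ≠ 0 → ∃ g ∈ G', g * d ∈ D' := by
    intro d hd
    obtain ⟨g, hg, hgd⟩ := hcov d hd
    have hg0 : g ≠ 0 := by
      rintro rfl
      rcases h0 with h | h
      · rw [zero_mul] at hgd; exact h hgd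
      · exact h hg
    exact ⟨g, Finset.mem_erase.2 ⟨hg0, hg⟩, Finset.mem_erase.2 ⟨mul_ne_zero hg0 hd, hgd⟩⟩
  have hD0 : (0 : ZMod p) ∉ D' := Finset.notMem_erase _ _
  have hG0 : (0 : ZMod p) ∉ G' := Finset.notMem_erase _ _
  have hG'm : G'.card ≤ m := (Finset.card_le_card (Finset.erase_subset _ _)).trans hG
  have hm3 : 1 ≤ m ^ 3 := Nat.one_le_pow _ _ hm
  have hmk : 1 ≤ m ^ 3 * k := Nat.mul_pos hm3 hkpos
  have hp100 : 100 * (m ^ 3 * k) ≤ p := by rw [← mul_assoc]; exact hk
  have hp3 : 3 ≤ p := by omega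
  have hGne : G'.Nonempty := by
    obtain ⟨g, hg, _⟩ := hcov' 1 one_ne_zero
    exact ⟨g, hg⟩
  have hmd : p - 1 ≤ m * D'.card := by
    have hsub : (Finset.univ : Finset (ZMod p)).erase 0 ⊆
        G'.biUnion (fun g => D'.image (fun r => g⁻¹ * r)) := by
      intro y hy
      have hy0 : y ≠ 0 := (Finset.mem_erase.1 hy).1
      obtain ⟨g, hg, hgy⟩ := hcov' y hy0
      rw [Finset.mem_biUnion]
      refine ⟨g, hg, ?_⟩
      rw [Finset.mem_image]
      refine ⟨g * y, hgy, ?_⟩
      have hg0 : g ≠ 0 := fun h => hG0 (h ▸ hg)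
      rw [← mul_assoc, inv_mul_cancel₀ hg0, one_mul]
    have hc := Finset.card_le_card hsub
    rw [Finset.card_erase_of_mem (Finset.mem_univ _), Finset.card_univ, ZMod.card] at hc
    have hc2 := Finset.card_biUnion_le_card_mul G' (fun g => D'.image (fun r => g⁻¹ * r)) D'.card
      (fun g _ => Finset.card_image_le)
    exact hc.trans (hc2.trans (Nat.mul_le_mul_right _ hG'm))
  have hw : m * (2 * m + 1) ≤ 3 * m ^ 2 := by nlinarith
  have hkw : k * (m * (2 * m + 1)) ≤ 3 * (m ^ 2 * k) := by nlinarith
  have h1 : 4 * (k * (m * (2 * m + 1))) ≤ D'.card := by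
    have h3 : m * (4 * (k * (m * (2 * m + 1)))) ≤ m * D'.card := by
      have h4 : m * (4 * (k * (m * (2 * m + 1)))) ≤ 12 * (m ^ 3 * k) := by
        calc m * (4 * (k * (m * (2 * m + 1)))) ≤ m * (4 * (3 * (m ^ 2 * k))) := by gcongr
          _ = 12 * (m ^ 3 * k) := by ring
      omega
    exact Nat.le_of_mul_le_mul_left h3 (by omega)
  have h2 : m * (k * (m * (2 * m + 1))) < p := by
    have h4 : m * (k * (m * (2 * m + 1))) ≤ 3 * (m ^ 3 * k) := by
      calc m * (k * (m * (2 * m + 1))) ≤ m * (3 * (m ^ 2 * k)) := by gcongr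
        _ = 3 * (m ^ 3 * k) := by ring
    omega
  obtain ⟨W, x, hW, hd⟩ := Cay.greedy (D := D') (G := G') hD0 hG0 hGne hG'm hp3 hmd h1 h2 k le_rfl
  have hmono : ∀ a b, (cay D').Adj a b → (cay D).Adj a b := by
    rintro a b ⟨hne, h⟩
    exact ⟨hne, h.imp (fun h => (Finset.mem_erase.1 h).2) (fun h => (Finset.mem_erase.1 h).2)⟩
  refine ⟨fun i => (W i : Set (ZMod p)), ?_, ?_, ?_⟩
  · intro i
    have hc := (hW i i.2).1
    exact hc.mono (fun a b hab => hmono _ _ hab)
  · intro i j hij
    have := hd i i.2 j j.2 (fun h => hij (Fin.ext h))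
    exact Finset.disjoint_coe.2 this
  · intro i j hij
    have hdis := hd i i.2 j j.2 (fun h => hij (Fin.ext h))
    have hxne : x i ≠ x j := by
      intro h
      obtain ⟨g, hg⟩ := hGne
      have h3 := (hW i i.2).2.1 g hg
      have h4 := (hW j j.2).2.1 g hg
      rw [h] at h3
      exact Finset.disjoint_left.1 hdis h3 h4
    obtain ⟨g, hg, hgd⟩ := hcov' (x i - x j) (sub_ne_zero.2 hxne)
    refine ⟨g * x i, (hW i i.2).2.1 g hg, g * x j, (hW j j.2).2.1 g hg, hmono _ _ ?_⟩
    have hne : g * x i ≠ g * x j := by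
      intro h
      exact Finset.disjoint_left.1 hdis ((hW i i.2).2.1 g hg) (h ▸ (hW j j.2).2.1 g hg)
    refine ⟨hne, Or.inr ?_⟩
    rw [← mul_sub]
    exact hgd

end Pool.Agent.H16.PSL
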