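import Pool.Agent.H16.PSL.Core
import Pool.Agent.H16.PSL.SubCay

set_option autoImplicit false

namespace Pool.Agent.H16.PSL

open Pool.Agent.Helper999.HM SimpleGraph

theorem minor_compose {α V : Type*} {C : SimpleGraph α} {Y : SimpleGraph V} (Q : α → Set V)
    (hc : ∀ x, (Y.induce (Q x)).Connected) (hd : ∀ x y, x ≠ y → Disjoint (Q x) (Q y))
    (ha : ∀ x y, C.Adj x y → ∃ a ∈ Q x, ∃ b ∈ Q y, Y.Adj a b) {k : ℕ} (h : HasKMinor C k) :
    HasKMinor Y k := by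
  obtain ⟨B, h1, h2, h3⟩ := h
  refine ⟨fun i => {v | ∃ x ∈ B i, v ∈ Q x}, ?_, ?_, ?_⟩
  · intro i
    obtain ⟨⟨x₀, hx₀⟩⟩ := (h1 i).nonempty
    obtain ⟨⟨v₀, hv₀⟩⟩ := (hc x₀).nonempty
    refine conn_of_base (b := v₀) ⟨x₀, hx₀, hv₀⟩ ?_
    rintro v ⟨x, hx, hv⟩
    have h := step_of_conn (h1 i) hx₀ hx
    have hin : ∀ x ∈ B i, ∀ a ∈ Q x, ∀ b ∈ Q x,
        Relation.ReflTransGen (StepIn Y {v | ∃ x ∈ B i, v ∈ Q x}) a b := by
      intro x hx a ha b hb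
      have hsub : Q x ⊆ {v | ∃ x ∈ B i, v ∈ Q x} := fun v hv => ⟨x, hx, hv⟩
      exact StepIn.mono hsub (step_of_conn (hc x) ha hb)
    have key : ∀ x, Relation.ReflTransGen (StepIn C (B i)) x₀ x → x ∈ B i ∧ ∀ v ∈ Q x,
        Relation.ReflTransGen (StepIn Y {v | ∃ x ∈ B i, v ∈ Q x}) v₀ v := by
      intro x h
      induction h with
      | refl => exact ⟨hx₀, fun v hv => hin x₀ hx₀ v₀ hv₀ v hv⟩
      | tail _ hs ih =>
        refine ⟨hs.2, fun v hv => ?_⟩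
        obtain ⟨a, ha', b, hb, hab⟩ := ha _ _ hs.1
        refine Relation.ReflTransGen.trans (ih.2 a ha') ?_
        refine Relation.ReflTransGen.head ⟨hab, _, hs.2, hb⟩ (hin _ hs.2 b hb v hv)
    exact (key x h).2 v hv
  · intro i j hij
    rw [Set.disjoint_left]
    rintro v ⟨x, hx, hv⟩ ⟨y, hy, hv'⟩
    have hxy : x ≠ y := by
      rintro rfl
      exact Set.disjoint_left.1 (h2 i j hij) hx hy
    exact Set.disjoint_left.1 (hd x y hxy) hv hv'
  · intro i j hij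
    obtain ⟨x, hx, y, hy, hxy⟩ := h3 i j hij
    obtain ⟨a, ha', b, hb, hab⟩ := ha x y hxy
    exact ⟨a, ⟨x, hx, ha'⟩, b, ⟨y, hy, hb⟩, hab⟩

section
variable {Γ V : Type*} [Group Γ] [MulAction Γ V] {Y : SimpleGraph V}

/-- a free action of `Z/p` with a connected section whose voltages contain boundedly many dilates
of everything gives a complete minor of linear order -/
theorem final_minor {p m k : ℕ} [Fact p.Prime]
    (hadj : ∀ (g : Γ) (a b : V), Y.Adj a b → Y.Adj (g • a) (g • b))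
    (u : ZMod p → Γ) (hu : ∀ a b, u (a + b) = u a * u b) {Q : Set V}
    (hQc : (Y.induce Q).Connected)
    (hQs : ∀ a ∈ Q, ∀ b ∈ Q, ∀ x, u x • a = b → x = 0)
    (Gs : Finset (ZMod p)) (h0 : (0 : ZMod p) ∉ Gs) (hm : 1 ≤ m) (hG : Gs.card ≤ m)
    (hcov : ∀ d : ZMod p, d ≠ 0 → ∃ g ∈ Gs, ∃ a ∈ Q, ∃ b ∈ Q, Y.Adj a (u (g * d) • b))
    (hk : 100 * m ^ 3 * k ≤ p) : HasKMinor Y k := by
  classical
  have := Fintype.ofFinite (ZMod p)
  let D : Finset (ZMod p) := Finset.univ.filter (fun d => ∃ a ∈ Q, ∃ b ∈ Q, Y.Adj a (u d • b))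
  have hmin : HasKMinor (cay D) k := by
    refine cay_minor hm hk D Gs hG (Or.inr h0) ?_
    intro d hd
    obtain ⟨g, hg, h⟩ := hcov d hd
    exact ⟨g, hg, by simpa [D] using h⟩
  have huu : ∀ x y, u (-x + y) = (u x)⁻¹ * u y := by
    intro x y
    rw [eq_inv_mul_iff_mul_eq, ← hu]
    congr 1
    ring
  refine minor_compose (C := cay D) (fun x => {v | ∃ a ∈ Q, v = u x • a})
    (fun x => conn_image hadj (u x) hQc) ?_ ?_ hmin
  · intro x y hxy
    rw [Set.disjoint_left]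
    rintro _ ⟨a, ha, rfl⟩ ⟨b, hb, hab⟩
    have h1 : u (-y + x) • a = b := by
      rw [huu, mul_smul, hab, inv_smul_smul]
    have h2 := hQs a ha b hb _ h1
    apply hxy
    rw [neg_add_eq_zero] at h2
    exact h2.symm
  · have key : ∀ x y, y - x ∈ D → ∃ a ∈ {v | ∃ a ∈ Q, v = u x • a},
        ∃ b ∈ {v | ∃ a ∈ Q, v = u y • a}, Y.Adj a b := by
      intro x y h
      have h' : ∃ a ∈ Q, ∃ b ∈ Q, Y.Adj a (u (y - x) • b) := by simpa [D] using h
      obtain ⟨a, ha, b, hb, hab⟩ := h'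
      refine ⟨_, ⟨a, ha, rfl⟩, _, ⟨b, hb, rfl⟩, ?_⟩
      have h2 := hadj (u x) _ _ hab
      rw [← mul_smul, ← hu] at h2
      rwa [add_sub_cancel] at h2
    rintro x y ⟨_, h | h⟩
    · exact key x y h
    · obtain ⟨a, ha, b, hb, hab⟩ := key y x h
      exact ⟨b, hb, a, ha, hab.symm⟩

end

end Pool.Agent.H16.PSL
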