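import Pool.Agent.H16.PSL.Final
import Pool.Agent.H16.PSL.SL2

set_option autoImplicit false

namespace Pool.Agent.H16.PSL

open Pool.Agent.Helper999.HM SimpleGraph

section general
variable {Γ V : Type*} [Group Γ] [MulAction Γ V] {Y : SimpleGraph V}

theorem touch_symm (hadj : ∀ (g : Γ) (a b : V), Y.Adj a b → Y.Adj (g • a) (g • b)) {Q : Set V}
    {g : Γ} (h : ∃ a ∈ Q, ∃ b ∈ Q, a = g • b ∨ Y.Adj a (g • b)) :
    ∃ a ∈ Q, ∃ b ∈ Q, a = g⁻¹ • b ∨ Y.Adj a (g⁻¹ • b) := by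
  obtain ⟨a, ha, b, hb, h | h⟩ := h
  · refine ⟨b, hb, a, ha, Or.inl ?_⟩
    rw [h, inv_smul_smul]
  · refine ⟨b, hb, a, ha, Or.inr ?_⟩
    have := hadj g⁻¹ _ _ h
    rw [inv_smul_smul] at this
    exact this.symm

theorem gen_of_section (hadj : ∀ (g : Γ) (a b : V), Y.Adj a b → Y.Adj (g • a) (g • b))
    (L : Subgroup Γ) {C : Set V} (hCinv : ∀ g ∈ L, ∀ v ∈ C, g • v ∈ C)
    (hCc : (Y.induce C).Connected) {Q : Set V} (hQC : Q ⊆ C) (hQne : Q.Nonempty)
    (hQs : ∀ a ∈ Q, ∀ b ∈ Q, ∀ g ∈ L, g • a = b → a = b)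
    (hQsurj : ∀ v ∈ C, ∃ g ∈ L, ∃ q ∈ Q, v = g • q) :
    Subgroup.closure {g | g ∈ L ∧ ∃ a ∈ Q, ∃ b ∈ Q, a = g • b ∨ Y.Adj a (g • b)} = L := by
  set E : Set Γ := {g | g ∈ L ∧ ∃ a ∈ Q, ∃ b ∈ Q, a = g • b ∨ Y.Adj a (g • b)} with hE
  have hEL : Subgroup.closure E ≤ L := by
    rw [Subgroup.closure_le]
    exact fun g hg => hg.1
  refine le_antisymm hEL ?_
  intro b hb
  obtain ⟨q₀, hq₀⟩ := hQne
  have h := step_of_conn hCc (hQC hq₀) (hCinv b hb _ (hQC hq₀))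
  have key : ∀ z, Relation.ReflTransGen (StepIn Y C) q₀ z →
      ∃ c ∈ Subgroup.closure E, ∃ q ∈ Q, z = c • q := by
    intro z h
    induction h with
    | refl => exact ⟨1, Subgroup.one_mem _, q₀, hq₀, (one_smul _ _).symm⟩
    | @tail x z _ hs ih =>
      obtain ⟨c, hc, q, hq, hx⟩ := ih
      obtain ⟨b', hb', q', hq', hz⟩ := hQsurj z hs.2
      refine ⟨b', ?_, q', hq', hz⟩
      have h1 : c⁻¹ * b' ∈ E := by
        refine ⟨L.mul_mem (L.inv_mem (hEL hc)) hb', q, hq, q', hq', Or.inr ?_⟩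
        have := hadj c⁻¹ _ _ hs.1
        rw [hx, hz, inv_smul_smul, ← mul_smul] at this
        exact this
      have h2 := Subgroup.mul_mem _ hc (Subgroup.subset_closure h1)
      rwa [mul_inv_cancel_left] at h2
  obtain ⟨c, hc, q, hq, hbq⟩ := key _ h
  have h3 : (c⁻¹ * b) • q₀ = q := by rw [mul_smul, hbq, inv_smul_smul]
  have h4 : q₀ = q := hQs _ hq₀ _ hq _ (L.mul_mem (L.inv_mem (hEL hc)) hb) h3
  have h5 : c⁻¹ * b ∈ E :=
    ⟨L.mul_mem (L.inv_mem (hEL hc)) hb, q, hq, q₀, hq₀, Or.inl h3.symm⟩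
  have h6 := Subgroup.mul_mem _ hc (Subgroup.subset_closure h5)
  rwa [mul_inv_cancel_left] at h6

theorem exists_noncomm {E : Set Γ} {L : Subgroup Γ} (hE : Subgroup.closure E = L) {x y : Γ}
    (hx : x ∈ L) (hy : y ∈ L) (hxy : x * y ≠ y * x) : ∃ a ∈ E, ∃ b ∈ E, a * b ≠ b * a := by
  by_contra hcon
  push Not at hcon
  apply hxy
  have h1 : L ≤ Subgroup.centralizer E := by
    rw [← hE, Subgroup.closure_le]
    intro a ha
    rw [SetLike.mem_coe, Subgroup.mem_centralizer_iff]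
    exact fun b hb => hcon b hb a ha
  have h2 : L ≤ Subgroup.centralizer (L : Set Γ) := by
    conv_lhs => rw [← hE]
    rw [Subgroup.closure_le]
    intro a ha
    rw [SetLike.mem_coe, Subgroup.mem_centralizer_iff]
    intro b hb
    have h3 := Subgroup.mem_centralizer_iff.1 (h1 hb) a ha
    exact h3.symm
  have h3 := Subgroup.mem_centralizer_iff.1 (h2 hx) y hy
  exact h3.symm

theorem exists_exit {W Q : Set V} (hWc : (Y.induce W).Connected) {q z : V} (hq : q ∈ Q)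
    (hqW : q ∈ W) (hz : z ∈ W) (hzQ : z ∉ Q) : ∃ a ∈ Q, ∃ b ∈ W, b ∉ Q ∧ Y.Adj a b := by
  have h := step_of_conn hWc hqW hz
  by_contra hcon
  push Not at hcon
  have key : ∀ z, Relation.ReflTransGen (StepIn Y W) q z → z ∈ Q := by
    intro z h
    induction h with
    | refl => exact hq
    | tail _ hs ih =>
      by_contra hn
      exact hcon _ ih _ hs.2 hn hs.1
  exact hzQ (key z h)

/-- connectivity of a union of blocks -/
theorem block_step (hadj : ∀ (g : Γ) (a b : V), Y.Adj a b → Y.Adj (g • a) (g • b))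
    {W Q : Set V} (hQc : (Y.induce Q).Connected) {z : V} {g b : Γ}
    (hP : ∀ q ∈ Q, Relation.ReflTransGen (StepIn Y W) z (g • q))
    (hW : ∀ q ∈ Q, (g * b) • q ∈ W)
    (hb : ∃ a ∈ Q, ∃ a' ∈ Q, a = b • a' ∨ Y.Adj a (b • a')) :
    ∀ q ∈ Q, Relation.ReflTransGen (StepIn Y W) z ((g * b) • q) := by
  obtain ⟨a, ha, a', ha', h⟩ := hb
  have h1 : Relation.ReflTransGen (StepIn Y W) z ((g * b) • a') := by
    rcases h with h | h
    · rw [mul_smul, ← h]
      exact hP a ha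
    · refine Relation.ReflTransGen.tail (hP a ha) ⟨?_, hW a' ha'⟩
      rw [mul_smul]
      exact hadj g _ _ h
  intro q hq
  refine Relation.ReflTransGen.trans h1 ?_
  have h2 := step_of_conn hQc ha' hq
  clear hq
  induction h2 with
  | refl => exact Relation.ReflTransGen.refl
  | tail _ hs ih => exact Relation.ReflTransGen.tail ih ⟨hadj _ _ _ hs.1, hW _ hs.2⟩

end general

end Pool.Agent.H16.PSL
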