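import Pool.Graph.R_seed8.Helper999.HMFull

/-!
Reduce (helper16, MP_d4104f_co Q2): from a graph X with Aut X ≅ PSL(2,p) to a connected edge-transitive graph.

Adapt two library proofs (run R_seed8, Helper999: team-store fetch /workdir/pool Pool/Graph/R_seed8/Helper999/HMFull.lean):
* exists_good (HMFull.lean) is stated for alternatingGroup (Fin n) but the proof only uses that the group G is simple and has
  more than 2 elements.  PSL(2,p), p > 3, is simple: Matrix.ProjectiveSpecialLinearGroup.rank_two_simple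
  (Mathlib.LinearAlgebra.Projectivization.PSL.PSL2), needs 4 ≤ Nat.card (ZMod p).
* exists_two_orbits (HMContract.lean): in its first case replace Y.induce C by E.induce C (E = edgeOrbit), which is edge-transitive;
  so the conclusion becomes ∃ x y, Y'.Adj x y ∧ every edge is in the orbit of {x,y}.
* finally let SL(2,p) act through the quotient map SL → PSL = SL ⧸ center (MulAction.compHom); it is surjective, -1 is central.
-/

set_option autoImplicit false

namespace Pool.Agent.H16.PSL

open Pool.Agent.Helper999.HM SimpleGraph MulAction Equiv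

theorem hasKMinor_of_le {V : Type*} {E Y : SimpleGraph V} (h : ∀ a b, E.Adj a b → Y.Adj a b)
    {k : ℕ} (hk : HasKMinor E k) : HasKMinor Y k := by
  obtain ⟨B, h1, h2, h3⟩ := hk
  refine ⟨B, fun i => (h1 i).mono ?_, h2, fun i j hij => ?_⟩
  · intro a b hab
    exact h _ _ hab
  · obtain ⟨a, ha, b, hb, hab⟩ := h3 i j hij
    exact ⟨a, ha, b, hb, h _ _ hab⟩

/-- The library theorem `Pool.Agent.Helper999.HM.exists_good` for any simple group with more than
two elements. -/
theorem exists_good_simple {V : Type} {X : SimpleGraph V} {G : Type} [Group G] [IsSimpleGroup G]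
    [Finite G] (hcardA : 2 < Nat.card G) [Finite V] (e : (X ≃g X) ≃* G) {k : ℕ}
    (hk : ¬ HasKMinor X k) : ∃ (V' : Type) (_ : Finite V')
      (_ : MulAction G V') (Y : SimpleGraph V'), Good G k V' Y := by
  classical
  -- every component outside the fixed vertices is invariant
  have hclaim : ∀ (φ : X ≃g X) (v : V), v ∉ fixedVerts X → rr X v (φ v) := by
    intro φ v hv
    by_contra hcon
    obtain ⟨ψ, hψ1, hψ2, hψ3⟩ := exists_swap hv hcon
    let s : Setoid V := ⟨fun a b => rr X a b, ⟨fun a => Relation.ReflTransGen.refl,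
      fun h => rr_symm h, fun h h' => rr_trans h h'⟩⟩
    let act : MulAction (X ≃g X) (Quotient s) :=
      { smul := fun g => Quotient.map (fun v => g v) (fun a b h => rr_map g h)
        one_smul := by
          intro c
          obtain ⟨a, rfl⟩ := Quotient.exists_rep c
          rfl
        mul_smul := by
          intro g h c
          obtain ⟨a, rfl⟩ := Quotient.exists_rep c
          rfl }
    have hsm : ∀ (g : X ≃g X) (v : V), g • (Quotient.mk s v) = Quotient.mk s (g v) := fun _ _ => rfl
    have := Fintype.ofFinite (Quotient s)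
    let Φ : (X ≃g X) →* ℤˣ := Perm.sign.comp (toPermHom (X ≃g X) (Quotient s))
    have hne : Quotient.mk s v ≠ Quotient.mk s (φ v) := fun h => hcon (Quotient.exact h)
    have hswap : toPermHom (X ≃g X) (Quotient s) ψ = swap (Quotient.mk s v) (Quotient.mk s (φ v)) := by
      ext c
      obtain ⟨w, rfl⟩ := Quotient.exists_rep c
      change Quotient.mk s (ψ w) = _
      by_cases h1 : rr X v w
      · have h2 : Quotient.mk s w = Quotient.mk s v := (Quotient.sound (s := s) h1).symm
        rw [h2, swap_apply_left, hψ1 w h1]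
        exact Quotient.sound (s := s) (rr_symm (rr_map φ h1))
      · by_cases h3 : rr X (φ v) w
        · have h2 : Quotient.mk s w = Quotient.mk s (φ v) := (Quotient.sound (s := s) h3).symm
          rw [h2, swap_apply_right, hψ2 w h3]
          apply Quotient.sound (s := s)
          have := rr_map φ.symm h3
          rw [φ.symm_apply_apply] at this
          exact rr_symm this
        · rw [hψ3 w h1 h3, swap_apply_of_ne_of_ne]
          · intro h; exact h1 (rr_symm (Quotient.exact h))
          · intro h; exact h3 (rr_symm (Quotient.exact h))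
    have hΦ : Φ ψ = -1 := by
      change Perm.sign (toPermHom (X ≃g X) (Quotient s) ψ) = -1
      rw [hswap, Perm.sign_swap hne]
    let Ψ : G →* ℤˣ := Φ.comp e.symm.toMonoidHom
    rcases IsSimpleGroup.eq_bot_or_eq_top_of_normal Ψ.ker inferInstance with h | h
    · have hinj : Function.Injective Ψ := (MonoidHom.ker_eq_bot_iff Ψ).1 h
      have h1 := Nat.card_le_card_of_injective Ψ hinj
      have h2 : Nat.card ℤˣ = 2 := by
        rw [Nat.card_eq_fintype_card]; rfl
      omega
    · have h1 : e ψ ∈ Ψ.ker := by rw [h]; trivial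
      rw [MonoidHom.mem_ker] at h1
      have h2 : Ψ (e ψ) = Φ ψ := by
        change Φ (e.symm (e ψ)) = Φ ψ
        rw [e.symm_apply_apply]
      rw [h2, hΦ] at h1
      exact absurd h1 (by decide)
  obtain ⟨v, hv⟩ : ∃ v : V, v ∉ fixedVerts X := by
    by_contra hcon
    push Not at hcon
    have h1 : ∀ φ : X ≃g X, φ = 1 := by
      intro φ
      ext v
      exact hcon v φ
    have h2 : Nat.card (X ≃g X) = 1 := by
      rw [Nat.card_eq_one_iff_unique]
      exact ⟨⟨fun a b => (h1 a).trans (h1 b).symm⟩, ⟨1⟩⟩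
    rw [Nat.card_congr e.toEquiv] at h2
    omega
  let C : Set V := {w | rr X v w}
  have hCnf : ∀ w ∈ C, w ∉ fixedVerts X := fun w hw => rr_notfixed hv hw
  have hCinv : ∀ (φ : X ≃g X) (w : V), w ∈ C → φ w ∈ C := fun φ w hw =>
    rr_trans hw (hclaim φ w (hCnf w hw))
  let act : MulAction (G) C :=
    { smul := fun g w => ⟨(e.symm g) w.1, hCinv _ w.1 w.2⟩
      one_smul := fun w => Subtype.ext (by
        change (e.symm 1) w.1 = w.1
        rw [map_one]; rfl)
      mul_smul := fun g h w => Subtype.ext (by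
        change (e.symm (g * h)) w.1 = (e.symm g) ((e.symm h) w.1)
        rw [map_mul]; rfl) }
  have hvC : v ∈ C := Relation.ReflTransGen.refl
  refine ⟨C, inferInstance, act, X.induce C, ⟨?_, ?_, ?_, ?_⟩⟩
  · intro g a b hab
    exact (e.symm g).map_rel_iff.2 hab
  · refine conn_of_base hvC ?_
    intro a ha
    have key : ∀ a, rr X v a → Relation.ReflTransGen (StepIn X C) v a := by
      intro a ha
      unfold rr at ha
      induction ha with
      | refl => exact Relation.ReflTransGen.refl
      | tail h hs ih =>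
        exact Relation.ReflTransGen.tail ih ⟨hs.1, Relation.ReflTransGen.tail h hs⟩
    exact key a ha
  · rintro ⟨w, hw⟩
    have h1 := hCnf w hw
    have h2 : ∃ φ : X ≃g X, φ w ≠ w := by
      by_contra hcon
      push Not at hcon
      exact h1 hcon
    obtain ⟨φ, hφ⟩ := h2
    refine ⟨e φ, fun h => hφ ?_⟩
    have h3 := congrArg Subtype.val h
    change (e.symm (e φ)) w = w at h3
    rwa [e.symm_apply_apply] at h3
  · exact fun h => hk h.of_induce

/-- The library theorem `Pool.Agent.Helper999.HM.exists_two_orbits` with an edge-transitive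
conclusion. -/
theorem exists_edge_transitive {G : Type*} [Group G] {k : ℕ} (N : ℕ) :
    ∀ (V : Type) [Finite V] [MulAction G V] (Y : SimpleGraph V), Nat.card V ≤ N → Good G k V Y →
    ∃ (V' : Type) (_ : Finite V') (_ : MulAction G V') (Y' : SimpleGraph V'), Good G k V' Y' ∧
      ∃ x y : V', Y'.Adj x y ∧ ∀ a b : V', Y'.Adj a b →
        ∃ g : G, (a = g • x ∧ b = g • y) ∨ (a = g • y ∧ b = g • x) := by
  classical
  induction N with
  | zero =>
    intro V _ _ Y hcard hgood
    exfalso
    have := hgood.conn.nonempty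
    have := Nat.card_pos (α := V)
    omega
  | succ N ih =>
    intro V _ _ Y hcard hgood
    have hne := hgood.conn.nonempty
    obtain ⟨z⟩ := hne
    obtain ⟨g₀, hg₀⟩ := hgood.nofix z
    obtain ⟨x, y, hxy⟩ : ∃ x y, Y.Adj x y := by
      obtain ⟨w⟩ := hgood.conn.preconnected z (g₀ • z)
      obtain ⟨c, hc⟩ := first_step w (Ne.symm hg₀)
      exact ⟨_, _, hc⟩
    set E := edgeOrbit G hgood.adj hxy with hE
    have hEY : ∀ a b, E.Adj a b → Y.Adj a b := by
      rintro a b ⟨g, ⟨rfl, rfl⟩ | ⟨rfl, rfl⟩⟩
      · exact hgood.adj _ _ _ hxy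
      · exact hgood.adj _ _ _ hxy.symm
    have hEadj : ∀ (g : G) (a b : V), E.Adj a b → E.Adj (g • a) (g • b) := by
      rintro g a b ⟨h, ⟨rfl, rfl⟩ | ⟨rfl, rfl⟩⟩
      · exact ⟨g * h, Or.inl ⟨by rw [mul_smul], by rw [mul_smul]⟩⟩
      · exact ⟨g * h, Or.inr ⟨by rw [mul_smul], by rw [mul_smul]⟩⟩
    have hErch : ∀ (g : G) (a b : V), E.Reachable a b → E.Reachable (g • a) (g • b) := by
      rintro g a b ⟨w⟩
      induction w with
      | nil => exact Reachable.refl _
      | cons h _ ih => exact (hEadj g _ _ h).reachable.trans ih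
    have hExy : E.Adj x y := ⟨1, Or.inl ⟨(one_smul _ _).symm, (one_smul _ _).symm⟩⟩
    by_cases hfix : ∃ v₀ : V, ∀ g : G, E.Reachable v₀ (g • v₀)
    · obtain ⟨v₀, hv₀⟩ := hfix
      set C : Set V := {v | E.Reachable v₀ v} with hC
      have hCinv : ∀ (g : G) (v : V), v ∈ C → g • v ∈ C := by
        intro g v hv
        exact (hv₀ g).trans (hErch g _ _ hv)
      let act : MulAction G C :=
        { smul := fun g v => ⟨g • v.1, hCinv g v.1 v.2⟩
          one_smul := fun v => Subtype.ext (one_smul _ _)
          mul_smul := fun g h v => Subtype.ext (mul_smul _ _ _) }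
      have hsm : ∀ (g : G) (v : C), ((g • v : C) : V) = g • v.1 := fun _ _ => rfl
      have hnbr : ∀ v ∈ C, ∃ u, E.Adj v u := by
        intro v hv
        obtain ⟨g, hg⟩ := hgood.nofix v
        have h1 : E.Reachable v (g • v) := (Reachable.symm hv).trans (hCinv g v hv)
        obtain ⟨w⟩ := h1
        exact first_step w (Ne.symm hg)
      have hxy_orb : ∀ v ∈ C, (∃ g : G, v = g • x) ∨ (∃ g : G, v = g • y) := by
        intro v hv
        obtain ⟨u, g, ⟨h, _⟩ | ⟨h, _⟩⟩ := hnbr v hv
        · exact Or.inl ⟨g, h⟩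
        · exact Or.inr ⟨g, h⟩
      have hv₀C : v₀ ∈ C := Reachable.refl _
      have hxC : x ∈ C ∧ y ∈ C := by
        rcases hxy_orb v₀ hv₀C with ⟨g, hg⟩ | ⟨g, hg⟩
        · have h1 : x ∈ C := by
            have := hCinv g⁻¹ v₀ hv₀C
            rwa [hg, inv_smul_smul] at this
          exact ⟨h1, Reachable.trans h1 hExy.reachable⟩
        · have h1 : y ∈ C := by
            have := hCinv g⁻¹ v₀ hv₀C
            rwa [hg, inv_smul_smul] at this
          exact ⟨Reachable.trans h1 hExy.symm.reachable, h1⟩
      refine ⟨C, inferInstance, act, E.induce C, ⟨?_, ?_, ?_, ?_⟩, ⟨x, hxC.1⟩, ⟨y, hxC.2⟩,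
        ?_, ?_⟩
      · intro g a b hab
        exact hEadj g _ _ hab
      · refine conn_of_base hv₀C ?_
        rintro a ⟨w⟩
        have key : ∀ (u a : V) (w : E.Walk u a), u ∈ C →
            Relation.ReflTransGen (StepIn E C) u a := by
          intro u a w
          induction w with
          | nil => exact fun _ => Relation.ReflTransGen.refl
          | cons h _ ih =>
            intro hu
            have hv := Reachable.trans hu h.reachable
            exact Relation.ReflTransGen.head ⟨h, hv⟩ (ih hv)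
        exact key _ _ w hv₀C
      · rintro ⟨v, hv⟩
        obtain ⟨g, hg⟩ := hgood.nofix v
        exact ⟨g, fun h => hg (congrArg Subtype.val h)⟩
      · exact fun h => hgood.nominor (hasKMinor_of_le hEY h.of_induce)
      · exact hExy
      · rintro ⟨a, ha⟩ ⟨b, hb⟩ ⟨g, ⟨h1, h2⟩ | ⟨h1, h2⟩⟩
        · exact ⟨g, Or.inl ⟨Subtype.ext h1, Subtype.ext h2⟩⟩
        · exact ⟨g, Or.inr ⟨Subtype.ext h1, Subtype.ext h2⟩⟩
    · push Not at hfix
      let s : Setoid V := ⟨fun a b => E.Reachable a b, ⟨fun a => Reachable.refl a,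
        fun h => h.symm, fun h h' => h.trans h'⟩⟩
      have hsr : ∀ a b, s a b ↔ E.Reachable a b := fun _ _ => Iff.rfl
      let act : MulAction G (Quotient s) :=
        { smul := fun g => Quotient.map (fun v => g • v) (fun a b h => hErch g a b h)
          one_smul := by
            intro c
            obtain ⟨a, rfl⟩ := Quotient.exists_rep c
            exact congrArg (Quotient.mk s) (one_smul G a)
          mul_smul := by
            intro g h c
            obtain ⟨a, rfl⟩ := Quotient.exists_rep c
            exact congrArg (Quotient.mk s) (mul_smul g h a) }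
      have hsm : ∀ (g : G) (v : V), g • (Quotient.mk s v) = Quotient.mk s (g • v) := fun _ _ => rfl
      refine ih (Quotient s) (quotGraph Y s) ?_ ⟨?_, ?_, ?_, ?_⟩
      · have h1 : Nat.card (Quotient s) < Nat.card V := by
          have := Fintype.ofFinite V
          have := Fintype.ofFinite (Quotient s)
          rw [Nat.card_eq_fintype_card, Nat.card_eq_fintype_card]
          refine Fintype.card_lt_of_surjective_not_injective (Quotient.mk s)
            Quotient.exists_rep ?_
          intro hinj
          exact hxy.ne (hinj (Quotient.sound (s := s) (hExy.reachable)))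
        omega
      · rintro g c c' ⟨hne, a, b, rfl, rfl, hab⟩
        refine ⟨?_, g • a, g • b, rfl, rfl, hgood.adj g _ _ hab⟩
        intro h
        apply hne
        have h1 := congrArg (fun c => g⁻¹ • c) h
        simp only [inv_smul_smul] at h1
        exact h1
      · have hnonempty : Nonempty (Quotient s) := ⟨Quotient.mk s z⟩
        refine ⟨?_⟩
        intro c c'
        obtain ⟨a, rfl⟩ := Quotient.exists_rep c
        obtain ⟨b, rfl⟩ := Quotient.exists_rep c'
        obtain ⟨w⟩ := hgood.conn.preconnected a b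
        induction w with
        | nil => exact Reachable.refl _
        | @cons u v _ h _ ih =>
          refine Reachable.trans ?_ ih
          by_cases huv : Quotient.mk s u = Quotient.mk s v
          · rw [huv]
          · exact Adj.reachable ⟨huv, u, v, rfl, rfl, h⟩
      · intro c
        obtain ⟨a, rfl⟩ := Quotient.exists_rep c
        obtain ⟨g, hg⟩ := hfix a
        refine ⟨g, fun h => hg ?_⟩
        exact ((hsr _ _).1 (Quotient.exact h)).symm
      · intro h
        apply hgood.nominor
        refine HasKMinor.of_quot ?_ h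
        rintro a b ⟨w⟩
        induction w with
        | nil => exact Relation.ReflTransGen.refl
        | cons h _ ih => exact Relation.ReflTransGen.head ⟨hEY _ _ h, h.reachable⟩ ih

theorem two_lt_card_PSL {p : ℕ} [Fact p.Prime] (hp : 3 < p) :
    2 < Nat.card (Matrix.ProjectiveSpecialLinearGroup (Fin 2) (ZMod p)) := by
  let u : ZMod p → Matrix.SpecialLinearGroup (Fin 2) (ZMod p) := fun x =>
    ⟨!![1, x; 0, 1], by rw [Matrix.det_fin_two_of]; ring⟩
  have hu : ∀ x y, u x * u (y - x) = u y := by
    intro x y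
    apply Subtype.ext
    rw [Matrix.SpecialLinearGroup.coe_mul]
    show !![1, x; 0, 1] * !![1, y - x; 0, 1] = !![1, y; 0, 1]
    rw [Matrix.mul_fin_two]
    simp
  let l : Matrix.SpecialLinearGroup (Fin 2) (ZMod p) :=
    ⟨!![1, 0; 1, 1], by rw [Matrix.det_fin_two_of]; ring⟩
  have hinj : Function.Injective (fun x : ZMod p =>
      (QuotientGroup.mk (u x) : Matrix.ProjectiveSpecialLinearGroup (Fin 2) (ZMod p))) := by
    intro x y hxy
    have h1 : (u x)⁻¹ * u y ∈ Subgroup.center (Matrix.SpecialLinearGroup (Fin 2) (ZMod p)) :=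
      QuotientGroup.eq.1 hxy
    rw [← hu x y, inv_mul_cancel_left] at h1
    have h2 := Subgroup.mem_center_iff.1 h1 l
    have h3 := congrArg (fun A : Matrix.SpecialLinearGroup (Fin 2) (ZMod p) =>
      (A : Matrix (Fin 2) (Fin 2) (ZMod p)) 0 0) h2
    have h4 : (l * u (y - x) : Matrix.SpecialLinearGroup (Fin 2) (ZMod p)) 0 0 = 1 := by
      rw [Matrix.SpecialLinearGroup.coe_mul]
      show (!![1, 0; 1, 1] * !![1, y - x; 0, 1] : Matrix (Fin 2) (Fin 2) (ZMod p)) 0 0 = 1
      rw [Matrix.mul_fin_two]
      simp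
    have h5 : (u (y - x) * l : Matrix.SpecialLinearGroup (Fin 2) (ZMod p)) 0 0 = 1 + (y - x) := by
      rw [Matrix.SpecialLinearGroup.coe_mul]
      show (!![1, y - x; 0, 1] * !![1, 0; 1, 1] : Matrix (Fin 2) (Fin 2) (ZMod p)) 0 0 = _
      rw [Matrix.mul_fin_two]
      simp
    have h6 : (1 : ZMod p) = 1 + (y - x) := h4.symm.trans (h3.trans h5)
    have h7 : y - x = 0 := by linear_combination -h6
    exact (sub_eq_zero.1 h7).symm
  have h : Nat.card (ZMod p) ≤
      Nat.card (Matrix.ProjectiveSpecialLinearGroup (Fin 2) (ZMod p)) :=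
    Nat.card_le_card_of_injective _ hinj
  rw [Nat.card_zmod] at h
  omega

theorem reduce {p : ℕ} [Fact p.Prime] (hp : 3 < p) {V : Type} [Finite V] {X : SimpleGraph V}
    (e : (X ≃g X) ≃* Matrix.ProjectiveSpecialLinearGroup (Fin 2) (ZMod p)) {k : ℕ}
    (hk : ¬ HasKMinor X k) :
    ∃ (V' : Type) (_ : Finite V') (_ : MulAction (Matrix.SpecialLinearGroup (Fin 2) (ZMod p)) V')
      (Y : SimpleGraph V'), Good (Matrix.SpecialLinearGroup (Fin 2) (ZMod p)) k V' Y ∧
      (∀ v : V', (-1 : Matrix.SpecialLinearGroup (Fin 2) (ZMod p)) • v = v) ∧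
      ∃ x y : V', Y.Adj x y ∧ ∀ a b : V', Y.Adj a b →
        ∃ g : Matrix.SpecialLinearGroup (Fin 2) (ZMod p), (a = g • x ∧ b = g • y) ∨ (a = g • y ∧ b = g • x) := by
  have hsimple : IsSimpleGroup (Matrix.ProjectiveSpecialLinearGroup (Fin 2) (ZMod p)) :=
    Matrix.ProjectiveSpecialLinearGroup.rank_two_simple (by rw [Nat.card_zmod]; omega)
  obtain ⟨V₁, hV₁, act₁, Y₁, hgood₁⟩ := exists_good_simple (two_lt_card_PSL hp) e hk
  obtain ⟨V₂, hV₂, act₂, Y₂, hgood₂, x, y, hxy, htr⟩ :=
    exists_edge_transitive (Nat.card V₁) V₁ Y₁ le_rfl hgood₁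
  let π : Matrix.SpecialLinearGroup (Fin 2) (ZMod p) →*
      Matrix.ProjectiveSpecialLinearGroup (Fin 2) (ZMod p) :=
    QuotientGroup.mk' (Subgroup.center (Matrix.SpecialLinearGroup (Fin 2) (ZMod p)))
  have hπ : Function.Surjective π := QuotientGroup.mk'_surjective _
  let act : MulAction (Matrix.SpecialLinearGroup (Fin 2) (ZMod p)) V₂ := MulAction.compHom V₂ π
  have hact : ∀ (g : Matrix.SpecialLinearGroup (Fin 2) (ZMod p)) (v : V₂), g • v = π g • v :=
    fun _ _ => rfl
  refine ⟨V₂, hV₂, act, Y₂, ⟨?_, hgood₂.conn, ?_, hgood₂.nominor⟩, ?_, x, y, hxy, ?_⟩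
  · intro g a b hab
    exact hgood₂.adj (π g) a b hab
  · intro v
    obtain ⟨g, hg⟩ := hgood₂.nofix v
    obtain ⟨g', rfl⟩ := hπ g
    exact ⟨g', hg⟩
  · intro v
    have h1 : π (-1) = 1 := by
      refine (QuotientGroup.eq_one_iff _).2 ?_
      rw [Subgroup.mem_center_iff]
      intro g
      rw [mul_neg, neg_mul, mul_one, one_mul]
    rw [hact, h1, one_smul]
  · intro a b hab
    obtain ⟨g, hg⟩ := htr a b hab
    obtain ⟨g', rfl⟩ := hπ g
    exact ⟨g', hg⟩

end Pool.Agent.H16.PSL
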