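import Pool.Agent.H16.PSL.CaseA
import Pool.Agent.H16.PSL.CaseB
import Pool.Agent.H16.PSL.SubReduce

set_option autoImplicit false

namespace Pool.Agent.H16.PSL

open Pool.Agent.Helper999.HM SimpleGraph

theorem hasKMinor_zero {V : Type*} (X : SimpleGraph V) : HasKMinor X 0 :=
  ⟨fun i => i.elim0, fun i => i.elim0, fun i => i.elim0, fun i => i.elim0⟩

/-- every finite graph whose automorphism group is `PSL(2,p)` has a complete minor of linear
order in `p` -/
theorem main_bound : ∃ c0 : ℕ, 0 < c0 ∧ ∀ (p : ℕ) [Fact p.Prime] (k : ℕ), c0 * k ≤ p →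
    ∀ (V : Type) [Finite V] (X : SimpleGraph V),
      Nonempty ((X ≃g X) ≃* Matrix.ProjectiveSpecialLinearGroup (Fin 2) (ZMod p)) →
      HasKMinor X k := by
  obtain ⟨q0, p0, hgr⟩ := growth
  set k0 := max q0 20 with hk0
  set c0 := p0 + 100 * (64 * k0 ^ 2) ^ 3 + 100 * 80 ^ 3 + 1000 + k0 with hc0
  refine ⟨c0, by omega, ?_⟩
  rintro p _ k hck V _ X ⟨e⟩
  rcases Nat.eq_zero_or_pos k with rfl | hkpos
  · exact hasKMinor_zero X
  have hpc : c0 ≤ p := le_trans (Nat.le_mul_of_pos_right _ hkpos) hck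
  by_contra hcon
  obtain ⟨V', _, _, Y, hgood, hneg, x, y, hxy, hE⟩ := reduce (by omega) e hcon
  apply hgood.nominor
  have hadj := hgood.adj
  have hconn := hgood.conn
  have hk1 : 100 * (64 * k0 ^ 2) ^ 3 * k ≤ p :=
    le_trans (Nat.mul_le_mul_right _ (by omega)) hck
  have hk2 : 100 * 80 ^ 3 * k ≤ p := le_trans (Nat.mul_le_mul_right _ (by omega)) hck
  by_cases hPx : ∃ h : Matrix.SpecialLinearGroup (Fin 2) (ZMod p), h • x = x ∧ h ≠ 1 ∧
      h 0 0 + h 1 1 = 2
  · exact caseB (by omega) hadj hconn hneg hgood.nofix hxy hE hPx hk2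
  by_cases hPy : ∃ h : Matrix.SpecialLinearGroup (Fin 2) (ZMod p), h • y = y ∧ h ≠ 1 ∧
      h 0 0 + h 1 1 = 2
  · refine caseB (by omega) hadj hconn hneg hgood.nofix hxy.symm ?_ hPy hk2
    intro a b hab
    obtain ⟨g, h⟩ := hE a b hab
    exact ⟨g, h.symm⟩
  have horb : ∀ v : V', (∃ g : Matrix.SpecialLinearGroup (Fin 2) (ZMod p), v = g • x) ∨
      ∃ g : Matrix.SpecialLinearGroup (Fin 2) (ZMod p), v = g • y := by
    intro v
    have hnb : ∃ u, Y.Adj v u := by
      by_cases hvx : v = x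
      · exact ⟨y, hvx ▸ hxy⟩
      · obtain ⟨w⟩ := hconn.preconnected v x
        exact first_step w hvx
    obtain ⟨u, hu⟩ := hnb
    obtain ⟨g, ⟨h, _⟩ | ⟨h, _⟩⟩ := hE v u hu
    · exact Or.inl ⟨g, h⟩
    · exact Or.inr ⟨g, h⟩
  have hadj1 : ∀ a b : V', Y.Adj a b → Y.dist a b ≤ 1 := by
    intro a b hab
    have := SimpleGraph.dist_le (Walk.cons hab Walk.nil)
    simpa using this
  refine caseA (k0 := k0) (fun ℓ hℓ h => hgr p (by omega) ℓ hℓ (le_trans (le_max_left _ _) h))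
    (le_max_right _ _) (by omega) (by omega) hadj hconn hneg ?_ ?_ hk1
  · have key : ∀ z : V', (¬ ∃ h : Matrix.SpecialLinearGroup (Fin 2) (ZMod p), h • z = z ∧ h ≠ 1 ∧
        h 0 0 + h 1 1 = 2) → ∀ g h : Matrix.SpecialLinearGroup (Fin 2) (ZMod p),
        h • (g • z) = g • z → h 0 0 + h 1 1 = 2 → h = 1 := by
      intro z hz g h hh htr
      by_contra hne
      apply hz
      refine ⟨g⁻¹ * h * g, ?_, ?_, ?_⟩
      · rw [mul_smul, mul_smul, hh, inv_smul_smul]
      · intro h1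
        apply hne
        have h5 := congrArg (fun z => g * z * g⁻¹) h1
        simpa [mul_assoc] using h5
      · have := trace_conj g⁻¹ h
        rw [inv_inv] at this
        rw [this, htr]
    intro v h hh htr
    rcases horb v with ⟨g, rfl⟩ | ⟨g, rfl⟩
    · exact key x hPx g h hh htr
    · exact key y hPy g h hh htr
  · intro v0 z
    rcases horb v0 with ⟨g, rfl⟩ | ⟨g, rfl⟩ <;> rcases horb z with ⟨h, rfl⟩ | ⟨h, rfl⟩
    · refine ⟨h * g⁻¹, ?_⟩
      rw [← mul_smul, inv_mul_cancel_right, SimpleGraph.dist_self]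
      omega
    · refine ⟨h * g⁻¹, ?_⟩
      rw [← mul_smul, inv_mul_cancel_right]
      exact hadj1 _ _ (hadj h _ _ hxy.symm)
    · refine ⟨h * g⁻¹, ?_⟩
      rw [← mul_smul, inv_mul_cancel_right]
      exact hadj1 _ _ (hadj h _ _ hxy)
    · refine ⟨h * g⁻¹, ?_⟩
      rw [← mul_smul, inv_mul_cancel_right, SimpleGraph.dist_self]
      omega

end Pool.Agent.H16.PSL
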