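import Pool.Agent.H16.PSL.SL2

/-!
Subtask LP (helper16, MP_d4104f_co Q2): a Larsen-Pink type inequality in (Matrix.SpecialLinearGroup (Fin 2) F)(2,F): a symmetric set A ∋ 1 that is not
contained in a Borel subgroup has few elements of given trace t (t ≠ 0, ±2):  |A ∩ {tr = t}|^4 ≤ 60 |A^5|^3.

X := A ∩ {tr = t}, n = |X|, N = |A*A*A*A*A| (so |A*A| ≤ N, |A| ≤ N as 1 ∈ A).  Count the n² pairs (x,y) ∈ X×X:
 (a) y = x⁻¹: at most n pairs.
 (b) x and y fix a common line (∃ e ≠ 0, fixes x e ∧ fixes y e): at most 2 n β where β = max over lines e of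
     #{x ∈ X | fixes x e}  (x ≠ ±1 has at most 2 eigenlines; parametrise lines by Option F:
     none ↦ (1,0), some z ↦ (z,1)).   β² ≤ 4N:  x fixes e with x e = r e, r + r⁻¹ = t, so at most two values r; for fixed r,
     x ↦ x x₀⁻¹ embeds {x ∈ X | x e = r e} into U_e ∩ A*A, U_e = {z | z e = e}; and (u,u') ↦ u g u' is injective on
     (U_e ∩ A*A)² for g ∈ A not fixing the line e (u g u' = v g v' ⇒ v⁻¹u = g (v' u'⁻¹) g⁻¹ fixes e and g e, so = 1).
 (c) the other pairs: group by w = x y ∈ A*A, w ≠ 1.  F_w = {x ∈ X | x⁻¹ w ∈ X, x and x⁻¹w have no common eigenline}.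
     Claim: (x,x') ↦ x' x⁻¹ ∈ A*A is injective on pairs x ≠ x' of F_w; so |F_w|² ≤ |F_w| + N, |F_w| ≤ 1 + √N.
     Claim proof (lemma `lp_core`): suppose x₁ ≠ x₂, c ≠ 1, x₁, x₂, c x₁, c x₂ all in F_w.  Put τ = tr w.  As x⁻¹ = t - x for
     tr x = t:  tr x_i = t, tr(x_i w) = t(τ-1), tr(c x_i) = t, tr(c x_i w) = t(τ-1).  y = x₁ - x₂ ≠ 0 is trace-orthogonal to
     1, w, c, wc (tr y = tr(yw) = tr(yc) = tr(ywc) = 0), so these four are linearly dependent: P + Q c = 0 with
     P = a + b w, Q = a' + b' w, (a,b,a',b') ≠ 0.  Pairing with x₁: (a+a') + (b+b')(τ-1) = 0 (t ≠ 0); multiplying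
     P + Qc = 0 by w (w² = τ w - 1) and pairing again: with α=a+a', β=b+b': α + β(τ-1) = 0, -β + (α+βτ)(τ-1) = 0,
     so β(τ-2) = 0.  If τ ≠ 2: β = α = 0, Q = -P, P(1-c) = 0, P ≠ 0, c ≠ 1, so P is singular, b ≠ 0, the kernel line ⟨e⟩ of P is
     an eigenline of w and contains the image of n = c - 1, n² = 0, tr(n x₁) = 0 gives n x₁ n = tr(n x₁) n = 0, so x₁ fixes ⟨e⟩.
     If τ = 2: n = w - 1 ≠ 0, n² = 0, tr(x₁ n) = 0, so n x₁ n = 0 and x₁ fixes the line im n = ker n, fixed by w.
     So x₁ and w, hence x₁ and x₁⁻¹w, have a common eigenline: contradiction.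
 Sum: n² ≤ n + 2nβ + N(1+√N) ≤ 7 N^{3/2}.   (any absolute constant instead of 60 is fine)
-/

set_option autoImplicit false

namespace Pool.Agent.H16.PSL

open scoped Pointwise

/-- `g` maps the line of `e` to itself -/
def fixes {F : Type*} [Field F] (g : Matrix.SpecialLinearGroup (Fin 2) F) (e : Fin 2 → F) : Prop :=
  (g • e) 0 * e 1 - (g • e) 1 * e 0 = 0

/-! ### Eigenlines -/

section lines

variable {F : Type*} [Field F]


theorem smul_comm' (g : (Matrix.SpecialLinearGroup (Fin 2) F)) (r : F) (e : Fin 2 → F) : g • (r • e) = r • (g • e) := by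
  funext i
  fin_cases i
  · show (g • (r • e)) 0 = (r • (g • e)) 0
    rw [smul0, Pi.smul_apply, Pi.smul_apply, Pi.smul_apply, smul0]
    simp only [smul_eq_mul]; ring
  · show (g • (r • e)) 1 = (r • (g • e)) 1
    rw [smul1, Pi.smul_apply, Pi.smul_apply, Pi.smul_apply, smul1]
    simp only [smul_eq_mul]; ring

theorem fixes_iff {g : (Matrix.SpecialLinearGroup (Fin 2) F)} {e : Fin 2 → F} (he : e ≠ 0) : fixes g e ↔ ∃ r : F, g • e = r • e := by
  constructor
  · intro h
    unfold fixes at h
    have he' : e 0 ≠ 0 ∨ e 1 ≠ 0 := by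
      by_contra h'
      rw [not_or, not_not, not_not] at h'
      apply he
      funext i
      fin_cases i
      · exact h'.1
      · exact h'.2
    rcases he' with h0 | h1
    · refine ⟨(g • e) 0 / e 0, ?_⟩
      funext i
      fin_cases i
      · show (g • e) 0 = (g • e) 0 / e 0 * e 0
        rw [div_mul_cancel₀ _ h0]
      · show (g • e) 1 = (g • e) 0 / e 0 * e 1
        rw [div_mul_eq_mul_div, eq_div_iff h0]
        linear_combination -h
    · refine ⟨(g • e) 1 / e 1, ?_⟩
      funext i
      fin_cases i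
      · show (g • e) 0 = (g • e) 1 / e 1 * e 0
        rw [div_mul_eq_mul_div, eq_div_iff h1]
        linear_combination h
      · show (g • e) 1 = (g • e) 1 / e 1 * e 1
        rw [div_mul_cancel₀ _ h1]
  · rintro ⟨r, hr⟩
    unfold fixes
    rw [hr]
    simp only [Pi.smul_apply, smul_eq_mul]
    ring

theorem fixes_inv_mul {x w : (Matrix.SpecialLinearGroup (Fin 2) F)} {e : Fin 2 → F} (he : e ≠ 0) (hx : fixes x e)
    (hw : fixes w e) : fixes (x⁻¹ * w) e := by
  rw [fixes_iff he] at hx hw ⊢
  obtain ⟨r, hr⟩ := hx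
  obtain ⟨s, hs⟩ := hw
  have h1 : e = r • (x⁻¹ • e) := by
    rw [← smul_comm', ← hr, inv_smul_smul]
  have hr0 : r ≠ 0 := by
    rintro rfl
    rw [zero_smul] at h1
    exact he h1
  refine ⟨s * r⁻¹, ?_⟩
  rw [mul_smul, hs, smul_comm', mul_smul]
  congr 1
  conv_rhs => rw [h1]
  rw [inv_smul_smul₀ hr0]

/-- The trace. -/
def tr (g : (Matrix.SpecialLinearGroup (Fin 2) F)) : F := g 0 0 + g 1 1

theorem tr_inv_mul (x w : (Matrix.SpecialLinearGroup (Fin 2) F)) : tr (x⁻¹ * w) = tr x * tr w - tr (x * w) := by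
  unfold tr
  rw [mul00, mul11, mul00, mul11, inv00, inv01, inv10, inv11]
  ring

/-- A nilpotent matrix `n ≠ 0` with `tr (n x) = 0`: its image is an eigenline of `x`. -/
theorem nil {x : (Matrix.SpecialLinearGroup (Fin 2) F)} {p q r s : F} (htr : p + s = 0) (hdet : p * s - q * r = 0)
    (hne : p ≠ 0 ∨ q ≠ 0 ∨ r ≠ 0 ∨ s ≠ 0)
    (hx : p * x 0 0 + q * x 1 0 + r * x 0 1 + s * x 1 1 = 0) :
    ∃ e : Fin 2 → F, e ≠ 0 ∧ (e = ![p, r] ∨ e = ![q, s]) ∧ fixes x e := by
  have hs : s = -p := by linear_combination htr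
  subst hs
  have h1 : fixes x ![p, r] := by
    unfold fixes
    rw [smul0, smul1]
    simp only [Matrix.cons_val_zero, Matrix.cons_val_one]
    linear_combination r * hx + x 1 0 * hdet
  have h2 : fixes x ![q, -p] := by
    unfold fixes
    rw [smul0, smul1]
    simp only [Matrix.cons_val_zero, Matrix.cons_val_one]
    linear_combination (-q) * hx - x 0 1 * hdet
  by_cases h : p ≠ 0 ∨ r ≠ 0
  · refine ⟨![p, r], ?_, Or.inl rfl, h1⟩
    intro h0
    rcases h with h | h
    · exact h (congrFun h0 0)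
    · exact h (congrFun h0 1)
  · rw [not_or, not_not, not_not] at h
    refine ⟨![q, -p], ?_, Or.inr rfl, h2⟩
    intro h0
    rcases hne with h' | h' | h' | h'
    · exact h' h.1
    · exact h' (congrFun h0 0)
    · exact h' h.2
    · exact h' (congrFun h0 1)

theorem lp_core (h2 : (2 : F) ≠ 0) {t : F} (ht0 : t ≠ 0) {x y c w : (Matrix.SpecialLinearGroup (Fin 2) F)}
    (hx : tr x = t) (hy : tr y = t) (hcx : tr (c * x) = t) (hcy : tr (c * y) = t)
    (hxw : tr (x⁻¹ * w) = t) (hyw : tr (y⁻¹ * w) = t)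
    (hcxw : tr ((c * x)⁻¹ * w) = t) (hcyw : tr ((c * y)⁻¹ * w) = t)
    (hxy : x ≠ y) (hc : c ≠ 1) (hw : w ≠ 1) :
    ∃ e : Fin 2 → F, e ≠ 0 ∧ fixes x e ∧ fixes (x⁻¹ * w) e := by
  -- `w ≠ -1`
  have hw' : w ≠ -1 := by
    rintro rfl
    have h3 : tr (x⁻¹ * -1) = - tr x := by
      unfold tr
      rw [mul_neg, mul_one, neg00, neg11, inv00, inv11]; ring
    rw [h3, hx] at hxw
    have : 2 * t = 0 := by linear_combination -hxw
    rcases mul_eq_zero.1 this with h | h
    · exact h2 h
    · exact ht0 h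
  -- traces
  rw [tr_inv_mul, hx] at hxw
  rw [tr_inv_mul, hy] at hyw
  rw [tr_inv_mul, hcx] at hcxw
  rw [tr_inv_mul, hcy] at hcyw
  set τ := tr w with hτ
  by_cases hτ2 : τ = 2
  · -- `w` is unipotent
    have e1 : (w 0 0 - 1) + (w 1 1 - 1) = 0 := by
      have : w 0 0 + w 1 1 = 2 := hτ2
      linear_combination this
    have e2 : (w 0 0 - 1) * (w 1 1 - 1) - w 0 1 * w 1 0 = 0 := by
      have h3 := det_eq w
      have : w 0 0 + w 1 1 = 2 := hτ2
      linear_combination h3 - this
    have e3 : w 0 0 - 1 ≠ 0 ∨ w 0 1 ≠ 0 ∨ w 1 0 ≠ 0 ∨ w 1 1 - 1 ≠ 0 := by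
      by_contra h
      simp only [not_or, not_not] at h
      apply hw
      apply ext4
      · rw [one00]; linear_combination h.1
      · rw [one01]; exact h.2.1
      · rw [one10]; exact h.2.2.1
      · rw [one11]; linear_combination h.2.2.2
    have e4 : (w 0 0 - 1) * x 0 0 + w 0 1 * x 1 0 + w 1 0 * x 0 1 + (w 1 1 - 1) * x 1 1 = 0 := by
      have h3 : x 0 0 + x 1 1 = t := hx
      have h4 : t * τ - (x 0 0 * w 0 0 + x 0 1 * w 1 0 + (x 1 0 * w 0 1 + x 1 1 * w 1 1)) = t := by
        rw [← mul00, ← mul11]; exact hxw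
      rw [hτ2] at h4
      linear_combination -h3 - h4
    obtain ⟨e, he, he2, hfx⟩ := nil e1 e2 e3 e4
    refine ⟨e, he, hfx, fixes_inv_mul he hfx ?_⟩
    unfold fixes
    rw [smul0, smul1]
    rcases he2 with rfl | rfl
    · simp only [Matrix.cons_val_zero, Matrix.cons_val_one]
      linear_combination (-(w 1 0)) * e2
    · simp only [Matrix.cons_val_zero, Matrix.cons_val_one]
      linear_combination (w 0 1) * e2
  · -- linear dependence
    have X00 := hx
    have X1 : x 0 0 + x 1 1 = t := hx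
    have Y1 : y 0 0 + y 1 1 = t := hy
    have Xc : c 0 0 * x 0 0 + c 0 1 * x 1 0 + (c 1 0 * x 0 1 + c 1 1 * x 1 1) = t := by
      rw [← mul00, ← mul11]; exact hcx
    have Yc : c 0 0 * y 0 0 + c 0 1 * y 1 0 + (c 1 0 * y 0 1 + c 1 1 * y 1 1) = t := by
      rw [← mul00, ← mul11]; exact hcy
    have Xw : x 0 0 * w 0 0 + x 0 1 * w 1 0 + (x 1 0 * w 0 1 + x 1 1 * w 1 1) = t * τ - t := by
      rw [← mul00, ← mul11]; change tr (x * w) = _; linear_combination -hxw
    have Yw : y 0 0 * w 0 0 + y 0 1 * w 1 0 + (y 1 0 * w 0 1 + y 1 1 * w 1 1) = t * τ - t := by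
      rw [← mul00, ← mul11]; change tr (y * w) = _; linear_combination -hyw
    have Xcw : (c * x) 0 0 * w 0 0 + (c * x) 0 1 * w 1 0 +
        ((c * x) 1 0 * w 0 1 + (c * x) 1 1 * w 1 1) = t * τ - t := by
      rw [← mul00, ← mul11]; change tr (c * x * w) = _; linear_combination -hcxw
    have Ycw : (c * y) 0 0 * w 0 0 + (c * y) 0 1 * w 1 0 +
        ((c * y) 1 0 * w 0 1 + (c * y) 1 1 * w 1 1) = t * τ - t := by
      rw [← mul00, ← mul11]; change tr (c * y * w) = _; linear_combination -hcyw
    rw [mul00, mul01, mul10, mul11] at Xcw Ycw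
    -- the entries of `w c`
    set M : Matrix (Fin 4) (Fin 4) F :=
      !![1, 0, 0, 1;
         w 0 0, w 0 1, w 1 0, w 1 1;
         c 0 0, c 0 1, c 1 0, c 1 1;
         (w * c) 0 0, (w * c) 0 1, (w * c) 1 0, (w * c) 1 1] with hM
    have hdet : M.det = 0 := by
      rw [← Matrix.exists_mulVec_eq_zero_iff]
      refine ⟨![x 0 0 - y 0 0, x 1 0 - y 1 0, x 0 1 - y 0 1, x 1 1 - y 1 1], ?_, ?_⟩
      · intro h0
        apply hxy
        have q0 := congrFun h0 0
        have q1 := congrFun h0 1
        have q2 := congrFun h0 2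
        have q3 := congrFun h0 3
        simp at q0 q1 q2 q3
        exact ext4 (by linear_combination q0) (by linear_combination q2) (by linear_combination q1)
          (by linear_combination q3)
      · funext i
        fin_cases i
        · simp [hM, Matrix.mulVec, dotProduct, Fin.sum_univ_four]
          linear_combination X1 - Y1
        · simp [hM, Matrix.mulVec, dotProduct, Fin.sum_univ_four]
          linear_combination Xw - Yw
        · simp [hM, Matrix.mulVec, dotProduct, Fin.sum_univ_four]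
          linear_combination Xc - Yc
        · simp only [hM, Matrix.mulVec, dotProduct, Fin.sum_univ_four, mul00, mul01, mul10, mul11]
          simp
          linear_combination Xcw - Ycw
    obtain ⟨v, hv0, hv⟩ := Matrix.exists_vecMul_eq_zero_iff.2 hdet
    have V0 := congrFun hv 0
    have V1 := congrFun hv 1
    have V2 := congrFun hv 2
    have V3 := congrFun hv 3
    simp only [hM, Matrix.vecMul, dotProduct, Fin.sum_univ_four, mul00, mul01, mul10, mul11] at V0 V1 V2 V3
    simp at V0 V1 V2 V3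
    clear_value M
    have hτ' : τ = w 0 0 + w 1 1 := rfl
    have D := det_eq w
    have A1 : (v 0 + v 2) + (v 1 + v 3) * (τ - 1) = 0 := by
      have : t * ((v 0 + v 2) + (v 1 + v 3) * (τ - 1)) = 0 := by
        linear_combination V0 * x 0 0 + V1 * x 1 0 + V2 * x 0 1 + V3 * x 1 1 - v 0 * X1
          - v 1 * Xw - v 2 * Xc - v 3 * Xcw
      exact (mul_eq_zero.1 this).resolve_left ht0
    have A2 : (v 0 + v 2) * (τ - 1) + (v 1 + v 3) * (τ * (τ - 1) - 1) = 0 := by
      have : t * ((v 0 + v 2) * (τ - 1) + (v 1 + v 3) * (τ * (τ - 1) - 1)) = 0 := by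
        rw [hτ'] at Xw Xcw ⊢
        linear_combination V0 * (x 0 0 * w 0 0 + x 0 1 * w 1 0)
          + V1 * (x 1 0 * w 0 0 + x 1 1 * w 1 0) + V2 * (x 0 0 * w 0 1 + x 0 1 * w 1 1)
          + V3 * (x 1 0 * w 0 1 + x 1 1 * w 1 1) - v 0 * Xw - v 2 * Xcw
          - v 1 * ((w 0 0 + w 1 1) * Xw - (x 0 0 + x 1 1) * D - X1)
          - v 3 * ((w 0 0 + w 1 1) * Xcw - (c 0 0 * x 0 0 + c 0 1 * x 1 0 +
              (c 1 0 * x 0 1 + c 1 1 * x 1 1)) * D - Xc)
      exact (mul_eq_zero.1 this).resolve_left ht0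
    have hβ : v 1 + v 3 = 0 := by
      have : (v 1 + v 3) * (τ - 2) = 0 := by linear_combination A2 - (τ - 1) * A1
      exact (mul_eq_zero.1 this).resolve_right (sub_ne_zero.2 hτ2)
    have hα : v 0 + v 2 = 0 := by
      rw [hβ] at A1
      linear_combination A1
    have h3 : v 3 = - v 1 := by linear_combination hβ
    have h4 : v 2 = - v 0 := by linear_combination hα
    rw [h3, h4] at V0 V1 V2 V3
    set a := v 0 with ha
    set b := v 1 with hb
    have hab : a ≠ 0 ∨ b ≠ 0 := by
      by_contra h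
      rw [not_or, not_not, not_not] at h
      apply hv0
      funext i
      fin_cases i
      · exact h.1
      · exact h.2
      · show v 2 = 0
        rw [h4, h.1, neg_zero]
      · show v 3 = 0
        rw [h3, h.2, neg_zero]
    have N00 : (a + b * w 0 0) * (c 0 0 - 1) + b * w 0 1 * c 1 0 = 0 := by
      linear_combination -V0
    have N01 : (a + b * w 0 0) * c 0 1 + b * w 0 1 * (c 1 1 - 1) = 0 := by
      linear_combination -V1
    have N10 : b * w 1 0 * (c 0 0 - 1) + (a + b * w 1 1) * c 1 0 = 0 := by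
      linear_combination -V2
    have N11 : b * w 1 0 * c 0 1 + (a + b * w 1 1) * (c 1 1 - 1) = 0 := by
      linear_combination -V3
    have hc' : c 0 0 - 1 ≠ 0 ∨ c 0 1 ≠ 0 ∨ c 1 0 ≠ 0 ∨ c 1 1 - 1 ≠ 0 := by
      by_contra h
      simp only [not_or, not_not] at h
      apply hc
      apply ext4
      · rw [one00]; linear_combination h.1
      · rw [one01]; exact h.2.1
      · rw [one10]; exact h.2.2.1
      · rw [one11]; linear_combination h.2.2.2
    have hb0 : b ≠ 0 := by
      intro hb0
      have ha0 : a ≠ 0 := hab.resolve_right (not_not.2 hb0)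
      rw [hb0] at N00 N01 N10 N11
      rcases hc' with h | h | h | h
      · exact mul_ne_zero ha0 h (by linear_combination N00)
      · exact mul_ne_zero ha0 h (by linear_combination N01)
      · exact mul_ne_zero ha0 h (by linear_combination N10)
      · exact mul_ne_zero ha0 h (by linear_combination N11)
    have hδ : (c 0 0 - 1) * (c 1 1 - 1) - c 0 1 * c 1 0 = 0 := by
      by_contra hδ
      have p1 : a + b * w 0 0 = 0 := by
        have : (a + b * w 0 0) * ((c 0 0 - 1) * (c 1 1 - 1) - c 0 1 * c 1 0) = 0 := by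
          linear_combination (c 1 1 - 1) * N00 - c 1 0 * N01
        exact (mul_eq_zero.1 this).resolve_right hδ
      have p2 : w 0 1 = 0 := by
        have : b * w 0 1 * ((c 0 0 - 1) * (c 1 1 - 1) - c 0 1 * c 1 0) = 0 := by
          linear_combination (c 0 0 - 1) * N01 - c 0 1 * N00
        exact (mul_eq_zero.1 ((mul_eq_zero.1 this).resolve_right hδ)).resolve_left hb0
      have p3 : w 1 0 = 0 := by
        have : b * w 1 0 * ((c 0 0 - 1) * (c 1 1 - 1) - c 0 1 * c 1 0) = 0 := by
          linear_combination (c 1 1 - 1) * N10 - c 1 0 * N11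
        exact (mul_eq_zero.1 ((mul_eq_zero.1 this).resolve_right hδ)).resolve_left hb0
      have p4 : a + b * w 1 1 = 0 := by
        have : (a + b * w 1 1) * ((c 0 0 - 1) * (c 1 1 - 1) - c 0 1 * c 1 0) = 0 := by
          linear_combination (c 0 0 - 1) * N11 - c 0 1 * N10
        exact (mul_eq_zero.1 this).resolve_right hδ
      have p5 : w 0 0 = w 1 1 := by
        have : b * (w 0 0 - w 1 1) = 0 := by linear_combination p1 - p4
        exact sub_eq_zero.1 ((mul_eq_zero.1 this).resolve_left hb0)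
      rw [p2, p3, ← p5] at D
      have p6 : (w 0 0 - 1) * (w 0 0 + 1) = 0 := by linear_combination D
      rcases mul_eq_zero.1 p6 with h | h
      · apply hw
        apply ext4
        · rw [one00]; linear_combination h
        · rw [one01]; exact p2
        · rw [one10]; exact p3
        · rw [one11, ← p5]; linear_combination h
      · apply hw'
        apply ext4
        · rw [neg00, one00]; linear_combination h
        · rw [neg01, one01, neg_zero]; exact p2
        · rw [neg10, one10, neg_zero]; exact p3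
        · rw [neg11, one11, ← p5]; linear_combination h
    have htr : (c 0 0 - 1) + (c 1 1 - 1) = 0 := by
      have := det_eq c
      linear_combination this - hδ
    obtain ⟨e, he, he2, hfx⟩ := nil (x := x) htr hδ hc' (by linear_combination Xc - X1)
    refine ⟨e, he, hfx, fixes_inv_mul he hfx ?_⟩
    unfold fixes
    rw [smul0, smul1]
    rcases he2 with rfl | rfl
    · simp only [Matrix.cons_val_zero, Matrix.cons_val_one]
      have : b * ((w 0 0 * (c 0 0 - 1) + w 0 1 * c 1 0) * c 1 0
          - (w 1 0 * (c 0 0 - 1) + w 1 1 * c 1 0) * (c 0 0 - 1)) = 0 := by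
        linear_combination c 1 0 * N00 - (c 0 0 - 1) * N10
      exact (mul_eq_zero.1 this).resolve_left hb0
    · simp only [Matrix.cons_val_zero, Matrix.cons_val_one]
      have : b * ((w 0 0 * c 0 1 + w 0 1 * (c 1 1 - 1)) * (c 1 1 - 1)
          - (w 1 0 * c 0 1 + w 1 1 * (c 1 1 - 1)) * c 0 1) = 0 := by
        linear_combination (c 1 1 - 1) * N01 - c 0 1 * N11
      exact (mul_eq_zero.1 this).resolve_left hb0

theorem eq_one_of_fix {z : (Matrix.SpecialLinearGroup (Fin 2) F)} {e f : Fin 2 → F} (hef : f 0 * e 1 - f 1 * e 0 ≠ 0)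
    (he : z • e = e) (hf : z • f = f) : z = 1 := by
  have e0 := congrFun he 0
  have e1 := congrFun he 1
  have f0 := congrFun hf 0
  have f1 := congrFun hf 1
  rw [smul0] at e0 f0
  rw [smul1] at e1 f1
  apply ext4
  · rw [one00]
    have : (f 0 * e 1 - f 1 * e 0) * (z 0 0 - 1) = 0 := by linear_combination e 1 * f0 - f 1 * e0
    exact sub_eq_zero.1 ((mul_eq_zero.1 this).resolve_left hef)
  · rw [one01]
    have : (f 0 * e 1 - f 1 * e 0) * (z 0 1) = 0 := by linear_combination f 0 * e0 - e 0 * f0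
    exact (mul_eq_zero.1 this).resolve_left hef
  · rw [one10]
    have : (f 0 * e 1 - f 1 * e 0) * (z 1 0) = 0 := by linear_combination e 1 * f1 - f 1 * e1
    exact (mul_eq_zero.1 this).resolve_left hef
  · rw [one11]
    have : (f 0 * e 1 - f 1 * e 0) * (z 1 1 - 1) = 0 := by linear_combination f 0 * e1 - e 0 * f1
    exact sub_eq_zero.1 ((mul_eq_zero.1 this).resolve_left hef)

theorem eig_root {x : (Matrix.SpecialLinearGroup (Fin 2) F)} {e : Fin 2 → F} (he : e ≠ 0) {r : F} (hr : x • e = r • e) :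
    r ^ 2 - tr x * r + 1 = 0 := by
  have e0 := congrFun hr 0
  have e1 := congrFun hr 1
  rw [smul0, Pi.smul_apply, smul_eq_mul] at e0
  rw [smul1, Pi.smul_apply, smul_eq_mul] at e1
  have D := det_eq x
  have h0 : (r ^ 2 - tr x * r + 1) * e 0 = 0 := by
    unfold tr
    linear_combination (x 1 1 - r) * e0 - x 0 1 * e1 - e 0 * D
  have h1 : (r ^ 2 - tr x * r + 1) * e 1 = 0 := by
    unfold tr
    linear_combination (x 0 0 - r) * e1 - x 1 0 * e0 - e 1 * D
  by_contra h
  apply he
  funext i
  fin_cases i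
  · exact (mul_eq_zero.1 h0).resolve_left h
  · exact (mul_eq_zero.1 h1).resolve_left h

theorem two_roots [Fintype F] [DecidableEq F] (t : F) :
    (Finset.univ.filter (fun r : F => r ^ 2 - t * r + 1 = 0)).card ≤ 2 := by
  by_contra h
  rw [not_le, Finset.two_lt_card] at h
  obtain ⟨a, ha, b, hb, c, hc, hab, hac, hbc⟩ := h
  rw [Finset.mem_filter] at ha hb hc
  have h1 : a + b = t := by
    have : (a - b) * (a + b - t) = 0 := by linear_combination ha.2 - hb.2
    exact sub_eq_zero.1 ((mul_eq_zero.1 this).resolve_left (sub_ne_zero.2 hab))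
  have h2 : a + c = t := by
    have : (a - c) * (a + c - t) = 0 := by linear_combination ha.2 - hc.2
    exact sub_eq_zero.1 ((mul_eq_zero.1 this).resolve_left (sub_ne_zero.2 hac))
  exact hbc (by linear_combination h1 - h2)

/-- Representatives of the lines. -/
def ln : Option F → (Fin 2 → F)
  | none => ![1, 0]
  | some z => ![z, 1]

theorem ln_ne (o : Option F) : ln o ≠ 0 := by
  cases o with
  | none => intro h; exact one_ne_zero (congrFun h 0)
  | some z => intro h; exact one_ne_zero (congrFun h 1)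

theorem exists_ln {e : Fin 2 → F} (he : e ≠ 0) : ∃ (o : Option F) (c : F), c ≠ 0 ∧ e = c • ln o := by
  by_cases h1 : e 1 = 0
  · refine ⟨none, e 0, ?_, ?_⟩
    · intro h0
      apply he
      funext i
      fin_cases i
      · exact h0
      · exact h1
    · funext i
      fin_cases i
      · simp [ln]
      · simp [ln, h1]
  · refine ⟨some (e 0 / e 1), e 1, h1, ?_⟩
    funext i
    fin_cases i
    · simp [ln]; field_simp
    · simp [ln]

theorem fixes_smul {x : (Matrix.SpecialLinearGroup (Fin 2) F)} {e : Fin 2 → F} {c : F} (hc : c ≠ 0) :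
    fixes x (c • e) ↔ fixes x e := by
  unfold fixes
  rw [smul_comm']
  simp only [Pi.smul_apply, smul_eq_mul]
  constructor
  · intro h
    have : c ^ 2 * ((x • e) 0 * e 1 - (x • e) 1 * e 0) = 0 := by linear_combination h
    exact (mul_eq_zero.1 this).resolve_left (pow_ne_zero 2 hc)
  · intro h
    linear_combination c ^ 2 * h

instance decFixes [DecidableEq F] (g : (Matrix.SpecialLinearGroup (Fin 2) F)) (e : Fin 2 → F) : Decidable (fixes g e) :=
  inferInstanceAs (Decidable ((g • e) 0 * e 1 - (g • e) 1 * e 0 = 0))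

theorem two_lines [Fintype F] [DecidableEq F] {x : (Matrix.SpecialLinearGroup (Fin 2) F)} (h2 : tr x ≠ 2) (h2' : tr x ≠ -2) :
    (Finset.univ.filter (fun o : Option F => fixes x (ln o))).card ≤ 2 := by
  by_contra h
  rw [not_le, Finset.two_lt_card] at h
  have key : x 1 0 = 0 → x 0 0 = x 1 1 → False := by
    intro h10 h01
    have D := det_eq x
    rw [h10, ← h01] at D
    have : (x 0 0 - 1) * (x 0 0 + 1) = 0 := by linear_combination D
    rcases mul_eq_zero.1 this with h | h
    · apply h2; unfold tr; rw [← h01]; linear_combination 2 * h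
    · apply h2'; unfold tr; rw [← h01]; linear_combination 2 * h
  have hn : (x • (ln none : Fin 2 → F)) 0 * (ln none : Fin 2 → F) 1 -
      (x • (ln none : Fin 2 → F)) 1 * (ln none : Fin 2 → F) 0 = 0 → x 1 0 = 0 := by
    intro h
    rw [smul0, smul1] at h
    simp [ln] at h
    exact h
  have hs : ∀ z : F, (x • ln (some z)) 0 * ln (some z) 1 - (x • ln (some z)) 1 * ln (some z) 0 = 0 →
      (x 0 0 - x 1 1) * z + x 0 1 - x 1 0 * z ^ 2 = 0 := by
    intro z h
    rw [smul0, smul1] at h
    simp [ln] at h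
    linear_combination h
  have two : ∀ z z' : F, z ≠ z' → (x 0 0 - x 1 1) * z + x 0 1 - x 1 0 * z ^ 2 = 0 →
      (x 0 0 - x 1 1) * z' + x 0 1 - x 1 0 * z' ^ 2 = 0 → (x 0 0 - x 1 1) - x 1 0 * (z + z') = 0 := by
    intro z z' hne h h'
    have : (z - z') * ((x 0 0 - x 1 1) - x 1 0 * (z + z')) = 0 := by linear_combination h - h'
    exact (mul_eq_zero.1 this).resolve_left (sub_ne_zero.2 hne)
  have nss : ∀ z z' : F, z ≠ z' → x 1 0 = 0 → (x 0 0 - x 1 1) * z + x 0 1 - x 1 0 * z ^ 2 = 0 →
      (x 0 0 - x 1 1) * z' + x 0 1 - x 1 0 * z' ^ 2 = 0 → False := by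
    intro z z' hne h10 h h'
    have := two z z' hne h h'
    rw [h10] at this
    exact key h10 (by linear_combination this)
  obtain ⟨a, ha, b, hb, c, hc, hab, hac, hbc⟩ := h
  rw [Finset.mem_filter] at ha hb hc
  rcases a with _ | a <;> rcases b with _ | b <;> rcases c with _ | c
  · exact hab rfl
  · exact hab rfl
  · exact hac rfl
  · exact nss b c (fun h => hbc (by rw [h])) (hn ha.2) (hs b hb.2) (hs c hc.2)
  · exact hbc rfl
  · exact nss a c (fun h => hac (by rw [h])) (hn hb.2) (hs a ha.2) (hs c hc.2)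
  · exact nss a b (fun h => hab (by rw [h])) (hn hc.2) (hs a ha.2) (hs b hb.2)
  · have h1 := two a b (fun h => hab (by rw [h])) (hs a ha.2) (hs b hb.2)
    have h2 := two a c (fun h => hac (by rw [h])) (hs a ha.2) (hs c hc.2)
    have h3 : x 1 0 = 0 := by
      have : (b - c) * x 1 0 = 0 := by linear_combination h2 - h1
      exact (mul_eq_zero.1 this).resolve_left (sub_ne_zero.2 (fun h => hbc (by rw [h])))
    exact nss a b (fun h => hab (by rw [h])) h3 (hs a ha.2) (hs b hb.2)

section count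

variable [Fintype F] [DecidableEq F]

omit [Fintype F] in
theorem stab_sq {A : Finset (Matrix.SpecialLinearGroup (Fin 2) F)} {e : Fin 2 → F} {g : (Matrix.SpecialLinearGroup (Fin 2) F)} (hg : g ∈ A) (hge : ¬ fixes g e) :
    ((A * A).filter (fun z => z • e = e)).card ^ 2 ≤ (A * A * A * A * A).card := by
  set U := (A * A).filter (fun z => z • e = e) with hU
  rw [sq, ← Finset.card_product]
  refine Finset.card_le_card_of_injOn (fun q => q.1 * g * q.2) ?_ ?_
  · rintro ⟨u, u'⟩ hq
    rw [Finset.mem_coe, Finset.mem_product, Finset.mem_filter, Finset.mem_filter] at hq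
    show u * g * u' ∈ A * A * A * A * A
    rw [mul_assoc (A * A * A) A A]
    exact Finset.mul_mem_mul (Finset.mul_mem_mul hq.1.1 hg) hq.2.1
  · rintro ⟨u, u'⟩ hq ⟨v, v'⟩ hq' h
    rw [Finset.mem_coe, Finset.mem_product, Finset.mem_filter, Finset.mem_filter] at hq hq'
    have h' : u * g * u' = v * g * v' := h
    obtain ⟨⟨-, hu⟩, ⟨-, hu'⟩⟩ := hq
    obtain ⟨⟨-, hv⟩, ⟨-, hv'⟩⟩ := hq'
    simp only at hu hu' hv hv'
    have z1 : (v⁻¹ * u) • e = e := by
      rw [mul_smul, hu]
      exact inv_smul_eq_iff.2 hv.symm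
    have z2 : (v⁻¹ * u) • (g • e) = g • e := by
      rw [mul_smul, inv_smul_eq_iff]
      have q1 : (u * g * u') • e = u • (g • e) := by rw [mul_smul, mul_smul, hu']
      have q2 : (v * g * v') • e = v • (g • e) := by rw [mul_smul, mul_smul, hv']
      rw [← q1, ← q2, h']
    have hz := eq_one_of_fix hge z1 z2
    have huv : u = v := by rw [inv_mul_eq_one] at hz; exact hz.symm
    subst huv
    have : u' = v' := mul_left_cancel h'
    rw [this]

theorem eig_bound {A : Finset (Matrix.SpecialLinearGroup (Fin 2) F)} (hinv : ∀ a ∈ A, a⁻¹ ∈ A) {e : Fin 2 → F} (he : e ≠ 0)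
    {g : (Matrix.SpecialLinearGroup (Fin 2) F)} (hg : g ∈ A) (hge : ¬ fixes g e) (t : F) :
    ((A.filter (fun x => x 0 0 + x 1 1 = t)).filter (fun x => fixes x e)).card ^ 2
      ≤ 4 * (A * A * A * A * A).card := by
  classical
  set X := (A.filter (fun x => x 0 0 + x 1 1 = t)).filter (fun x => fixes x e) with hX
  set m := ((A * A).filter (fun z => z • e = e)).card with hm
  have hex : ∀ x : (Matrix.SpecialLinearGroup (Fin 2) F), ∃ r : F, fixes x e → x • e = r • e := by
    intro x
    by_cases h : fixes x e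
    · obtain ⟨r, hr⟩ := (fixes_iff he).1 h
      exact ⟨r, fun _ => hr⟩
    · exact ⟨0, fun h' => absurd h' h⟩
  choose φ hφ using hex
  have h1 : X.card ≤ m * (Finset.univ.filter (fun r : F => r ^ 2 - t * r + 1 = 0)).card := by
    refine Finset.card_le_mul_card_image_of_maps_to (f := φ) ?_ _ ?_
    · intro x hx
      rw [hX, Finset.mem_filter, Finset.mem_filter] at hx
      rw [Finset.mem_filter]
      refine ⟨Finset.mem_univ _, ?_⟩
      have := eig_root he (hφ x hx.2)
      have h3 : tr x = t := hx.1.2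
      rwa [h3] at this
    · intro r _
      by_cases hne : (X.filter (fun x => φ x = r)).Nonempty
      · obtain ⟨x₀, hx₀⟩ := hne
        rw [Finset.mem_filter, hX, Finset.mem_filter, Finset.mem_filter] at hx₀
        refine Finset.card_le_card_of_injOn (fun x => x * x₀⁻¹) ?_ ?_
        · intro x hx
          rw [Finset.mem_coe, Finset.mem_filter, hX, Finset.mem_filter, Finset.mem_filter] at hx
          show x * x₀⁻¹ ∈ (A * A).filter (fun z => z • e = e)
          rw [Finset.mem_filter]
          refine ⟨Finset.mul_mem_mul hx.1.1.1 (hinv _ hx₀.1.1.1), ?_⟩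
          have q1 := hφ x hx.1.2
          have q2 := hφ x₀ hx₀.1.2
          rw [hx.2] at q1
          rw [hx₀.2] at q2
          have q3 : x₀⁻¹ • (r • e) = e := by rw [← q2, inv_smul_smul]
          rw [mul_smul]
          rw [smul_comm'] at q3
          have hr : r ≠ 0 := by
            rintro rfl
            rw [zero_smul] at q3
            exact he q3.symm
          have q4 : x₀⁻¹ • e = r⁻¹ • e := by
            rw [eq_inv_smul_iff₀ hr]; exact q3
          rw [q4, smul_comm', q1, inv_smul_smul₀ hr]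
        · intro x _ y _ hxy
          exact mul_right_cancel hxy
      · rw [Finset.not_nonempty_iff_eq_empty] at hne
        rw [hne, Finset.card_empty]
        exact Nat.zero_le _
  have h2 : X.card ≤ m * 2 := h1.trans (Nat.mul_le_mul_left _ (two_roots t))
  calc X.card ^ 2 ≤ (m * 2) ^ 2 := Nat.pow_le_pow_left h2 2
    _ = 4 * m ^ 2 := by ring
    _ ≤ 4 * (A * A * A * A * A).card := Nat.mul_le_mul_left _ (stab_sq hg hge)

end count

end lines

theorem lp {F : Type*} [Field F] [Fintype F] [DecidableEq F] (h2 : (2 : F) ≠ 0)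
    (A : Finset (Matrix.SpecialLinearGroup (Fin 2) F)) (h1 : 1 ∈ A) (hinv : ∀ a ∈ A, a⁻¹ ∈ A)
    (hB : ∀ e : Fin 2 → F, e ≠ 0 → ∃ g ∈ A, ¬ fixes g e) (t : F) (ht0 : t ≠ 0) (ht2 : t ≠ 2)
    (ht2' : t ≠ -2) :
    (A.filter (fun x => x 0 0 + x 1 1 = t)).card ^ 4 ≤ 60 * (A * A * A * A * A).card ^ 3 := by
  classical
  set X := A.filter (fun x => x 0 0 + x 1 1 = t) with hX
  set N := (A * A * A * A * A).card with hN
  have sub2 : A * A ⊆ A * A * A * A * A :=
    ((Finset.subset_mul_left _ h1).trans (Finset.subset_mul_left _ h1)).trans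
      (Finset.subset_mul_left _ h1)
  have sub1 : A ⊆ A * A * A * A * A := (Finset.subset_mul_left _ h1).trans sub2
  have c2 : (A * A).card ≤ N := Finset.card_le_card sub2
  have cX : X.card ≤ N := (Finset.card_filter_le _ _).trans (Finset.card_le_card sub1)
  have N1 : 1 ≤ N := by
    have : 0 < A.card := Finset.card_pos.2 ⟨1, h1⟩
    have := Finset.card_le_card sub1
    omega
  have memX : ∀ x, x ∈ X ↔ x ∈ A ∧ tr x = t := fun x => by rw [hX, Finset.mem_filter]; rfl
  set s : ℝ := Real.sqrt N with hs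
  have hs2 : s ^ 2 = N := Real.sq_sqrt (Nat.cast_nonneg _)
  have hs0 : 0 ≤ s := Real.sqrt_nonneg _
  have hs1 : 1 ≤ s := by
    rw [hs, Real.one_le_sqrt]
    exact_mod_cast N1
  -- (b1)
  have b1 : ∀ e : Fin 2 → F, e ≠ 0 → ((X.filter (fun x => fixes x e)).card : ℝ) ≤ 2 * s := by
    intro e he
    obtain ⟨g, hg, hge⟩ := hB e he
    have q := eig_bound hinv he hg hge t
    have q' : ((X.filter (fun x => fixes x e)).card : ℝ) ^ 2 ≤ (2 * s) ^ 2 := by
      rw [mul_pow, hs2]
      have : ((X.filter (fun x => fixes x e)).card : ℝ) ^ 2 ≤ 4 * (N : ℝ) := by exact_mod_cast q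
      linarith
    exact le_of_pow_le_pow_left₀ two_ne_zero (by positivity) q'
  -- (b2)
  let CE : Matrix.SpecialLinearGroup (Fin 2) F → Matrix.SpecialLinearGroup (Fin 2) F → Prop :=
    fun x y => ∃ e : Fin 2 → F, e ≠ 0 ∧ fixes x e ∧ fixes y e
  have b2 : ∀ x ∈ X, ((X.filter (fun y => CE x y)).card : ℝ) ≤ 4 * s := by
    intro x hx
    have hsub : X.filter (fun y => CE x y) ⊆
        (Finset.univ.filter (fun o : Option F => fixes x (ln o))).biUnion
          (fun o => X.filter (fun y => fixes y (ln o))) := by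
      intro y hy
      rw [Finset.mem_filter] at hy
      obtain ⟨hyX, e, he, hxe, hye⟩ := hy
      obtain ⟨o, c, hc, rfl⟩ := exists_ln he
      rw [Finset.mem_biUnion]
      refine ⟨o, ?_, ?_⟩
      · rw [Finset.mem_filter]
        exact ⟨Finset.mem_univ _, (fixes_smul hc).1 hxe⟩
      · rw [Finset.mem_filter]
        exact ⟨hyX, (fixes_smul hc).1 hye⟩
    have htx : tr x = t := ((memX x).1 hx).2
    have h3 := two_lines (x := x) (by rw [htx]; exact ht2) (by rw [htx]; exact ht2')
    calc ((X.filter (fun y => CE x y)).card : ℝ)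
        ≤ (((Finset.univ.filter (fun o : Option F => fixes x (ln o))).biUnion
          (fun o => X.filter (fun y => fixes y (ln o)))).card : ℝ) := by
          exact_mod_cast Finset.card_le_card hsub
      _ ≤ ((∑ o ∈ Finset.univ.filter (fun o : Option F => fixes x (ln o)),
            (X.filter (fun y => fixes y (ln o))).card : ℕ) : ℝ) := by
          exact_mod_cast Finset.card_biUnion_le
      _ = ∑ o ∈ Finset.univ.filter (fun o : Option F => fixes x (ln o)),
            ((X.filter (fun y => fixes y (ln o))).card : ℝ) := by push_cast; rfl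
      _ ≤ ∑ _o ∈ Finset.univ.filter (fun o : Option F => fixes x (ln o)), 2 * s :=
          Finset.sum_le_sum fun o _ => b1 _ (ln_ne o)
      _ = ((Finset.univ.filter (fun o : Option F => fixes x (ln o))).card : ℝ) * (2 * s) := by
          rw [Finset.sum_const, nsmul_eq_mul]
      _ ≤ 2 * (2 * s) := by
          have : ((Finset.univ.filter (fun o : Option F => fixes x (ln o))).card : ℝ) ≤ 2 := by
            exact_mod_cast h3
          gcongr
      _ = 4 * s := by ring
  -- (b3)
  let Fw : Matrix.SpecialLinearGroup (Fin 2) F → Finset (Matrix.SpecialLinearGroup (Fin 2) F) :=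
    fun w => X.filter (fun x => x⁻¹ * w ∈ X ∧ ¬ CE x (x⁻¹ * w))
  have b3 : ∀ w, w ≠ 1 → ((Fw w).card : ℝ) ≤ 1 + s := by
    intro w hw
    have hoff : (Fw w).offDiag.card ≤ (A * A).card := by
      refine Finset.card_le_card_of_injOn (fun q => q.2 * q.1⁻¹) ?_ ?_
      · rintro ⟨x, x'⟩ hq
        rw [Finset.mem_coe, Finset.mem_offDiag] at hq
        obtain ⟨hx, hx', -⟩ := hq
        rw [Finset.mem_filter] at hx hx'
        exact Finset.mul_mem_mul ((memX _).1 hx'.1).1 (hinv _ ((memX _).1 hx.1).1)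
      · rintro ⟨x, x'⟩ hq ⟨z, z'⟩ hq' hh
        rw [Finset.mem_coe, Finset.mem_offDiag] at hq hq'
        obtain ⟨hx, hx', hne⟩ := hq
        obtain ⟨hz, hz', hne'⟩ := hq'
        simp only at hx hx' hne hz hz' hne'
        have hh' : x' * x⁻¹ = z' * z⁻¹ := hh
        rw [Finset.mem_filter] at hx hx' hz hz'
        by_cases hxz : x = z
        · subst hxz
          have : x' = z' := mul_right_cancel hh'
          rw [this]
        · exfalso
          have e1 : x' * x⁻¹ * x = x' := by group
          have e2 : x' * x⁻¹ * z = z' := by rw [hh']; group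
          have hc : x' * x⁻¹ ≠ 1 := by
            rw [Ne, mul_inv_eq_one]
            exact fun h => hne h.symm
          obtain ⟨e, he, hf1, hf2⟩ := lp_core h2 ht0 (x := x) (y := z) (c := x' * x⁻¹) (w := w)
            ((memX _).1 hx.1).2 ((memX _).1 hz.1).2
            (by rw [e1]; exact ((memX _).1 hx'.1).2) (by rw [e2]; exact ((memX _).1 hz'.1).2)
            ((memX _).1 hx.2.1).2 ((memX _).1 hz.2.1).2
            (by rw [e1]; exact ((memX _).1 hx'.2.1).2) (by rw [e2]; exact ((memX _).1 hz'.2.1).2)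
            hxz hc hw
          exact hx.2.2 ⟨e, he, hf1, hf2⟩
    rw [Finset.offDiag_card] at hoff
    by_cases h0 : (Fw w).card = 0
    · rw [h0, Nat.cast_zero]; linarith
    · have h1' : 1 ≤ (Fw w).card := Nat.one_le_iff_ne_zero.2 h0
      have h2' : (Fw w).card * (Fw w).card ≤ N + (Fw w).card := by omega
      have h3 : ((Fw w).card : ℝ) * (Fw w).card ≤ s ^ 2 + (Fw w).card := by
        rw [hs2]; exact_mod_cast h2'
      have h4 : (1 : ℝ) ≤ (Fw w).card := by exact_mod_cast h1'
      nlinarith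
  -- the covering
  have hcov : X ×ˢ X ⊆ X.image (fun x => (x, x⁻¹)) ∪
      (X.biUnion (fun x => (X.filter (fun y => CE x y)).image (Prod.mk x)) ∪
        ((A * A).erase 1).biUnion (fun w => (Fw w).image (fun x => (x, x⁻¹ * w)))) := by
    rintro ⟨x, y⟩ hxy
    rw [Finset.mem_product] at hxy
    obtain ⟨hx, hy⟩ := hxy
    simp only at hx hy
    rw [Finset.mem_union, Finset.mem_union, Finset.mem_image, Finset.mem_biUnion,
      Finset.mem_biUnion]
    by_cases hxy : y = x⁻¹
    · left; exact ⟨x, hx, by rw [hxy]⟩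
    · right
      by_cases hCE : CE x y
      · left
        exact ⟨x, hx, Finset.mem_image.2 ⟨y, Finset.mem_filter.2 ⟨hy, hCE⟩, rfl⟩⟩
      · right
        have e1 : x⁻¹ * (x * y) = y := by group
        refine ⟨x * y, ?_, Finset.mem_image.2 ⟨x, Finset.mem_filter.2 ⟨hx, ?_, ?_⟩, ?_⟩⟩
        · rw [Finset.mem_erase]
          refine ⟨?_, Finset.mul_mem_mul ((memX _).1 hx).1 ((memX _).1 hy).1⟩
          intro h
          exact hxy (eq_inv_of_mul_eq_one_right h)
        · rw [e1]; exact hy
        · rw [e1]; exact hCE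
        · rw [e1]
  have hcount : (X.card : ℝ) * X.card ≤ X.card + (X.card * (4 * s) + N * (1 + s)) := by
    have q1 := Finset.card_le_card hcov
    rw [Finset.card_product] at q1
    have q2 : ((X.biUnion (fun x => (X.filter (fun y => CE x y)).image (Prod.mk x))).card : ℝ)
        ≤ X.card * (4 * s) := by
      calc ((X.biUnion (fun x => (X.filter (fun y => CE x y)).image (Prod.mk x))).card : ℝ)
          ≤ ((∑ x ∈ X, ((X.filter (fun y => CE x y)).image (Prod.mk x)).card : ℕ) : ℝ) := by
            exact_mod_cast Finset.card_biUnion_le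
        _ = ∑ x ∈ X, (((X.filter (fun y => CE x y)).image (Prod.mk x)).card : ℝ) := by
            push_cast; rfl
        _ ≤ ∑ _x ∈ X, 4 * s := by
            refine Finset.sum_le_sum fun x hx => ?_
            refine le_trans ?_ (b2 x hx)
            exact_mod_cast Finset.card_image_le
        _ = X.card * (4 * s) := by rw [Finset.sum_const, nsmul_eq_mul]
    have q3 : ((((A * A).erase 1).biUnion
        (fun w => (Fw w).image (fun x => (x, x⁻¹ * w)))).card : ℝ) ≤ N * (1 + s) := by
      calc ((((A * A).erase 1).biUnion (fun w => (Fw w).image (fun x => (x, x⁻¹ * w)))).card : ℝ)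
          ≤ ((∑ w ∈ (A * A).erase 1, ((Fw w).image (fun x => (x, x⁻¹ * w))).card : ℕ) : ℝ) := by
            exact_mod_cast Finset.card_biUnion_le
        _ = ∑ w ∈ (A * A).erase 1, (((Fw w).image (fun x => (x, x⁻¹ * w))).card : ℝ) := by
            push_cast; rfl
        _ ≤ ∑ _w ∈ (A * A).erase 1, (1 + s) := by
            refine Finset.sum_le_sum fun w hw => ?_
            refine le_trans ?_ (b3 w (Finset.ne_of_mem_erase hw))
            exact_mod_cast Finset.card_image_le
        _ = ((A * A).erase 1).card * (1 + s) := by rw [Finset.sum_const, nsmul_eq_mul]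
        _ ≤ N * (1 + s) := by
            have : (((A * A).erase 1).card : ℝ) ≤ N := by
              exact_mod_cast (Finset.card_le_card (Finset.erase_subset _ _)).trans c2
            gcongr
    have q4 : ((X.image (fun x => (x, x⁻¹))).card : ℝ) ≤ X.card := by
      exact_mod_cast Finset.card_image_le
    have q5 : ((X.card * X.card : ℕ) : ℝ) ≤ ((X.image (fun x => (x, x⁻¹))).card : ℝ) +
      (((X.biUnion (fun x => (X.filter (fun y => CE x y)).image (Prod.mk x))).card : ℝ) +
      ((((A * A).erase 1).biUnion (fun w => (Fw w).image (fun x => (x, x⁻¹ * w)))).card : ℝ)) := by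
      exact_mod_cast q1.trans ((Finset.card_union_le _ _).trans
        (Nat.add_le_add_left (Finset.card_union_le _ _) _))
    push_cast at q5
    linarith
  have hXs : (X.card : ℝ) ≤ s ^ 2 := by rw [hs2]; exact_mod_cast cX
  have hX0 : (0 : ℝ) ≤ X.card := Nat.cast_nonneg _
  have h7 : (X.card : ℝ) ^ 2 ≤ 7 * s ^ 3 := by
    rw [← hs2] at hcount
    have u1 : (X.card : ℝ) * (4 * s) ≤ s ^ 2 * (4 * s) := by gcongr
    have u2 : s ^ 2 ≤ s ^ 3 := by
      have := pow_le_pow_right₀ hs1 (show 2 ≤ 3 by norm_num)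
      exact this
    nlinarith
  have h8 : ((X.card : ℝ)) ^ 4 ≤ 60 * (N : ℝ) ^ 3 := by
    calc ((X.card : ℝ)) ^ 4 = (((X.card : ℝ)) ^ 2) ^ 2 := by ring
      _ ≤ (7 * s ^ 3) ^ 2 := by gcongr
      _ = 49 * (s ^ 2) ^ 3 := by ring
      _ = 49 * (N : ℝ) ^ 3 := by rw [hs2]
      _ ≤ 60 * (N : ℝ) ^ 3 := by gcongr; norm_num
  exact_mod_cast h8

end Pool.Agent.H16.PSL
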