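import Pool.Agent.H16.PSL.SL2

set_option autoImplicit false

namespace Pool.Agent.H16.PSL

section
variable {F : Type*} [Field F]


/-- the matrix with given entries -/
def mk4 (a b c d : F) (h : a * d - b * c = 1) : (Matrix.SpecialLinearGroup (Fin 2) F) :=
  ⟨!![a, b; c, d], by rw [Matrix.det_fin_two]; simpa using h⟩

@[simp] theorem mk4_00 (a b c d : F) (h : a * d - b * c = 1) : mk4 a b c d h 0 0 = a := rfl
@[simp] theorem mk4_01 (a b c d : F) (h : a * d - b * c = 1) : mk4 a b c d h 0 1 = b := rfl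
@[simp] theorem mk4_10 (a b c d : F) (h : a * d - b * c = 1) : mk4 a b c d h 1 0 = c := rfl
@[simp] theorem mk4_11 (a b c d : F) (h : a * d - b * c = 1) : mk4 a b c d h 1 1 = d := rfl

omit [Field F] in
theorem vec_ext {a b : Fin 2 → F} (h0 : a 0 = b 0) (h1 : a 1 = b 1) : a = b := by
  funext i; fin_cases i <;> assumption

/-- the first basis vector -/
def e1 (F : Type*) [Field F] : Fin 2 → F := ![1, 0]

@[simp] theorem e1_0 : e1 F 0 = 1 := rfl
@[simp] theorem e1_1 : e1 F 1 = 0 := rfl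

theorem e1_ne : e1 F ≠ 0 := by
  intro h
  have := congrFun h 0
  simp at this

theorem smul_e1_0 (g : (Matrix.SpecialLinearGroup (Fin 2) F)) : (g • e1 F) 0 = g 0 0 := by rw [smul0]; simp
theorem smul_e1_1 (g : (Matrix.SpecialLinearGroup (Fin 2) F)) : (g • e1 F) 1 = g 1 0 := by rw [smul1]; simp

/-- `det (a, b)` -/
def dt2 (a b : Fin 2 → F) : F := a 0 * b 1 - a 1 * b 0

theorem dt2_smul (g : (Matrix.SpecialLinearGroup (Fin 2) F)) (a b : Fin 2 → F) : dt2 (g • a) (g • b) = dt2 a b := by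
  unfold dt2
  rw [smul0, smul1, smul0, smul1]
  have := det_eq g
  linear_combination (a 0 * b 1 - a 1 * b 0) * this

theorem exists_pair {a b c d : Fin 2 → F} (h : dt2 a b = dt2 c d) (h0 : dt2 a b ≠ 0) :
    ∃ g : (Matrix.SpecialLinearGroup (Fin 2) F), g • a = c ∧ g • b = d := by
  set δ := dt2 a b with hδ
  have hδ' : a 0 * b 1 - a 1 * b 0 = δ := hδ.symm
  have hcd : c 0 * d 1 - c 1 * d 0 = δ := by rw [h]; rfl
  refine ⟨mk4 ((c 0 * b 1 - d 0 * a 1) / δ) ((d 0 * a 0 - c 0 * b 0) / δ)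
    ((c 1 * b 1 - d 1 * a 1) / δ) ((d 1 * a 0 - c 1 * b 0) / δ) ?_, ?_, ?_⟩
  · field_simp
    linear_combination (a 0 * b 1 - a 1 * b 0) * hcd + δ * hδ'
  · apply vec_ext
    · rw [smul0, mk4_00, mk4_01]
      field_simp
      linear_combination c 0 * hδ'
    · rw [smul1, mk4_10, mk4_11]
      field_simp
      linear_combination c 1 * hδ'
  · apply vec_ext
    · rw [smul0, mk4_00, mk4_01]
      field_simp
      linear_combination d 0 * hδ'
    · rw [smul1, mk4_10, mk4_11]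
      field_simp
      linear_combination d 1 * hδ'

theorem exists_single {a c : Fin 2 → F} (ha : a ≠ 0) (hc : c ≠ 0) : ∃ g : (Matrix.SpecialLinearGroup (Fin 2) F), g • a = c := by
  have key : ∀ a : Fin 2 → F, a ≠ 0 → ∃ b, dt2 a b = 1 := by
    intro a ha
    by_cases h0 : a 0 = 0
    · have h1 : a 1 ≠ 0 := fun h1 => ha (vec_ext h0 h1)
      refine ⟨![-(a 1)⁻¹, 0], ?_⟩
      simp [dt2, h0, h1]
    · refine ⟨![0, (a 0)⁻¹], ?_⟩
      simp [dt2, h0]
  obtain ⟨b, hb⟩ := key a ha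
  obtain ⟨d, hd⟩ := key c hc
  obtain ⟨g, hg, _⟩ := exists_pair (a := a) (b := b) (c := c) (d := d) (by rw [hb, hd])
    (by rw [hb]; exact one_ne_zero)
  exact ⟨g, hg⟩

theorem trace_conj (g h : (Matrix.SpecialLinearGroup (Fin 2) F)) : (g * h * g⁻¹) 0 0 + (g * h * g⁻¹) 1 1 = h 0 0 + h 1 1 := by
  rw [mul00, mul11, mul00, mul01, mul10, mul11, inv00, inv01, inv10, inv11]
  have := det_eq g
  linear_combination (h 0 0 + h 1 1) * this

theorem stab_e1 {g : (Matrix.SpecialLinearGroup (Fin 2) F)} (h : g • e1 F = e1 F) : g 1 0 = 0 ∧ g 0 0 = 1 := by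
  constructor
  · rw [← smul_e1_1, h]; simp
  · rw [← smul_e1_0, h]; simp

theorem smul_ne_zero' (g : (Matrix.SpecialLinearGroup (Fin 2) F)) {a : Fin 2 → F} (ha : a ≠ 0) : g • a ≠ 0 := by
  intro h
  apply ha
  have := congrArg (fun z => g⁻¹ • z) h
  simpa using this

end

end Pool.Agent.H16.PSL
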